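import Pool.Statements.S13204

set_option autoImplicit false
open Pool Pool.MP_58de27_gt

namespace Pool.Agent.S13204

/-- The circle of circumference `1`. -/
abbrev T : Type := AddCircle (1 : ℝ)

/-- `h x y` vanishes on the strip `‖x‖ ≤ 7/20`, `‖y - x - 3/4‖ ≤ 3/20`. -/
noncomputable def h (x y : T) : ℝ :=
  max 0 (max (‖x‖ - 7/20) (‖y - x - ((3/4 : ℝ) : T)‖ - 3/20))

/-- The far-away part of the metric; it takes values in `[1/2, 1]`. -/
noncomputable def g (x y : T) : ℝ := max (1/2) (1 - 10 * min (h x y) (h y x))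

/-- The metric on the circle. -/
noncomputable def D (x y : T) : ℝ := min (10 * ‖x - y‖) (g x y)

lemma h_nonneg (x y : T) : 0 ≤ h x y := le_max_left _ _

lemma h_left (x x' y : T) : h x y ≤ h x' y + ‖x - x'‖ := by
  have h1 : ‖x‖ ≤ ‖x'‖ + ‖x - x'‖ := by
    have := norm_add_le x' (x - x')
    simpa using this
  have h2 : ‖y - x - ((3/4 : ℝ) : T)‖ ≤ ‖y - x' - ((3/4 : ℝ) : T)‖ + ‖x - x'‖ := by
    have := norm_sub_le (y - x' - ((3/4 : ℝ) : T)) (x - x')
    have e : y - x' - ((3/4 : ℝ) : T) - (x - x') = y - x - ((3/4 : ℝ) : T) := by abel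
    rwa [e] at this
  have h3 : 0 ≤ ‖x - x'‖ := norm_nonneg _
  unfold h
  apply max_le
  · exact add_nonneg (le_max_left _ _) h3
  · apply max_le
    · have : ‖x'‖ - 7/20 ≤ max 0 (max (‖x'‖ - 7/20) (‖y - x' - ((3/4 : ℝ) : T)‖ - 3/20)) :=
        le_trans (le_max_left _ _) (le_max_right _ _)
      linarith
    · have : ‖y - x' - ((3/4 : ℝ) : T)‖ - 3/20 ≤
          max 0 (max (‖x'‖ - 7/20) (‖y - x' - ((3/4 : ℝ) : T)‖ - 3/20)) :=
        le_trans (le_max_right _ _) (le_max_right _ _)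
      linarith

lemma h_right (x y y' : T) : h x y ≤ h x y' + ‖y - y'‖ := by
  have h2 : ‖y - x - ((3/4 : ℝ) : T)‖ ≤ ‖y' - x - ((3/4 : ℝ) : T)‖ + ‖y - y'‖ := by
    have := norm_add_le (y' - x - ((3/4 : ℝ) : T)) (y - y')
    have e : y' - x - ((3/4 : ℝ) : T) + (y - y') = y - x - ((3/4 : ℝ) : T) := by abel
    rwa [e] at this
  have h3 : 0 ≤ ‖y - y'‖ := norm_nonneg _
  unfold h
  apply max_le
  · exact add_nonneg (le_max_left _ _) h3
  · apply max_le
    · have : ‖x‖ - 7/20 ≤ max 0 (max (‖x‖ - 7/20) (‖y' - x - ((3/4 : ℝ) : T)‖ - 3/20)) :=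
        le_trans (le_max_left _ _) (le_max_right _ _)
      linarith
    · have : ‖y' - x - ((3/4 : ℝ) : T)‖ - 3/20 ≤
          max 0 (max (‖x‖ - 7/20) (‖y' - x - ((3/4 : ℝ) : T)‖ - 3/20)) :=
        le_trans (le_max_right _ _) (le_max_right _ _)
      linarith

lemma g_comm (x y : T) : g x y = g y x := by
  unfold g; rw [min_comm]

lemma g_le_one (x y : T) : g x y ≤ 1 := by
  unfold g
  have : 0 ≤ min (h x y) (h y x) := le_min (h_nonneg _ _) (h_nonneg _ _)
  exact max_le (by norm_num) (by linarith)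

lemma half_le_g (x y : T) : 1/2 ≤ g x y := le_max_left _ _

lemma g_left (x x' y : T) : g x y ≤ g x' y + 10 * ‖x - x'‖ := by
  have h3 : 0 ≤ ‖x - x'‖ := norm_nonneg _
  have h4 : min (h x' y) (h y x') ≤ min (h x y) (h y x) + ‖x - x'‖ := by
    rw [← min_add_add_right]
    apply le_min
    · refine (min_le_left _ _).trans ?_
      have := h_left x' x y
      rwa [norm_sub_rev] at this
    · refine (min_le_right _ _).trans ?_
      have := h_right y x' x
      rwa [norm_sub_rev] at this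
  unfold g
  apply max_le
  · have : (1:ℝ)/2 ≤ max (1/2) (1 - 10 * min (h x' y) (h y x')) := le_max_left _ _
    linarith
  · have : 1 - 10 * min (h x' y) (h y x') ≤ max (1/2) (1 - 10 * min (h x' y) (h y x')) :=
      le_max_right _ _
    linarith

lemma D_self (x : T) : D x x = 0 := by
  unfold D
  rw [sub_self, norm_zero, mul_zero]
  exact min_eq_left (le_trans (by norm_num) (half_le_g x x))

lemma D_comm (x y : T) : D x y = D y x := by
  unfold D
  rw [norm_sub_rev, g_comm]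

lemma D_triangle (x y z : T) : D x z ≤ D x y + D y z := by
  have hg1 := half_le_g x y
  have hg2 := half_le_g y z
  have hxz := g_le_one x z
  have e1 : D x z ≤ 10 * ‖x - z‖ := min_le_left _ _
  have e2 : D x z ≤ g x z := min_le_right _ _
  rcases min_choice (10 * ‖x - y‖) (g x y) with h1 | h1 <;>
  rcases min_choice (10 * ‖y - z‖) (g y z) with h2 | h2
  · have : ‖x - z‖ ≤ ‖x - y‖ + ‖y - z‖ := norm_sub_le_norm_sub_add_norm_sub x y z
    have a1 : D x y = 10 * ‖x - y‖ := h1
    have a2 : D y z = 10 * ‖y - z‖ := h2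
    rw [a1, a2]; linarith
  · have a1 : D x y = 10 * ‖x - y‖ := h1
    have a2 : D y z = g y z := h2
    have := g_left x y z
    rw [a1, a2]; linarith
  · have a1 : D x y = g x y := h1
    have a2 : D y z = 10 * ‖y - z‖ := h2
    have := g_left z y x
    rw [g_comm z x, g_comm y x, norm_sub_rev z y] at this
    rw [a1, a2]; linarith
  · have a1 : D x y = g x y := h1
    have a2 : D y z = g y z := h2
    rw [a1, a2]; linarith

lemma eq_of_D (x y : T) (hxy : D x y = 0) : x = y := by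
  unfold D at hxy
  have hg1 := half_le_g x y
  rcases min_choice (10 * ‖x - y‖) (g x y) with h1 | h1
  · rw [h1] at hxy
    have : ‖x - y‖ = 0 := by linarith
    exact sub_eq_zero.1 (norm_eq_zero.1 this)
  · rw [h1] at hxy; linarith

/-- The circle with the new metric. -/
def Y : Type := T

noncomputable instance : MetricSpace Y where
  dist := D
  dist_self := D_self
  dist_comm := D_comm
  dist_triangle := D_triangle
  eq_of_dist_eq_zero := fun {x y} hxy => eq_of_D x y hxy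

/-- The identity map from the usual circle. -/
def toY : T ≃ Y := Equiv.refl T

lemma dist_toY (x y : T) : dist (toY x) (toY y) = D x y := rfl

lemma continuous_toY : Continuous toY := by
  have : LipschitzWith 10 toY := by
    apply LipschitzWith.of_dist_le_mul
    intro x y
    rw [dist_toY, dist_eq_norm]
    exact min_le_left _ _
  exact this.continuous

/-- The identity map as a homeomorphism. -/
noncomputable def homeoY : T ≃ₜ Y := continuous_toY.homeoOfEquivCompactToT2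

lemma homeoY_apply (x : T) : homeoY x = toY x := rfl

/-- The curve is homeomorphic to the unit circle. -/
lemma simple_closed : Nonempty (↥(Set.univ : Set Y) ≃ₜ ↥(Metric.sphere (0 : ℂ) 1)) := by
  refine ⟨(Homeomorph.Set.univ Y).trans (homeoY.symm.trans
    ((AddCircle.homeomorphCircle one_ne_zero).trans ?_))⟩
  exact Homeomorph.refl _

/-- Representative in `[-1/2, 1/2)`. -/
noncomputable def φ (x : T) : ℝ := (AddCircle.equivIco (1 : ℝ) (-1/2) x : ℝ)

lemma φ_mem (x : T) : φ x ∈ Set.Ico (-1/2 : ℝ) (-1/2 + 1) := (AddCircle.equivIco (1 : ℝ) (-1/2) x).2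

lemma coe_φ (x : T) : ((φ x : ℝ) : T) = x := AddCircle.coe_equivIco

lemma φ_cont {x : T} (hx : x ≠ ((-1/2 : ℝ) : T)) : ContinuousAt φ x :=
  continuous_subtype_val.continuousAt.comp (AddCircle.continuousAt_equivIco (1 : ℝ) (-1/2) hx)

lemma norm_coe_le (x : ℝ) : ‖(x : T)‖ ≤ |x| := by
  have h1 : ‖(x : T)‖ = |x - round x| := UnitAddCircle.norm_eq
  rw [h1]
  have := round_le x 0
  simpa using this

lemma norm_le_φ (x y : T) : ‖x - y‖ ≤ |φ x - φ y| := by
  have : x - y = ((φ x - φ y : ℝ) : T) := by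
    rw [AddCircle.coe_sub, coe_φ, coe_φ]
  rw [this]
  exact norm_coe_le _

lemma norm_half : ‖((-1/2 : ℝ) : T)‖ = 1/2 := by
  have h1 : ‖((-1/2 : ℝ) : T)‖ = |(-1/2 : ℝ)| := by
    rw [AddCircle.norm_coe_eq_abs_iff _ one_ne_zero]
    rw [abs_of_neg (by norm_num)]; norm_num
  rw [h1, abs_of_neg (by norm_num)]; norm_num

/-- A connected set of pairs on which the first coordinate avoids the point `-1/2`, with equal
projections, cannot stay at distance `> 3/4` from the diagonal. -/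
lemma no_arc (Z : Set (T × T)) (hZ : IsConnected Z) (hproj : Prod.fst '' Z = Prod.snd '' Z)
    (havoid : ∀ p ∈ Z, p.1 ≠ ((-1/2 : ℝ) : T)) (hd : ∀ p ∈ Z, 3/4 < D p.1 p.2) : False := by
  have havoid2 : ∀ p ∈ Z, p.2 ≠ ((-1/2 : ℝ) : T) := by
    intro p hp
    have : p.2 ∈ Prod.snd '' Z := ⟨p, hp, rfl⟩
    rw [← hproj] at this
    obtain ⟨q, hq, hq2⟩ := this
    rw [← hq2]; exact havoid q hq
  have hgap : ∀ p ∈ Z, 3/40 < |φ p.1 - φ p.2| := by
    intro p hp
    have h1 := hd p hp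
    have h2 : D p.1 p.2 ≤ 10 * ‖p.1 - p.2‖ := min_le_left _ _
    have h3 := norm_le_φ p.1 p.2
    linarith
  have hcont : ContinuousOn (fun p : T × T => φ p.1 - φ p.2) Z := by
    intro p hp
    apply ContinuousAt.continuousWithinAt
    exact ((φ_cont (havoid p hp)).comp continuousAt_fst).sub
      ((φ_cont (havoid2 p hp)).comp continuousAt_snd)
  have hconn := hZ.isPreconnected.image _ hcont
  obtain ⟨p0, hp0⟩ := hZ.nonempty
  have hbdd1 : ∀ x : T, φ x ≤ 1/2 := fun x => by have := (φ_mem x).2; norm_num at this; linarith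
  -- every point has the same sign
  have hsign : (∀ p ∈ Z, 3/40 < φ p.1 - φ p.2) ∨ (∀ p ∈ Z, 3/40 < φ p.2 - φ p.1) := by
    by_contra hcon
    push Not at hcon
    obtain ⟨⟨p, hp, hp'⟩, ⟨q, hq, hq'⟩⟩ := hcon
    have h1 : φ p.1 - φ p.2 ≤ 0 := by
      have := hgap p hp
      by_contra hc
      push Not at hc
      rw [abs_of_pos hc] at this
      linarith
    have h2 : 0 ≤ φ q.1 - φ q.2 := by
      have := hgap q hq
      by_contra hc
      push Not at hc
      rw [abs_of_neg hc] at this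
      linarith
    have h0 : (0:ℝ) ∈ (fun p : T × T => φ p.1 - φ p.2) '' Z :=
      hconn.Icc_subset ⟨p, hp, rfl⟩ ⟨q, hq, rfl⟩ ⟨h1, h2⟩
    obtain ⟨r, hr, hr'⟩ := h0
    have := hgap r hr
    simp only at hr'
    rw [hr'] at this
    norm_num at this
  set S : Set ℝ := φ '' (Prod.fst '' Z) with hS
  have hSne : S.Nonempty := ⟨φ p0.1, p0.1, ⟨p0, hp0, rfl⟩, rfl⟩
  have hSb : BddAbove S := ⟨1/2, by rintro _ ⟨x, _, rfl⟩; exact hbdd1 x⟩
  obtain ⟨s, hs, hs'⟩ := exists_lt_of_lt_csSup hSne (show sSup S - 3/40 < sSup S by linarith)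
  rcases hsign with hpos | hneg
  · obtain ⟨x, hx, rfl⟩ := hs
    rw [hproj] at hx
    obtain ⟨p, hp, rfl⟩ := hx
    have h1 := hpos p hp
    have h2 : φ p.1 ≤ sSup S := le_csSup hSb ⟨p.1, ⟨p, hp, rfl⟩, rfl⟩
    linarith
  · obtain ⟨x, hx, rfl⟩ := hs
    obtain ⟨p, hp, rfl⟩ := hx
    have h1 := hneg p hp
    have h2 : φ p.2 ≤ sSup S := le_csSup hSb ⟨p.2, by rw [hproj]; exact ⟨p, hp, rfl⟩, rfl⟩
    linarith

lemma continuous_h : Continuous (fun p : T × T => h p.1 p.2) := by
  unfold h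
  fun_prop

lemma continuous_h' : Continuous (fun p : T × T => h p.2 p.1) := by
  unfold h
  fun_prop

/-- The key separation: no connected set with equal projections on which `D > 3/4`. -/
lemma no_span (Z : Set (T × T)) (hZ : IsConnected Z) (hproj : Prod.fst '' Z = Prod.snd '' Z)
    (hd : ∀ p ∈ Z, 3/4 < D p.1 p.2) : False := by
  have hcl1 : IsClosed {p : T × T | h p.1 p.2 ≤ 1/40} :=
    isClosed_le continuous_h continuous_const
  have hcl2 : IsClosed {p : T × T | h p.2 p.1 ≤ 1/40} :=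
    isClosed_le continuous_h' continuous_const
  have hcover : Z ⊆ {p : T × T | h p.1 p.2 ≤ 1/40} ∪ {p : T × T | h p.2 p.1 ≤ 1/40} := by
    intro p hp
    have h1 := hd p hp
    have h2 : D p.1 p.2 ≤ g p.1 p.2 := min_le_right _ _
    have h3 : 3/4 < g p.1 p.2 := lt_of_lt_of_le h1 h2
    unfold g at h3
    rcases lt_max_iff.1 h3 with h4 | h4
    · norm_num at h4
    · have h5 : min (h p.1 p.2) (h p.2 p.1) < 1/40 := by linarith
      rcases min_lt_iff.1 h5 with h6 | h6
      · left; exact h6.le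
      · right; exact h6.le
  have hkey : ∀ x y : T, h x y ≤ 1/40 → x ≠ ((-1/2 : ℝ) : T) := by
    intro x y hxy hx
    have h1 : ‖x‖ - 7/20 ≤ h x y := le_trans (le_max_left _ _) (le_max_right _ _)
    rw [hx, norm_half] at h1
    rw [hx] at hxy
    linarith
  have hdisj : ∀ x y : T, h x y ≤ 1/40 → h y x ≤ 1/40 → False := by
    intro x y h1 h2
    have h3 : ‖y - x - ((3/4 : ℝ) : T)‖ - 3/20 ≤ h x y := le_trans (le_max_right _ _) (le_max_right _ _)
    have h4 : ‖x - y - ((3/4 : ℝ) : T)‖ - 3/20 ≤ h y x := le_trans (le_max_right _ _) (le_max_right _ _)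
    have h5 := norm_add_le (y - x - ((3/4 : ℝ) : T)) (x - y - ((3/4 : ℝ) : T))
    have h6 : (y - x - ((3/4 : ℝ) : T)) + (x - y - ((3/4 : ℝ) : T)) = ((-1/2 : ℝ) : T) := by
      have e1 : (y - x - ((3/4 : ℝ) : T)) + (x - y - ((3/4 : ℝ) : T))
        = -(((3/4 : ℝ) : T) + ((3/4 : ℝ) : T)) := by abel
      rw [e1, ← AddCircle.coe_add, ← AddCircle.coe_neg]
      have e2 : (-(3/4 + 3/4) : ℝ) = -1/2 - 1 := by norm_num
      rw [e2, AddCircle.coe_sub]
      have e3 : ((1 : ℝ) : T) = 0 := AddCircle.coe_period 1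
      rw [e3, sub_zero]
    rw [h6, norm_half] at h5
    linarith
  have hsub : Z ⊆ {p : T × T | h p.1 p.2 ≤ 1/40} ∨ Z ⊆ {p : T × T | h p.2 p.1 ≤ 1/40} := by
    by_contra hcon
    push Not at hcon
    obtain ⟨hn1, hn2⟩ := hcon
    obtain ⟨p, hp, hp'⟩ := Set.not_subset.1 hn1
    obtain ⟨q, hq, hq'⟩ := Set.not_subset.1 hn2
    have hp2 := (hcover hp).resolve_left hp'
    have hq2 := (hcover hq).resolve_right hq'
    obtain ⟨r, hr, hr1, hr2⟩ := isPreconnected_closed_iff.1 hZ.isPreconnected _ _ hcl1 hcl2 hcover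
      ⟨q, hq, hq2⟩ ⟨p, hp, hp2⟩
    exact hdisj r.1 r.2 hr1 hr2
  rcases hsub with h1 | h1
  · exact no_arc Z hZ hproj (fun p hp => hkey _ _ (h1 hp)) hd
  · have hZ' : IsConnected (Prod.swap '' Z) := hZ.image _ continuous_swap.continuousOn
    have e1 : Prod.fst '' (Prod.swap '' Z) = Prod.snd '' Z := by
      rw [Set.image_image]; rfl
    have e2 : Prod.snd '' (Prod.swap '' Z) = Prod.fst '' Z := by
      rw [Set.image_image]; rfl
    refine no_arc (Prod.swap '' Z) hZ' ?_ ?_ ?_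
    · rw [e1, e2, hproj]
    · rintro _ ⟨p, hp, rfl⟩
      exact hkey _ _ (h1 hp)
    · rintro _ ⟨p, hp, rfl⟩
      have := hd p hp
      rw [D_comm] at this
      exact this

/-- Transfer of the previous lemma to the metric space `Y`. -/
lemma no_span_Y (Z : Set (Y × Y)) (hZ : IsConnected Z) (hproj : Prod.fst '' Z = Prod.snd '' Z)
    (hd : ∀ p ∈ Z, 3/4 < dist p.1 p.2) : False := by
  set F : Y × Y → T × T := Prod.map homeoY.symm homeoY.symm with hF
  have hFc : Continuous F := homeoY.symm.continuous.prodMap homeoY.symm.continuous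
  have e1 : Prod.fst '' (F '' Z) = homeoY.symm '' (Prod.fst '' Z) := by
    rw [Set.image_image, Set.image_image]; rfl
  have e2 : Prod.snd '' (F '' Z) = homeoY.symm '' (Prod.snd '' Z) := by
    rw [Set.image_image, Set.image_image]; rfl
  refine no_span (F '' Z) (hZ.image _ hFc.continuousOn) (by rw [e1, e2, hproj]) ?_
  rintro _ ⟨p, hp, rfl⟩
  exact hd p hp

/-- The connected set witnessing the semi-span. -/
noncomputable def W : Set (T × T) :=
  (fun s : ℝ => ((((s + 3/4 : ℝ) : T), ((7/10 * s : ℝ) : T)) : T × T)) '' Set.Icc (-1/2) (1/2)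

lemma W_cont : Continuous (fun s : ℝ => ((((s + 3/4 : ℝ) : T), ((7/10 * s : ℝ) : T)) : T × T)) := by
  apply Continuous.prodMk
  · exact (AddCircle.continuous_mk' 1).comp (by fun_prop)
  · exact (AddCircle.continuous_mk' 1).comp (by fun_prop)

lemma W_conn : IsConnected W :=
  (isConnected_Icc (by norm_num)).image _ W_cont.continuousOn

lemma W_fst : Prod.fst '' W = Set.univ := by
  apply Set.eq_univ_of_forall
  intro x
  refine ⟨_, ⟨φ (x - ((3/4 : ℝ) : T)), ?_, rfl⟩, ?_⟩
  · have := φ_mem (x - ((3/4 : ℝ) : T))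
    refine ⟨this.1, ?_⟩
    have := this.2
    norm_num at this
    linarith
  · simp only
    rw [AddCircle.coe_add, coe_φ]
    abel

lemma W_dist : ∀ p ∈ W, 1 ≤ D p.1 p.2 := by
  rintro _ ⟨s, hs, rfl⟩
  simp only
  obtain ⟨hs1, hs2⟩ := hs
  -- `y = s + 3/4`, `x = 7/10 s`, `h x y = 0`
  have hx : ‖((7/10 * s : ℝ) : T)‖ ≤ 7/20 := by
    refine (norm_coe_le _).trans ?_
    rw [abs_le]; constructor <;> linarith
  have hyx : ‖((s + 3/4 : ℝ) : T) - ((7/10 * s : ℝ) : T) - ((3/4 : ℝ) : T)‖ ≤ 3/20 := by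
    rw [← AddCircle.coe_sub, ← AddCircle.coe_sub]
    refine (norm_coe_le _).trans ?_
    rw [abs_le]; constructor <;> linarith
  have hh : h ((7/10 * s : ℝ) : T) ((s + 3/4 : ℝ) : T) = 0 := by
    unfold h
    apply max_eq_left
    apply max_le <;> linarith
  have hg : g ((s + 3/4 : ℝ) : T) ((7/10 * s : ℝ) : T) = 1 := by
    unfold g
    rw [hh, min_eq_right (h_nonneg _ _)]
    norm_num
  have hρ : 1/10 ≤ ‖((s + 3/4 : ℝ) : T) - ((7/10 * s : ℝ) : T)‖ := by
    have h34 : ‖((3/4 : ℝ) : T)‖ = 1/4 := by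
      have e1 : ((3/4 : ℝ) : T) = ((-1/4 : ℝ) : T) := by
        have e2 : (3/4 : ℝ) = -1/4 + 1 := by norm_num
        have e3 : ((1 : ℝ) : T) = 0 := AddCircle.coe_period 1
        rw [e2, AddCircle.coe_add, e3, add_zero]
      rw [e1]
      have h1 : ‖((-1/4 : ℝ) : T)‖ = |(-1/4 : ℝ)| := by
        rw [AddCircle.norm_coe_eq_abs_iff _ one_ne_zero]
        rw [abs_of_neg (by norm_num)]; norm_num
      rw [h1, abs_of_neg (by norm_num)]; norm_num
    have h1 := norm_sub_le (((s + 3/4 : ℝ) : T) - ((7/10 * s : ℝ) : T))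
      (((s + 3/4 : ℝ) : T) - ((7/10 * s : ℝ) : T) - ((3/4 : ℝ) : T))
    rw [sub_sub_cancel, h34] at h1
    linarith
  unfold D
  rw [hg]
  exact le_min (by linarith) le_rfl

/-- The negation of the preceding statement: For every simple closed curve C in a metric space, the span of C (sup of ε with a connected Z in C×C, equal projections, all pairs at distance ≥ ε) equals the semi-span (same, second projection contained in first). -/
theorem result :
    ¬ (∀ (X : Type) [MetricSpace X] (C : Set X),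
      Nonempty (↥C ≃ₜ ↥(Metric.sphere (0 : ℂ) 1)) →
      sSup {ε : ℝ | ∃ Z : Set (X × X), Z ⊆ C ×ˢ C ∧ IsConnected Z ∧
          Prod.fst '' Z = Prod.snd '' Z ∧ ∀ p ∈ Z, ε ≤ dist p.1 p.2}
        = sSup {ε : ℝ | ∃ Z : Set (X × X), Z ⊆ C ×ˢ C ∧ IsConnected Z ∧
          Prod.snd '' Z ⊆ Prod.fst '' Z ∧ ∀ p ∈ Z, ε ≤ dist p.1 p.2}) := by
  intro H
  have H1 := H Y Set.univ simple_closed
  have hA : sSup {ε : ℝ | ∃ Z : Set (Y × Y), Z ⊆ (Set.univ : Set Y) ×ˢ (Set.univ : Set Y) ∧
      IsConnected Z ∧ Prod.fst '' Z = Prod.snd '' Z ∧ ∀ p ∈ Z, ε ≤ dist p.1 p.2} ≤ 3/4 := by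
    apply Real.sSup_le _ (by norm_num)
    rintro ε ⟨Z, _, hZ, hproj, hd⟩
    by_contra hε
    push Not at hε
    exact no_span_Y Z hZ hproj (fun p hp => lt_of_lt_of_le hε (hd p hp))
  have hB : 1 ≤ sSup {ε : ℝ | ∃ Z : Set (Y × Y), Z ⊆ (Set.univ : Set Y) ×ˢ (Set.univ : Set Y) ∧
      IsConnected Z ∧ Prod.snd '' Z ⊆ Prod.fst '' Z ∧ ∀ p ∈ Z, ε ≤ dist p.1 p.2} := by
    apply le_csSup
    · refine ⟨1, ?_⟩
      rintro ε ⟨Z, _, hZ, _, hd⟩
      obtain ⟨p, hp⟩ := hZ.nonempty
      have h1 := hd p hp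
      have h2 : dist p.1 p.2 ≤ 1 := (min_le_right _ _).trans (g_le_one _ _)
      linarith
    · refine ⟨Prod.map homeoY homeoY '' W, ?_, ?_, ?_, ?_⟩
      · intro p _; exact ⟨Set.mem_univ _, Set.mem_univ _⟩
      · exact W_conn.image _ (homeoY.continuous.prodMap homeoY.continuous).continuousOn
      · have e1 : Prod.fst '' (Prod.map homeoY homeoY '' W) = Set.univ := by
          have : Prod.fst '' (Prod.map homeoY homeoY '' W) = homeoY '' (Prod.fst '' W) := by
            rw [Set.image_image, Set.image_image]; rfl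
          rw [this, W_fst, Set.image_univ, homeoY.surjective.range_eq]
        rw [e1]; exact Set.subset_univ _
      · rintro _ ⟨p, hp, rfl⟩
        exact W_dist p hp
  linarith

end Pool.Agent.S13204
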