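import Pool.Statements.S09297
import Pool.Agent.F3.Final

set_option autoImplicit false
open Pool Pool.MP_6a0350_co

namespace Pool.Agent.S09297

/-- For every g there is N such that every n-vertex graph (n ≥ N) with all degrees even, edge count divisible by 3 and min degree ≥ 3n/4 splits into edge-disjoint triangles covering all edges, with no k vertices (4 ≤ k < g) containing k−2 of those triangles. -/
theorem result :
    ∀ g : ℕ, ∃ N : ℕ, ∀ n : ℕ, N ≤ n →
      ∀ (G : SimpleGraph (Fin n)) [DecidableRel G.Adj],
        (∀ v, Even (G.degree v)) →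
        3 ∣ G.edgeFinset.card →
        (∀ v, 3 * n ≤ 4 * G.degree v) →
        ∃ T : Finset (Finset (Fin n)),
          (∀ t ∈ T, G.IsNClique 3 t) ∧
          (∀ u v, G.Adj u v → ∃! t, t ∈ T ∧ u ∈ t ∧ v ∈ t) ∧
          (∀ S : Finset (Fin n), 4 ≤ S.card → S.card < g →
            (T.filter (fun t => t ⊆ S)).card + 2 < S.card) :=
  F3.simpleS

end Pool.Agent.S09297
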