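import Pool.Statements.S06599

set_option autoImplicit false
open Complex Filter Topology Metric
open Pool Pool.MP_ed6c6b_an

namespace Pool.Agent.S06599

/-!
The key inequality: if `ψ` is a holomorphic selfmap of the disc and `f` is in `H²`, then
`‖f ∘ ψ - f (ψ 0)‖² ≤ C ‖f‖² ‖ψ - ψ 0‖`, where `C` depends only on an upper bound `R < 1`
of `|ψ 0|`.  It follows from the pointwise inequality
`|f w - f z|² ≤ 2 Re (h w - h z) + C ‖f‖² |w - z|`, where `Re h` is the harmonic majorant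
(the Poisson integral) of `|f|²`, by taking averages over circles.
-/


/-- The autocorrelation coefficients of a sequence supported on `[0,N)`. -/
noncomputable def acf (a : ℕ → ℂ) (N k : ℕ) : ℂ :=
  ∑ j ∈ Finset.range N, (starRingEnd ℂ) (a j) * a (j + k)

/-- Holomorphic completion of the harmonic majorant. -/
noncomputable def hol (a : ℕ → ℂ) (N : ℕ) (w : ℂ) : ℂ :=
  2 * (∑ k ∈ Finset.range N, acf a N k * w ^ k) - ((∑ j ∈ Finset.range N, ‖a j‖ ^ 2 : ℝ) : ℂ)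

/-- polynomial evaluation -/
noncomputable def ev (a : ℕ → ℂ) (N : ℕ) (w : ℂ) : ℂ := ∑ k ∈ Finset.range N, a k * w ^ k

lemma tail_rec (a : ℕ → ℂ) (N : ℕ) (ha : ∀ j, N ≤ j → a j = 0) (w : ℂ) (j : ℕ) :
    ∑ k ∈ Finset.range N, a (j + k) * w ^ k
      = a j + w * ∑ k ∈ Finset.range N, a (j + 1 + k) * w ^ k := by
  have h1 : ∑ k ∈ Finset.range (N+1), a (j + k) * w ^ k
      = ∑ k ∈ Finset.range N, a (j + k) * w ^ k := by
    rw [Finset.sum_range_succ, ha (j+N) (by omega)]; simp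
  rw [← h1, Finset.sum_range_succ', Finset.mul_sum, add_comm]
  congr 1
  · simp
  · apply Finset.sum_congr rfl
    intro k _
    rw [show j + (k + 1) = j + 1 + k by ring]
    ring

lemma re_step (s s' w : ℂ) :
    ((starRingEnd ℂ) (s - w * s') * (2 * s - (s - w * s'))).re = ‖s‖ ^ 2 - ‖w‖ ^ 2 * ‖s'‖ ^ 2 := by
  rw [← Complex.normSq_eq_norm_sq, ← Complex.normSq_eq_norm_sq, ← Complex.normSq_eq_norm_sq]
  simp only [Complex.normSq_apply, Complex.mul_re, Complex.sub_re, Complex.sub_im, Complex.mul_im,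
    Complex.conj_re, Complex.conj_im, Complex.re_ofNat, Complex.im_ofNat]
  ring

lemma hol_eq (a : ℕ → ℂ) (N : ℕ) (w : ℂ) :
    hol a N w = ∑ j ∈ Finset.range N, (starRingEnd ℂ) (a j) *
      (2 * (∑ k ∈ Finset.range N, a (j + k) * w ^ k) - a j) := by
  unfold hol acf
  have h1 : ∑ k ∈ Finset.range N, (∑ j ∈ Finset.range N, (starRingEnd ℂ) (a j) * a (j + k)) * w ^ k
      = ∑ j ∈ Finset.range N, (starRingEnd ℂ) (a j) * ∑ k ∈ Finset.range N, a (j + k) * w ^ k := by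
    simp_rw [Finset.sum_mul, Finset.mul_sum]
    rw [Finset.sum_comm]
    apply Finset.sum_congr rfl
    intro j _
    apply Finset.sum_congr rfl
    intro k _
    ring
  rw [h1]
  push_cast
  simp_rw [mul_sub, Finset.sum_sub_distrib]
  congr 1
  · rw [Finset.mul_sum]
    apply Finset.sum_congr rfl
    intro j _
    ring
  · apply Finset.sum_congr rfl
    intro j _
    rw [Complex.conj_mul']

lemma majorant (a : ℕ → ℂ) (N : ℕ) (ha : ∀ j, N ≤ j → a j = 0) (w : ℂ) (hw : ‖w‖ ≤ 1) :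
    ‖ev a N w‖ ^ 2 ≤ (hol a N w).re := by
  rw [hol_eq]
  set s : ℕ → ℂ := fun j => ∑ k ∈ Finset.range N, a (j + k) * w ^ k with hs
  have hrec : ∀ j, a j = s j - w * s (j+1) := by
    intro j
    have := tail_rec a N ha w j
    simp only [hs]
    rw [this]; ring
  have hsN : s N = 0 := by
    simp only [hs]
    apply Finset.sum_eq_zero
    intro k _
    rw [ha (N+k) (by omega)]; simp
  have hs0 : s 0 = ev a N w := by
    simp [hs, ev]
  rw [Complex.re_sum]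
  have hterm : ∀ j ∈ Finset.range N,
      ‖s j‖ ^ 2 - ‖s (j+1)‖ ^ 2 ≤ ((starRingEnd ℂ) (a j) * (2 * s j - a j)).re := by
    intro j _
    have h2 := re_step (s j) (s (j+1)) w
    rw [← hrec j] at h2
    rw [h2]
    have : ‖w‖ ^ 2 ≤ 1 := by
      have := norm_nonneg w
      nlinarith
    nlinarith [sq_nonneg ‖s (j+1)‖]
  calc ‖ev a N w‖ ^ 2 = ‖s 0‖ ^ 2 - ‖s N‖ ^ 2 := by rw [hs0, hsN]; simp
    _ = ∑ j ∈ Finset.range N, (‖s j‖ ^ 2 - ‖s (j+1)‖ ^ 2) := by
        rw [Finset.sum_range_sub']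
    _ ≤ _ := Finset.sum_le_sum hterm

lemma acf_bound (a : ℕ → ℂ) (N : ℕ) (ha : ∀ j, N ≤ j → a j = 0) (k : ℕ) :
    ‖acf a N k‖ ≤ ∑ j ∈ Finset.range N, ‖a j‖ ^ 2 := by
  unfold acf
  have h1 : ∑ j ∈ Finset.range N, ‖a (j + k)‖ ^ 2 ≤ ∑ j ∈ Finset.range N, ‖a j‖ ^ 2 := by
    have h2 : ∑ j ∈ Finset.range N, ‖a (j + k)‖ ^ 2
        = ∑ j ∈ (Finset.range N).image (fun j => j + k), ‖a j‖ ^ 2 := by
      rw [Finset.sum_image]
      intro x _ y _ h
      simpa using h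
    have h3 : ∑ j ∈ Finset.range N, ‖a j‖ ^ 2 = ∑ j ∈ Finset.range (N + k), ‖a j‖ ^ 2 := by
      apply Finset.sum_subset
      · intro x hx; simp at *; omega
      · intro x _ hx
        rw [ha x (by simpa using hx)]; simp
    rw [h2, h3]
    apply Finset.sum_le_sum_of_subset_of_nonneg
    · intro x hx
      simp only [Finset.mem_image, Finset.mem_range] at *
      obtain ⟨y, hy, rfl⟩ := hx
      omega
    · intros; positivity
  calc ‖∑ j ∈ Finset.range N, (starRingEnd ℂ) (a j) * a (j + k)‖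
      ≤ ∑ j ∈ Finset.range N, ‖(starRingEnd ℂ) (a j) * a (j + k)‖ := norm_sum_le _ _
    _ ≤ ∑ j ∈ Finset.range N, (‖a j‖ ^ 2 + ‖a (j+k)‖ ^ 2) / 2 := by
        apply Finset.sum_le_sum
        intro j _
        rw [norm_mul, RCLike.norm_conj]
        nlinarith [sq_nonneg (‖a j‖ - ‖a (j+k)‖)]
    _ = (∑ j ∈ Finset.range N, ‖a j‖ ^ 2 + ∑ j ∈ Finset.range N, ‖a (j + k)‖ ^ 2) / 2 := by
        rw [← Finset.sum_add_distrib, Finset.sum_div]
    _ ≤ _ := by linarith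

lemma pow_lip (w z : ℂ) (R : ℝ) (hw : ‖w‖ ≤ R) (hz : ‖z‖ ≤ R) (k : ℕ) :
    ‖w ^ k - z ^ k‖ ≤ k * R ^ (k - 1) * ‖w - z‖ := by
  have hR : 0 ≤ R := le_trans (norm_nonneg _) hw
  have h := (Commute.all w z).geom_sum₂_mul k
  rw [← h, norm_mul]
  apply mul_le_mul_of_nonneg_right _ (norm_nonneg _)
  calc ‖∑ i ∈ Finset.range k, w ^ i * z ^ (k - 1 - i)‖
      ≤ ∑ i ∈ Finset.range k, ‖w ^ i * z ^ (k - 1 - i)‖ := norm_sum_le _ _
    _ ≤ ∑ i ∈ Finset.range k, R ^ (k - 1) := by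
        apply Finset.sum_le_sum
        intro i hi
        rw [norm_mul, norm_pow, norm_pow]
        have hi' : i < k := by simpa using hi
        calc ‖w‖ ^ i * ‖z‖ ^ (k - 1 - i) ≤ R ^ i * R ^ (k - 1 - i) := by gcongr
          _ = R ^ (k - 1) := by rw [← pow_add]; congr 1; omega
    _ = k * R ^ (k - 1) := by simp

/-- sum of bounded coefficients is Lipschitz -/
lemma sum_lip (c : ℕ → ℂ) (N : ℕ) (B L R : ℝ) (hB : ∀ k < N, ‖c k‖ ≤ B)
    (hL : ∑ k ∈ Finset.range N, (k:ℝ) * R ^ (k - 1) ≤ L) (hB0 : 0 ≤ B)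
    (w z : ℂ) (hw : ‖w‖ ≤ R) (hz : ‖z‖ ≤ R) :
    ‖(∑ k ∈ Finset.range N, c k * w ^ k) - ∑ k ∈ Finset.range N, c k * z ^ k‖
      ≤ B * L * ‖w - z‖ := by
  have hR : 0 ≤ R := le_trans (norm_nonneg _) hw
  rw [← Finset.sum_sub_distrib]
  calc ‖∑ k ∈ Finset.range N, (c k * w ^ k - c k * z ^ k)‖
      ≤ ∑ k ∈ Finset.range N, ‖c k * w ^ k - c k * z ^ k‖ := norm_sum_le _ _
    _ ≤ ∑ k ∈ Finset.range N, B * (k * R ^ (k - 1) * ‖w - z‖) := by
        apply Finset.sum_le_sum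
        intro k hk
        rw [← mul_sub, norm_mul]
        exact mul_le_mul (hB k (by simpa using hk)) (pow_lip w z R hw hz k) (norm_nonneg _) hB0
    _ = B * (∑ k ∈ Finset.range N, (k:ℝ) * R ^ (k - 1)) * ‖w - z‖ := by
        rw [Finset.mul_sum, Finset.sum_mul]
        apply Finset.sum_congr rfl
        intros; ring
    _ ≤ B * L * ‖w - z‖ := by gcongr

lemma sum_bd (c : ℕ → ℂ) (N : ℕ) (B G R : ℝ) (hB : ∀ k < N, ‖c k‖ ≤ B)
    (hG : ∑ k ∈ Finset.range N, R ^ k ≤ G) (hB0 : 0 ≤ B)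
    (w : ℂ) (hw : ‖w‖ ≤ R) :
    ‖(∑ k ∈ Finset.range N, c k * w ^ k)‖ ≤ B * G := by
  have hR : 0 ≤ R := le_trans (norm_nonneg _) hw
  calc ‖∑ k ∈ Finset.range N, c k * w ^ k‖
      ≤ ∑ k ∈ Finset.range N, ‖c k * w ^ k‖ := norm_sum_le _ _
    _ ≤ ∑ k ∈ Finset.range N, B * R ^ k := by
        apply Finset.sum_le_sum
        intro k hk
        rw [norm_mul, norm_pow]
        exact mul_le_mul (hB k (by simpa using hk)) (pow_le_pow_left₀ (norm_nonneg _) hw k)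
          (by positivity) hB0
    _ = B * (∑ k ∈ Finset.range N, R ^ k) := by
        rw [Finset.mul_sum]
    _ ≤ B * G := by gcongr

/-- The key pointwise inequality. -/
lemma pointwise (R : ℝ) (hR0 : 0 ≤ R) (hR1 : R < 1) :
    ∃ C : ℝ, 0 ≤ C ∧ ∀ (a : ℕ → ℂ) (N : ℕ), (∀ j, N ≤ j → a j = 0) →
      ∀ w z : ℂ, ‖w‖ < 1 → ‖z‖ ≤ R →
        ‖ev a N w - ev a N z‖ ^ 2 ≤ 2 * (hol a N w - hol a N z).re
          + C * (∑ j ∈ Finset.range N, ‖a j‖ ^ 2) * ‖w - z‖ := by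
  set R' : ℝ := (1 + R) / 2 with hR'
  set ρ : ℝ := (1 - R) / 2 with hρ
  have hR'0 : 0 ≤ R' := by rw [hR']; linarith
  have hR'1 : R' < 1 := by rw [hR']; linarith
  have hρ0 : 0 < ρ := by rw [hρ]; linarith
  have hρ1 : ρ ≤ 1 := by rw [hρ]; linarith
  -- the constants
  have hsumL : Summable (fun k : ℕ => (k:ℝ) * R' ^ (k - 1)) := by
    have h1 : Summable (fun k : ℕ => ((k + 1 : ℕ) : ℝ) * R' ^ k) := by
      have h2 := summable_pow_mul_geometric_of_norm_lt_one (R := ℝ) 1 (r := R')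
        (by rw [Real.norm_of_nonneg hR'0]; exact hR'1)
      have h3 := summable_geometric_of_lt_one hR'0 hR'1
      have := h2.add h3
      refine this.congr ?_
      intro k; push_cast; ring
    rw [← summable_nat_add_iff 1]
    simpa using h1
  have hsumG : Summable (fun k : ℕ => R' ^ k) := summable_geometric_of_lt_one hR'0 hR'1
  set L : ℝ := ∑' k : ℕ, (k:ℝ) * R' ^ (k - 1) with hLdef
  set G : ℝ := ∑' k : ℕ, R' ^ k with hGdef
  have hL : ∀ N : ℕ, ∑ k ∈ Finset.range N, (k:ℝ) * R' ^ (k - 1) ≤ L := fun N =>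
    hsumL.sum_le_tsum _ (fun i _ => by positivity)
  have hG : ∀ N : ℕ, ∑ k ∈ Finset.range N, R' ^ k ≤ G := fun N =>
    hsumG.sum_le_tsum _ (fun i _ => by positivity)
  have hL0 : 0 ≤ L := by simpa using hL 0
  have hG0 : 0 ≤ G := by simpa using hG 0
  refine ⟨L ^ 2 + 4 * L + 4 * (2 * G + 1) / ρ, by positivity, ?_⟩
  intro a N ha w z hw hz
  set A : ℝ := ∑ j ∈ Finset.range N, ‖a j‖ ^ 2 with hA
  have hA0 : 0 ≤ A := by rw [hA]; positivity
  have hacf : ∀ k < N, ‖acf a N k‖ ≤ A := fun k _ => acf_bound a N ha k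
  have hcoef : ∀ k < N, ‖a k‖ ≤ Real.sqrt A := by
    intro k hk
    apply Real.le_sqrt_of_sq_le
    rw [hA]
    exact Finset.single_le_sum (f := fun j => ‖a j‖ ^ 2) (fun i _ => by positivity)
      (by simpa using hk)
  have hzR' : ‖z‖ ≤ R' := by rw [hR']; linarith
  by_cases hcase : ‖w - z‖ ≤ ρ
  · -- close case
    have hwR' : ‖w‖ ≤ R' := by
      calc ‖w‖ = ‖(w - z) + z‖ := by ring_nf
        _ ≤ ‖w - z‖ + ‖z‖ := norm_add_le _ _
        _ ≤ ρ + R := by linarith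
        _ = R' := by rw [hρ, hR']; ring
    have h1 : ‖ev a N w - ev a N z‖ ≤ Real.sqrt A * L * ‖w - z‖ :=
      sum_lip a N (Real.sqrt A) L R' hcoef (hL N) (Real.sqrt_nonneg _) w z hwR' hzR'
    have h2 : ‖hol a N w - hol a N z‖ ≤ 2 * (A * L * ‖w - z‖) := by
      have : hol a N w - hol a N z = 2 * ((∑ k ∈ Finset.range N, acf a N k * w ^ k)
          - ∑ k ∈ Finset.range N, acf a N k * z ^ k) := by unfold hol; ring
      rw [this, norm_mul]
      have h3 := sum_lip (acf a N) N A L R' hacf (hL N) hA0 w z hwR' hzR'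
      simp only [Complex.norm_ofNat]
      linarith
    have h3 : -(2 * (A * L * ‖w - z‖)) ≤ (hol a N w - hol a N z).re := by
      have := Complex.abs_re_le_norm (hol a N w - hol a N z)
      have h4 := neg_abs_le (hol a N w - hol a N z).re
      linarith
    have h4 : ‖ev a N w - ev a N z‖ ^ 2 ≤ A * L ^ 2 * ‖w - z‖ := by
      calc ‖ev a N w - ev a N z‖ ^ 2 ≤ (Real.sqrt A * L * ‖w - z‖) ^ 2 := by gcongr
        _ = A * L ^ 2 * ‖w - z‖ ^ 2 := by
            rw [mul_pow, mul_pow, Real.sq_sqrt hA0]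
        _ ≤ A * L ^ 2 * ‖w - z‖ := by
            have h5 : ‖w - z‖ ^ 2 ≤ ‖w - z‖ := by
              have := norm_nonneg (w - z)
              nlinarith
            gcongr
    have h6 : 0 ≤ 4 * (2 * G + 1) / ρ * A * ‖w - z‖ := by positivity
    have h7 : (L ^ 2 + 4 * L + 4 * (2 * G + 1) / ρ) * A * ‖w - z‖
      = A * L ^ 2 * ‖w - z‖ + 2 * (2 * (A * L * ‖w - z‖)) + 4 * (2 * G + 1) / ρ * A * ‖w - z‖ := by
      ring
    rw [h7]
    linarith
  · push Not at hcase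
    have h1 := majorant a N ha w hw.le
    have h2 := majorant a N ha z (by linarith)
    have h3 : ‖hol a N z‖ ≤ A * (2 * G + 1) := by
      unfold hol
      calc _ ≤ ‖2 * ∑ k ∈ Finset.range N, acf a N k * z ^ k‖ + ‖((A : ℝ) : ℂ)‖ := norm_sub_le _ _
        _ ≤ 2 * (A * G) + A := by
            rw [norm_mul, Complex.norm_real, Real.norm_of_nonneg hA0]
            have := sum_bd (acf a N) N A G R' hacf (hG N) hA0 z hzR'
            simp only [Complex.norm_ofNat]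
            linarith
        _ = _ := by ring
    have h4 : (hol a N z).re ≤ A * (2 * G + 1) := le_trans (Complex.re_le_norm _) h3
    have h5 : ‖ev a N w - ev a N z‖ ^ 2 ≤ 2 * ‖ev a N w‖ ^ 2 + 2 * ‖ev a N z‖ ^ 2 := by
      have h6 := norm_sub_le (ev a N w) (ev a N z)
      have h7 := norm_nonneg (ev a N w - ev a N z)
      have h8 : ‖ev a N w - ev a N z‖ ^ 2 ≤ (‖ev a N w‖ + ‖ev a N z‖) ^ 2 := by gcongr
      nlinarith [sq_nonneg (‖ev a N w‖ - ‖ev a N z‖)]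
    have h6 : 4 * (A * (2 * G + 1)) ≤ 4 * (2 * G + 1) / ρ * A * ‖w - z‖ := by
      have : 1 ≤ ‖w - z‖ / ρ := by rw [le_div_iff₀ hρ0]; linarith
      calc 4 * (A * (2 * G + 1)) = 4 * (2 * G + 1) * A * 1 := by ring
        _ ≤ 4 * (2 * G + 1) * A * (‖w - z‖ / ρ) := by gcongr
        _ = _ := by ring
    have h7 : 0 ≤ (L ^ 2 + 4 * L) * A * ‖w - z‖ := by positivity
    have h8 : (L ^ 2 + 4 * L + 4 * (2 * G + 1) / ρ) * A * ‖w - z‖
      = (L ^ 2 + 4 * L) * A * ‖w - z‖ + 4 * (2 * G + 1) / ρ * A * ‖w - z‖ := by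
      ring
    rw [h8, Complex.sub_re]
    linarith

lemma summ (b : ℕ → ℂ) (M : ℝ) (hb : ∀ n, ‖b n‖ ≤ M) (z : ℂ) (hz : ‖z‖ < 1) :
    Summable (fun n => b n * z ^ n) := by
  apply Summable.of_norm_bounded (g := fun n => M * ‖z‖ ^ n)
  · exact (summable_geometric_of_lt_one (norm_nonneg _) hz).mul_left M
  · intro n
    rw [norm_mul, norm_pow]
    gcongr
    exact hb n

lemma part_bound (b : ℕ → ℂ) (M : ℝ) (hb : ∀ n, ‖b n‖ ≤ M) (r : ℝ) (hr0 : 0 ≤ r) (hr1 : r < 1)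
    (z : ℂ) (hz : ‖z‖ ≤ r) (N : ℕ) :
    ‖∑ n ∈ Finset.range N, b n * z ^ n‖ ≤ M * (1 - r)⁻¹ := by
  have hM : 0 ≤ M := le_trans (norm_nonneg _) (hb 0)
  calc ‖∑ n ∈ Finset.range N, b n * z ^ n‖ ≤ ∑ n ∈ Finset.range N, ‖b n * z ^ n‖ := norm_sum_le _ _
    _ ≤ ∑ n ∈ Finset.range N, M * r ^ n := by
        apply Finset.sum_le_sum
        intro n _
        rw [norm_mul, norm_pow]
        gcongr
        exact hb n
    _ = M * ∑ n ∈ Finset.range N, r ^ n := by rw [Finset.mul_sum]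
    _ ≤ M * (1 - r)⁻¹ := by
        gcongr
        rw [← tsum_geometric_of_lt_one hr0 hr1]
        exact (summable_geometric_of_lt_one hr0 hr1).sum_le_tsum _ (fun i _ => by positivity)

lemma poly_parseval (b : ℕ → ℂ) (r : ℝ) (hr0 : 0 ≤ r) (N : ℕ) :
    ∑ n ∈ Finset.range N, ‖b n‖ ^ 2 * r ^ (2 * n) =
      Real.circleAverage (fun z => ‖∑ n ∈ Finset.range N, b n * (r * z) ^ n‖ ^ 2) 0 1 := by
  set p : Polynomial ℂ := ∑ n ∈ Finset.range N, Polynomial.monomial n (b n * r ^ n) with hp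
  have h1 := p.sum_sq_norm_coeff_eq_circleAverage
  have h2 : (fun z : ℂ => ‖p.eval z‖ ^ 2)
      = fun z : ℂ => ‖∑ n ∈ Finset.range N, b n * (r * z) ^ n‖ ^ 2 := by
    funext z
    rw [hp, Polynomial.eval_finsetSum]
    congr 2
    apply Finset.sum_congr rfl
    intro n _
    rw [Polynomial.eval_monomial, mul_pow]; ring
  rw [h2] at h1
  rw [← h1]
  have hcoeff : ∀ i, p.coeff i = if i < N then b i * r ^ i else 0 := by
    intro i
    rw [hp, Polynomial.finsetSum_coeff]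
    simp [Polynomial.coeff_monomial]
  have h3 : ∑ i ∈ p.support, ‖p.coeff i‖ ^ 2 = ∑ i ∈ Finset.range N, ‖p.coeff i‖ ^ 2 := by
    apply Finset.sum_subset
    · intro i hi
      rw [Polynomial.mem_support_iff, hcoeff] at hi
      simp only [ne_eq, ite_eq_right_iff, Classical.not_imp] at hi
      simpa using hi.1
    · intro i _ hi
      rw [Polynomial.notMem_support_iff] at hi
      rw [hi]; simp
  rw [h3]
  apply Finset.sum_congr rfl
  intro i hi
  rw [hcoeff, if_pos (by simpa using hi), norm_mul, norm_pow, Complex.norm_real,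
    Real.norm_of_nonneg hr0, mul_pow, ← pow_mul, mul_comm i 2]

lemma parseval_tendsto (b : ℕ → ℂ) (M : ℝ) (hb : ∀ n, ‖b n‖ ≤ M) (r : ℝ) (hr0 : 0 ≤ r)
    (hr1 : r < 1) :
    Tendsto (fun N => ∑ n ∈ Finset.range N, ‖b n‖ ^ 2 * r ^ (2 * n)) atTop
      (𝓝 (Real.circleAverage (fun z => ‖∑' n, b n * (r * z) ^ n‖ ^ 2) 0 1)) := by
  have hM : 0 ≤ M := le_trans (norm_nonneg _) (hb 0)
  have h0 : (fun N => ∑ n ∈ Finset.range N, ‖b n‖ ^ 2 * r ^ (2 * n)) = fun N =>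
      Real.circleAverage (fun z => ‖∑ n ∈ Finset.range N, b n * (r * z) ^ n‖ ^ 2) 0 1 := by
    funext N; exact poly_parseval b r hr0 N
  rw [h0]
  simp only [Real.circleAverage_def]
  apply Tendsto.const_smul
  have hnorm : ∀ θ : ℝ, ‖(r : ℂ) * circleMap 0 1 θ‖ = r := by
    intro θ
    rw [norm_mul, Complex.norm_real, Real.norm_of_nonneg hr0, norm_circleMap_zero]
    simp
  apply intervalIntegral.tendsto_integral_filter_of_dominated_convergence
    (fun _ => (M * (1 - r)⁻¹) ^ 2)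
  · refine Eventually.of_forall (fun N => ?_)
    apply Continuous.aestronglyMeasurable
    have : Continuous (circleMap 0 1) := continuous_circleMap 0 1
    fun_prop
  · refine Eventually.of_forall (fun N => ?_)
    refine Eventually.of_forall (fun θ _ => ?_)
    rw [norm_pow, norm_norm]
    have h1 := part_bound b M hb r hr0 hr1 (r * circleMap 0 1 θ) (hnorm θ).le N
    gcongr
  · exact intervalIntegrable_const
  · refine Eventually.of_forall (fun θ _ => ?_)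
    have h1 := (summ b M hb (r * circleMap 0 1 θ) (by rw [hnorm]; exact hr1)).hasSum.tendsto_sum_nat
    exact (h1.norm.pow 2)


lemma main_ineq (R : ℝ) (hR0 : 0 ≤ R) (hR1 : R < 1) :
    ∃ C : ℝ, 0 ≤ C ∧ ∀ (a : ℕ → ℂ) (N : ℕ), (∀ j, N ≤ j → a j = 0) →
      ∀ (ψ : ℂ → ℂ), DifferentiableOn ℂ ψ (ball 0 1) → Set.MapsTo ψ (ball 0 1) (ball 0 1) →
      ‖ψ 0‖ ≤ R → ∀ (b c : ℕ → ℂ) (M : ℝ), (∀ n, ‖b n‖ ≤ M) → (∀ n, ‖c n‖ ≤ M) →
      (∀ z ∈ ball (0:ℂ) 1, ∑' n, b n * z ^ n = ev a N (ψ z) - ev a N (ψ 0)) →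
      (∀ z ∈ ball (0:ℂ) 1, ∑' n, c n * z ^ n = ψ z - ψ 0) →
      ∀ η : ℝ, 0 < η → (∀ m, ∑ n ∈ Finset.range m, ‖c n‖ ^ 2 ≤ η ^ 2) →
      ∀ m, ∑ n ∈ Finset.range m, ‖b n‖ ^ 2 ≤ C * (∑ j ∈ Finset.range N, ‖a j‖ ^ 2) * η := by
  obtain ⟨C, hC0, hC⟩ := pointwise R hR0 hR1
  refine ⟨C, hC0, ?_⟩
  intro a N ha ψ hψd hψm hψ0 b c M hb hc hbF hcF η hη hcη m
  set A : ℝ := ∑ j ∈ Finset.range N, ‖a j‖ ^ 2 with hA
  have hA0 : 0 ≤ A := by rw [hA]; positivity
  -- it suffices to prove the inequality with weights r^(2n)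
  have key : ∀ r : ℝ, 0 < r → r < 1 →
      ∑ n ∈ Finset.range m, ‖b n‖ ^ 2 * r ^ (2 * n) ≤ C * A * η := by
    intro r hr0 hr1
    have hball : ∀ z : ℂ, z ∈ closedBall (0:ℂ) 1 → (r:ℂ) * z ∈ ball (0:ℂ) 1 := by
      intro z hz
      rw [mem_ball_zero_iff, norm_mul, Complex.norm_real, Real.norm_of_nonneg hr0.le]
      have : ‖z‖ ≤ 1 := by simpa using hz
      nlinarith [norm_nonneg z]
    have hsph : ∀ z : ℂ, z ∈ sphere (0:ℂ) |1| → (r:ℂ) * z ∈ ball (0:ℂ) 1 := by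
      intro z hz
      apply hball
      rw [abs_one] at hz
      exact sphere_subset_closedBall hz
    -- differentiability of z ↦ ψ (r z) on a neighbourhood of the closed ball
    have hdiff : DifferentiableOn ℂ (fun z : ℂ => ψ (r * z)) (ball 0 (1 / r)) := by
      apply hψd.comp (by fun_prop)
      intro z hz
      rw [mem_ball_zero_iff] at hz ⊢
      rw [norm_mul, Complex.norm_real, Real.norm_of_nonneg hr0.le]
      rw [lt_div_iff₀ hr0] at hz
      linarith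
    have hsub : closedBall (0:ℂ) 1 ⊆ ball 0 (1 / r) := by
      intro z hz
      rw [mem_closedBall_zero_iff] at hz
      rw [mem_ball_zero_iff]
      have : 1 < 1 / r := by rw [lt_div_iff₀ hr0]; linarith
      linarith
    have hcont : ContinuousOn (fun z : ℂ => ψ (r * z)) (sphere (0:ℂ) |1|) := by
      apply hdiff.continuousOn.mono
      rw [abs_one]
      exact sphere_subset_closedBall.trans hsub
    have hholdiff : Differentiable ℂ (hol a N) := by
      unfold hol; fun_prop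
    have hholcont : Continuous (hol a N) := hholdiff.continuous
    have hevcont : Continuous (ev a N) := by
      unfold ev; fun_prop
    -- mean value property
    have hmean : Real.circleAverage (fun z : ℂ => hol a N (ψ (r * z)) - hol a N (ψ 0)) 0 1 = 0 := by
      have h1 : DiffContOnCl ℂ (fun z : ℂ => hol a N (ψ (r * z)) - hol a N (ψ 0)) (ball 0 |1|) := by
        apply DifferentiableOn.diffContOnCl
        rw [abs_one, closure_ball (0:ℂ) one_ne_zero]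
        apply DifferentiableOn.sub_const
        exact hholdiff.comp_differentiableOn (hdiff.mono hsub)
      rw [h1.circleAverage]
      simp
    have hint0 : CircleIntegrable (fun z : ℂ => hol a N (ψ (r * z)) - hol a N (ψ 0)) 0 1 := by
      apply ContinuousOn.circleIntegrable'
      exact ((hholcont.comp_continuousOn hcont).sub continuousOn_const)
    have hmeanre : Real.circleAverage (fun z : ℂ => (hol a N (ψ (r * z)) - hol a N (ψ 0)).re) 0 1
        = 0 := by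
      have h1 := Complex.reCLM.circleAverage_comp_comm hint0
      rw [hmean] at h1
      simpa [Function.comp_def] using h1
    -- the three functions
    set f₁ : ℂ → ℝ := fun z => ‖∑' n, b n * (r * z) ^ n‖ ^ 2 with hf₁
    set f₃ : ℂ → ℝ := fun z => ‖∑' n, c n * (r * z) ^ n‖ ^ 2 with hf₃
    set g : ℂ → ℝ := fun z => (hol a N (ψ (r * z)) - hol a N (ψ 0)).re with hg
    have hf₁eq : Set.EqOn f₁ (fun z => ‖ev a N (ψ (r * z)) - ev a N (ψ 0)‖ ^ 2)
        (sphere (0:ℂ) |1|) := by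
      intro z hz
      simp only [hf₁]
      rw [hbF _ (hsph z hz)]
    have hf₃eq : Set.EqOn f₃ (fun z => ‖ψ (r * z) - ψ 0‖ ^ 2) (sphere (0:ℂ) |1|) := by
      intro z hz
      simp only [hf₃]
      rw [hcF _ (hsph z hz)]
    have hf₁int : CircleIntegrable f₁ 0 1 := by
      apply ContinuousOn.circleIntegrable'
      refine ContinuousOn.congr ?_ hf₁eq
      exact (((hevcont.comp_continuousOn hcont).sub continuousOn_const).norm.pow 2)
    have hf₃int : CircleIntegrable f₃ 0 1 := by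
      apply ContinuousOn.circleIntegrable'
      refine ContinuousOn.congr ?_ hf₃eq
      exact ((hcont.sub continuousOn_const).norm.pow 2)
    have hgint : CircleIntegrable g 0 1 := by
      apply ContinuousOn.circleIntegrable'
      exact Complex.continuous_re.comp_continuousOn
        ((hholcont.comp_continuousOn hcont).sub continuousOn_const)
    -- averages of f₁ and f₃
    have hav1 : ∑ n ∈ Finset.range m, ‖b n‖ ^ 2 * r ^ (2 * n) ≤ Real.circleAverage f₁ 0 1 := by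
      have ht := parseval_tendsto b M hb r hr0.le hr1
      refine ge_of_tendsto ht ?_
      filter_upwards [eventually_ge_atTop m] with k hk
      apply Finset.sum_le_sum_of_subset_of_nonneg
      · intro x hx; simp at *; omega
      · intros; positivity
    have hav3 : Real.circleAverage f₃ 0 1 ≤ η ^ 2 := by
      have ht := parseval_tendsto c M hc r hr0.le hr1
      refine le_of_tendsto' ht ?_
      intro k
      refine le_trans ?_ (hcη k)
      apply Finset.sum_le_sum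
      intro i _
      have : r ^ (2 * i) ≤ 1 := pow_le_one₀ hr0.le hr1.le
      nlinarith [sq_nonneg ‖c i‖]
    -- pointwise inequality on the circle
    have hpt : ∀ z ∈ sphere (0:ℂ) |1|, f₁ z ≤ (2 * g z + (C * A * (η / 2) + C * A / (2 * η) * f₃ z)) := by
      intro z hz
      rw [hf₁eq hz, hf₃eq hz]
      simp only [hg]
      have h1 := hC a N ha (ψ (r * z)) (ψ 0) (by simpa using hψm (hsph z hz)) hψ0
      have h2 : ‖ψ (r * z) - ψ 0‖ ≤ η / 2 + 1 / (2 * η) * ‖ψ (r * z) - ψ 0‖ ^ 2 := by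
        have h3 : 0 ≤ (‖ψ (r * z) - ψ 0‖ - η) ^ 2 / (2 * η) := by positivity
        have h4 : (‖ψ (r * z) - ψ 0‖ - η) ^ 2 / (2 * η)
          = η / 2 + 1 / (2 * η) * ‖ψ (r * z) - ψ 0‖ ^ 2 - ‖ψ (r * z) - ψ 0‖ := by
          field_simp
          ring
        linarith
      calc _ ≤ 2 * (hol a N (ψ (r * z)) - hol a N (ψ 0)).re + C * A * ‖ψ (r * z) - ψ 0‖ := h1
        _ ≤ 2 * (hol a N (ψ (r * z)) - hol a N (ψ 0)).re
            + C * A * (η / 2 + 1 / (2 * η) * ‖ψ (r * z) - ψ 0‖ ^ 2) := by gcongr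
        _ = _ := by ring
    have hint2 : CircleIntegrable (fun z => 2 * g z) 0 1 :=
      IntervalIntegrable.const_mul hgint 2
    have hint3 : CircleIntegrable (fun z => C * A / (2 * η) * f₃ z) 0 1 :=
      IntervalIntegrable.const_mul hf₃int (C * A / (2 * η))
    have hint4 : CircleIntegrable (fun z => (C * A * (η / 2) + C * A / (2 * η) * f₃ z)) 0 1 :=
      (circleIntegrable_const (C * A * (η / 2)) 0 1).add hint3
    have hfin := Real.circleAverage_mono hf₁int (hint2.add hint4) hpt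
    have hcalc : Real.circleAverage ((fun z => 2 * g z) +
        (fun z => (C * A * (η / 2) + C * A / (2 * η) * f₃ z))) 0 1
        = C * A * (η / 2) + C * A / (2 * η) * Real.circleAverage f₃ 0 1 := by
      rw [Real.circleAverage_add hint2 hint4]
      have e1 : Real.circleAverage (fun z => 2 * g z) 0 1 = 0 := by
        have := Real.circleAverage_fun_smul (a := (2:ℝ)) (f := g) (c := 0) (R := 1)
        simp only [smul_eq_mul] at this
        rw [this, hmeanre, mul_zero]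
      have e2 : Real.circleAverage (fun z => (C * A * (η / 2) + C * A / (2 * η) * f₃ z)) 0 1
          = C * A * (η / 2) + C * A / (2 * η) * Real.circleAverage f₃ 0 1 := by
        rw [Real.circleAverage_fun_add (circleIntegrable_const _ 0 1) hint3]
        rw [Real.circleAverage_const]
        have := Real.circleAverage_fun_smul (a := (C * A / (2 * η):ℝ)) (f := f₃) (c := 0) (R := 1)
        simp only [smul_eq_mul] at this
        rw [this]
      rw [e1, e2, zero_add]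
    rw [hcalc] at hfin
    calc _ ≤ Real.circleAverage f₁ 0 1 := hav1
      _ ≤ _ := hfin
      _ ≤ C * A * (η / 2) + C * A / (2 * η) * η ^ 2 := by gcongr
      _ = C * A * η := by field_simp; ring
  -- let r → 1
  have hcont : Continuous (fun r : ℝ => ∑ n ∈ Finset.range m, ‖b n‖ ^ 2 * r ^ (2 * n)) := by
    fun_prop
  have hlim : Tendsto (fun r : ℝ => ∑ n ∈ Finset.range m, ‖b n‖ ^ 2 * r ^ (2 * n)) (𝓝[<] 1)
      (𝓝 (∑ n ∈ Finset.range m, ‖b n‖ ^ 2 * 1 ^ (2 * n))) :=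
    (hcont.tendsto 1).mono_left nhdsWithin_le_nhds
  have := le_of_tendsto hlim (b := C * A * η) (by
    have h1 : Set.Ioo (0:ℝ) 1 ∈ 𝓝[<] (1:ℝ) := Ioo_mem_nhdsLT (by norm_num)
    filter_upwards [h1] with r hr
    exact key r hr.1 hr.2)
  simpa using this

/-- ℓ² -/
abbrev H : Type := lp (fun _ : ℕ => ℂ) 2

lemma lp_sum_le (f : H) (s : Finset ℕ) : ∑ i ∈ s, ‖f i‖ ^ 2 ≤ ‖f‖ ^ 2 := by
  have h := lp.sum_rpow_le_norm_rpow (p := 2) (by norm_num) f s
  simpa using h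

lemma lp_norm_le (f : H) (C : ℝ) (hC : 0 ≤ C) (h : ∀ m, ∑ n ∈ Finset.range m, ‖f n‖ ^ 2 ≤ C ^ 2) :
    ‖f‖ ≤ C := by
  apply lp.norm_le_of_forall_sum_le (p := 2) (by norm_num) hC
  intro s
  obtain ⟨m, hm⟩ : ∃ m, s ⊆ Finset.range m := ⟨s.sup id + 1, fun x hx => by
    simp only [Finset.mem_range]
    exact Nat.lt_succ_of_le (Finset.le_sup (f := id) hx)⟩
  have := (Finset.sum_le_sum_of_subset_of_nonneg hm (f := fun n => ‖f n‖ ^ 2)
    (fun _ _ _ => by positivity)).trans (h m)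
  simpa using this

/-- the rank one operator `a ↦ (S a)_0 e_0` -/
noncomputable def rk (S : H →L[ℂ] H) : H →L[ℂ] H :=
  (lp.singleContinuousLinearMap ℂ (fun _ : ℕ => ℂ) 2 0).comp
    ((lp.evalCLM ℂ (fun _ : ℕ => ℂ) 2 0).comp S)

lemma rk_apply (S : H →L[ℂ] H) (a : H) : rk S a = lp.single 2 0 ((S a) 0) := rfl

lemma rk_compact (S : H →L[ℂ] H) : IsCompactOperator (⇑(rk S)) := by
  have h := isCompactOperator_of_locallyCompactSpace_rng
    (lp.singleContinuousLinearMap ℂ (fun _ : ℕ => ℂ) 2 0)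
  exact h.comp_clm ((lp.evalCLM ℂ (fun _ : ℕ => ℂ) 2 0).comp S)

lemma tsum_zero_pow (b : ℕ → ℂ) : ∑' n, b n * (0:ℂ) ^ n = b 0 := by
  rw [tsum_eq_single 0]
  · simp
  · intro n hn; simp [hn]

/-- truncation -/
noncomputable def trunc (a : H) (N : ℕ) : H := ∑ k ∈ Finset.range N, lp.single 2 k (a k)

lemma trunc_apply (a : H) (N j : ℕ) : trunc a N j = if j < N then a j else 0 := by
  unfold trunc
  rw [lp.coeFn_sum, Finset.sum_apply]
  simp only [lp.single_apply]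
  simp [Pi.single_apply]

lemma op_bound (R : ℝ) (hR0 : 0 ≤ R) (hR1 : R < 1) :
    ∃ C : ℝ, 0 ≤ C ∧ ∀ (S : H →L[ℂ] H) (ψ : ℂ → ℂ) (ω : ℂ),
      DifferentiableOn ℂ ψ (ball 0 1) → Set.MapsTo ψ (ball 0 1) (ball 0 1) → ‖ψ 0‖ ≤ R →
      (∀ a : H, ∀ z ∈ ball (0:ℂ) 1, ∑' n, (S a) n * z ^ n = ∑' n, a n * (ψ z) ^ n) →
      ‖S - rk S‖ ≤ Real.sqrt (C * ‖S (lp.single 2 1 (1:ℂ)) - ω • (lp.single 2 0 (1:ℂ) : H)‖) := by
  obtain ⟨C, hC0, hC⟩ := main_ineq R hR0 hR1
  refine ⟨C, hC0, ?_⟩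
  intro S ψ ω hψd hψm hψ0 hS
  set E : H := S (lp.single 2 1 (1:ℂ)) - ω • (lp.single 2 0 (1:ℂ) : H) with hE
  set η₀ : ℝ := ‖E‖ with hη₀
  have hη₀0 : 0 ≤ η₀ := norm_nonneg _
  have h0mem : (0:ℂ) ∈ ball (0:ℂ) 1 := by simp
  -- evaluation of power series of differences
  have hbdd : ∀ (f : H) (n : ℕ), ‖f n‖ ≤ ‖f‖ := fun f n => lp.norm_apply_le_norm (by norm_num) f n
  have hsub0 : ∀ (f : H) (z : ℂ), z ∈ ball (0:ℂ) 1 →
      ∑' n, (f - lp.single 2 0 (f 0) : H) n * z ^ n = ∑' n, f n * z ^ n - f 0 := by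
    intro f z hz
    have hz' : ‖z‖ < 1 := by simpa using hz
    have h1 : Summable (fun n => f n * z ^ n) := summ f ‖f‖ (hbdd f) z hz'
    have h2 : Summable (fun n => (lp.single 2 0 (f 0) : H) n * z ^ n) :=
      summ _ ‖(lp.single 2 0 (f 0) : H)‖ (hbdd _) z hz'
    have h3 : ∑' n, (lp.single 2 0 (f 0) : H) n * z ^ n = f 0 := by
      rw [tsum_eq_single 0]
      · simp
      · intro n hn; simp [hn]
    rw [← h3, ← h1.tsum_sub h2]
    · apply tsum_congr
      intro n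
      rw [lp.coeFn_sub, Pi.sub_apply, h3]; ring
  -- the sequence c
  set c : H := S (lp.single 2 1 (1:ℂ)) - lp.single 2 0 ((S (lp.single 2 1 (1:ℂ))) 0) with hc
  have hcF : ∀ z ∈ ball (0:ℂ) 1, ∑' n, c n * z ^ n = ψ z - ψ 0 := by
    have h1 : ∀ z ∈ ball (0:ℂ) 1, ∑' n, (S (lp.single 2 1 (1:ℂ))) n * z ^ n = ψ z := by
      intro z hz
      rw [hS _ z hz, tsum_eq_single 1]
      · simp
      · intro n hn; simp [hn]
    intro z hz
    rw [hc, hsub0 _ z hz, h1 z hz]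
    have h2 := h1 0 h0mem
    rw [tsum_zero_pow] at h2
    rw [h2]
  have hcE : ∀ m, ∑ n ∈ Finset.range m, ‖c n‖ ^ 2 ≤ η₀ ^ 2 := by
    intro m
    refine le_trans ?_ (lp_sum_le E (Finset.range m))
    apply Finset.sum_le_sum
    intro n _
    rcases Nat.eq_zero_or_pos n with rfl | hn
    · have : c 0 = 0 := by simp [hc]
      rw [this]; simp
    · have : c n = E n := by
        have hn' : n ≠ 0 := by omega
        rw [hc, hE, lp.coeFn_sub, lp.coeFn_sub, Pi.sub_apply, Pi.sub_apply, lp.coeFn_smul,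
          Pi.smul_apply, lp.single_apply_ne _ _ _ hn', lp.single_apply_ne _ _ _ hn', smul_zero]
      rw [this]
  -- bound for finitely supported vectors
  have hfin : ∀ (a : H) (N : ℕ), ‖(S - rk S) (trunc a N)‖ ≤ Real.sqrt (C * η₀) * ‖a‖ := by
    intro a N
    set a' : H := trunc a N with ha'
    have hsupp : ∀ j, N ≤ j → a' j = 0 := by
      intro j hj
      rw [ha', trunc_apply, if_neg (by omega)]
    have hA : ∑ j ∈ Finset.range N, ‖a' j‖ ^ 2 ≤ ‖a‖ ^ 2 := by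
      refine le_trans (le_of_eq ?_) (lp_sum_le a (Finset.range N))
      apply Finset.sum_congr rfl
      intro j hj
      rw [ha', trunc_apply, if_pos (by simpa using hj)]
    set b : H := (S - rk S) a' with hb
    have hb' : b = S a' - lp.single 2 0 ((S a') 0) := rfl
    have hev : ∀ w : ℂ, ∑' n, a' n * w ^ n = ev a' N w := by
      intro w
      unfold ev
      rw [tsum_eq_sum]
      intro n hn
      rw [hsupp n (by simpa using hn)]; simp
    have hbF : ∀ z ∈ ball (0:ℂ) 1, ∑' n, b n * z ^ n = ev a' N (ψ z) - ev a' N (ψ 0) := by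
      intro z hz
      rw [hb', hsub0 _ z hz, hS a' z hz, hev]
      have h2 := hS a' 0 h0mem
      rw [tsum_zero_pow, hev] at h2
      rw [h2]
    have hineq : ∀ η : ℝ, η₀ < η → ∀ m, ∑ n ∈ Finset.range m, ‖b n‖ ^ 2 ≤ C * ‖a‖ ^ 2 * η := by
      intro η hη m
      have hη0 : 0 < η := lt_of_le_of_lt hη₀0 hη
      have h1 := hC a' N hsupp ψ hψd hψm hψ0 b c (max ‖b‖ ‖c‖)
        (fun n => (hbdd b n).trans (le_max_left _ _)) (fun n => (hbdd c n).trans (le_max_right _ _))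
        hbF hcF η hη0 (fun m => (hcE m).trans (by gcongr)) m
      refine h1.trans ?_
      gcongr
    have hineq0 : ∀ m, ∑ n ∈ Finset.range m, ‖b n‖ ^ 2 ≤ C * ‖a‖ ^ 2 * η₀ := by
      intro m
      have hlim : Tendsto (fun η : ℝ => C * ‖a‖ ^ 2 * η) (𝓝[>] η₀) (𝓝 (C * ‖a‖ ^ 2 * η₀)) := by
        have : Continuous (fun η : ℝ => C * ‖a‖ ^ 2 * η) := by fun_prop
        exact (this.tendsto η₀).mono_left nhdsWithin_le_nhds
      refine ge_of_tendsto hlim ?_
      filter_upwards [self_mem_nhdsWithin] with η hη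
      exact hineq η hη m
    apply lp_norm_le
    · positivity
    · intro m
      rw [mul_pow, Real.sq_sqrt (by positivity)]
      have := hineq0 m
      linarith
  apply ContinuousLinearMap.opNorm_le_bound
  · positivity
  · intro a
    have hlim : Tendsto (fun N => ‖(S - rk S) (trunc a N)‖) atTop (𝓝 ‖(S - rk S) a‖) := by
      have h1 : Tendsto (fun N => trunc a N) atTop (𝓝 a) :=
        (lp.hasSum_single (by norm_num) a).tendsto_sum_nat
      exact (((S - rk S).continuous.tendsto a).comp h1).norm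
    exact le_of_tendsto' hlim (hfin a)

lemma iter_comp (φ : ℂ → ℂ) (hφm : Set.MapsTo φ (ball (0 : ℂ) 1) (ball (0 : ℂ) 1))
    (T : H →L[ℂ] H)
    (hT : ∀ a : H, ∀ z ∈ ball (0 : ℂ) 1, ∑' n : ℕ, (T a) n * z ^ n = ∑' n : ℕ, a n * (φ z) ^ n)
    (n : ℕ) : ∀ a : H, ∀ z ∈ ball (0 : ℂ) 1,
      ∑' k : ℕ, ((T ^ n) a) k * z ^ k = ∑' k : ℕ, a k * (φ^[n] z) ^ k := by
  induction n with
  | zero => intro a z _; simp
  | succ n ih =>
    intro a z hz
    rw [pow_succ]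
    have h1 : (T ^ n * T) a = (T ^ n) (T a) := rfl
    rw [h1, ih (T a) z hz, hT a (φ^[n] z) (hφm.iterate n hz), Function.iterate_succ_apply']

theorem main_thm :
    ∀ (φ : ℂ → ℂ) (ω : ℂ),
      DifferentiableOn ℂ φ (ball (0 : ℂ) 1) →
      Set.MapsTo φ (ball (0 : ℂ) 1) (ball (0 : ℂ) 1) →
      ω ∈ ball (0 : ℂ) 1 →
      ∀ T : lp (fun _ : ℕ => ℂ) 2 →L[ℂ] lp (fun _ : ℕ => ℂ) 2,
        (∀ a : lp (fun _ : ℕ => ℂ) 2, ∀ z ∈ ball (0 : ℂ) 1,
          ∑' n : ℕ, (T a) n * z ^ n = ∑' n : ℕ, a n * (φ z) ^ n) →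
        Tendsto (fun n : ℕ =>
            ‖(T ^ n) (lp.single 2 1 (1 : ℂ) : lp (fun _ : ℕ => ℂ) 2)
              - ω • (lp.single 2 0 (1 : ℂ) : lp (fun _ : ℕ => ℂ) 2)‖ ^ ((n : ℝ)⁻¹))
          atTop (𝓝 0) →
        Tendsto (fun n : ℕ =>
            (⨅ K : {K : lp (fun _ : ℕ => ℂ) 2 →L[ℂ] lp (fun _ : ℕ => ℂ) 2 // IsCompactOperator (⇑K)},
              ‖T ^ n - K.1‖) ^ ((n : ℝ)⁻¹))
          atTop (𝓝 0) := by
  intro φ ω hφd hφm hω T hT hlim
  have hω1 : ‖ω‖ < 1 := by simpa using hω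
  set R : ℝ := (1 + ‖ω‖) / 2 with hR
  have hR0 : 0 ≤ R := by rw [hR]; positivity
  have hR1 : R < 1 := by rw [hR]; linarith
  obtain ⟨C, hC0, hC⟩ := op_bound R hR0 hR1
  set E : ℕ → H := fun n => (T ^ n) (lp.single 2 1 (1 : ℂ) : lp (fun _ : ℕ => ℂ) 2)
              - ω • (lp.single 2 0 (1 : ℂ) : lp (fun _ : ℕ => ℂ) 2) with hE
  have hlim' : Tendsto (fun n : ℕ => ‖E n‖ ^ ((n : ℝ)⁻¹)) atTop (𝓝 0) := hlim
  set δ : ℝ := (1 - ‖ω‖) / 2 with hδ
  have hδ0 : 0 < δ := by rw [hδ]; linarith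
  have hδ1 : δ ≤ 1 := by rw [hδ]; linarith [norm_nonneg ω]
  -- E n is eventually small
  have hEsmall : ∀ᶠ n in atTop, ‖E n‖ ≤ δ := by
    have h1 := hlim'.eventually (gt_mem_nhds hδ0)
    filter_upwards [h1, eventually_ge_atTop 1] with n hn hn1
    have hn0 : (0:ℝ) < n := by exact_mod_cast hn1
    have h2 : ‖E n‖ = (‖E n‖ ^ ((n : ℝ)⁻¹)) ^ (n : ℝ) := by
      rw [← Real.rpow_mul (norm_nonneg _), inv_mul_cancel₀ hn0.ne', Real.rpow_one]
    rw [h2]
    calc (‖E n‖ ^ ((n : ℝ)⁻¹)) ^ (n : ℝ) ≤ δ ^ (n : ℝ) := by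
          apply Real.rpow_le_rpow (by positivity) hn.le hn0.le
      _ = δ ^ n := Real.rpow_natCast _ _
      _ ≤ δ ^ 1 := pow_le_pow_of_le_one hδ0.le hδ1 hn1
      _ = δ := pow_one _
  -- main bound
  have hbound : ∀ᶠ n in atTop,
      (⨅ K : {K : lp (fun _ : ℕ => ℂ) 2 →L[ℂ] lp (fun _ : ℕ => ℂ) 2 // IsCompactOperator (⇑K)},
              ‖T ^ n - K.1‖) ≤ Real.sqrt ((C + 1) * ‖E n‖) := by
    filter_upwards [hEsmall] with n hn
    have hiter := iter_comp φ hφm T hT n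
    have h0mem : (0:ℂ) ∈ ball (0:ℂ) 1 := by simp
    have hψ0 : ‖φ^[n] 0‖ ≤ R := by
      have h1 : ((T ^ n) (lp.single 2 1 (1 : ℂ) : H)) 0 = φ^[n] 0 := by
        have h2 := hiter (lp.single 2 1 (1 : ℂ) : H) 0 h0mem
        rw [tsum_zero_pow] at h2
        rw [h2, tsum_eq_single 1]
        · simp
        · intro k hk; simp [hk]
      have h3 : (E n) 0 = φ^[n] 0 - ω := by
        simp only [hE]
        rw [lp.coeFn_sub, Pi.sub_apply, h1]
        simp
      have h4 : ‖φ^[n] 0 - ω‖ ≤ δ := by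
        rw [← h3]
        exact (lp.norm_apply_le_norm (by norm_num) (E n) 0).trans hn
      calc ‖φ^[n] 0‖ = ‖(φ^[n] 0 - ω) + ω‖ := by ring_nf
        _ ≤ ‖φ^[n] 0 - ω‖ + ‖ω‖ := norm_add_le _ _
        _ ≤ δ + ‖ω‖ := by gcongr
        _ = R := by rw [hδ, hR]; ring
    have h5 := hC (T ^ n) (φ^[n]) ω (hφd.iterate hφm n) (hφm.iterate n) hψ0 hiter
    have h6 : (⨅ K : {K : lp (fun _ : ℕ => ℂ) 2 →L[ℂ] lp (fun _ : ℕ => ℂ) 2 //
        IsCompactOperator (⇑K)}, ‖T ^ n - K.1‖) ≤ ‖T ^ n - rk (T ^ n)‖ := by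
      apply ciInf_le (f := fun K : {K : lp (fun _ : ℕ => ℂ) 2 →L[ℂ] lp (fun _ : ℕ => ℂ) 2 //
        IsCompactOperator (⇑K)} => ‖T ^ n - K.1‖) _ ⟨rk (T ^ n), rk_compact (T ^ n)⟩
      exact ⟨0, by rintro _ ⟨K, rfl⟩; exact norm_nonneg _⟩
    refine h6.trans (h5.trans ?_)
    apply Real.sqrt_le_sqrt
    have : 0 ≤ ‖E n‖ := norm_nonneg _
    nlinarith
  -- limits
  have hl1 : Tendsto (fun n : ℕ => (Real.sqrt (C + 1)) ^ ((n : ℝ)⁻¹)) atTop (𝓝 1) := by
    have h1 : Tendsto (fun n : ℕ => ((n : ℝ)⁻¹)) atTop (𝓝 0) := tendsto_inv_atTop_nhds_zero_nat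
    have h2 : Real.sqrt (C + 1) ≠ 0 := by positivity
    have h3 := (Real.continuousAt_const_rpow (a := Real.sqrt (C + 1)) (b := 0) h2).tendsto.comp h1
    simpa [Function.comp_def] using h3
  have hl2 : Tendsto (fun n : ℕ => Real.sqrt (‖E n‖ ^ ((n : ℝ)⁻¹))) atTop (𝓝 0) := by
    have := (Real.continuous_sqrt.tendsto 0).comp hlim'
    simpa [Function.comp_def] using this
  have hl3 := hl1.mul hl2
  rw [mul_zero] at hl3
  refine squeeze_zero' ?_ ?_ hl3
  · refine Eventually.of_forall (fun n => ?_)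
    apply Real.rpow_nonneg
    exact Real.iInf_nonneg (fun K => norm_nonneg _)
  · filter_upwards [hbound] with n hn
    have h0 : 0 ≤ (⨅ K : {K : lp (fun _ : ℕ => ℂ) 2 →L[ℂ] lp (fun _ : ℕ => ℂ) 2 //
        IsCompactOperator (⇑K)}, ‖T ^ n - K.1‖) := Real.iInf_nonneg (fun K => norm_nonneg _)
    calc _ ≤ (Real.sqrt ((C + 1) * ‖E n‖)) ^ ((n : ℝ)⁻¹) := by
          apply Real.rpow_le_rpow h0 hn (by positivity)
      _ = _ := by
          rw [Real.sqrt_mul (by positivity), Real.mul_rpow (Real.sqrt_nonneg _) (Real.sqrt_nonneg _)]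
          congr 1
          rw [Real.sqrt_eq_rpow, Real.sqrt_eq_rpow, ← Real.rpow_mul (norm_nonneg _),
            ← Real.rpow_mul (norm_nonneg _), mul_comm]


/-- For every non-inner holomorphic selfmap φ of the unit disc fixing ω with ‖φ^[n] − ω‖_{H²}^{1/n} → 0, the composition operator C_φ on H² (coefficient model ℓ²) has essential spectral radius zero. -/
theorem result :
    ∀ (φ : ℂ → ℂ) (ω : ℂ),
      DifferentiableOn ℂ φ (ball (0 : ℂ) 1) →
      Set.MapsTo φ (ball (0 : ℂ) 1) (ball (0 : ℂ) 1) →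
      ω ∈ ball (0 : ℂ) 1 →
      φ ω = ω →
      (¬ ∀ᵐ θ : ℝ, Tendsto (fun r : ℝ => ‖φ ((r : ℂ) * exp ((θ : ℂ) * I))‖) (𝓝[<] (1 : ℝ)) (𝓝 1)) →
      ∀ T : lp (fun _ : ℕ => ℂ) 2 →L[ℂ] lp (fun _ : ℕ => ℂ) 2,
        (∀ a : lp (fun _ : ℕ => ℂ) 2, ∀ z ∈ ball (0 : ℂ) 1,
          ∑' n : ℕ, (T a) n * z ^ n = ∑' n : ℕ, a n * (φ z) ^ n) →
        Tendsto (fun n : ℕ =>
            ‖(T ^ n) (lp.single 2 1 (1 : ℂ) : lp (fun _ : ℕ => ℂ) 2)
              - ω • (lp.single 2 0 (1 : ℂ) : lp (fun _ : ℕ => ℂ) 2)‖ ^ ((n : ℝ)⁻¹))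
          atTop (𝓝 0) →
        Tendsto (fun n : ℕ =>
            (⨅ K : {K : lp (fun _ : ℕ => ℂ) 2 →L[ℂ] lp (fun _ : ℕ => ℂ) 2 // IsCompactOperator (⇑K)},
              ‖T ^ n - K.1‖) ^ ((n : ℝ)⁻¹))
          atTop (𝓝 0) := by
  intro φ ω hφd hφm hω _ _ T hT hlim
  exact main_thm φ ω hφd hφm hω T hT hlim

end Pool.Agent.S06599
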