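import Pool.Statements.S01185
import Pool.Agent.H68.AltMain

set_option autoImplicit false
open Pool Pool.MP_3720ba_al

namespace Pool.Agent.S01185

/-- For every characteristic-0 field F, there are two sets of identities, each failing in some alternative F-algebra, such that any identity true in all alternative algebras satisfying either set is true in all alternative algebras. -/
theorem result :
  ∀ (F : Type) [Field F] [CharZero F],
    ∃ S₁ S₂ : Set (FreeNonUnitalNonAssocAlgebra F ℕ),
      (∃ (A : Type) (_ : NonUnitalNonAssocRing A) (_ : Module F A)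
          (_ : IsScalarTower F A A) (_ : SMulCommClass F A A),
          (∀ x y : A, (x * x) * y = x * (x * y) ∧ (y * x) * x = y * (x * x)) ∧
          ∃ s ∈ S₁, ∃ φ : ℕ → A, FreeNonUnitalNonAssocAlgebra.lift F φ s ≠ 0) ∧
      (∃ (A : Type) (_ : NonUnitalNonAssocRing A) (_ : Module F A)
          (_ : IsScalarTower F A A) (_ : SMulCommClass F A A),
          (∀ x y : A, (x * x) * y = x * (x * y) ∧ (y * x) * x = y * (x * x)) ∧
          ∃ s ∈ S₂, ∃ φ : ℕ → A, FreeNonUnitalNonAssocAlgebra.lift F φ s ≠ 0) ∧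
      (∀ f : FreeNonUnitalNonAssocAlgebra F ℕ,
        (∀ (A : Type) [NonUnitalNonAssocRing A] [Module F A]
            [IsScalarTower F A A] [SMulCommClass F A A],
            (∀ x y : A, (x * x) * y = x * (x * y) ∧ (y * x) * x = y * (x * x)) →
            (∀ s ∈ S₁, ∀ φ : ℕ → A, FreeNonUnitalNonAssocAlgebra.lift F φ s = 0) →
            ∀ φ : ℕ → A, FreeNonUnitalNonAssocAlgebra.lift F φ f = 0) →
        (∀ (A : Type) [NonUnitalNonAssocRing A] [Module F A]
            [IsScalarTower F A A] [SMulCommClass F A A],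
            (∀ x y : A, (x * x) * y = x * (x * y) ∧ (y * x) * x = y * (x * x)) →
            (∀ s ∈ S₂, ∀ φ : ℕ → A, FreeNonUnitalNonAssocAlgebra.lift F φ s = 0) →
            ∀ φ : ℕ → A, FreeNonUnitalNonAssocAlgebra.lift F φ f = 0) →
        ∀ (A : Type) [NonUnitalNonAssocRing A] [Module F A]
            [IsScalarTower F A A] [SMulCommClass F A A],
            (∀ x y : A, (x * x) * y = x * (x * y) ∧ (y * x) * x = y * (x * x)) →
            ∀ φ : ℕ → A, FreeNonUnitalNonAssocAlgebra.lift F φ f = 0) := by
  intro F _ _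
  refine ⟨{Pool.Agent.H68.idA F}, {Pool.Agent.H68.idU F}, ?_, ?_, ?_⟩
  · refine ⟨Pool.Agent.H68.Ex7 F, inferInstance, inferInstance, inferInstance, inferInstance,
      Pool.Agent.H68.ex7_alt F, Pool.Agent.H68.idA F, rfl, Pool.Agent.H68.ex7_assoc F⟩
  · refine ⟨Matrix (Fin 3) (Fin 3) F, inferInstance, inferInstance, inferInstance, inferInstance,
      ?_, Pool.Agent.H68.idU F, rfl, Pool.Agent.H68.matrix_ex F⟩
    intro x y
    exact ⟨mul_assoc x x y, mul_assoc y x x⟩
  · intro f h1 h2 A _ _ _ _ hA φ
    apply Pool.Agent.H68.key F f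
    · apply h1 (Pool.Agent.H68.FR F)
      · intro x y
        exact ⟨mul_assoc x x y, mul_assoc y x x⟩
      · intro s hs φ
        rw [Set.mem_singleton_iff] at hs
        rw [hs, Pool.Agent.H68.lift_idA, associator, mul_assoc, sub_self]
    · have h3 := h2 (Pool.Agent.H68.QQ F) (Pool.Agent.H68.QQ_alt F)
        (by
          intro s hs φ
          rw [Set.mem_singleton_iff] at hs
          rw [hs]
          exact Pool.Agent.H68.QQ_idU F φ)
        (fun i => Pool.Agent.H68.homQ F (FreeNonUnitalNonAssocAlgebra.of F i))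
      rw [← Pool.Agent.H68.lift_lift F (Pool.Agent.H68.homQ F), Pool.Agent.H68.lift_of] at h3
      have h4 : Pool.Agent.H68.mkQ F f = Pool.Agent.H68.mkQ F 0 := h3
      rw [Pool.Agent.H68.mkQ_eq, sub_zero] at h4
      exact h4
    · exact Pool.Agent.H68.isAlt_of F hA

end Pool.Agent.S01185
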