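import Pool.Statements.S01490
import Pool.Agent.H57.U2

set_option autoImplicit false
open Pool Pool.MP_54877a_al

namespace Pool.Agent.S01490

/-- The negation of the preceding statement: For every geodesic Gromov-hyperbolic metric space S and every group G of isometries of S containing two independent loxodromic isometries (general type), every orbit of the Frattini subgroup of G on S is bounded. -/
theorem result :
    ¬ (∀ (S : Type) [MetricSpace S],
      (∀ x y : S, ∃ γ : ℝ → S, γ 0 = x ∧ γ (dist x y) = y ∧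
        ∀ s ∈ Set.Icc (0:ℝ) (dist x y), ∀ t ∈ Set.Icc (0:ℝ) (dist x y),
          dist (γ s) (γ t) = |s - t|) →
      (∃ δ : ℝ, ∀ x y z w : S,
        min ((dist w x + dist w z - dist x z) / 2) ((dist w y + dist w z - dist y z) / 2) - δ
          ≤ (dist w x + dist w y - dist x y) / 2) →
      ∀ G : Subgroup (S ≃ᵢ S),
        (∃ g ∈ G, ∃ h ∈ G, ∃ x : S, ∃ c : ℝ, 0 < c ∧ ∃ C : ℝ,
          (∀ n : ℤ, c * |(n:ℝ)| ≤ dist x ((g ^ n) x) ∧ c * |(n:ℝ)| ≤ dist x ((h ^ n) x)) ∧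
          ∀ n m : ℤ,
            (dist x ((g ^ n) x) + dist x ((h ^ m) x) - dist ((g ^ n) x) ((h ^ m) x)) / 2 ≤ C) →
        ∀ x : S, Bornology.IsBounded
          (Set.range (fun k : frattini ↥G => ((k : ↥G) : S ≃ᵢ S) x))) := by
  intro H
  have hne : Nonempty H57.V := ⟨H57.nil⟩
  have h := H (H57.TreeMet.Re H57.TV) H57.TreeMet.geod H57.TreeMet.hyp H57.phi.range ?_
    (H57.TV.io H57.nil)
  · rw [Metric.isBounded_iff] at h
    obtain ⟨C, hC⟩ := h
    obtain ⟨k, hk⟩ := exists_nat_ge C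
    obtain ⟨l, hl, hld⟩ := H57.LL_unbounded k
    have hlG : l ∈ H57.GG := H57.NN_le_GG (H57.LL_le_NN hl)
    have h1 := hC (x := H57.TV.io H57.nil) ⟨1, rfl⟩
      (y := H57.TV.io (l H57.nil))
      ⟨⟨H57.phi.rangeRestrict ⟨l, hlG⟩, H57.LL_frattini hl hlG⟩, H57.phi_io ⟨l, hlG⟩ H57.nil⟩
    rw [H57.TreeMet.dist_io] at h1
    have h2 : H57.TV.D H57.nil (l H57.nil) = 2 * ((k : ℝ) + 1) := by
      change ((H57.d _ _ : ℕ) : ℝ) = _
      rw [hld]; push_cast; ring
    rw [h2] at h1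
    have h3 : (0 : ℝ) ≤ k := Nat.cast_nonneg k
    linarith
  · refine ⟨H57.phi ⟨H57.tr true, H57.NN_le_GG (H57.tr_mem_NN true)⟩, ⟨_, rfl⟩,
      H57.phi ⟨H57.t2, H57.NN_le_GG H57.t2_mem⟩, ⟨_, rfl⟩, H57.TV.io H57.nil, 1, one_pos, 0, ?_, ?_⟩
    · intro n
      rw [← map_zpow, ← map_zpow, H57.phi_io, H57.phi_io, H57.TreeMet.dist_io,
        H57.TreeMet.dist_io, one_mul]
      exact ⟨H57.disp (H57.tr_mem_ISO true) H57.tr_nil_ht n, H57.disp H57.t2_mem.1 H57.t2_ht n⟩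
    · intro n m
      rw [← map_zpow, ← map_zpow, H57.phi_io, H57.phi_io, H57.TreeMet.dist_io,
        H57.TreeMet.dist_io, H57.TreeMet.dist_io]
      exact H57.gromov n m

end Pool.Agent.S01490
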