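import Pool.Statements.S01992
import Pool.Agent.LP.Final

set_option autoImplicit false
open Pool Pool.MP_791a91_al

namespace Pool.Agent.S01992

/-- The negation of the preceding statement: Every finitely generated contracting self-similar group acting faithfully on a finite-alphabet rooted tree is isomorphic to a group presented by finitely many free generators and all images of finitely many relators under the monoid generated by finitely many endomorphisms. -/
theorem result :
    ¬ (∀ (d : ℕ) (G : Subgroup (Equiv.Perm (List (Fin d)))),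
    Group.FG G →
    (∀ g ∈ G, g [] = []) →
    (∀ g ∈ G, ∀ x : Fin d, ∃ y : Fin d, ∃ h ∈ G, ∀ w : List (Fin d), g (x :: w) = y :: h w) →
    (∃ N : Finset (Equiv.Perm (List (Fin d))), ∀ g ∈ G, ∃ k : ℕ, ∀ v : List (Fin d),
        k ≤ v.length → ∀ h ∈ G, (∀ w : List (Fin d), g (v ++ w) = g v ++ h w) → h ∈ N) →
    ∃ (m : ℕ) (R : Finset (FreeGroup (Fin m))) (Φ : Finset (Monoid.End (FreeGroup (Fin m)))),
      Nonempty (G ≃* PresentedGroup {x : FreeGroup (Fin m) |
        ∃ φ ∈ Submonoid.closure (Φ : Set (Monoid.End (FreeGroup (Fin m)))), ∃ r ∈ R, x = φ r})) := by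
  intro hall
  obtain ⟨d, G, h1, h2, h3, h4, h5⟩ := Pool.LP.exists_group Pool.LP.alt_five_noncomm
  obtain ⟨m, R, Φ, h⟩ := hall d G h1 h2 h3 h4
  exact h5 m R Φ h

end Pool.Agent.S01992
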