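import Pool.Statements.S02686
import Pool.Agent.H64.TwoSidedFree

set_option autoImplicit false
open Pool Pool.MP_adca84_al

namespace Pool.Agent.S02686

/-- The negation of the preceding statement: For every group G and every partition of G into n cells, some cell A and some set F of at most n pairs (x,y) in G×G satisfy: every element of G equals x·a·b⁻¹·y for some (x,y) in F and a,b in A. -/
theorem result :
    ¬ (∀ (G : Type) [Group G] (n : ℕ) (A : Fin n → Set G),
      (∀ g : G, ∃ i, g ∈ A i) →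
      (∀ i j, i ≠ j → Disjoint (A i) (A j)) →
      ∃ i : Fin n, ∃ F : Finset (G × G), F.card ≤ n ∧
        ∀ g : G, ∃ p ∈ F, ∃ a ∈ A i, ∃ b ∈ A i, g = p.1 * a * b⁻¹ * p.2) := by
  intro H
  obtain ⟨c, hc⟩ := Pool.Agent.H64.TwoSided.exists_free_coloring
  obtain ⟨i, F, hF, hcov⟩ := H (FreeGroup ℕ) 12 (fun i => {g | c g⁻¹ = i})
    (fun g => ⟨c g⁻¹, rfl⟩)
    (by
      intro i j hij
      rw [Set.disjoint_left]
      intro g hg hg'
      exact hij (hg.symm.trans hg'))
  obtain ⟨g, hg⟩ := hc i (F.image Prod.fst) (F.image (fun p => p.2⁻¹))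
    (Finset.card_image_le.trans hF) (Finset.card_image_le.trans hF)
  obtain ⟨p, hp, a, ha, b, hb, hab⟩ := hcov g
  refine hg p.1 (Finset.mem_image_of_mem _ hp) p.2⁻¹
    (Finset.mem_image_of_mem (fun p : FreeGroup ℕ × FreeGroup ℕ => p.2⁻¹) hp) a⁻¹ b⁻¹ ?_
    ⟨ha, hb⟩
  rw [hab]
  group

end Pool.Agent.S02686
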