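import Pool.Statements.S02756
import Pool.Agent.H47.QTetraEnd

set_option autoImplicit false
open Pool Pool.MP_b29e0e_al

namespace Pool.Agent.S02756

/-- The negation of the preceding statement: For any tridiagonal pair A, A* on a finite-dimensional space over an algebraically closed field satisfying the tridiagonal relations with β=q²+q⁻², q not a root of unity, V carries an irreducible q-tetrahedron algebra module with A in span(x01,x12,I), A* in span(x23,x30,I). -/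
theorem result :
    ¬ (∀ (K : Type) [Field K] [IsAlgClosed K] (V : Type) [AddCommGroup V] [Module K V]
      [FiniteDimensional K V] (A As : Module.End K V) (q : K),
      q ≠ 0 → (∀ n : ℕ, 0 < n → q ^ n ≠ 1) →
      Nontrivial V →
      (∃ d : ℕ, ∃ θ : Fin (d + 1) → K, Function.Injective θ ∧
        (∀ i, Module.End.eigenspace A (θ i) ≠ ⊥) ∧
        (⨆ i, Module.End.eigenspace A (θ i)) = ⊤ ∧
        ∀ i : Fin (d + 1), Submodule.map As (Module.End.eigenspace A (θ i)) ≤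
          ⨆ (j : Fin (d + 1)) (_ : (j : ℕ) ≤ (i : ℕ) + 1 ∧ (i : ℕ) ≤ (j : ℕ) + 1),
            Module.End.eigenspace A (θ j)) →
      (∃ d : ℕ, ∃ θ : Fin (d + 1) → K, Function.Injective θ ∧
        (∀ i, Module.End.eigenspace As (θ i) ≠ ⊥) ∧
        (⨆ i, Module.End.eigenspace As (θ i)) = ⊤ ∧
        ∀ i : Fin (d + 1), Submodule.map A (Module.End.eigenspace As (θ i)) ≤
          ⨆ (j : Fin (d + 1)) (_ : (j : ℕ) ≤ (i : ℕ) + 1 ∧ (i : ℕ) ≤ (j : ℕ) + 1),
            Module.End.eigenspace As (θ j)) →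
      (∀ W : Submodule K V, (∀ v ∈ W, A v ∈ W) → (∀ v ∈ W, As v ∈ W) → W = ⊥ ∨ W = ⊤) →
      (∃ γ γs ϱ ϱs : K,
        A * (A ^ 2 * As - (q ^ 2 + q⁻¹ ^ 2) • (A * As * A) + As * A ^ 2
              - γ • (A * As + As * A) - ϱ • As)
          = (A ^ 2 * As - (q ^ 2 + q⁻¹ ^ 2) • (A * As * A) + As * A ^ 2
              - γ • (A * As + As * A) - ϱ • As) * A ∧
        As * (As ^ 2 * A - (q ^ 2 + q⁻¹ ^ 2) • (As * A * As) + A * As ^ 2
              - γs • (A * As + As * A) - ϱs • A)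
          = (As ^ 2 * A - (q ^ 2 + q⁻¹ ^ 2) • (As * A * As) + A * As ^ 2
              - γs • (A * As + As * A) - ϱs • A) * As) →
      ∃ X : ZMod 4 → ZMod 4 → Module.End K V,
        (∀ i j : ZMod 4, j - i = 2 → X i j * X j i = 1) ∧
        (∀ i j k : ZMod 4,
          ((j - i = 1 ∧ k - j = 1) ∨ (j - i = 1 ∧ k - j = 2) ∨ (j - i = 2 ∧ k - j = 1)) →
          q • (X i j * X j k) - q⁻¹ • (X j k * X i j) = (q - q⁻¹) • (1 : Module.End K V)) ∧
        (∀ i j k l : ZMod 4, j - i = 1 → k - j = 1 → l - k = 1 →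
          X i j ^ 3 * X k l - (q ^ 2 + 1 + q⁻¹ ^ 2) • (X i j ^ 2 * X k l * X i j)
            + (q ^ 2 + 1 + q⁻¹ ^ 2) • (X i j * X k l * X i j ^ 2) - X k l * X i j ^ 3 = 0) ∧
        (∀ W : Submodule K V,
          (∀ i j : ZMod 4, (j - i = 1 ∨ j - i = 2) → ∀ v ∈ W, X i j v ∈ W) →
          W = ⊥ ∨ W = ⊤) ∧
        (∃ a b c : K, A = a • X 0 1 + b • X 1 2 + c • (1 : Module.End K V)) ∧
        (∃ a b c : K, As = a • X 2 3 + b • X 3 0 + c • (1 : Module.End K V))) := by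
  intro H
  have h2 : ∀ n : ℕ, 0 < n → (2 : ℂ) ^ n ≠ 1 := by
    intro n hn h
    have h3 : (2 : ℕ) ^ n = 1 := by exact_mod_cast h
    have h4 : 1 < (2 : ℕ) ^ n := Nat.one_lt_two_pow hn.ne'
    omega
  obtain ⟨X, hinv, hq, -, -, hA, hB⟩ := H ℂ (Fin 4 → ℂ) Pool.Agent.H47.QTetra.LA
    Pool.Agent.H47.QTetra.LB 2 two_ne_zero h2 inferInstance Pool.Agent.H47.QTetra.pair_A
    Pool.Agent.H47.QTetra.pair_B Pool.Agent.H47.QTetra.irred Pool.Agent.H47.QTetra.td_rel
  exact Pool.Agent.H47.QTetra.no_module X hinv hq hA hB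

end Pool.Agent.S02756
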