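import Pool.Statements.S04108
-- import your own Pool.Agent.* helpers here

set_option autoImplicit false
open Pool Pool.MP_275f89_an

namespace Pool.Agent.S04108

/-- The identity `ε₀`. -/
noncomputable def eps0 : ℝ → ℝ := fun x : ℝ => if 0 < x then (1 : ℝ) else 0

/-- The threshold element `t`: `1/2` on `(0,1]` and `1` on `(1,∞)`. -/
noncomputable def tt : ℝ → ℝ := fun x : ℝ => if 0 < x then (if 1 < x then (1 : ℝ) else 1 / 2) else 0

/-- The value element `s`: `1/3` on `(0,∞)`. -/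
noncomputable def ss : ℝ → ℝ := fun x : ℝ => if 0 < x then (1 / 3 : ℝ) else 0

/-- The element agreeing with `t` on `(-∞,1]` but not above `t`: `1/2` on `(0,∞)`. -/
noncomputable def uu : ℝ → ℝ := fun x : ℝ => if 0 < x then (1 / 2 : ℝ) else 0

open Classical in
/-- The non-causal triangle function. -/
noncomputable def tau (F G : ℝ → ℝ) : ℝ → ℝ :=
  if F = eps0 then G else if G = eps0 then F else if tt ≤ F ∧ tt ≤ G then ss else 0

/-- The space of distance distribution functions. -/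
def DD : Set (ℝ → ℝ) := {F : ℝ → ℝ | Monotone F ∧ (∀ x, 0 ≤ F x ∧ F x ≤ 1) ∧ (∀ x : ℝ, x ≤ 0 → F x = 0) ∧
            ∀ x : ℝ, ContinuousWithinAt F (Set.Iio x) x}

/-- A left-closed step is left-continuous. -/
lemma step_cont (c : ℝ) (a b : ℝ) (x : ℝ) :
    ContinuousWithinAt (fun y : ℝ => if c < y then a else b) (Set.Iio x) x := by
  by_cases h : c < x
  · have : (fun y : ℝ => if c < y then a else b) =ᶠ[nhdsWithin x (Set.Iio x)] fun _ => a := by
      have : ∀ᶠ y in nhdsWithin x (Set.Iio x), c < y :=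
        (eventually_gt_nhds h).filter_mono nhdsWithin_le_nhds
      filter_upwards [this] with y hy
      simp [hy]
    refine ContinuousWithinAt.congr_of_eventuallyEq continuousWithinAt_const this ?_
    simp [h]
  · have : (fun y : ℝ => if c < y then a else b) =ᶠ[nhdsWithin x (Set.Iio x)] fun _ => b := by
      filter_upwards [self_mem_nhdsWithin] with y hy
      have hy' : y < x := hy
      have : ¬ c < y := by
        intro hc
        exact h (hc.trans hy')
      simp [this]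
    refine ContinuousWithinAt.congr_of_eventuallyEq continuousWithinAt_const this ?_
    simp [h]

lemma ss_mem : ss ∈ DD := by
  refine ⟨?_, ?_, ?_, ?_⟩
  · intro x y hxy
    unfold ss
    split_ifs <;> first | (exfalso; linarith) | norm_num
  · intro x
    unfold ss
    split_ifs <;> norm_num
  · intro x hx
    unfold ss
    simp [not_lt.mpr hx]
  · intro x
    exact step_cont 0 _ _ x

lemma uu_mem : uu ∈ DD := by
  refine ⟨?_, ?_, ?_, ?_⟩
  · intro x y hxy
    unfold uu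
    split_ifs <;> first | (exfalso; linarith) | norm_num
  · intro x
    unfold uu
    split_ifs <;> norm_num
  · intro x hx
    unfold uu
    simp [not_lt.mpr hx]
  · intro x
    exact step_cont 0 _ _ x

lemma zero_mem : (0 : ℝ → ℝ) ∈ DD := by
  refine ⟨?_, ?_, ?_, ?_⟩
  · intro x y hxy
    simp
  · intro x
    simp
  · intro x hx
    simp
  · intro x
    exact continuousWithinAt_const

lemma tt_eq : tt = fun x => uu x + (if 1 < x then (1 / 2 : ℝ) else 0) := by
  funext x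
  unfold tt uu
  split_ifs <;> first | (exfalso; linarith) | norm_num

lemma tt_mem : tt ∈ DD := by
  refine ⟨?_, ?_, ?_, ?_⟩
  · intro x y hxy
    unfold tt
    split_ifs <;> first | (exfalso; linarith) | norm_num
  · intro x
    unfold tt
    split_ifs <;> norm_num
  · intro x hx
    unfold tt
    simp [not_lt.mpr hx]
  · intro x
    rw [tt_eq]
    exact ContinuousWithinAt.add (step_cont 0 _ _ x) (step_cont 1 _ _ x)

lemma le_eps0 {F : ℝ → ℝ} (hF : F ∈ DD) : F ≤ eps0 := by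
  intro x
  unfold eps0
  split_ifs with h
  · exact (hF.2.1 x).2
  · rw [hF.2.2.1 x (not_lt.mp h)]

lemma eq_eps0_of_le {F : ℝ → ℝ} (hF : F ∈ DD) (h : eps0 ≤ F) : F = eps0 :=
  le_antisymm (le_eps0 hF) h

lemma ss_le_tt : ss ≤ tt := by
  intro x
  unfold ss tt
  split_ifs <;> norm_num

lemma ss_ne_eps0 : ss ≠ eps0 := by
  intro h
  have := congrFun h 1
  unfold ss eps0 at this
  norm_num at this

lemma zero_ne_eps0 : (0 : ℝ → ℝ) ≠ eps0 := by
  intro h
  have := congrFun h 1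
  unfold eps0 at this
  norm_num at this

lemma tt_ne_eps0 : tt ≠ eps0 := by
  intro h
  have := congrFun h 1
  unfold tt eps0 at this
  norm_num at this

lemma uu_ne_eps0 : uu ≠ eps0 := by
  intro h
  have := congrFun h 1
  unfold uu eps0 at this
  norm_num at this

lemma not_tt_le_ss : ¬ tt ≤ ss := by
  intro h
  have := h 1
  unfold tt ss at this
  norm_num at this

lemma not_tt_le_zero : ¬ tt ≤ (0 : ℝ → ℝ) := by
  intro h
  have := h 1
  unfold tt at this
  norm_num at this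

lemma not_tt_le_uu : ¬ tt ≤ uu := by
  intro h
  have := h 2
  unfold tt uu at this
  norm_num at this

lemma tau_eps0_left (G : ℝ → ℝ) : tau eps0 G = G := by
  unfold tau; simp

lemma tau_eps0_right (F : ℝ → ℝ) : tau F eps0 = F := by
  unfold tau
  by_cases h : F = eps0
  · simp [h]
  · simp [h]

lemma tau_of_ne {F G : ℝ → ℝ} (hF : F ≠ eps0) (hG : G ≠ eps0) :
    tau F G = (open Classical in if tt ≤ F ∧ tt ≤ G then ss else 0) := by
  unfold tau
  simp [hF, hG]

lemma tau_cases {F G : ℝ → ℝ} (hF : F ≠ eps0) (hG : G ≠ eps0) :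
    tau F G = ss ∨ tau F G = 0 := by
  rw [tau_of_ne hF hG]
  split_ifs
  · exact Or.inl rfl
  · exact Or.inr rfl

lemma tau_ss_left {G : ℝ → ℝ} (hG : G ≠ eps0) : tau ss G = 0 := by
  rw [tau_of_ne ss_ne_eps0 hG]
  rw [if_neg]
  exact fun h => not_tt_le_ss h.1

lemma tau_ss_right {G : ℝ → ℝ} (hG : G ≠ eps0) : tau G ss = 0 := by
  rw [tau_of_ne hG ss_ne_eps0]
  rw [if_neg]
  exact fun h => not_tt_le_ss h.2

lemma tau_zero_left {G : ℝ → ℝ} (hG : G ≠ eps0) : tau 0 G = 0 := by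
  rw [tau_of_ne zero_ne_eps0 hG]
  rw [if_neg]
  exact fun h => not_tt_le_zero h.1

lemma tau_zero_right {G : ℝ → ℝ} (hG : G ≠ eps0) : tau G 0 = 0 := by
  rw [tau_of_ne hG zero_ne_eps0]
  rw [if_neg]
  exact fun h => not_tt_le_zero h.2

lemma tau_mem {F G : ℝ → ℝ} (hF : F ∈ DD) (hG : G ∈ DD) : tau F G ∈ DD := by
  by_cases h1 : F = eps0
  · subst h1; rw [tau_eps0_left]; exact hG
  by_cases h2 : G = eps0
  · subst h2; rw [tau_eps0_right]; exact hF
  rcases tau_cases h1 h2 with h | h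
  · rw [h]; exact ss_mem
  · rw [h]; exact zero_mem

lemma tau_comm (F G : ℝ → ℝ) : tau F G = tau G F := by
  by_cases h1 : F = eps0
  · subst h1; rw [tau_eps0_left, tau_eps0_right]
  by_cases h2 : G = eps0
  · subst h2; rw [tau_eps0_left, tau_eps0_right]
  rw [tau_of_ne h1 h2, tau_of_ne h2 h1]
  by_cases c : tt ≤ F ∧ tt ≤ G
  · rw [if_pos c, if_pos c.symm]
  · rw [if_neg c, if_neg (fun h => c h.symm)]

lemma tau_assoc (F G H : ℝ → ℝ) : tau (tau F G) H = tau F (tau G H) := by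
  by_cases h1 : F = eps0
  · subst h1; rw [tau_eps0_left, tau_eps0_left]
  by_cases h2 : G = eps0
  · subst h2; rw [tau_eps0_left, tau_eps0_right]
  by_cases h3 : H = eps0
  · subst h3; rw [tau_eps0_right, tau_eps0_right]
  have e1 : tau (tau F G) H = 0 := by
    rcases tau_cases h1 h2 with h | h
    · rw [h]; exact tau_ss_left h3
    · rw [h]; exact tau_zero_left h3
  have e2 : tau F (tau G H) = 0 := by
    rcases tau_cases h2 h3 with h | h
    · rw [h]; exact tau_ss_right h1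
    · rw [h]; exact tau_zero_right h1
  rw [e1, e2]

lemma tau_le_right {F G : ℝ → ℝ} (hF : F ∈ DD) (hG : G ∈ DD) : tau F G ≤ G := by
  by_cases h1 : F = eps0
  · subst h1; rw [tau_eps0_left]
  by_cases h2 : G = eps0
  · subst h2; rw [tau_eps0_right]; exact le_eps0 hF
  rw [tau_of_ne h1 h2]
  split_ifs with h
  · exact ss_le_tt.trans h.2
  · intro x
    exact (hG.2.1 x).1

lemma tau_mono {F₁ F₂ G : ℝ → ℝ} (hF₁ : F₁ ∈ DD) (hF₂ : F₂ ∈ DD) (hG : G ∈ DD)
    (h : F₁ ≤ F₂) : tau F₁ G ≤ tau F₂ G := by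
  by_cases h2 : F₂ = eps0
  · subst h2
    rw [tau_eps0_left]
    exact tau_le_right hF₁ hG
  have h1 : F₁ ≠ eps0 := by
    intro h1
    subst h1
    exact h2 (eq_eps0_of_le hF₂ h)
  by_cases h3 : G = eps0
  · subst h3; rw [tau_eps0_right, tau_eps0_right]; exact h
  rw [tau_of_ne h1 h3, tau_of_ne h2 h3]
  split_ifs with c1 c2 c2
  · exact le_refl _
  · exact absurd ⟨c1.1.trans h, c1.2⟩ c2
  · exact fun x => (ss_mem.2.1 x).1
  · exact le_refl _

lemma tau_tt_tt : tau tt tt = ss := by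
  rw [tau_of_ne tt_ne_eps0 tt_ne_eps0, if_pos ⟨le_refl _, le_refl _⟩]

lemma tau_uu_uu : tau uu uu = 0 := by
  rw [tau_of_ne uu_ne_eps0 uu_ne_eps0, if_neg]
  exact fun h => not_tt_le_uu h.1

lemma tt_le_uu_on (x : ℝ) (hx : x ≤ 1) : tt x ≤ uu x := by
  unfold tt uu
  split_ifs <;> first | (exfalso; linarith) | norm_num

/-- The negation of the preceding statement: Every commutative, associative, monotone operation on distance distribution functions with identity ε₀ is causal: if F₁≤F₂ and G₁≤G₂ on (−∞,a] with a>0, then τ(F₁,G₁)≤τ(F₂,G₂) on (−∞,a]. -/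
theorem result :
    ¬ (∀ D : Set (ℝ → ℝ),
      D = {F : ℝ → ℝ | Monotone F ∧ (∀ x, 0 ≤ F x ∧ F x ≤ 1) ∧ (∀ x : ℝ, x ≤ 0 → F x = 0) ∧
            ∀ x : ℝ, ContinuousWithinAt F (Set.Iio x) x} →
      ∀ τ : (ℝ → ℝ) → (ℝ → ℝ) → (ℝ → ℝ),
        (∀ F ∈ D, ∀ G ∈ D, τ F G ∈ D) →
        (∀ F ∈ D, ∀ G ∈ D, τ F G = τ G F) →
        (∀ F ∈ D, ∀ G ∈ D, ∀ H ∈ D, τ (τ F G) H = τ F (τ G H)) →
        (∀ F ∈ D, τ F (fun x : ℝ => if 0 < x then (1 : ℝ) else 0) = F) →
        (∀ F₁ ∈ D, ∀ F₂ ∈ D, ∀ G ∈ D, F₁ ≤ F₂ → τ F₁ G ≤ τ F₂ G) →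
        ∀ a : ℝ, 0 < a →
          ∀ F₁ ∈ D, ∀ F₂ ∈ D, ∀ G₁ ∈ D, ∀ G₂ ∈ D,
            (∀ x : ℝ, x ≤ a → F₁ x ≤ F₂ x) →
            (∀ x : ℝ, x ≤ a → G₁ x ≤ G₂ x) →
            ∀ x : ℝ, x ≤ a → τ F₁ G₁ x ≤ τ F₂ G₂ x) := by
  intro H
  have key := H DD rfl tau (fun F hF G hG => tau_mem hF hG) (fun F _ G _ => tau_comm F G)
    (fun F _ G _ K _ => tau_assoc F G K) (fun F _ => tau_eps0_right F)
    (fun F₁ hF₁ F₂ hF₂ G hG h => tau_mono hF₁ hF₂ hG h) 1 one_pos
    tt tt_mem uu uu_mem tt tt_mem uu uu_mem tt_le_uu_on tt_le_uu_on 1 le_rfl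
  rw [tau_tt_tt, tau_uu_uu] at key
  unfold ss at key
  norm_num at key

end Pool.Agent.S04108
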