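import Pool.Statements.S04431
import Pool.Agent.H62.NS.Main
import Pool.Agent.H63.NS.Main

set_option autoImplicit false
open Pool Pool.MP_3ea55a_an

namespace Pool.Agent.S04431

/-- For every invertible measure-preserving probability system, every l and bounded measurable f_1..f_l, the averages (1/N) sum over n=1..N of prod f_i(T^(i*floor(n sin n)) x) form a Cauchy sequence in L^2, hence converge in L^2. -/
theorem result :
    ∀ (X : Type) [MeasurableSpace X] (μ : MeasureTheory.Measure X)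
      [MeasureTheory.IsProbabilityMeasure μ] (T : X ≃ᵐ X),
      MeasureTheory.MeasurePreserving T μ μ →
      ∀ (ℓ : ℕ) (f : Fin ℓ → X → ℝ),
        (∀ i, Measurable (f i)) →
        (∀ i, ∃ C : ℝ, ∀ x, |f i x| ≤ C) →
        ∀ ε : ℝ, 0 < ε → ∃ M : ℕ, ∀ N ≥ M, ∀ N' ≥ M,
          ∫ x, ((1 / (N : ℝ)) * ∑ n ∈ Finset.Icc 1 N, ∏ i : Fin ℓ,
                  f i ((T.toEquiv ^ ((((i : ℕ) : ℤ) + 1) * ⌊(n : ℝ) * Real.sin (n : ℝ)⌋)) x)
                - (1 / (N' : ℝ)) * ∑ n ∈ Finset.Icc 1 N', ∏ i : Fin ℓ,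
                  f i ((T.toEquiv ^ ((((i : ℕ) : ℤ) + 1) * ⌊(n : ℝ) * Real.sin (n : ℝ)⌋)) x)) ^ 2 ∂μ
            ≤ ε := by
  intro X _ μ _ T hT ℓ f hf hb ε hε
  exact Pool.Agent.H62.NS.floor_cauchy_main
    (fun _ _ _ _ F _ e g hg => Pool.Agent.H63.NS.pet_main F e g hg)
    (fun _ _ _ _ F _ e g hg => Pool.Agent.H63.NS.flow_cauchy F e g hg) X μ T hT ℓ f hf hb ε hε

end Pool.Agent.S04431
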