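import Pool.Statements.S06080
import Pool.Agent.H56.JS.Main

set_option autoImplicit false
open MeasureTheory
open scoped ENNReal
open Pool Pool.MP_c5a70e_an

namespace Pool.Agent.S06080

/-- The negation of the preceding statement: For 2<p<∞, every closed subspace of a real L^p space (any measure) that has no isomorphic copy of ℓ^p of an index set of size aleph-one embeds isomorphically into L^p of some finite measure. -/
theorem result :
    ¬ (∀ (p : ℝ≥0∞) [Fact (1 ≤ p)], 2 < p → p ≠ ∞ →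
  ∀ (Ω : Type) [MeasurableSpace Ω] (μ : Measure Ω) (X : Submodule ℝ (Lp ℝ p μ)),
    IsClosed (X : Set (Lp ℝ p μ)) →
    (¬ ∃ (I : Type), Cardinal.mk I = Cardinal.aleph 1 ∧
        ∃ (T : lp (fun _ : I => ℝ) p →L[ℝ] X), ∃ c : ℝ, 0 < c ∧ ∀ x, c * ‖x‖ ≤ ‖T x‖) →
    ∃ (Ω' : Type) (_ : MeasurableSpace Ω') (ν : Measure Ω'), IsFiniteMeasure ν ∧
      ∃ (T : X →L[ℝ] Lp ℝ p ν), ∃ c : ℝ, 0 < c ∧ ∀ x, c * ‖x‖ ≤ ‖T x‖) := by
  intro h
  obtain ⟨Ω', mΩ', ν, hν, T, c, hc, hT⟩ := h 4 (by norm_num) (by norm_num) Pool.Agent.H56.JS.Om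
    Pool.Agent.H56.JS.mm Pool.Agent.H56.JS.XX Pool.Agent.H56.JS.isClosed_XX (by
      rintro ⟨I, hI, T, c, hc, hT⟩
      exact Pool.Agent.H56.JS.no_copy I hI T c hc hT)
  exact Pool.Agent.H56.JS.no_embedding ν T c hc hT

end Pool.Agent.S06080
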