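import Pool.Statements.S06164
import Pool.Agent.H12.GJ.Final
import Pool.Agent.H15.GJ.Meas
import Pool.Agent.H91.GJ.Dyn

set_option autoImplicit false
open MeasureTheory Filter Topology
open Pool Pool.MP_cc1b6d_an

namespace Pool.Agent.S06164

/-- The negation of the preceding statement: For a regular polynomial sequence whose Julia set is a totally disconnected subset of the real line, the Jacobi recurrence coefficients of its equilibrium measure converge to a Bohr almost periodic two-sided sequence. -/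
theorem result :
    ¬ (∀ (f : ℕ → Polynomial ℂ) (F : ℕ → ℂ → ℂ) (J : Set ℂ),
      (∃ A₁ A₂ A₃ : ℝ, 0 < A₁ ∧ 0 ≤ A₂ ∧ 0 < A₃ ∧
        ∀ n, 2 ≤ (f n).natDegree ∧ A₁ ≤ ‖(f n).leadingCoeff‖ ∧
          (∀ j, ‖(f n).coeff j‖ ≤ A₂ * ‖(f n).leadingCoeff‖) ∧
          Real.log ‖(f n).leadingCoeff‖ ≤ A₃ * ((f n).natDegree : ℝ)) →
      (∀ z, F 0 z = z) →
      (∀ n z, F (n + 1) z = (f n).eval (F n z)) →
      J = frontier {z : ℂ | ∃ M : ℝ, ∀ n, ‖F n z‖ ≤ M} →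
      J ⊆ {z : ℂ | z.im = 0} →
      IsTotallyDisconnected J →
      ∀ μ : Measure ℂ, IsProbabilityMeasure μ → NoAtoms μ → μ Jᶜ = 0 →
      (∫⁻ z, ∫⁻ w, ENNReal.ofReal (Real.log ((Metric.diam J + 1) / ‖z - w‖)) ∂μ ∂μ) < ⊤ →
      (∀ ν : Measure ℂ, IsProbabilityMeasure ν → NoAtoms ν → ν Jᶜ = 0 →
        (∫⁻ z, ∫⁻ w, ENNReal.ofReal (Real.log ((Metric.diam J + 1) / ‖z - w‖)) ∂μ ∂μ) ≤
          (∫⁻ z, ∫⁻ w, ENNReal.ofReal (Real.log ((Metric.diam J + 1) / ‖z - w‖)) ∂ν ∂ν)) →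
      ∀ (a b : ℕ → ℝ) (P : ℕ → Polynomial ℝ),
        (∀ n, 0 < a n) →
        P 0 = 1 →
        P 1 = Polynomial.X - Polynomial.C (b 0) →
        (∀ n, P (n + 2) = (Polynomial.X - Polynomial.C (b (n + 1))) * P (n + 1)
                - Polynomial.C (a n ^ 2) * P n) →
        (∀ n m, n ≠ m → ∫ z, (P n).eval z.re * (P m).eval z.re ∂μ = 0) →
        ∃ α β : ℤ → ℝ,
          (∀ ε > 0, ∃ L : ℕ, ∀ m : ℤ, ∃ τ : ℤ, m ≤ τ ∧ τ ≤ m + (L : ℤ) ∧
            ∀ k : ℤ, |α (k + τ) - α k| < ε ∧ |β (k + τ) - β k| < ε) ∧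
          Tendsto (fun n : ℕ => |a n - α (n : ℤ)| + |b n - β (n : ℤ)|) atTop (𝓝 0)) := by
  exact Pool.Agent.H12.GJ.final_of Pool.Agent.H12.GJ.JS_subset Pool.Agent.H12.GJ.JS_td
    (Pool.Agent.H15.GJ.exists_meas_of Pool.Agent.H12.GJ.JS_eq)

end Pool.Agent.S06164
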