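import Pool.Statements.S07600
import Pool.Agent.H33.ModRado

set_option autoImplicit false
open Pool Pool.MP_2076c8_co

namespace Pool.Agent.S07600

open Filter Pool.Agent.H33.ModRado

/-- The coefficients `(1, -(1 + 2^(2n) + 2^(3n)), 2^(2n))`. -/
def coeff (n : ℕ) : Fin 3 → ZMod (2 ^ (4 * n)) :=
  ![1, -(1 + 2 ^ (2 * n) + 2 ^ (3 * n)), 2 ^ (2 * n)]

theorem fin3_cases : ∀ I : Finset (Fin 3), I.Nonempty → I = {0} ∨ I = {1} ∨ I = {2} ∨
    I = {0, 1} ∨ I = {0, 2} ∨ I = {1, 2} ∨ I = {0, 1, 2} := by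
  decide

theorem coeff_hyp (n : ℕ) (hn : 1 ≤ n) :
    (∃ I : Finset (Fin 3), I.Nonempty ∧
      (2 : ZMod (2 ^ (4 * n))) ^ (3 * n) ∣ ∑ i ∈ I, coeff n i) ∧
    (∀ d' : ℕ, 3 * n < d' → d' ≤ 4 * n → ∀ I : Finset (Fin 3), I.Nonempty →
      ¬ (2 : ZMod (2 ^ (4 * n))) ^ d' ∣ ∑ i ∈ I, coeff n i) := by
  constructor
  · refine ⟨Finset.univ, Finset.univ_nonempty, ⟨-1, ?_⟩⟩
    simp only [Fin.sum_univ_three, coeff]
    simp
    ring
  · intro d' hd' hd'' I hI hdvd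
    -- reduce to the integers
    let A : Fin 3 → ℤ := ![1, -(1 + 2 ^ (2 * n) + 2 ^ (3 * n)), 2 ^ (2 * n)]
    have hA : ∀ i, coeff n i = ((A i : ℤ) : ZMod (2 ^ (4 * n))) := by
      intro i
      fin_cases i
      · simp [coeff, A]
      · simp [coeff, A]
      · simp [coeff, A]
    have hsum : ∑ i ∈ I, coeff n i = ((∑ i ∈ I, A i : ℤ) : ZMod (2 ^ (4 * n))) := by
      push_cast
      exact Finset.sum_congr rfl (fun i _ => hA i)
    rw [hsum, dvd_iff_ZMod hd''] at hdvd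
    have hdvd2 : (2 : ℤ) ^ (3 * n + 1) ∣ ∑ i ∈ I, A i :=
      (pow_dvd_pow 2 (by omega)).trans hdvd
    -- the possible sums
    have hne : ∃ m : ℤ, m ≠ 0 ∧ |m| < 2 ^ (3 * n + 1) ∧ ∑ i ∈ I, A i = m := by
      refine ⟨∑ i ∈ I, A i, ?_, ?_, rfl⟩
      all_goals
        have p1 : (2 : ℤ) ≤ 2 ^ (2 * n) := by
          calc (2 : ℤ) = 2 ^ 1 := by norm_num
            _ ≤ 2 ^ (2 * n) := pow_le_pow_right₀ (by norm_num) (by omega)
        have p2 : (2 : ℤ) ^ (2 * n) * 2 ≤ 2 ^ (3 * n) := by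
          rw [← pow_succ]
          exact pow_le_pow_right₀ (by norm_num) (by omega)
        have p3 : (2 : ℤ) ^ (3 * n + 1) = 2 * 2 ^ (3 * n) := by rw [pow_succ]; ring
        have hI' := fin3_cases I hI
        rcases hI' with rfl | rfl | rfl | rfl | rfl | rfl | rfl
        all_goals
          simp [A, abs_lt]
          try omega
    obtain ⟨m, hm0, hm1, hm2⟩ := hne
    rw [hm2] at hdvd2
    have := Int.le_of_dvd (abs_pos.mpr hm0) ((dvd_abs _ _).mpr hdvd2)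
    linarith

theorem result :
    ¬ (∀ k : ℕ, ∃ K : ℕ, ∀ r : ℕ, ∀ a : Fin k → ZMod (2 ^ r), ∀ d : ℕ, d ≤ r →
      (∃ I : Finset (Fin k), I.Nonempty ∧ (2 : ZMod (2 ^ r)) ^ d ∣ ∑ i ∈ I, a i) →
      (∀ d' : ℕ, d < d' → d' ≤ r → ∀ I : Finset (Fin k), I.Nonempty →
          ¬ (2 : ZMod (2 ^ r)) ^ d' ∣ ∑ i ∈ I, a i) →
      ∃ c : ZMod (2 ^ r) → Fin K, ∀ x : Fin k → ZMod (2 ^ r),
        (∀ i j, c (x i) = c (x j)) → ∑ i, a i * x i = 0 →
          ∀ i, (2 : ZMod (2 ^ r)) ^ (r - d) ∣ x i) := by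
  intro H
  obtain ⟨K, hK⟩ := H 3
  -- the colourings
  have hcol : ∀ n : ℕ, ∃ c : ZMod (2 ^ (4 * n)) → Fin K, 1 ≤ n →
      ∀ x : Fin 3 → ZMod (2 ^ (4 * n)), (∀ i j, c (x i) = c (x j)) →
        ∑ i, coeff n i * x i = 0 → ∀ i, (2 : ZMod (2 ^ (4 * n))) ^ n ∣ x i := by
    intro n
    rcases Nat.eq_zero_or_pos n with hn | hn
    · -- we still need some colouring, use `n = 1`
      obtain ⟨c, -⟩ := hK (4 * 1) (coeff 1) (3 * 1) (by omega) (coeff_hyp 1 le_rfl).1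
        (coeff_hyp 1 le_rfl).2
      exact ⟨fun _ => c 0, fun h => by omega⟩
    · obtain ⟨c, hc⟩ := hK (4 * n) (coeff n) (3 * n) (by omega) (coeff_hyp n hn).1
        (coeff_hyp n hn).2
      refine ⟨c, fun _ x h1 h2 i => ?_⟩
      have := hc x h1 h2 i
      have h4 : 4 * n - 3 * n = n := by omega
      rwa [h4] at this
  choose c hc using hcol
  choose C hC using fun ζ y : W => exists_limit_color (fun n => c n (Phi n ζ y))
  obtain ⟨ζ, ζ', y₁, y₂, y₃, hpos, h12, h13, hrel⟩ := ramsey C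
  -- all large `n`
  have hlarge : ∀ᶠ n : ℕ in (hyperfilter ℕ : Filter ℕ), ζ.1 < (n : ℤ) ∧ 1 ≤ n := by
    have h1 : ∀ᶠ n : ℕ in atTop, ζ.1.toNat + 1 ≤ n := eventually_ge_atTop _
    have h2 : ∀ᶠ n : ℕ in atTop, ζ.1 < n ∧ 1 ≤ n := by
      filter_upwards [h1] with n hn
      constructor <;> omega
    rw [← Nat.cofinite_eq_atTop] at h2
    exact hyperfilter_le_cofinite h2
  obtain ⟨n, hn1, hn2, hn3, hn4, hn5⟩ :=
    ((hC ζ y₁).and ((hC ζ y₂).and ((hC ζ' y₃).and hlarge))).exists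
  have hmono : ∀ i j : Fin 3, c n (![Phi n ζ y₁, Phi n ζ y₂, Phi n ζ' y₃] i) =
      c n (![Phi n ζ y₁, Phi n ζ y₂, Phi n ζ' y₃] j) := by
    have e1 : c n (Phi n ζ y₁) = C ζ y₁ := hn1
    have e2 : c n (Phi n ζ y₂) = C ζ y₁ := hn2.trans h12.symm
    have e3 : c n (Phi n ζ' y₃) = C ζ y₁ := hn3.trans h13.symm
    have e : ∀ i : Fin 3, c n (![Phi n ζ y₁, Phi n ζ y₂, Phi n ζ' y₃] i) = C ζ y₁ := by
      intro i
      fin_cases i
      · exact e1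
      · exact e2
      · exact e3
    intro i j
    rw [e i, e j]
  have hsol : ∑ i, coeff n i * (![Phi n ζ y₁, Phi n ζ y₂, Phi n ζ' y₃] i) = 0 := by
    rw [Fin.sum_univ_three]
    have := Phi_rel n ζ ζ' y₁ y₂ y₃ hrel
    simp only [coeff, Matrix.cons_val_zero, Matrix.cons_val_one, Matrix.cons_val]
    linear_combination this
  have hdvd := hc n hn5 _ hmono hsol 1
  have hdvd' : (2 : ZMod (2 ^ (4 * n))) ^ n ∣ (ζ.1 : ZMod (2 ^ (4 * n))) := by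
    have h1 : (2 : ZMod (2 ^ (4 * n))) ^ n ∣ Phi n ζ y₂ := hdvd
    unfold Phi at h1
    have h2 : (2 : ZMod (2 ^ (4 * n))) ^ n ∣ 2 ^ n * (ζ.2 : ZMod (2 ^ (4 * n))) :=
      dvd_mul_right _ _
    have h3 : (2 : ZMod (2 ^ (4 * n))) ^ n ∣ 2 ^ (2 * n) * (y₂.1 : ZMod (2 ^ (4 * n))) :=
      (pow_dvd_pow 2 (by omega)).trans (dvd_mul_right _ _)
    have h4 : (2 : ZMod (2 ^ (4 * n))) ^ n ∣ 2 ^ (3 * n) * (y₂.2 : ZMod (2 ^ (4 * n))) :=
      (pow_dvd_pow 2 (by omega)).trans (dvd_mul_right _ _)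
    have h5 := dvd_sub (dvd_sub (dvd_sub h1 h4) h3) h2
    convert h5 using 1
    ring
  rw [dvd_iff_ZMod (by omega)] at hdvd'
  have hle := Int.le_of_dvd hpos hdvd'
  have hlt : (n : ℤ) < 2 ^ n := by exact_mod_cast Nat.lt_two_pow_self
  linarith

end Pool.Agent.S07600
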