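import Pool.Statements.S08155
import Pool.Agent.H85.BSMain

set_option autoImplicit false
open Pool Pool.MP_395f85_co

namespace Pool.Agent.S08155

/-- In every finite nonempty strongly connected loopless digraph with positive arc weights, where each vertex has in-weight and out-weight at least 1, some directed cycle has total weight at least 1. -/
theorem result :
  ∀ (V : Type) [Fintype V] [Nonempty V] (w : V → V → ℝ),
    (∀ u v, 0 ≤ w u v) → (∀ v, w v v = 0) →
    (∀ u v, Relation.ReflTransGen (fun a b => 0 < w a b) u v) →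
    (∀ v, 1 ≤ ∑ u, w u v) → (∀ v, 1 ≤ ∑ u, w v u) →
    ∃ (k : ℕ) (f : Fin (k + 2) → V), Function.Injective f ∧
      (∀ i, 0 < w (f i) (f (finRotate (k + 2) i))) ∧
      1 ≤ ∑ i, w (f i) (f (finRotate (k + 2) i)) := by
  intro V _ _ w h0 hl hst hin hout
  classical
  have hin' : ∀ v, ∃ u, 0 < w u v := by
    intro v
    by_contra hc
    push Not at hc
    have : ∑ u, w u v ≤ 0 := Finset.sum_nonpos (fun u _ => hc u)
    have := hin v
    linarith
  have hout' : ∀ v, ∃ u, 0 < w v u := by
    intro v
    by_contra hc
    push Not at hc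
    have : ∑ u, w v u ≤ 0 := Finset.sum_nonpos (fun u _ => hc u)
    have := hout v
    linarith
  rcases Pool.Agent.H85.BS.main h0 hl hst hin' hout' with ⟨s, hs⟩ | ⟨s, hs⟩
  · obtain ⟨k, f, h1, h2, h3⟩ := hs.cycle hl
    exact ⟨k, f, h1, h2, (hin s).trans h3⟩
  · obtain ⟨k, f, h1, h2, h3⟩ :=
      Pool.Agent.H85.HC.Reach.cycle (w := fun u v => w v u) (fun v => hl v) hs
    have hrot : ∀ i : Fin (k + 2), finRotate (k + 2) (Fin.rev (finRotate (k + 2) i)) = Fin.rev i := by
      intro i
      apply Fin.ext
      simp only [finRotate_apply, Fin.val_rev, Fin.val_add, Fin.val_one]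
      have hi := i.2
      by_cases hik : i.1 + 1 < k + 2
      · rw [Nat.mod_eq_of_lt hik, Nat.mod_eq_of_lt (by omega)]
        omega
      · have h4 : i.1 + 1 = k + 2 := by omega
        rw [h4, Nat.mod_self]
        have h5 : k + 2 - (0 + 1) + 1 = k + 2 := by omega
        rw [h5, Nat.mod_self]
        omega
    refine ⟨k, fun i => f (Fin.rev i), ?_, ?_, ?_⟩
    · exact h1.comp Fin.rev_injective
    · intro i
      have := h2 (Fin.rev (finRotate (k + 2) i))
      rw [hrot i] at this
      exact this
    · refine (hout s).trans (h3.trans (le_of_eq ?_))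
      have h4 : ∑ i, w (f (finRotate (k + 2) i)) (f i) =
          ∑ i, w (f (finRotate (k + 2) (Fin.rev (finRotate (k + 2) i))))
            (f (Fin.rev (finRotate (k + 2) i))) := by
        symm
        exact Equiv.sum_comp ((finRotate (k + 2)).trans Fin.revPerm)
          (fun i => w (f (finRotate (k + 2) i)) (f i))
      rw [h4]
      apply Finset.sum_congr rfl
      intro i _
      rw [hrot i]

end Pool.Agent.S08155
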