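import Pool.Statements.S09173
import Pool.Agent.H24.GL.Main

set_option autoImplicit false
open Pool Pool.MP_62da2d_co

namespace Pool.Agent.S09173

/-- There exist δ>0 and C such that for every N, every set S of points in {0..N-1}^3 in which any two distinct points differ with one exceeding the other in at least two coordinates has at most C·N^(2-δ) elements. -/
theorem result :
    ∃ δ : ℝ, δ > 0 ∧ ∃ C : ℝ, ∀ N : ℕ, ∀ S : Finset (ℕ × ℕ × ℕ),
      (∀ s ∈ S, s.1 < N ∧ s.2.1 < N ∧ s.2.2 < N) →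
      (∀ s ∈ S, ∀ t ∈ S, s ≠ t →
        ((t.1 < s.1 ∧ t.2.1 < s.2.1) ∨ (t.1 < s.1 ∧ t.2.2 < s.2.2) ∨
         (t.2.1 < s.2.1 ∧ t.2.2 < s.2.2) ∨
         (s.1 < t.1 ∧ s.2.1 < t.2.1) ∨ (s.1 < t.1 ∧ s.2.2 < t.2.2) ∨
         (s.2.1 < t.2.1 ∧ s.2.2 < t.2.2))) →
      (S.card : ℝ) ≤ C * (N : ℝ) ^ (2 - δ) := by
  obtain ⟨σ, hσ0, hσ1, hmain⟩ := Pool.Agent.H24.GL.main_bound
  refine ⟨σ, hσ0, 1, ?_⟩
  intro N S hN hS
  have hCS : Pool.Agent.H24.GL.CS S (fun c => c.1) (fun c => c.2.1) (fun c => c.2.2) := by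
    refine ⟨?_, ?_, ?_⟩
    · intro s hs t ht hst h
      have h' : s.1 = t.1 := h
      have := hS s hs t ht hst
      show (s.2.1 < t.2.1 ∧ s.2.2 < t.2.2) ∨ (t.2.1 < s.2.1 ∧ t.2.2 < s.2.2)
      omega
    · intro s hs t ht hst h
      have h' : s.2.1 = t.2.1 := h
      have := hS s hs t ht hst
      show (s.2.2 < t.2.2 ∧ s.1 < t.1) ∨ (t.2.2 < s.2.2 ∧ t.1 < s.1)
      omega
    · intro s hs t ht hst h
      have h' : s.2.2 = t.2.2 := h
      have := hS s hs t ht hst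
      show (s.1 < t.1 ∧ s.2.1 < t.2.1) ∨ (t.1 < s.1 ∧ t.2.1 < s.2.1)
      omega
  have h := hmain _ _ _ _ S hCS
  have hnv : ∀ f : ℕ × ℕ × ℕ → ℕ, (∀ s ∈ S, f s < N) →
      ((Pool.Agent.H24.GL.nv S f : ℕ) : ℝ) ≤ N := by
    intro f hf
    have : Pool.Agent.H24.GL.nv S f ≤ N := by
      refine (Finset.card_le_card (t := Finset.range N) ?_).trans (Finset.card_range N).le
      intro x hx
      obtain ⟨c, hc, rfl⟩ := Finset.mem_image.1 hx
      exact Finset.mem_range.2 (hf c hc)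
    exact_mod_cast this
  have n1 := hnv (fun c => c.1) (fun s hs => (hN s hs).1)
  have n2 := hnv (fun c => c.2.1) (fun s hs => (hN s hs).2.1)
  have n3 := hnv (fun c => c.2.2) (fun s hs => (hN s hs).2.2)
  have hNN : (0 : ℝ) ≤ N := Nat.cast_nonneg N
  calc (S.card : ℝ) ≤ _ := h
    _ ≤ ((N : ℝ) * N * N) ^ ((2 - σ) / 3) := by
        refine Real.rpow_le_rpow (by positivity) ?_ (by linarith)
        exact mul_le_mul (mul_le_mul n1 n2 (by positivity) hNN) n3 (by positivity)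
          (by positivity)
    _ = 1 * (N : ℝ) ^ (2 - σ) := by
        rw [one_mul, show (N : ℝ) * N * N = (N : ℝ) ^ (3 : ℕ) by ring, ← Real.rpow_natCast,
          ← Real.rpow_mul hNN]
        congr 1
        push_cast
        ring

end Pool.Agent.S09173
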