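-- Proof of the frozen statement S09866 (the negation): a counterexample with m = 3 on 13 vertices.
import Pool.Statements.S09866

set_option autoImplicit false
open SimpleGraph
open Pool Pool.MP_85b484_co

namespace Pool.Agent.S09866

/-- Position of a vertex on the 9-cycle: the graph is the inflation of the 9-cycle whose
bags have sizes 1,2,1,2,1,2,1,2,1. -/
def pos : Fin 13 → Fin 9 := ![0, 1, 1, 2, 3, 3, 4, 5, 5, 6, 7, 7, 8]

/-- Adjacency: distinct vertices in the same bag or in cyclically consecutive bags. -/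
def adjB (u v : Fin 13) : Bool :=
  decide (u ≠ v) && (decide (pos u = pos v) || decide (pos u = pos v + 1) ||
    decide (pos v = pos u + 1))

/-- The counterexample graph (a ring of four diamonds closed up by one edge). -/
def G : SimpleGraph (Fin 13) where
  Adj u v := adjB u v = true
  symm := ⟨by decide⟩
  loopless := ⟨by decide⟩

lemma adj_iff (u v : Fin 13) : G.Adj u v ↔ adjB u v = true := Iff.rfl

/-! ### Chromatic number -/

lemma fin3 : ∀ x y z w : Fin 3, x ≠ y → x ≠ z → y ≠ z → y ≠ w → z ≠ w → x = w := by decide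

/-- There is no proper 3-colouring. -/
lemma no_three (c : Fin 13 → Fin 3) (hc : ∀ u v, G.Adj u v → c u ≠ c v) : False := by
  have h : ∀ u v, adjB u v = true → c u ≠ c v := hc
  have h1 : c 0 = c 3 := fin3 _ (c 1) (c 2) _ (h _ _ (by decide)) (h _ _ (by decide))
    (h _ _ (by decide)) (h _ _ (by decide)) (h _ _ (by decide))
  have h2 : c 3 = c 6 := fin3 _ (c 4) (c 5) _ (h _ _ (by decide)) (h _ _ (by decide))
    (h _ _ (by decide)) (h _ _ (by decide)) (h _ _ (by decide))
  have h3 : c 6 = c 9 := fin3 _ (c 7) (c 8) _ (h _ _ (by decide)) (h _ _ (by decide))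
    (h _ _ (by decide)) (h _ _ (by decide)) (h _ _ (by decide))
  have h4 : c 9 = c 12 := fin3 _ (c 10) (c 11) _ (h _ _ (by decide)) (h _ _ (by decide))
    (h _ _ (by decide)) (h _ _ (by decide)) (h _ _ (by decide))
  exact h 0 12 (by decide) (h1.trans (h2.trans (h3.trans h4)))

/-! ### No clique model of order 4 with branch sets of size at most 3 -/

/-- Bit mask of the triple. -/
def msk (a b c : Fin 13) : ℕ := 2 ^ (a : ℕ) ||| 2 ^ (b : ℕ) ||| 2 ^ (c : ℕ)

/-- Bit masks of the neighbourhoods. -/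
def nb : Fin 13 → ℕ := ![4102, 13, 11, 54, 104, 88, 432, 832, 704, 3456, 6656, 5632, 3073]

/-- Neighbourhood mask of a triple. -/
def nmsk (a b c : Fin 13) : ℕ := nb a ||| nb b ||| nb c

lemma nb_spec : ∀ u v : Fin 13, (nb u).testBit v = adjB u v := by decide +kernel

/-- Closeness: equal or adjacent. -/
def close (a b : Fin 13) : Bool := decide (a = b) || adjB a b

/-- All pairs (mask, neighbourhood mask) of connected sets with at most three vertices. -/
def L : List (ℕ × ℕ) :=
  [(1, 4102), (4099, 7183), (4101, 7183), (3, 4111), (2, 13), (11, 4159), (7, 4111), (5, 4111),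
   (6, 15), (4, 11), (13, 4159), (14, 63), (10, 63), (12, 63), (8, 54), (26, 127), (28, 127),
   (42, 127), (44, 127), (24, 126), (16, 104), (88, 510), (56, 126), (40, 126), (48, 120),
   (32, 88), (104, 510), (112, 504), (80, 504), (96, 504), (64, 432), (208, 1016), (224, 1016),
   (336, 1016), (352, 1016), (192, 1008), (128, 832), (704, 4080), (448, 1008), (320, 1008),
   (384, 960), (256, 704), (832, 4080), (896, 4032), (640, 4032), (768, 4032), (512, 3456),
   (1664, 8128), (1792, 8128), (2688, 8128), (2816, 8128), (1536, 8064), (1024, 6656),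
   (5632, 8065), (3584, 8064), (2560, 8064), (3072, 7680), (2048, 5632), (6656, 8065),
   (5121, 7687), (6145, 7687), (7168, 7681), (4097, 7175), (5120, 7681), (6144, 7681),
   (4096, 3073)]

/-- Membership of a pair in a list, as a Boolean. -/
def memB (p : ℕ × ℕ) : List (ℕ × ℕ) → Bool
  | [] => false
  | q :: l => (Nat.beq p.1 q.1 && Nat.beq p.2 q.2) || memB p l

lemma memB_spec (p : ℕ × ℕ) (l : List (ℕ × ℕ)) (h : memB p l = true) : p ∈ l := by
  induction l with
  | nil => simp [memB] at h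
  | cons q l ih =>
    simp only [memB, Bool.or_eq_true, Bool.and_eq_true] at h
    rcases h with ⟨h1, h2⟩ | h
    · exact List.mem_cons.2 (Or.inl (Prod.ext (Nat.eq_of_beq_eq_true h1) (Nat.eq_of_beq_eq_true h2)))
    · exact List.mem_cons.2 (Or.inr (ih h))

lemma mem_L_bool : ∀ b a c : Fin 13, close a b = true → close c b = true →
    memB (msk a b c, nmsk a b c) L = true := by decide +kernel

lemma mem_L (b a c : Fin 13) (h1 : close a b = true) (h2 : close c b = true) :
    (msk a b c, nmsk a b c) ∈ L := memB_spec _ _ (mem_L_bool b a c h1 h2)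

/-- Disjoint and joined by an edge. -/
def compat (p q : ℕ × ℕ) : Bool := Nat.beq (Nat.land p.1 q.1) 0 && !(Nat.beq (Nat.land p.2 q.1) 0)

/-- No four pairwise compatible members. -/
def check (L : List (ℕ × ℕ)) : Bool :=
  L.all fun p1 => (L.filter (compat p1)).all fun p2 =>
    ((L.filter (compat p1)).filter (compat p2)).all fun p3 =>
      (((L.filter (compat p1)).filter (compat p2)).filter (compat p3)).isEmpty

lemma check_L : check L = true := by decide +kernel

lemma no_four (p1 p2 p3 p4 : ℕ × ℕ) (h1 : p1 ∈ L) (h2 : p2 ∈ L) (h3 : p3 ∈ L) (h4 : p4 ∈ L)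
    (h12 : compat p1 p2 = true) (h13 : compat p1 p3 = true) (h14 : compat p1 p4 = true)
    (h23 : compat p2 p3 = true) (h24 : compat p2 p4 = true) (h34 : compat p3 p4 = true) :
    False := by
  have h := check_L
  unfold check at h
  rw [List.all_eq_true] at h
  have h' := h p1 h1
  rw [List.all_eq_true] at h'
  have h'' := h' p2 (List.mem_filter.2 ⟨h2, h12⟩)
  rw [List.all_eq_true] at h''
  have h''' := h'' p3 (List.mem_filter.2 ⟨List.mem_filter.2 ⟨h3, h13⟩, h23⟩)
  rw [List.isEmpty_iff] at h'''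
  have : p4 ∈ (((L.filter (compat p1)).filter (compat p2)).filter (compat p3)) :=
    List.mem_filter.2 ⟨List.mem_filter.2 ⟨List.mem_filter.2 ⟨h4, h14⟩, h24⟩, h34⟩
  rw [h'''] at this
  simp at this

lemma close_of (a b : Fin 13) (h : a = b ∨ G.Adj a b) : close a b = true := by
  unfold close
  rcases h with h | h
  · simp [h]
  · have : adjB a b = true := h
    simp [this]

/-- In a connected induced subgraph on at least two vertices every vertex has a neighbour. -/
lemma exists_nb (s : Finset (Fin 13)) (h : (G.induce (s : Set (Fin 13))).Connected)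
    (x y : Fin 13) (hx : x ∈ s) (hy : y ∈ s) (hxy : x ≠ y) : ∃ z ∈ s, G.Adj x z := by
  obtain ⟨w⟩ := h.preconnected ⟨x, Finset.mem_coe.2 hx⟩ ⟨y, Finset.mem_coe.2 hy⟩
  cases w with
  | nil => exact absurd rfl hxy
  | cons hadj p =>
    rename_i v
    exact ⟨v.1, Finset.mem_coe.1 v.2, hadj⟩

/-- Connected vertex sets of size at most three are centred triples. -/
lemma conn_repr (s : Finset (Fin 13)) (hc : s.card ≤ 3)
    (h : (G.induce (s : Set (Fin 13))).Connected) :
    ∃ b a c : Fin 13, close a b = true ∧ close c b = true ∧ s = {a, b, c} := by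
  have hne : s.Nonempty := by
    obtain ⟨v⟩ := h.nonempty
    exact ⟨v.1, Finset.mem_coe.1 v.2⟩
  have hpos : 0 < s.card := Finset.card_pos.2 hne
  have hcases : s.card = 1 ∨ s.card = 2 ∨ s.card = 3 := by omega
  rcases hcases with h1 | h2 | h3
  · obtain ⟨b, rfl⟩ := Finset.card_eq_one.1 h1
    exact ⟨b, b, b, close_of _ _ (Or.inl rfl), close_of _ _ (Or.inl rfl), by simp⟩
  · obtain ⟨x, y, hxy, rfl⟩ := Finset.card_eq_two.1 h2
    obtain ⟨z, hz, hadj⟩ := exists_nb _ h x y (by simp) (by simp) hxy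
    have : z = y := by
      simp only [Finset.mem_insert, Finset.mem_singleton] at hz
      rcases hz with rfl | rfl
      · exact absurd hadj (G.loopless.irrefl _)
      · rfl
    subst this
    exact ⟨z, x, z, close_of _ _ (Or.inr hadj), close_of _ _ (Or.inl rfl), by simp⟩
  · obtain ⟨x, y, z, hxy, hxz, hyz, rfl⟩ := Finset.card_eq_three.1 h3
    obtain ⟨u, hu, hxu⟩ := exists_nb _ h x y (by simp) (by simp) hxy
    obtain ⟨v, hv, hyv⟩ := exists_nb _ h y z (by simp) (by simp) hyz
    obtain ⟨w, hw, hzw⟩ := exists_nb _ h z x (by simp) (by simp) hxz.symm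
    have hirr : ∀ a, ¬ G.Adj a a := fun a => G.loopless.irrefl a
    simp only [Finset.mem_insert, Finset.mem_singleton] at hu hv hw
    have hxu' : G.Adj x y ∨ G.Adj x z := by
      rcases hu with rfl | rfl | rfl
      · exact absurd hxu (hirr _)
      · exact Or.inl hxu
      · exact Or.inr hxu
    have hyv' : G.Adj x y ∨ G.Adj y z := by
      rcases hv with rfl | rfl | rfl
      · exact Or.inl hyv.symm
      · exact absurd hyv (hirr _)
      · exact Or.inr hyv
    have hzw' : G.Adj x z ∨ G.Adj y z := by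
      rcases hw with rfl | rfl | rfl
      · exact Or.inl hzw.symm
      · exact Or.inr hzw.symm
      · exact absurd hzw (hirr _)
    clear hu hv hw hxu hyv hzw
    have hmain : (G.Adj x y ∧ G.Adj x z) ∨ (G.Adj x y ∧ G.Adj y z) ∨ (G.Adj x z ∧ G.Adj y z) := by
      rcases hxu' with h1 | h1
      · rcases hzw' with h2 | h2
        · exact Or.inl ⟨h1, h2⟩
        · exact Or.inr (Or.inl ⟨h1, h2⟩)
      · rcases hyv' with h2 | h2
        · exact Or.inl ⟨h2, h1⟩
        · exact Or.inr (Or.inr ⟨h1, h2⟩)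
    rcases hmain with ⟨h1, h2⟩ | ⟨h1, h2⟩ | ⟨h1, h2⟩
    · refine ⟨x, y, z, close_of _ _ (Or.inr h1.symm), close_of _ _ (Or.inr h2.symm), ?_⟩
      exact Finset.insert_comm x y {z}
    · refine ⟨y, x, z, close_of _ _ (Or.inr h1), close_of _ _ (Or.inr h2.symm), rfl⟩
    · refine ⟨z, x, y, close_of _ _ (Or.inr h1), close_of _ _ (Or.inr h2), ?_⟩
      rw [Finset.pair_comm z y]

lemma testBit_msk (a b c : Fin 13) (i : ℕ) :
    (msk a b c).testBit i = (decide ((a : ℕ) = i) || decide ((b : ℕ) = i) || decide ((c : ℕ) = i)) := by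
  unfold msk
  rw [Nat.testBit_or, Nat.testBit_or, Nat.testBit_two_pow, Nat.testBit_two_pow,
    Nat.testBit_two_pow]

lemma compat_of (a b c a' b' c' : Fin 13)
    (hd : Disjoint ({a, b, c} : Finset (Fin 13)) {a', b', c'})
    (he : ∃ u ∈ ({a, b, c} : Finset (Fin 13)), ∃ v ∈ ({a', b', c'} : Finset (Fin 13)), G.Adj u v) :
    compat (msk a b c, nmsk a b c) (msk a' b' c', nmsk a' b' c') = true := by
  unfold compat
  have h1 : Nat.land (msk a b c) (msk a' b' c') = 0 := by
    show msk a b c &&& msk a' b' c' = 0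
    apply Nat.eq_of_testBit_eq
    intro i
    rw [Nat.testBit_and, testBit_msk, testBit_msk, Nat.zero_testBit]
    by_contra hcon
    have hcon' : ((decide ((a : ℕ) = i) || decide ((b : ℕ) = i) || decide ((c : ℕ) = i)) &&
      (decide ((a' : ℕ) = i) || decide ((b' : ℕ) = i) || decide ((c' : ℕ) = i))) = true := by
      revert hcon
      cases ((decide ((a : ℕ) = i) || decide ((b : ℕ) = i) || decide ((c : ℕ) = i)) &&
        (decide ((a' : ℕ) = i) || decide ((b' : ℕ) = i) || decide ((c' : ℕ) = i))) <;> simp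
    simp only [Bool.and_eq_true, Bool.or_eq_true, decide_eq_true_eq] at hcon'
    rw [Finset.disjoint_left] at hd
    obtain ⟨hl, hr⟩ := hcon'
    have hx : ∃ x : Fin 13, (x : ℕ) = i ∧ x ∈ ({a, b, c} : Finset (Fin 13)) := by
      rcases hl with (h | h) | h
      · exact ⟨a, h, by simp⟩
      · exact ⟨b, h, by simp⟩
      · exact ⟨c, h, by simp⟩
    have hy : ∃ x : Fin 13, (x : ℕ) = i ∧ x ∈ ({a', b', c'} : Finset (Fin 13)) := by
      rcases hr with (h | h) | h
      · exact ⟨a', h, by simp⟩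
      · exact ⟨b', h, by simp⟩
      · exact ⟨c', h, by simp⟩
    obtain ⟨x, hxi, hxs⟩ := hx
    obtain ⟨y, hyi, hys⟩ := hy
    have : x = y := Fin.ext (hxi.trans hyi.symm)
    subst this
    exact hd hxs hys
  have h2 : Nat.land (nmsk a b c) (msk a' b' c') ≠ 0 := by
    show nmsk a b c &&& msk a' b' c' ≠ 0
    obtain ⟨u, hu, v, hv, huv⟩ := he
    intro h0
    have hbit : (nmsk a b c &&& msk a' b' c').testBit v = true := by
      rw [Nat.testBit_and, testBit_msk]
      have hA : (nmsk a b c).testBit v = true := by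
        unfold nmsk
        rw [Nat.testBit_or, Nat.testBit_or, nb_spec, nb_spec, nb_spec]
        have huv' : adjB u v = true := huv
        simp only [Finset.mem_insert, Finset.mem_singleton] at hu
        rcases hu with rfl | rfl | rfl <;> simp [huv']
      simp only [Finset.mem_insert, Finset.mem_singleton] at hv
      rw [hA]
      rcases hv with rfl | rfl | rfl <;> simp
    rw [h0, Nat.zero_testBit] at hbit
    exact absurd hbit (by simp)
  simp only [h1, Bool.and_eq_true]
  refine ⟨rfl, ?_⟩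
  cases hb : Nat.beq (Nat.land (nmsk a b c) (msk a' b' c')) 0 with
  | false => rfl
  | true => exact absurd (Nat.eq_of_beq_eq_true hb) h2

/-- The counterexample graph has no clique model of order four whose branch sets are connected and have
at most three vertices. -/
lemma no_model (f : Fin 4 → Finset (Fin 13))
    (h1 : ∀ i, (f i).card ≤ 3 ∧ (G.induce ((f i : Finset (Fin 13)) : Set (Fin 13))).Connected)
    (h2 : ∀ i j, i ≠ j → Disjoint (f i) (f j) ∧ ∃ u ∈ f i, ∃ v ∈ f j, G.Adj u v) : False := by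
  have hrep : ∀ i, ∃ p : Fin 13 × Fin 13 × Fin 13, close p.2.1 p.1 = true ∧
      close p.2.2 p.1 = true ∧ f i = {p.2.1, p.1, p.2.2} := by
    intro i
    obtain ⟨b, a, c, h, h', h''⟩ := conn_repr (f i) (h1 i).1 (h1 i).2
    exact ⟨(b, a, c), h, h', h''⟩
  choose p hp1 hp2 hp3 using hrep
  have hcomp : ∀ i j, i ≠ j → compat (msk (p i).2.1 (p i).1 (p i).2.2, nmsk (p i).2.1 (p i).1 (p i).2.2)
      (msk (p j).2.1 (p j).1 (p j).2.2, nmsk (p j).2.1 (p j).1 (p j).2.2) = true := by
    intro i j hij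
    have h := h2 i j hij
    rw [hp3 i, hp3 j] at h
    exact compat_of _ _ _ _ _ _ h.1 h.2
  have hmem : ∀ i, (msk (p i).2.1 (p i).1 (p i).2.2, nmsk (p i).2.1 (p i).1 (p i).2.2) ∈ L :=
    fun i => mem_L _ _ _ (hp1 i) (hp2 i)
  exact no_four _ _ _ _ (hmem 0) (hmem 1) (hmem 2) (hmem 3) (hcomp 0 1 (by decide))
    (hcomp 0 2 (by decide)) (hcomp 0 3 (by decide)) (hcomp 1 2 (by decide))
    (hcomp 1 3 (by decide)) (hcomp 2 3 (by decide))

/-! ### No long induced odd cycle -/

lemma sub_val_eq_one (n : ℕ) (a b : Fin n) (h : ((a - b : Fin n) : ℕ) = 1) :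
    (a : ℕ) = b + 1 ∨ ((a : ℕ) = 0 ∧ (b : ℕ) + 1 = n) := by
  have ha := a.2
  have hb := b.2
  rcases le_total b a with hba | hab
  · rw [Fin.sub_val_of_le hba] at h
    have : (b : ℕ) ≤ a := hba
    left
    omega
  · rw [Fin.val_sub] at h
    have hab' : (a : ℕ) ≤ b := hab
    rcases Nat.lt_or_ge (n - (b : ℕ) + a) n with hlt | hge
    · rw [Nat.mod_eq_of_lt hlt] at h
      right
      omega
    · have he : n - (b : ℕ) + a = n := by omega
      rw [he, Nat.mod_self] at h
      exact absurd h (by norm_num)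

/-- A long cycle graph has no triangle. -/
lemma cycle_no_triangle (n : ℕ) (hn : 4 ≤ n) (u v w : Fin n)
    (a1 : (SimpleGraph.cycleGraph n).Adj u v) (a2 : (SimpleGraph.cycleGraph n).Adj v w)
    (a3 : (SimpleGraph.cycleGraph n).Adj u w) : False := by
  rw [SimpleGraph.cycleGraph_adj'] at a1 a2 a3
  have b1 := a1.imp (sub_val_eq_one n _ _) (sub_val_eq_one n _ _)
  have b2 := a2.imp (sub_val_eq_one n _ _) (sub_val_eq_one n _ _)
  have b3 := a3.imp (sub_val_eq_one n _ _) (sub_val_eq_one n _ _)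
  have hu := u.2
  have hv := v.2
  have hw := w.2
  omega

/-- The counterexample graph has no induced odd cycle with more than nine vertices. -/
lemma no_long (k : ℕ) (hk : 3 * 3 ≤ 2 * k) :
    IsEmpty (SimpleGraph.cycleGraph (2 * k + 1) ↪g G) := by
  refine ⟨fun φ => ?_⟩
  have hmiss : ∀ p q r : Fin 13, adjB p q = true → adjB q r = true → adjB p r = true →
      ∃ m ∈ ({p, q, r} : Finset (Fin 13)), m ∉ Finset.univ.map φ.toEmbedding := by
    intro p q r hpq hqr hpr
    by_contra hcon
    push Not at hcon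
    have hp := hcon p (by simp)
    have hq := hcon q (by simp)
    have hr := hcon r (by simp)
    rw [Finset.mem_map] at hp hq hr
    obtain ⟨u, -, hu⟩ := hp
    obtain ⟨v, -, hv⟩ := hq
    obtain ⟨w, -, hw⟩ := hr
    have hu' : φ u = p := hu
    have hv' : φ v = q := hv
    have hw' : φ w = r := hw
    have a1 : G.Adj (φ u) (φ v) := by rw [hu', hv']; exact hpq
    have a2 : G.Adj (φ v) (φ w) := by rw [hv', hw']; exact hqr
    have a3 : G.Adj (φ u) (φ w) := by rw [hu', hw']; exact hpr
    exact cycle_no_triangle (2 * k + 1) (by omega) u v w (φ.map_adj_iff.1 a1)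
      (φ.map_adj_iff.1 a2) (φ.map_adj_iff.1 a3)
  obtain ⟨m1, hm1, hn1⟩ := hmiss 0 1 2 (by decide) (by decide) (by decide)
  obtain ⟨m2, hm2, hn2⟩ := hmiss 3 4 5 (by decide) (by decide) (by decide)
  obtain ⟨m3, hm3, hn3⟩ := hmiss 6 7 8 (by decide) (by decide) (by decide)
  obtain ⟨m4, hm4, hn4⟩ := hmiss 9 10 11 (by decide) (by decide) (by decide)
  have hcard : (Finset.univ.map φ.toEmbedding).card = 2 * k + 1 := by
    rw [Finset.card_map, Finset.card_univ, Fintype.card_fin]
  have hsub : Finset.univ.map φ.toEmbedding ⊆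
      ((({0, 1, 2} : Finset (Fin 13)).erase m1 ∪ ({3, 4, 5} : Finset (Fin 13)).erase m2) ∪
      (({6, 7, 8} : Finset (Fin 13)).erase m3 ∪ ({9, 10, 11} : Finset (Fin 13)).erase m4)) ∪ {12} := by
    intro x hx
    have hx1 : x ≠ m1 := fun h => hn1 (h ▸ hx)
    have hx2 : x ≠ m2 := fun h => hn2 (h ▸ hx)
    have hx3 : x ≠ m3 := fun h => hn3 (h ▸ hx)
    have hx4 : x ≠ m4 := fun h => hn4 (h ▸ hx)
    have hall : ∀ x : Fin 13, x ∈ ({0, 1, 2} : Finset (Fin 13)) ∨ x ∈ ({3, 4, 5} : Finset (Fin 13)) ∨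
      x ∈ ({6, 7, 8} : Finset (Fin 13)) ∨ x ∈ ({9, 10, 11} : Finset (Fin 13)) ∨
      x ∈ ({12} : Finset (Fin 13)) := by decide
    simp only [Finset.mem_union, Finset.mem_erase]
    rcases hall x with h | h | h | h | h
    · exact Or.inl (Or.inl (Or.inl ⟨hx1, h⟩))
    · exact Or.inl (Or.inl (Or.inr ⟨hx2, h⟩))
    · exact Or.inl (Or.inr (Or.inl ⟨hx3, h⟩))
    · exact Or.inl (Or.inr (Or.inr ⟨hx4, h⟩))
    · exact Or.inr h
  have hle := Finset.card_le_card hsub
  have c1 : (({0, 1, 2} : Finset (Fin 13)).erase m1).card = 2 := by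
    rw [Finset.card_erase_of_mem hm1]; rfl
  have c2 : (({3, 4, 5} : Finset (Fin 13)).erase m2).card = 2 := by
    rw [Finset.card_erase_of_mem hm2]; rfl
  have c3 : (({6, 7, 8} : Finset (Fin 13)).erase m3).card = 2 := by
    rw [Finset.card_erase_of_mem hm3]; rfl
  have c4 : (({9, 10, 11} : Finset (Fin 13)).erase m4).card = 2 := by
    rw [Finset.card_erase_of_mem hm4]; rfl
  have u1 := Finset.card_union_le
    ((({0, 1, 2} : Finset (Fin 13)).erase m1 ∪ ({3, 4, 5} : Finset (Fin 13)).erase m2) ∪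
      (({6, 7, 8} : Finset (Fin 13)).erase m3 ∪ ({9, 10, 11} : Finset (Fin 13)).erase m4)) {12}
  have u2 := Finset.card_union_le
    (({0, 1, 2} : Finset (Fin 13)).erase m1 ∪ ({3, 4, 5} : Finset (Fin 13)).erase m2)
      (({6, 7, 8} : Finset (Fin 13)).erase m3 ∪ ({9, 10, 11} : Finset (Fin 13)).erase m4)
  have u3 := Finset.card_union_le
    (({0, 1, 2} : Finset (Fin 13)).erase m1) (({3, 4, 5} : Finset (Fin 13)).erase m2)
  have u4 := Finset.card_union_le
    (({6, 7, 8} : Finset (Fin 13)).erase m3) (({9, 10, 11} : Finset (Fin 13)).erase m4)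
  have u5 : ({12} : Finset (Fin 13)).card = 1 := rfl
  omega

/-- The negation of the preceding statement: For every m ≥ 2 and finite graph G: every induced subgraph has a K_t-model with connected branch sets of size ≤ m for some t it is t-colourable with, iff G has no induced cycle of length 2k+1 with 2k ≥ 3m. -/
theorem result :
    ¬ (∀ m : ℕ, 2 ≤ m → ∀ (V : Type) [Fintype V] (G : SimpleGraph V),
    (∀ S : Finset V, ∃ t : ℕ, (G.induce (S : Set V)).Colorable t ∧
      ∃ f : Fin t → Finset V,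
        (∀ i, f i ⊆ S ∧ (f i).card ≤ m ∧ (G.induce ((f i : Finset V) : Set V)).Connected) ∧
        ∀ i j, i ≠ j → Disjoint (f i) (f j) ∧ ∃ u ∈ f i, ∃ v ∈ f j, G.Adj u v)
    ↔ (∀ k : ℕ, 3 * m ≤ 2 * k → IsEmpty (SimpleGraph.cycleGraph (2 * k + 1) ↪g G))) := by
  intro hmain
  obtain ⟨t, ⟨c⟩, f, hf1, hf2⟩ :=
    (hmain 3 (by norm_num) (Fin 13) Pool.Agent.S09866.G).2 (fun k hk => no_long k hk) Finset.univ
  rcases Nat.lt_or_ge t 4 with ht | ht
  · -- a colouring with at most three colours
    have ht3 : t ≤ 3 := by omega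
    refine no_three (fun v => Fin.castLE ht3 (c ⟨v, by simp⟩)) ?_
    intro u v huv heq
    have h := Fin.castLE_injective ht3 heq
    refine c.valid (v := ⟨u, by simp⟩) (w := ⟨v, by simp⟩) ?_ h
    exact huv
  · refine no_model (fun i => f (Fin.castLE ht i)) (fun i => ?_) (fun i j hij => ?_)
    · exact ⟨(hf1 _).2.1, (hf1 _).2.2⟩
    · exact hf2 _ _ (fun h => hij (Fin.castLE_injective ht h))

end Pool.Agent.S09866
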