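import Pool.Statements.S10141
-- import your own Pool.Agent.* helpers here

set_option autoImplicit false
open Pool Pool.MP_9137bf_co

namespace Pool.Agent.S10141

open Finset SimpleGraph

section Analytic

/-- log-sum inequality for two terms. -/
lemma log_sum_two {F H p q : ℝ} (hF : 0 < F) (hH : 0 < H) (hp : 0 < p) (hq : 0 < q) :
    F * Real.log p + H * Real.log q + ((F + H) * Real.log (F + H) - F * Real.log F - H * Real.log H)
      ≤ (F + H) * Real.log (p + q) := by
  have hw : 0 < F + H := by positivity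
  have hpq : 0 < p + q := by positivity
  have h1 : Real.log (p * (F + H) / (F * (p + q))) ≤ p * (F + H) / (F * (p + q)) - 1 :=
    Real.log_le_sub_one_of_pos (by positivity)
  have h2 : Real.log (q * (F + H) / (H * (p + q))) ≤ q * (F + H) / (H * (p + q)) - 1 :=
    Real.log_le_sub_one_of_pos (by positivity)
  rw [Real.log_div (by positivity) (by positivity), Real.log_mul (by positivity) (by positivity),
    Real.log_mul (by positivity) (by positivity)] at h1 h2
  have h3 := mul_le_mul_of_nonneg_left h1 hF.le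
  have h4 := mul_le_mul_of_nonneg_left h2 hH.le
  have h5 : F * (p * (F + H) / (F * (p + q)) - 1) + H * (q * (F + H) / (H * (p + q)) - 1) = 0 := by
    field_simp
    ring
  nlinarith [h3, h4, h5]

/-- entropy at a vertex of degree three -/
noncomputable def eta (a b c : ℝ) : ℝ :=
  a * Real.log a + b * Real.log b + c * Real.log c
   - 2 * ((a + b - c) / 2 * Real.log ((a + b - c) / 2)
     + (a + c - b) / 2 * Real.log ((a + c - b) / 2)
     + (b + c - a) / 2 * Real.log ((b + c - a) / 2))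

lemma vertex3 {a b c p q r : ℝ} (h1 : 0 < a + b - c) (h2 : 0 < a + c - b) (h3 : 0 < b + c - a)
    (hp : 0 < p) (hq : 0 < q) (hr : 0 < r) :
    a * Real.log p + b * Real.log q + c * Real.log r + eta a b c
      ≤ a * Real.log (q + r) + b * Real.log (p + r) + c * Real.log (p + q) := by
  have e1 := log_sum_two (F := (a + b - c) / 2) (H := (a + c - b) / 2) (p := q) (q := r)
    (by linarith) (by linarith) hq hr
  have e2 := log_sum_two (F := (a + b - c) / 2) (H := (b + c - a) / 2) (p := p) (q := r)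
    (by linarith) (by linarith) hp hr
  have e3 := log_sum_two (F := (a + c - b) / 2) (H := (b + c - a) / 2) (p := p) (q := q)
    (by linarith) (by linarith) hp hq
  have s1 : (a + b - c) / 2 + (a + c - b) / 2 = a := by ring
  have s2 : (a + b - c) / 2 + (b + c - a) / 2 = b := by ring
  have s3 : (a + c - b) / 2 + (b + c - a) / 2 = c := by ring
  rw [s1] at e1
  rw [s2] at e2
  rw [s3] at e3
  unfold eta
  nlinarith [e1, e2, e3]

lemma rho_bounds {ρ : ℝ} (h : ρ ^ 3 - ρ - 2 = 0) : 1.52137 < ρ ∧ ρ < 1.52139 := by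
  constructor
  · by_contra hh
    push Not at hh
    have h0 : 0 < ρ := by
      by_contra h0
      push Not at h0
      nlinarith [sq_nonneg (ρ + 1), sq_nonneg ρ, mul_nonneg (neg_nonneg.mpr h0) (sq_nonneg (ρ+1)), mul_nonneg (neg_nonneg.mpr h0) (sq_nonneg (ρ))]
    nlinarith [mul_pos h0 h0, mul_nonneg h0.le (sub_nonneg.mpr hh), mul_nonneg (mul_pos h0 h0).le (sub_nonneg.mpr hh)]
  · by_contra hh
    push Not at hh
    nlinarith [mul_nonneg (sub_nonneg.mpr hh) (sub_nonneg.mpr hh), mul_nonneg (mul_nonneg (sub_nonneg.mpr hh) (sub_nonneg.mpr hh)) (sub_nonneg.mpr hh)]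

lemma log_rho_upper {ρ : ℝ} (h : ρ ^ 3 - ρ - 2 = 0) : 5 * Real.log ρ ≤ 3 * Real.log 2 + 0.0189 := by
  obtain ⟨h1, h2⟩ := rho_bounds h
  have h0 : 0 < ρ := by linarith
  have e : Real.log (ρ ^ 5 / 8) ≤ ρ ^ 5 / 8 - 1 := Real.log_le_sub_one_of_pos (by positivity)
  rw [Real.log_div (by positivity) (by norm_num), Real.log_pow] at e
  have e8 : Real.log 8 = 3 * Real.log 2 := by
    rw [show (8 : ℝ) = 2 ^ 3 by norm_num, Real.log_pow]; norm_num
  rw [e8] at e
  have h5 : ρ ^ 5 = 2 * ρ ^ 2 + ρ + 2 := by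
    have : ρ ^ 3 = ρ + 2 := by linarith
    calc ρ ^ 5 = ρ ^ 3 * ρ ^ 2 := by ring
      _ = (ρ + 2) * ρ ^ 2 := by rw [this]
      _ = ρ ^ 3 + 2 * ρ ^ 2 := by ring
      _ = _ := by rw [this]; ring
  have h6 : ρ ^ 5 / 8 - 1 ≤ 0.0189 := by
    rw [h5]; nlinarith
  push_cast at e
  linarith


lemma a_bounds {ρ : ℝ} (h : ρ ^ 3 - ρ - 2 = 0) : 1.1359 < 4 / ρ ^ 3 ∧ 4 / ρ ^ 3 < 1.13593 := by
  obtain ⟨h1, h2⟩ := rho_bounds h
  have h3 : ρ ^ 3 = ρ + 2 := by linarith
  rw [h3]
  constructor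
  · rw [lt_div_iff₀ (by linarith)]; nlinarith
  · rw [div_lt_iff₀ (by linarith)]; nlinarith

lemma log_a {ρ : ℝ} (h : ρ ^ 3 - ρ - 2 = 0) : Real.log (4 / ρ ^ 3) = 2 * Real.log 2 - 3 * Real.log ρ := by
  obtain ⟨h1, h2⟩ := rho_bounds h
  rw [Real.log_div (by norm_num) (by positivity), Real.log_pow, show (4 : ℝ) = 2 ^ 2 by norm_num, Real.log_pow]
  push_cast; ring

lemma log_a_half {ρ : ℝ} (h : ρ ^ 3 - ρ - 2 = 0) : Real.log (4 / ρ ^ 3 / 2) = Real.log 2 - 3 * Real.log ρ := by
  obtain ⟨h1, h2⟩ := rho_bounds h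
  rw [Real.log_div (by positivity) (by norm_num), log_a h]
  ring

lemma one_sub_a_half {ρ : ℝ} (h : ρ ^ 3 - ρ - 2 = 0) : (2 - 4 / ρ ^ 3) / 2 = 1 / ρ ^ 2 := by
  obtain ⟨h1, h2⟩ := rho_bounds h
  have h0 : 0 < ρ := by linarith
  field_simp
  nlinarith

lemma log_one_sub_a_half {ρ : ℝ} (h : ρ ^ 3 - ρ - 2 = 0) : Real.log ((2 - 4 / ρ ^ 3) / 2) = - 2 * Real.log ρ := by
  rw [one_sub_a_half h, one_div, Real.log_inv, Real.log_pow]
  push_cast; ring

lemma eta_comm12 (a b c : ℝ) : eta a b c = eta b a c := by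
  unfold eta
  rw [show b + a - c = a + b - c by ring]
  ring

lemma eta_comm23 (a b c : ℝ) : eta a b c = eta a c b := by
  unfold eta
  rw [show c + b - a = b + c - a by ring]
  ring

lemma log_half : Real.log (1 / 2) = - Real.log 2 := by
  rw [one_div, Real.log_inv]

lemma eta111 : eta 1 1 1 = 3 * Real.log 2 := by
  unfold eta
  rw [show ((1 : ℝ) + 1 - 1) / 2 = 1 / 2 by norm_num, log_half, Real.log_one]
  ring

lemma eta_a11 {ρ : ℝ} (h : ρ ^ 3 - ρ - 2 = 0) :
    eta (4 / ρ ^ 3) 1 1 = (4 / ρ ^ 3 + 4) * Real.log ρ := by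
  unfold eta
  rw [show (4 / ρ ^ 3 + 1 - 1) / 2 = 4 / ρ ^ 3 / 2 by ring, show ((1 : ℝ) + 1 - 4 / ρ ^ 3) / 2 = (2 - 4 / ρ ^ 3) / 2 by ring,
   log_a h, log_a_half h, log_one_sub_a_half h, Real.log_one]
  ring

lemma eta_aaa {ρ : ℝ} (h : ρ ^ 3 - ρ - 2 = 0) :
    eta (4 / ρ ^ 3) (4 / ρ ^ 3) (4 / ρ ^ 3) = 3 * (4 / ρ ^ 3) * Real.log 2 := by
  unfold eta
  rw [show (4 / ρ ^ 3 + 4 / ρ ^ 3 - 4 / ρ ^ 3) / 2 = 4 / ρ ^ 3 / 2 by ring, log_a h, log_a_half h]
  ring

lemma log_aux {ρ : ℝ} (h : ρ ^ 3 - ρ - 2 = 0) :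
    Real.log ((4 / ρ ^ 3 + 4 / ρ ^ 3 - 1) / 2) ≤ 0.243 - Real.log 2 := by
  obtain ⟨h1, h2⟩ := a_bounds h
  rw [Real.log_div (by linarith) (by norm_num)]
  have h3 : Real.log (4 / ρ ^ 3 + 4 / ρ ^ 3 - 1) ≤ 0.243 := by
    rw [Real.log_le_iff_le_exp (by linarith)]
    have := Real.quadratic_le_exp_of_nonneg (x := 0.243) (by norm_num)
    norm_num at this ⊢
    linarith
  linarith

lemma eta_aa1 {ρ : ℝ} (h : ρ ^ 3 - ρ - 2 = 0) :
    (4 / ρ ^ 3 + 4 / ρ ^ 3 + 1 + 2) * Real.log ρ + 0.02 ≤ eta (4 / ρ ^ 3) (4 / ρ ^ 3) 1 := by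
  have hL := Real.log_two_gt_d9
  have hL' := Real.log_two_lt_d9
  have hs := log_rho_upper h
  have haux := log_aux h
  obtain ⟨h1, h2⟩ := a_bounds h
  have ha := log_a h
  unfold eta
  rw [show (4 / ρ ^ 3 + 1 - 4 / ρ ^ 3) / 2 = 1 / 2 by ring, log_half, ha, Real.log_one]
  set a := 4 / ρ ^ 3
  set s := Real.log ρ
  set L := Real.log 2
  set M := Real.log ((a + a - 1) / 2)
  have hM : (a + a - 1) * M ≤ (a + a - 1) * (0.243 - L) := mul_le_mul_of_nonneg_left haux (by linarith)
  have hs2 : a * s ≤ a * ((3 * L + 0.0189) / 5) := mul_le_mul_of_nonneg_left (by linarith) (by linarith)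
  have hLa : a * L ≤ 1.13593 * L := mul_le_mul_of_nonneg_right h2.le (by linarith)
  have hLa' : 1.1359 * L ≤ a * L := mul_le_mul_of_nonneg_right h1.le (by linarith)
  nlinarith [hM, hs2, hLa, hLa', hs, hL, hL', h1, h2]

/-- The local inequality at a vertex of degree `3`. Here `i j k ∈ {0,1}` are the indicators of the
three neighbours having degree `3`. -/
lemma eta_bound {ρ : ℝ} (h : ρ ^ 3 - ρ - 2 = 0) (p q r : Prop) [Decidable p] [Decidable q] [Decidable r] :
    Real.log ρ * ((if p then 4 / ρ ^ 3 else 1) + (if q then 4 / ρ ^ 3 else 1) + (if r then 4 / ρ ^ 3 else 1))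
     + 2 * Real.log ρ + 0.02 * ((if p then 1 else 0) + (if q then 1 else 0) + (if r then 1 else 0) - 1)
    ≤ eta (if p then 4 / ρ ^ 3 else 1) (if q then 4 / ρ ^ 3 else 1) (if r then 4 / ρ ^ 3 else 1) := by
  have hs := log_rho_upper h
  have h0 := eta111
  have h1 := eta_a11 h
  have h2 := eta_aa1 h
  have h3 := eta_aaa h
  have hL := Real.log_two_gt_d9
  obtain ⟨ha1, ha2⟩ := a_bounds h
  have h1' : eta 1 (4 / ρ ^ 3) 1 = eta (4 / ρ ^ 3) 1 1 := eta_comm12 _ _ _
  have h1'' : eta 1 1 (4 / ρ ^ 3) = eta (4 / ρ ^ 3) 1 1 := by rw [eta_comm23, eta_comm12]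
  have h2' : eta (4 / ρ ^ 3) 1 (4 / ρ ^ 3) = eta (4 / ρ ^ 3) (4 / ρ ^ 3) 1 := eta_comm23 _ _ _
  have h2'' : eta 1 (4 / ρ ^ 3) (4 / ρ ^ 3) = eta (4 / ρ ^ 3) (4 / ρ ^ 3) 1 := by
    rw [eta_comm12, eta_comm23]
  set a := 4 / ρ ^ 3
  set s := Real.log ρ
  set L := Real.log 2
  have hLa : 1.1359 * L ≤ a * L := mul_le_mul_of_nonneg_right ha1.le (by linarith)
  have hs2 : a * s ≤ a * ((3 * L + 0.0189) / 5) := mul_le_mul_of_nonneg_left (by linarith) (by linarith)
  by_cases hp : p <;> by_cases hq : q <;> by_cases hr : r <;>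
   simp only [hp, hq, hr, if_true, if_false, h0, h1', h1'', h2', h2'', h1, h3] <;>
   nlinarith [h2, hs, hL, hLa, hs2, ha1, ha2]


end Analytic


/-- A non-backtracking walk which is shorter than the girth is a path. -/
lemma isPath_of_isChain {V : Type*} [DecidableEq V] {G : SimpleGraph V} {v w : V} (p : G.Walk v w)
    (h : List.IsChain (· ≠ ·) p.edges) (hg : (p.length : ℕ∞) < G.egirth) : p.IsPath := by
  induction p with
  | nil => simp
  | @cons u' v' _ head tail ih =>
    have hcc := List.isChain_cons.mp (Walk.edges_cons _ _ ▸ h)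
    have hlt : (tail.length : ℕ∞) < G.egirth := by
      refine lt_of_le_of_lt ?_ hg
      simp [Walk.length_cons]
    refine Walk.cons_isPath_iff head tail |>.mpr ⟨ih hcc.2 hlt, ?_⟩
    rcases tail.length.eq_zero_or_pos with h' | h'
    · simp [Walk.nil_iff_support_eq.mp (Walk.length_eq_zero_iff.mp h'), head.ne]
    · by_contra hh
      have hcyc : (Walk.cons head (tail.takeUntil u' hh)).IsCycle := by
        simp only [Walk.isCycle_def, Walk.isTrail_def, Walk.edges_cons, List.nodup_cons, ne_eq, reduceCtorEq,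
          not_false_eq_true, Walk.support_cons, List.tail_cons, true_and]
        have : Walk.cons head (tail.takeUntil u' hh) |>.support.tail.Nodup :=
          tail.isPath_def.mp (ih hcc.2 hlt) |>.sublist <| List.IsInfix.sublist
            ⟨[], (tail.dropUntil u' hh).support.tail, by simp [← Walk.support_append]⟩
        refine ⟨⟨?_, Walk.edges_nodup_of_support_nodup this⟩, this⟩
        by_contra hhh
        refine hcc.1 s(u', v') ?_ rfl
        rw [← tail.cons_tail_eq (by simp [Walk.not_nil_iff_lt_length, h'])]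
        have := Walk.IsPath.mk' this |>.eq_snd_of_mem_edges (Sym2.eq_swap ▸ hhh)
        simp [this, Walk.snd_takeUntil head.ne]
      have h1 := egirth_le_length hcyc
      have h2 : (Walk.cons head (tail.takeUntil u' hh)).length ≤ (Walk.cons head tail).length := by
        simp only [Walk.length_cons]
        have := Walk.length_takeUntil_le_length tail hh
        omega
      have h3 : G.egirth ≤ ((Walk.cons head tail).length : ℕ∞) := h1.trans (by exact_mod_cast h2)
      exact absurd hg (not_lt.mpr h3)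

variable {V : Type*} [Fintype V] [DecidableEq V] (G : SimpleGraph V) [DecidableRel G.Adj]

/-- Endpoints of the non-backtracking walks of length `r` starting at `v` whose first step is not to `u`. -/
def ends : ℕ → V → V → Finset V
  | 0, _, v => {v}
  | r + 1, u, v => ((G.neighborFinset v).erase u).biUnion (fun x => ends r v x)

lemma ends_walk (r : ℕ) : ∀ (u v y : V) (h : G.Adj u v), y ∈ ends G r u v →
    ∃ p : G.Walk v y, p.length = r ∧ (Walk.cons h p).edges.IsChain (· ≠ ·) := by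
  induction r with
  | zero =>
    intro u v y h hy
    simp only [ends, Finset.mem_singleton] at hy
    subst hy
    exact ⟨Walk.nil, rfl, by simp⟩
  | succ r ih =>
    intro u v y h hy
    simp only [ends, Finset.mem_biUnion, Finset.mem_erase, mem_neighborFinset] at hy
    obtain ⟨x, ⟨hxu, hvx⟩, hy⟩ := hy
    obtain ⟨p, hp, hc⟩ := ih v x y hvx hy
    refine ⟨Walk.cons hvx p, by simp [hp], ?_⟩
    rw [Walk.edges_cons]
    rw [Walk.edges_cons] at hc ⊢
    refine List.IsChain.cons_cons ?_ hc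
    intro he
    rw [Sym2.eq_iff] at he
    rcases he with ⟨h1, h2⟩ | ⟨h1, h2⟩
    · exact h.ne h1
    · exact hxu h1.symm

lemma ends_disjoint (r : ℕ) (hg : ((2 * (r + 1) : ℕ) : ℕ∞) < G.egirth) (v x x' : V)
    (hx : G.Adj v x) (hx' : G.Adj v x') (hne : x ≠ x') :
    Disjoint (ends G r v x) (ends G r v x') := by
  rw [Finset.disjoint_left]
  intro y hy hy'
  obtain ⟨p, hp, hpc⟩ := ends_walk G r v x y hx hy
  obtain ⟨p', hp', hpc'⟩ := ends_walk G r v x' y hx' hy'
  have hl : (Walk.cons hx p).length = r + 1 := by simp [hp]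
  have hl' : (Walk.cons hx' p').length = r + 1 := by simp [hp']
  have hgg : ((r + 1 : ℕ) : ℕ∞) < G.egirth := by
    refine lt_of_le_of_lt ?_ hg
    exact_mod_cast (by omega : r + 1 ≤ 2 * (r + 1))
  have h1 : (Walk.cons hx p).IsPath := isPath_of_isChain _ hpc (by rw [hl]; exact hgg)
  have h2 : (Walk.cons hx' p').IsPath := isPath_of_isChain _ hpc' (by rw [hl']; exact hgg)
  have hneq : Walk.cons hx p ≠ Walk.cons hx' p' := by
    intro he
    have h6 := congrArg Walk.snd he
    rw [Walk.snd_cons, Walk.snd_cons] at h6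
    exact hne h6
  obtain ⟨w, -, -, c, hc, hcl⟩ := h1.exists_isCycle_length_le_add_of_ne h2 hneq
  have h3 := egirth_le_length hc
  have h4 : c.length ≤ 2 * (r + 1) := by omega
  have h5 : G.egirth ≤ ((2 * (r + 1) : ℕ) : ℕ∞) := h3.trans (by exact_mod_cast h4)
  exact absurd hg (not_lt.mpr h5)

lemma card_ends_succ (r : ℕ) (hg : ((2 * (r + 1) : ℕ) : ℕ∞) < G.egirth) (u v : V) :
    (ends G (r + 1) u v).card = ∑ x ∈ (G.neighborFinset v).erase u, (ends G r v x).card := by
  rw [ends, Finset.card_biUnion]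
  intro x hx x' hx' hne
  rw [Finset.mem_coe, Finset.mem_erase, mem_neighborFinset] at hx hx'
  exact ends_disjoint G r hg v x x' hx.2 hx'.2 hne

lemma ends_nonempty (hdeg : ∀ v, 2 ≤ G.degree v) (r : ℕ) : ∀ u v : V, (ends G r u v).Nonempty := by
  induction r with
  | zero => intro u v; simp [ends]
  | succ r ih =>
    intro u v
    have h1 : 0 < ((G.neighborFinset v).erase u).card := by
      have h2 := Finset.pred_card_le_card_erase (s := G.neighborFinset v) (a := u)
      have h3 := hdeg v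
      rw [← G.card_neighborFinset_eq_degree] at h3
      omega
    obtain ⟨x, hx⟩ := Finset.card_pos.mp h1
    obtain ⟨y, hy⟩ := ih v x
    exact ⟨y, by rw [ends]; exact Finset.mem_biUnion.mpr ⟨x, hx, hy⟩⟩


/-- The weight of the edge `uv`. -/
noncomputable def wt (ρ : ℝ) (u v : V) : ℝ := if G.degree u = 3 ∧ G.degree v = 3 then 4 / ρ ^ 3 else 1

lemma wt_comm (ρ : ℝ) (u v : V) : wt G ρ u v = wt G ρ v u := by
  unfold wt; simp only [and_comm]

lemma wt_pos {ρ : ℝ} (h : ρ ^ 3 - ρ - 2 = 0) (u v : V) : 1 ≤ wt G ρ u v := by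
  obtain ⟨h1, h2⟩ := a_bounds h
  unfold wt
  split_ifs
  · linarith
  · exact le_rfl

lemma wt_lt {ρ : ℝ} (h : ρ ^ 3 - ρ - 2 = 0) (u v : V) : wt G ρ u v ≤ 1.13593 := by
  obtain ⟨h1, h2⟩ := a_bounds h
  unfold wt
  split_ifs
  · linarith
  · norm_num

/-- local correction term -/
noncomputable def corr (ρ : ℝ) (v : V) : ℝ :=
  if G.degree v = 3 then
    2 * Real.log ρ + 0.02 * ((∑ x ∈ G.neighborFinset v, (if G.degree x = 3 then (1 : ℝ) else 0)) - 1)
  else - 2 * Real.log ρ

lemma vertex_ineq {ρ : ℝ} (h : ρ ^ 3 - ρ - 2 = 0) (hdeg : ∀ v, G.degree v = 2 ∨ G.degree v = 3)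
    (v : V) (f : V → ℝ) (hf : ∀ x, 0 < f x) :
    ∑ x ∈ G.neighborFinset v, wt G ρ v x * Real.log (f x)
      + Real.log ρ * ∑ x ∈ G.neighborFinset v, wt G ρ v x + corr G ρ v
    ≤ ∑ u ∈ G.neighborFinset v, wt G ρ v u * Real.log (∑ x ∈ (G.neighborFinset v).erase u, f x) := by
  rcases hdeg v with hv | hv
  · -- degree two
    have hc : (G.neighborFinset v).card = 2 := by rw [G.card_neighborFinset_eq_degree]; exact hv
    obtain ⟨x, y, hxy, hN⟩ := Finset.card_eq_two.mp hc
    have hw : ∀ u, wt G ρ v u = 1 := by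
      intro u; unfold wt; simp [hv]
    have e1 : ({x, y} : Finset V).erase x = {y} := by
      ext z; simp only [Finset.mem_erase, Finset.mem_insert, Finset.mem_singleton]
      constructor
      · rintro ⟨h1, h2 | h2⟩
        · exact absurd h2 h1
        · exact h2
      · rintro rfl; exact ⟨Ne.symm hxy, Or.inr rfl⟩
    have e2 : ({x, y} : Finset V).erase y = {x} := by
      ext z; simp only [Finset.mem_erase, Finset.mem_insert, Finset.mem_singleton]
      constructor
      · rintro ⟨h1, h2 | h2⟩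
        · exact h2
        · exact absurd h2 h1
      · rintro rfl; exact ⟨hxy, Or.inl rfl⟩
    have hcorr : corr G ρ v = - 2 * Real.log ρ := by
      unfold corr; simp [hv]
    rw [hN, hcorr]
    simp only [Finset.sum_pair hxy, hw, e1, e2, Finset.sum_singleton, one_mul]
    linarith
  · have hc : (G.neighborFinset v).card = 3 := by rw [G.card_neighborFinset_eq_degree]; exact hv
    obtain ⟨x, y, z, hxy, hxz, hyz, hN⟩ := Finset.card_eq_three.mp hc
    have hw : ∀ u, wt G ρ v u = if G.degree u = 3 then 4 / ρ ^ 3 else 1 := by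
      intro u; unfold wt; simp [hv]
    have hcorr : corr G ρ v = 2 * Real.log ρ + 0.02 * ((if G.degree x = 3 then (1 : ℝ) else 0) + (if G.degree y = 3 then (1 : ℝ) else 0) + (if G.degree z = 3 then (1 : ℝ) else 0) - 1) := by
      unfold corr
      rw [if_pos hv, hN, Finset.sum_insert (by simp [hxy, hxz]), Finset.sum_pair hyz]
      ring
    have e1 : ({x, y, z} : Finset V).erase x = {y, z} := by
      rw [Finset.erase_insert (by simp [hxy, hxz])]
    have e2 : ({x, y, z} : Finset V).erase y = {x, z} := by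
      ext t; simp only [Finset.mem_erase, Finset.mem_insert, Finset.mem_singleton]
      constructor
      · rintro ⟨h1, h2 | h2 | h2⟩
        · exact Or.inl h2
        · exact absurd h2 h1
        · exact Or.inr h2
      · rintro (rfl | rfl)
        · exact ⟨hxy, Or.inl rfl⟩
        · exact ⟨Ne.symm hyz, Or.inr (Or.inr rfl)⟩
    have e3 : ({x, y, z} : Finset V).erase z = {x, y} := by
      ext t; simp only [Finset.mem_erase, Finset.mem_insert, Finset.mem_singleton]
      constructor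
      · rintro ⟨h1, h2 | h2 | h2⟩
        · exact Or.inl h2
        · exact Or.inr h2
        · exact absurd h2 h1
      · rintro (rfl | rfl)
        · exact ⟨hxz, Or.inl rfl⟩
        · exact ⟨hyz, Or.inr (Or.inl rfl)⟩
    have s3 : ∀ g : V → ℝ, ∑ t ∈ ({x, y, z} : Finset V), g t = g x + g y + g z := by
      intro g
      rw [Finset.sum_insert (by simp [hxy, hxz]), Finset.sum_pair hyz]; ring
    have hp1 := wt_pos G h v x
    have hp2 := wt_pos G h v y
    have hp3 := wt_pos G h v z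
    have hl1 := wt_lt G h v x
    have hl2 := wt_lt G h v y
    have hl3 := wt_lt G h v z
    have key := vertex3 (a := wt G ρ v x) (b := wt G ρ v y) (c := wt G ρ v z) (p := f x) (q := f y) (r := f z)
      (by linarith) (by linarith) (by linarith) (hf x) (hf y) (hf z)
    have key2 := eta_bound h (G.degree x = 3) (G.degree y = 3) (G.degree z = 3)
    rw [← hw x, ← hw y, ← hw z] at key2
    rw [hN, s3, s3, s3, e1, e2, e3, Finset.sum_pair hyz, Finset.sum_pair hxz, Finset.sum_pair hxy, hcorr]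
    linarith

lemma sum_swap (g : V → V → ℝ) :
    ∑ v, ∑ x ∈ G.neighborFinset v, g v x = ∑ v, ∑ x ∈ G.neighborFinset v, g x v := by
  rw [Finset.sum_comm' (t' := Finset.univ) (s' := fun x => G.neighborFinset x)]
  intro x y
  simp [G.adj_comm]

lemma corr_sum {ρ : ℝ} (hdeg : ∀ v, G.degree v = 2 ∨ G.degree v = 3)
    (hhalf : 2 * (Finset.univ.filter (fun v => G.degree v = 2)).card = Fintype.card V) :
    0 ≤ ∑ v, corr G ρ v := by
  classical
  -- indicator functions
  set i2 : V → ℝ := fun v => if G.degree v = 2 then 1 else 0 with hi2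
  set i3 : V → ℝ := fun v => if G.degree v = 3 then 1 else 0 with hi3
  have hi23 : ∀ v, i2 v + i3 v = 1 := by
    intro v; simp only [hi2, hi3]
    rcases hdeg v with hv | hv <;> simp [hv]
  have hcard : ∑ v, i2 v = ((Finset.univ.filter (fun v => G.degree v = 2)).card : ℝ) := by
    simp [hi2]
  have hn : ∑ v, (i2 v + i3 v) = (Fintype.card V : ℝ) := by
    simp only [hi23]; simp
  rw [Finset.sum_add_distrib] at hn
  have hn23 : ∑ v, i3 v = ∑ v, i2 v := by
    have : (2 : ℝ) * ((Finset.univ.filter (fun v => G.degree v = 2)).card : ℝ) = (Fintype.card V : ℝ) := by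
      exact_mod_cast hhalf
    rw [← hcard] at this
    linarith
  have hcorr : ∀ v, corr G ρ v = 2 * Real.log ρ * (i3 v - i2 v)
      + 0.02 * ((∑ x ∈ G.neighborFinset v, i3 v * i3 x) - i3 v) := by
    intro v
    unfold corr
    rcases hdeg v with hv | hv
    · simp [hi2, hi3, hv]
    · simp [hi2, hi3, hv]
  have hA : ∑ v, ∑ x ∈ G.neighborFinset v, i3 v * i2 x ≤ 2 * ∑ v, i2 v := by
    rw [sum_swap G (fun v x => i3 v * i2 x), Finset.mul_sum]
    refine Finset.sum_le_sum (fun v _ => ?_)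
    calc ∑ x ∈ G.neighborFinset v, i3 x * i2 v ≤ ∑ x ∈ G.neighborFinset v, i2 v := by
          refine Finset.sum_le_sum (fun x _ => ?_)
          have h1 : i3 x ≤ 1 := by simp only [hi3]; split_ifs <;> norm_num
          have h2 : 0 ≤ i2 v := by simp only [hi2]; split_ifs <;> norm_num
          nlinarith
      _ ≤ 2 * i2 v := by
          rw [Finset.sum_const, G.card_neighborFinset_eq_degree]
          rcases hdeg v with hv | hv
          · simp [hi2, hv]
          · simp [hi2, hv]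
  have hB : ∑ v, ∑ x ∈ G.neighborFinset v, i3 v * (i2 x + i3 x) = 3 * ∑ v, i3 v := by
    rw [Finset.mul_sum]
    refine Finset.sum_congr rfl (fun v _ => ?_)
    simp only [hi23, mul_one]
    rw [Finset.sum_const, G.card_neighborFinset_eq_degree]
    rcases hdeg v with hv | hv
    · simp [hi3, hv]
    · simp [hi3, hv]
  have hC : ∑ v, ∑ x ∈ G.neighborFinset v, i3 v * (i2 x + i3 x)
     = ∑ v, ∑ x ∈ G.neighborFinset v, i3 v * i2 x + ∑ v, ∑ x ∈ G.neighborFinset v, i3 v * i3 x := by
    rw [← Finset.sum_add_distrib]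
    refine Finset.sum_congr rfl (fun v _ => ?_)
    rw [← Finset.sum_add_distrib]
    refine Finset.sum_congr rfl (fun x _ => ?_)
    ring
  have hD : ∑ v, corr G ρ v = 2 * Real.log ρ * (∑ v, i3 v - ∑ v, i2 v)
      + 0.02 * ((∑ v, ∑ x ∈ G.neighborFinset v, i3 v * i3 x) - ∑ v, i3 v) := by
    simp only [hcorr]
    rw [Finset.sum_add_distrib, ← Finset.mul_sum, ← Finset.mul_sum, Finset.sum_sub_distrib, Finset.sum_sub_distrib]
  rw [hD, hn23]
  nlinarith [hA, hB, hC, hn23]

/-- The main entropy bound. -/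
lemma main_bound {ρ : ℝ} (h : ρ ^ 3 - ρ - 2 = 0) (hdeg : ∀ v, G.degree v = 2 ∨ G.degree v = 3)
    (hhalf : 2 * (Finset.univ.filter (fun v => G.degree v = 2)).card = Fintype.card V) (r : ℕ)
    (hg : ((2 * r : ℕ) : ℕ∞) < G.egirth) :
    (r : ℝ) * Real.log ρ * (∑ v, ∑ u ∈ G.neighborFinset v, wt G ρ v u)
      ≤ ∑ v, ∑ u ∈ G.neighborFinset v, wt G ρ v u * Real.log ((ends G r u v).card : ℝ) := by
  have hdeg2 : ∀ v, 2 ≤ G.degree v := by
    intro v; rcases hdeg v with hv | hv <;> omega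
  induction r with
  | zero => simp [ends]
  | succ r ih =>
    have hg' : ((2 * r : ℕ) : ℕ∞) < G.egirth := lt_of_le_of_lt (by exact_mod_cast (by omega : 2 * r ≤ 2 * (r + 1))) hg
    have ih := ih hg'
    have hv : ∀ v, ∑ x ∈ G.neighborFinset v, wt G ρ v x * Real.log ((ends G r v x).card : ℝ)
      + Real.log ρ * ∑ x ∈ G.neighborFinset v, wt G ρ v x + corr G ρ v
      ≤ ∑ u ∈ G.neighborFinset v, wt G ρ v u * Real.log ((ends G (r + 1) u v).card : ℝ) := by
      intro v
      have := vertex_ineq G h hdeg v (fun x => ((ends G r v x).card : ℝ)) (fun x => by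
        exact_mod_cast Finset.card_pos.mpr (ends_nonempty G hdeg2 r v x))
      refine this.trans (le_of_eq ?_)
      refine Finset.sum_congr rfl (fun u _ => ?_)
      rw [card_ends_succ G r hg u v]
      push_cast
      rfl
    have hsum := Finset.sum_le_sum (fun v (_ : v ∈ Finset.univ) => hv v)
    rw [Finset.sum_add_distrib, Finset.sum_add_distrib, ← Finset.mul_sum] at hsum
    have hc := corr_sum G (ρ := ρ) hdeg hhalf
    have hsw : ∑ v, ∑ x ∈ G.neighborFinset v, wt G ρ v x * Real.log ((ends G r v x).card : ℝ)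
       = ∑ v, ∑ x ∈ G.neighborFinset v, wt G ρ v x * Real.log ((ends G r x v).card : ℝ) := by
      rw [sum_swap G (fun v x => wt G ρ v x * Real.log ((ends G r v x).card : ℝ))]
      refine Finset.sum_congr rfl (fun v _ => Finset.sum_congr rfl (fun x _ => ?_))
      rw [wt_comm]
    rw [hsw] at hsum
    push_cast
    nlinarith [hsum, hc, ih]

lemma card_bound {ρ : ℝ} (h : ρ ^ 3 - ρ - 2 = 0) [Nonempty V] (hdeg : ∀ v, G.degree v = 2 ∨ G.degree v = 3)
    (hhalf : 2 * (Finset.univ.filter (fun v => G.degree v = 2)).card = Fintype.card V) (r : ℕ)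
    (hg : ((2 * r : ℕ) : ℕ∞) < G.egirth) :
    (r : ℝ) * Real.log ρ ≤ Real.log (Fintype.card V) := by
  have hdeg2 : ∀ v, 2 ≤ G.degree v := by
    intro v; rcases hdeg v with hv | hv <;> omega
  have h1 := main_bound G h hdeg hhalf r hg
  have h2 : ∑ v, ∑ u ∈ G.neighborFinset v, wt G ρ v u * Real.log ((ends G r u v).card : ℝ)
     ≤ Real.log (Fintype.card V) * ∑ v, ∑ u ∈ G.neighborFinset v, wt G ρ v u := by
    rw [Finset.mul_sum]
    refine Finset.sum_le_sum (fun v _ => ?_)
    rw [Finset.mul_sum]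
    refine Finset.sum_le_sum (fun u _ => ?_)
    rw [mul_comm]
    refine mul_le_mul_of_nonneg_right ?_ (by linarith [wt_pos G h v u])
    refine Real.log_le_log ?_ ?_
    · exact_mod_cast Finset.card_pos.mpr (ends_nonempty G hdeg2 r u v)
    · exact_mod_cast Finset.card_le_univ _
  have hW : 0 < ∑ v, ∑ u ∈ G.neighborFinset v, wt G ρ v u := by
    refine Finset.sum_pos (fun v _ => ?_) Finset.univ_nonempty
    refine Finset.sum_pos (fun u _ => by linarith [wt_pos G h v u]) ?_
    rw [← Finset.card_pos, G.card_neighborFinset_eq_degree]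
    have := hdeg2 v
    omega
  exact le_of_mul_le_mul_right (h1.trans h2) hW


/-- With ρ the real root of x^3-x-2, for every ε>0 and all large g, every finite connected graph with half its vertices of degree 2, half of degree 3, and girth at least g has at least ρ^((1-ε)g/2) vertices. -/
theorem result :
  ∀ ρ : ℝ, ρ ^ 3 - ρ - 2 = 0 →
  ∀ ε : ℝ, 0 < ε →
  ∃ g₀ : ℕ, ∀ g : ℕ, g₀ ≤ g →
  ∀ (V : Type) [Fintype V] [DecidableEq V] (G : SimpleGraph V) [DecidableRel G.Adj],
    G.Connected →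
    (∀ v, G.degree v = 2 ∨ G.degree v = 3) →
    2 * (Finset.univ.filter (fun v => G.degree v = 2)).card = Fintype.card V →
    (g : ℕ∞) ≤ G.egirth →
    ρ ^ ((1 - ε) * (g : ℝ) / 2) ≤ (Fintype.card V : ℝ) := by
  intro ρ hρ ε hε
  obtain ⟨hρ1, hρ2⟩ := rho_bounds hρ
  refine ⟨⌈2 / ε⌉₊ + 1, ?_⟩
  intro g hg V _ _ G _ hconn hdeg hhalf hgirth
  have : Nonempty V := hconn.nonempty
  have hg1 : 2 / ε ≤ (g : ℝ) := by
    have := Nat.le_ceil (2 / ε)
    have h2 : ((⌈2 / ε⌉₊ + 1 : ℕ) : ℝ) ≤ (g : ℝ) := by exact_mod_cast hg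
    push_cast at h2
    linarith
  have hgpos : 1 ≤ g := le_trans (by omega) hg
  have hlt : ((2 * ((g - 1) / 2) : ℕ) : ℕ∞) < G.egirth := by
    refine lt_of_lt_of_le ?_ hgirth
    exact_mod_cast (by omega : 2 * ((g - 1) / 2) < g)
  have hb := card_bound G hρ hdeg hhalf ((g - 1) / 2) hlt
  have hcard : (0 : ℝ) < Fintype.card V := by exact_mod_cast Fintype.card_pos
  have hlog : 0 < Real.log ρ := Real.log_pos (by linarith)
  rw [← Real.log_le_log_iff (Real.rpow_pos_of_pos (by linarith) _) hcard, Real.log_rpow (by linarith)]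
  refine le_trans ?_ hb
  refine mul_le_mul_of_nonneg_right ?_ hlog.le
  have h3 : (g : ℝ) ≤ 2 * (((g - 1) / 2 : ℕ) : ℝ) + 2 := by
    exact_mod_cast (by omega : g ≤ 2 * ((g - 1) / 2) + 2)
  have h4 : 2 ≤ ε * g := by
    rw [div_le_iff₀ hε] at hg1
    linarith
  nlinarith

end Pool.Agent.S10141
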