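import Pool.Statements.S10792
import Pool.Agent.H53.AEG.Glue
import Pool.Agent.H23.LZ.Fin

set_option autoImplicit false
open Pool Pool.MP_ae97ec_co

namespace Pool.Agent.S10792

/-- The negation of the preceding statement: For every even d ≥ 2 and every v ≥ d there is a simplicial complex on 2v vertices, realizing a (d−1)-sphere, with a free face-preserving vertex involution, in which every d/2 vertices with no antipodal pair form a face, and whose automorphisms act transitively on vertices. -/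
theorem result :
    ¬ (∀ d : ℕ, 2 ≤ d → Even d → ∀ v : ℕ, d ≤ v →
    ∃ K : Finset (Finset (Fin (2 * v))),
      (∀ σ ∈ K, ∀ τ : Finset (Fin (2 * v)), τ ⊆ σ → τ ∈ K) ∧
      (∀ i : Fin (2 * v), ({i} : Finset (Fin (2 * v))) ∈ K) ∧
      Nonempty (↥(⋃ σ ∈ K, convexHull ℝ
          ((fun i : Fin (2 * v) => EuclideanSpace.single i (1 : ℝ)) '' (↑σ : Set (Fin (2 * v)))))
        ≃ₜ Metric.sphere (0 : EuclideanSpace ℝ (Fin d)) 1) ∧
      (∃ ι : Equiv.Perm (Fin (2 * v)),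
        (∀ i, ι (ι i) = i) ∧ (∀ i, ι i ≠ i) ∧
        (∀ σ ∈ K, σ.image ι ∈ K) ∧
        (∀ σ ∈ K, σ.Nonempty → σ.image ι ≠ σ) ∧
        (∀ τ : Finset (Fin (2 * v)), τ.card = d / 2 → (∀ i ∈ τ, ι i ∉ τ) → τ ∈ K)) ∧
      (∀ a b : Fin (2 * v), ∃ g : Equiv.Perm (Fin (2 * v)), g a = b ∧
        ∀ σ : Finset (Fin (2 * v)), σ ∈ K ↔ σ.image g ∈ K)) := by
  exact Pool.Agent.H53.AEG.glue H23.LZ.Ck.c18 H23.LZ.Ck.c33

end Pool.Agent.S10792
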