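import Pool.Statements.S10842
import Pool.Agent.H59.Disc.Glue

set_option autoImplicit false
open Metric
open Pool Pool.MP_b0bf97_co

namespace Pool.Agent.S10842

/-- The negation of the preceding statement: The closed unit disc in the Euclidean plane can be split into three pairwise disjoint sets, each mapped onto the others by isometries of the plane. -/
theorem result :
    ¬ (∃ A B C : Set (EuclideanSpace ℝ (Fin 2)),
      A ∪ B ∪ C = Metric.closedBall (0 : EuclideanSpace ℝ (Fin 2)) 1 ∧
      Disjoint A B ∧ Disjoint A C ∧ Disjoint B C ∧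
      (∃ f : EuclideanSpace ℝ (Fin 2) ≃ᵢ EuclideanSpace ℝ (Fin 2), f '' A = B) ∧
      (∃ g : EuclideanSpace ℝ (Fin 2) ≃ᵢ EuclideanSpace ℝ (Fin 2), g '' A = C)) := by
  rintro ⟨A, B, C, hcov, hAB, hAC, hBC, ⟨f, hf⟩, ⟨g, hg⟩⟩
  exact Pool.Agent.H59.Disc.not_divisible A B C hcov hAB hAC hBC f g hf hg

end Pool.Agent.S10842
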