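import Pool.Statements.S10917

set_option autoImplicit false
open N3e647761
open scoped Pointwise
open Pool Pool.MP_b3aa1a_co

namespace Pool.Agent.S10917

lemma exists_hom {κ : Type*} [Fintype κ] (F : Finset (κ → ℤ)) (hF : (0 : κ → ℤ) ∉ F) :
    ∃ f : (κ → ℤ) →+ ℤ, ∀ v ∈ F, f v ≠ 0 := by
  classical
  let e := Fintype.equivFin κ
  let P : (κ → ℤ) → Polynomial ℤ :=
    fun v => ∑ i, Polynomial.C (v i) * Polynomial.X ^ ((e i : Fin _) : ℕ)
  have hcoeff : ∀ v i, (P v).coeff (e i : ℕ) = v i := by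
    intro v i
    simp only [P, Polynomial.finsetSum_coeff, Polynomial.coeff_C_mul, Polynomial.coeff_X_pow]
    rw [Finset.sum_eq_single i]
    · simp
    · intro j _ hj
      have : ¬ ((e i : ℕ) = (e j : ℕ)) := by
        intro h
        apply hj
        have h2 : e i = e j := Fin.ext h
        exact (e.injective h2).symm
      simp [this]
    · intro h; exact absurd (Finset.mem_univ i) h
  have hP : ∀ v, v ≠ 0 → P v ≠ 0 := by
    intro v hv h0
    apply hv
    funext i
    rw [← hcoeff v i, h0]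
    simp
  have hprod : (∏ v ∈ F, P v) ≠ 0 := by
    rw [Finset.prod_ne_zero_iff]
    intro v hv
    apply hP
    rintro rfl
    exact hF hv
  obtain ⟨b, hb⟩ : ∃ b : ℤ, (∏ v ∈ F, P v).eval b ≠ 0 := by
    by_contra h
    push Not at h
    exact hprod (Polynomial.funext (by simpa using h))
  rw [Polynomial.eval_prod, Finset.prod_ne_zero_iff] at hb
  refine ⟨{ toFun := fun v => (P v).eval b, map_zero' := ?_, map_add' := ?_ }, ?_⟩
  · simp [P]
  · intro x y
    simp [P, Polynomial.eval_finsetSum, add_mul, Finset.sum_add_distrib]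
  · intro v hv
    exact hb v hv

lemma transfer {κ : Type*} [Fintype κ] [DecidableEq κ] (c : ℝ)
    (H : ∀ A : Finset ℤ, ((A - A).card : ℝ) ≤ ((A + A).card : ℝ) ^ c)
    (A : Finset (κ → ℤ)) : ((A - A).card : ℝ) ≤ ((A + A).card : ℝ) ^ c := by
  classical
  obtain ⟨f, hf⟩ := exists_hom (((((A + A) - (A + A)) ∪ ((A - A) - (A - A)))).erase 0) (by simp)
  have inj1 : Set.InjOn f (A + A : Finset (κ → ℤ)) := by
    intro x hx y hy hxy
    by_contra hne
    have h1 : f (x - y) = 0 := by rw [map_sub, hxy, sub_self]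
    refine hf (x - y) ?_ h1
    rw [Finset.mem_erase]
    refine ⟨sub_ne_zero.mpr hne, ?_⟩
    exact Finset.mem_union_left _ (Finset.sub_mem_sub (Finset.mem_coe.mp hx) (Finset.mem_coe.mp hy))
  have inj2 : Set.InjOn f (A - A : Finset (κ → ℤ)) := by
    intro x hx y hy hxy
    by_contra hne
    have h1 : f (x - y) = 0 := by rw [map_sub, hxy, sub_self]
    refine hf (x - y) ?_ h1
    rw [Finset.mem_erase]
    refine ⟨sub_ne_zero.mpr hne, ?_⟩
    exact Finset.mem_union_right _ (Finset.sub_mem_sub (Finset.mem_coe.mp hx) (Finset.mem_coe.mp hy))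
  have e1 : (A.image f + A.image f) = (A + A).image f := (Finset.image_add f).symm
  have e2 : (A.image f - A.image f) = (A - A).image f := by
    ext z
    simp only [Finset.mem_sub, Finset.mem_image]
    constructor
    · rintro ⟨_, ⟨a, ha, rfl⟩, _, ⟨b, hb, rfl⟩, rfl⟩
      exact ⟨a - b, ⟨a, ha, b, hb, rfl⟩, map_sub f a b⟩
    · rintro ⟨_, ⟨a, ha, b, hb, rfl⟩, rfl⟩
      exact ⟨f a, ⟨a, ha, rfl⟩, f b, ⟨b, hb, rfl⟩, (map_sub f a b).symm⟩
  have := H (A.image f)
  rw [e1, e2, Finset.card_image_of_injOn inj1, Finset.card_image_of_injOn inj2] at this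
  exact this

lemma sum_Icc_half (W : ℕ) :
    ∑ k ∈ Finset.Icc (0 : ℤ) (W : ℤ), ((1 : ℝ) / 2) ^ k.toNat ≤ 2 := by
  have key : ∑ k ∈ Finset.Icc (0 : ℤ) (W : ℤ), ((1 : ℝ) / 2) ^ k.toNat
      = 2 - (1 / 2) ^ W := by
    induction W with
    | zero => simp; norm_num
    | succ n ih =>
      have : Finset.Icc (0 : ℤ) ((n + 1 : ℕ) : ℤ)
          = insert ((n + 1 : ℕ) : ℤ) (Finset.Icc (0 : ℤ) (n : ℤ)) := by
        ext x; simp only [Finset.mem_Icc, Finset.mem_insert]; push_cast; omega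
      rw [this, Finset.sum_insert (by simp), ih]
      simp only [Int.toNat_natCast]
      rw [pow_succ]; ring
  rw [key]
  have : (0 : ℝ) < (1 / 2) ^ W := by positivity
  linarith

lemma card_simplex {κ : Type*} [Fintype κ] [DecidableEq κ] (W : ℕ) (T : Finset (κ → ℤ))
    (hT : ∀ v ∈ T, (∀ i, 0 ≤ v i) ∧ ∑ i, v i ≤ W) :
    (T.card : ℝ) ≤ 2 ^ (W + Fintype.card κ) := by
  have hsub : T ⊆ Fintype.piFinset fun _ : κ => Finset.Icc (0 : ℤ) (W : ℤ) := by
    intro v hv
    obtain ⟨h1, h2⟩ := hT v hv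
    rw [Fintype.mem_piFinset]
    intro i
    rw [Finset.mem_Icc]
    refine ⟨h1 i, le_trans ?_ h2⟩
    exact Finset.single_le_sum (fun j _ => h1 j) (Finset.mem_univ i)
  have h1 : ∀ v ∈ T, ((1 : ℝ) / 2) ^ W ≤ ∏ i, ((1 : ℝ) / 2) ^ (v i).toNat := by
    intro v hv
    obtain ⟨h1, h2⟩ := hT v hv
    rw [Finset.prod_pow_eq_pow_sum]
    apply pow_le_pow_of_le_one (by norm_num) (by norm_num)
    have : ((∑ i, (v i).toNat : ℕ) : ℤ) ≤ W := by
      push_cast
      refine le_trans (le_of_eq ?_) h2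
      apply Finset.sum_congr rfl
      intro i _
      exact Int.toNat_of_nonneg (h1 i)
    exact_mod_cast this
  have h2 : (T.card : ℝ) * (1 / 2) ^ W ≤ 2 ^ Fintype.card κ := by
    calc (T.card : ℝ) * (1 / 2) ^ W = ∑ v ∈ T, ((1 : ℝ) / 2) ^ W := by
          rw [Finset.sum_const, nsmul_eq_mul]
      _ ≤ ∑ v ∈ T, ∏ i, ((1 : ℝ) / 2) ^ (v i).toNat := Finset.sum_le_sum h1
      _ ≤ ∑ v ∈ Fintype.piFinset fun _ : κ => Finset.Icc (0 : ℤ) (W : ℤ),
            ∏ i, ((1 : ℝ) / 2) ^ (v i).toNat := by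
          apply Finset.sum_le_sum_of_subset_of_nonneg hsub
          intros; positivity
      _ = ∏ i : κ, ∑ k ∈ Finset.Icc (0 : ℤ) (W : ℤ), ((1 : ℝ) / 2) ^ k.toNat := by
          rw [Finset.prod_univ_sum]
      _ ≤ ∏ i : κ, (2 : ℝ) := by
          apply Finset.prod_le_prod
          · intros; positivity
          · intros; exact sum_Icc_half W
      _ = 2 ^ Fintype.card κ := by simp
  have h3 : (T.card : ℝ) = (T.card * (1 / 2) ^ W) * 2 ^ W := by
    rw [mul_assoc, ← mul_pow]; norm_num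
  rw [h3, pow_add, mul_comm]
  exact mul_le_mul_of_nonneg_left h2 (by positivity)


/-! Block sums in `ZMod q` -/

section blocks

set_option linter.unusedSectionVars false

variable {q : ℕ} [NeZero q] {J : Type} [Fintype J] [DecidableEq J]

/-- the zero-sum functional of a vector, block by block -/
def sg (x : J × ZMod q → ℤ) (j : J) : ZMod q := ∑ g : ZMod q, (x (j, g) : ZMod q) * g

/-- one unit in every block, at position `h j` in block `j` -/
def un (h : J → ZMod q) : J × ZMod q → ℤ := fun p => if p.2 = h p.1 then 1 else 0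

lemma sg_add (x y : J × ZMod q → ℤ) : sg (x + y) = sg x + sg y := by
  funext j
  simp [sg, add_mul, Finset.sum_add_distrib]

lemma sg_sub (x y : J × ZMod q → ℤ) : sg (x - y) = sg x - sg y := by
  funext j
  simp [sg, sub_mul, Finset.sum_sub_distrib]

lemma sg_un (h : J → ZMod q) : sg (un h) = h := by
  funext j
  simp [sg, un]

lemma sum_un (h : J → ZMod q) : ∑ p, un h p = Fintype.card J := by
  rw [Fintype.sum_prod_type]
  simp [un]

lemma un_nonneg (h : J → ZMod q) (p) : 0 ≤ un h p := by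
  unfold un; split_ifs <;> norm_num

/-- the set: block-wise zero-sum nonnegative vectors of total degree at most `L` -/
noncomputable def AA (q : ℕ) [NeZero q] (J : Type) [Fintype J] [DecidableEq J] (L : ℕ) :
    Finset (J × ZMod q → ℤ) :=
  (Fintype.piFinset fun _ => Finset.Icc (0 : ℤ) L).filter (fun x => ∑ i, x i ≤ L ∧ sg x = 0)

lemma mem_AA {L : ℕ} {x : J × ZMod q → ℤ} :
    x ∈ AA q J L ↔ (∀ i, 0 ≤ x i) ∧ ∑ i, x i ≤ L ∧ sg x = 0 := by
  unfold AA
  rw [Finset.mem_filter, Fintype.mem_piFinset]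
  constructor
  · rintro ⟨h1, h2, h3⟩
    exact ⟨fun i => (Finset.mem_Icc.mp (h1 i)).1, h2, h3⟩
  · rintro ⟨h1, h2, h3⟩
    refine ⟨fun i => Finset.mem_Icc.mpr ⟨h1 i, le_trans ?_ h2⟩, h2, h3⟩
    exact Finset.single_le_sum (fun j _ => h1 j) (Finset.mem_univ i)

lemma card_add_bound (L : ℕ) :
    (q : ℝ) ^ Fintype.card J * ((AA q J L + AA q J L).card : ℝ)
      ≤ 2 ^ (2 * L + Fintype.card J + Fintype.card (J × ZMod q)) := by
  set S := AA q J L + AA q J L with hS
  let T : Finset (J × ZMod q → ℤ) :=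
    (Finset.univ ×ˢ S : Finset ((J → ZMod q) × (J × ZMod q → ℤ))).image (fun p => un p.1 + p.2)
  have hSz : ∀ s ∈ S, (∀ i, 0 ≤ s i) ∧ ∑ i, s i ≤ (2 * L : ℕ) ∧ sg s = 0 := by
    intro s hs
    rw [hS, Finset.mem_add] at hs
    obtain ⟨a, ha, b, hb, rfl⟩ := hs
    rw [mem_AA] at ha hb
    refine ⟨fun i => add_nonneg (ha.1 i) (hb.1 i), ?_, ?_⟩
    · simp only [Pi.add_apply, Finset.sum_add_distrib]
      push_cast
      linarith [ha.2.1, hb.2.1]
    · rw [sg_add, ha.2.2, hb.2.2, add_zero]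
  have hinj : Set.InjOn (fun p : (J → ZMod q) × (J × ZMod q → ℤ) => un p.1 + p.2)
      (Finset.univ ×ˢ S : Finset ((J → ZMod q) × (J × ZMod q → ℤ))) := by
    rintro ⟨h, s⟩ hs ⟨h', s'⟩ hs' heq
    simp only [Finset.coe_product, Set.mem_prod, Finset.mem_coe,
      Finset.coe_univ, Set.mem_univ, true_and] at hs hs'
    simp only at heq
    have e := congrArg sg heq
    rw [sg_add, sg_add, sg_un, sg_un, (hSz s hs).2.2, (hSz s' hs').2.2, add_zero, add_zero] at e
    subst e
    rw [add_right_inj] at heq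
    rw [heq]
  have hcard : T.card = q ^ Fintype.card J * S.card := by
    rw [Finset.card_image_of_injOn hinj, Finset.card_product]
    simp [ZMod.card]
  have hT : (T.card : ℝ) ≤ 2 ^ ((2 * L + Fintype.card J) + Fintype.card (J × ZMod q)) := by
    apply card_simplex
    intro v hv
    obtain ⟨⟨h, s⟩, hs, rfl⟩ := Finset.mem_image.mp hv
    rw [Finset.mem_product] at hs
    obtain ⟨h1, h2, h3⟩ := hSz s hs.2
    refine ⟨fun i => add_nonneg (un_nonneg h i) (h1 i), ?_⟩
    simp only [Pi.add_apply, Finset.sum_add_distrib]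
    rw [sum_un]
    push_cast at h2 ⊢
    linarith
  rw [hcard] at hT
  push_cast at hT
  exact hT

lemma card_sub_bound (K : ℕ) (E : Finset (J × ZMod q → ℤ))
    (hE : ∀ D ∈ E, ∑ i, max (D i) 0 ≤ (K : ℤ) ∧ ∑ i, max (-(D i)) 0 ≤ (K : ℤ)) :
    (E.card : ℝ) ≤ (q : ℝ) ^ Fintype.card J *
      ((AA q J (K + 2 * Fintype.card J) - AA q J (K + 2 * Fintype.card J)).card : ℝ) := by
  set R := AA q J (K + 2 * Fintype.card J) - AA q J (K + 2 * Fintype.card J) with hR
  have hmaps : ∀ D ∈ E, ((sg D, D - un (sg D)) : (J → ZMod q) × (J × ZMod q → ℤ))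
      ∈ (Finset.univ ×ˢ R : Finset ((J → ZMod q) × (J × ZMod q → ℤ))) := by
    intro D hD
    obtain ⟨hp, hn⟩ := hE D hD
    rw [Finset.mem_product]
    refine ⟨Finset.mem_univ _, ?_⟩
    simp only
    set D' := D - un (sg D) with hD'
    set P : J × ZMod q → ℤ := fun i => max (D' i) 0 with hP
    set x := P + un (-(sg P)) with hx
    have hD'0 : sg D' = 0 := by rw [hD', sg_sub, sg_un, sub_self]
    have hx0 : sg x = 0 := by rw [hx, sg_add, sg_un]; simp
    have hy0 : sg (x - D') = 0 := by rw [sg_sub, hx0, hD'0, sub_zero]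
    have hPle : ∀ i, P i ≤ max (D i) 0 := by
      intro i
      simp only [hP, hD', Pi.sub_apply]
      have := un_nonneg (sg D) i
      exact max_le_max (by linarith) le_rfl
    have hNle : ∀ i, P i - D' i ≤ max (-(D i)) 0 + un (sg D) i := by
      intro i
      have := un_nonneg (sg D) i
      simp only [hP, hD', Pi.sub_apply]
      rcases le_total (D i - un (sg D) i) 0 with h | h
      · rw [max_eq_right h]
        have := le_max_left (-(D i)) 0
        linarith
      · rw [max_eq_left h]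
        have := le_max_right (-(D i)) 0
        linarith
    rw [hR, Finset.mem_sub]
    refine ⟨x, ?_, x - D', ?_, by abel⟩
    · rw [mem_AA]
      refine ⟨fun i => add_nonneg (le_max_right _ _) (un_nonneg _ i), ?_, hx0⟩
      simp only [hx, Pi.add_apply, Finset.sum_add_distrib]
      rw [sum_un]
      have := Finset.sum_le_sum (fun i (_ : i ∈ Finset.univ) => hPle i)
      push_cast
      linarith
    · rw [mem_AA]
      refine ⟨fun i => ?_, ?_, hy0⟩
      · have h1 : D' i ≤ P i := le_max_left _ _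
        have h2 := un_nonneg (-(sg P)) i
        simp only [hx, Pi.sub_apply, Pi.add_apply]
        linarith
      · have e : ∑ i, (x - D') i = ∑ i, (P i - D' i) + ∑ i, un (-(sg P)) i := by
          rw [← Finset.sum_add_distrib]
          apply Finset.sum_congr rfl
          intro i _
          simp only [hx, Pi.sub_apply, Pi.add_apply]
          ring
        rw [e, sum_un]
        have := Finset.sum_le_sum (fun i (_ : i ∈ Finset.univ) => hNle i)
        rw [Finset.sum_add_distrib, sum_un] at this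
        push_cast
        linarith
  have hinj : Set.InjOn (fun D => ((sg D, D - un (sg D)) : (J → ZMod q) × (J × ZMod q → ℤ)))
      (E : Set (J × ZMod q → ℤ)) := by
    intro D _ D' _ h
    simp only [Prod.mk.injEq] at h
    obtain ⟨h1, h2⟩ := h
    rw [h1] at h2
    exact sub_left_injective h2
  have := Finset.card_le_card_of_injOn _ hmaps hinj
  rw [Finset.card_product] at this
  have h3 : (Finset.univ : Finset (J → ZMod q)).card = q ^ Fintype.card J := by
    simp [ZMod.card]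
  rw [h3] at this
  exact_mod_cast this

end blocks


/-! Main argument -/

section main

lemma two_rpow_c : (2 : ℝ) ^ (Real.log (1 + Real.sqrt 2) / Real.log 2) = 1 + Real.sqrt 2 := by
  have h2 : (0 : ℝ) < 1 + Real.sqrt 2 := by positivity
  have hl : Real.log 2 ≠ 0 := (Real.log_pos (by norm_num)).ne'
  rw [Real.rpow_def_of_pos (by norm_num), mul_div_cancel₀ _ hl, Real.exp_log h2]

lemma one_lt_c : 1 < Real.log (1 + Real.sqrt 2) / Real.log 2 := by
  rw [one_lt_div (Real.log_pos (by norm_num))]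
  apply Real.log_lt_log (by norm_num)
  have : (1 : ℝ) < Real.sqrt 2 := by
    rw [Real.lt_sqrt (by norm_num)]; norm_num
  linarith

lemma card_level (c : ℝ) (hc : 0 ≤ c)
    (H : ∀ A : Finset ℤ, ((A - A).card : ℝ) ≤ ((A + A).card : ℝ) ^ c)
    (q : ℕ) [NeZero q] (M p n : ℕ) (E : Finset (Fin M × ZMod q → ℤ))
    (hE : ∀ D ∈ E, ∑ i, max (D i) 0 = (p : ℤ) ∧ ∑ i, max (-(D i)) 0 = (n : ℤ)) :
    (E.card : ℝ) ≤ ((2 : ℝ) ^ c) ^ (p + n + 5 * M + M * q) * ((q : ℝ) / (q : ℝ) ^ c) ^ M := by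
  classical
  set a : ℝ := (2 : ℝ) ^ c with ha
  have ha0 : 0 < a := by positivity
  have hq0 : (0 : ℝ) < q := by exact_mod_cast (NeZero.pos q)
  let φ : (Fin M × ZMod q → ℤ) × (Fin M × ZMod q → ℤ) → ((Fin M × Bool) × ZMod q → ℤ) :=
    fun D i => if i.1.2 then D.1 (i.1.1, i.2) else -(D.2 (i.1.1, i.2))
  have hφ : Function.Injective φ := by
    rintro ⟨D1, D2⟩ ⟨D1', D2'⟩ h
    have h1 : D1 = D1' := by
      funext ⟨j, g⟩
      have := congrFun h ((j, true), g)
      simpa [φ] using this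
    have h2 : D2 = D2' := by
      funext ⟨j, g⟩
      have := congrFun h ((j, false), g)
      simpa [φ] using this
    rw [h1, h2]
  have hsum : ∀ F : (Fin M × Bool) × ZMod q → ℤ,
      ∑ i, F i = ∑ i : Fin M × ZMod q, F ((i.1, true), i.2)
        + ∑ i : Fin M × ZMod q, F ((i.1, false), i.2) := by
    intro F
    simp only [Fintype.sum_prod_type, Fintype.sum_bool, Finset.sum_add_distrib]
  set E2 : Finset ((Fin M × Bool) × ZMod q → ℤ) := (E ×ˢ E).image φ with hE2
  have hE2card : E2.card = E.card * E.card := by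
    rw [hE2, Finset.card_image_of_injective _ hφ, Finset.card_product]
  have hcardJ : Fintype.card (Fin M × Bool) = 2 * M := by
    simp [mul_comm]
  have hcardJ2 : Fintype.card ((Fin M × Bool) × ZMod q) = 2 * (M * q) := by
    rw [Fintype.card_prod, hcardJ, ZMod.card]; ring
  have hE2b : ∀ D ∈ E2, ∑ i, max (D i) 0 ≤ ((p + n : ℕ) : ℤ) ∧
      ∑ i, max (-(D i)) 0 ≤ ((p + n : ℕ) : ℤ) := by
    intro D hD
    obtain ⟨⟨D1, D2⟩, hDD, rfl⟩ := Finset.mem_image.mp hD
    rw [Finset.mem_product] at hDD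
    obtain ⟨h1p, h1n⟩ := hE D1 hDD.1
    obtain ⟨h2p, h2n⟩ := hE D2 hDD.2
    constructor
    · rw [hsum]
      simp only [φ, if_true, Bool.false_eq_true, if_false]
      rw [h1p, h2n]; push_cast; exact le_rfl
    · rw [hsum]
      simp only [φ, if_true, Bool.false_eq_true, if_false, neg_neg]
      rw [h1n, h2p]; push_cast; linarith
  have hA := card_sub_bound (q := q) (J := Fin M × Bool) (p + n) E2 hE2b
  have hB := card_add_bound (q := q) (J := Fin M × Bool) (p + n + 2 * Fintype.card (Fin M × Bool))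
  have hC := transfer c H (AA q (Fin M × Bool) (p + n + 2 * Fintype.card (Fin M × Bool)))
  rw [hcardJ, hcardJ2] at hB
  rw [hcardJ] at hA hC
  rw [hE2card] at hA
  set X : ℝ := ((AA q (Fin M × Bool) (p + n + 2 * (2 * M)) +
    AA q (Fin M × Bool) (p + n + 2 * (2 * M))).card : ℝ) with hX
  set Y : ℝ := ((AA q (Fin M × Bool) (p + n + 2 * (2 * M)) -
    AA q (Fin M × Bool) (p + n + 2 * (2 * M))).card : ℝ) with hY
  have hX0 : 0 ≤ X := by positivity
  have hqM : (0 : ℝ) < (q : ℝ) ^ (2 * M) := by positivity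
  have hX1 : X ≤ 2 ^ (2 * (p + n + 5 * M + M * q)) / (q : ℝ) ^ (2 * M) := by
    rw [le_div_iff₀ hqM, mul_comm]
    refine hB.trans (le_of_eq ?_)
    congr 1
    ring
  have hX2 : X ^ c ≤ a ^ (2 * (p + n + 5 * M + M * q)) / ((q : ℝ) ^ c) ^ (2 * M) := by
    refine (Real.rpow_le_rpow hX0 hX1 hc).trans (le_of_eq ?_)
    rw [Real.div_rpow (by positivity) (by positivity), ha]
    congr 1
    · rw [← Real.rpow_natCast, ← Real.rpow_natCast, ← Real.rpow_mul (by norm_num),
        ← Real.rpow_mul (by norm_num), mul_comm]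
    · rw [← Real.rpow_natCast, ← Real.rpow_natCast, ← Real.rpow_mul hq0.le,
        ← Real.rpow_mul hq0.le, mul_comm]
  have hfin : ((E.card : ℝ)) ^ 2 ≤
      (a ^ (p + n + 5 * M + M * q) * ((q : ℝ) / (q : ℝ) ^ c) ^ M) ^ 2 := by
    have e1 : ((E.card : ℝ)) ^ 2 = ((E.card * E.card : ℕ) : ℝ) := by push_cast; ring
    rw [e1]
    calc ((E.card * E.card : ℕ) : ℝ) ≤ (q : ℝ) ^ (2 * M) * Y := hA
      _ ≤ (q : ℝ) ^ (2 * M) * (X ^ c) := mul_le_mul_of_nonneg_left hC hqM.le
      _ ≤ (q : ℝ) ^ (2 * M) * (a ^ (2 * (p + n + 5 * M + M * q)) / ((q : ℝ) ^ c) ^ (2 * M)) :=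
          mul_le_mul_of_nonneg_left hX2 hqM.le
      _ = _ := by
          rw [mul_pow, ← pow_mul, ← pow_mul, div_pow]
          rw [mul_comm M 2, mul_comm (p + n + 5 * M + M * q) 2]
          ring
  have hnn : 0 ≤ a ^ (p + n + 5 * M + M * q) * ((q : ℝ) / (q : ℝ) ^ c) ^ M := by positivity
  exact le_of_sq_le_sq hfin hnn

/-- partial two-sided geometric sum -/
lemma sum_Icc_two (t : ℝ) (B : ℕ) :
    (1 - t) * ∑ k ∈ Finset.Icc (-(B : ℤ)) (B : ℤ), t ^ k.natAbs = 1 + t - 2 * t ^ (B + 1) := by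
  induction B with
  | zero => simp; ring
  | succ n ih =>
    have : Finset.Icc (-((n + 1 : ℕ) : ℤ)) ((n + 1 : ℕ) : ℤ)
        = insert (-((n + 1 : ℕ) : ℤ)) (insert ((n + 1 : ℕ) : ℤ)
          (Finset.Icc (-(n : ℤ)) (n : ℤ))) := by
      ext x; simp only [Finset.mem_Icc, Finset.mem_insert]; push_cast; omega
    rw [this, Finset.sum_insert, Finset.sum_insert]
    · rw [mul_add, mul_add, ih, Int.natAbs_neg, Int.natAbs_natCast]
      ring
    · simp
    · simp only [Finset.mem_insert, Finset.mem_Icc]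
      push_cast
      omega

lemma main_ineq (c : ℝ) (hc : 0 ≤ c)
    (H : ∀ A : Finset ℤ, ((A - A).card : ℝ) ≤ ((A + A).card : ℝ) ^ c)
    (q : ℕ) [NeZero q] (M B : ℕ) (t : ℝ) (ht : 0 < t) (hat : (2 : ℝ) ^ c * t = 1) :
    (∑ k ∈ Finset.Icc (-(B : ℤ)) (B : ℤ), t ^ k.natAbs) ^ (M * q) ≤
      ((M * q * B + 1 : ℕ) : ℝ) ^ 2 *
        (((2 : ℝ) ^ c) ^ (5 * M + M * q) * ((q : ℝ) / (q : ℝ) ^ c) ^ M) := by
  classical
  set a : ℝ := (2 : ℝ) ^ c with ha
  have ha0 : 0 < a := by positivity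
  set box : Finset (Fin M × ZMod q → ℤ) :=
    Fintype.piFinset fun _ => Finset.Icc (-(B : ℤ)) (B : ℤ) with hbox
  have hprod : (∑ k ∈ Finset.Icc (-(B : ℤ)) (B : ℤ), t ^ k.natAbs) ^ (M * q)
      = ∑ D ∈ box, ∏ i, t ^ (D i).natAbs := by
    rw [hbox, Finset.sum_prod_piFinset (Finset.Icc (-(B : ℤ)) (B : ℤ))
      (fun _ k => t ^ k.natAbs)]
    simp [ZMod.card]
  let pf : (Fin M × ZMod q → ℤ) → ℕ × ℕ :=
    fun D => (∑ i, (max (D i) 0).toNat, ∑ i, (max (-(D i)) 0).toNat)
  have hmaps : ∀ D ∈ box, pf D ∈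
      (Finset.range (M * q * B + 1) ×ˢ Finset.range (M * q * B + 1) : Finset (ℕ × ℕ)) := by
    intro D hD
    rw [hbox, Fintype.mem_piFinset] at hD
    rw [Finset.mem_product, Finset.mem_range, Finset.mem_range, Nat.lt_succ_iff, Nat.lt_succ_iff]
    have hcard : Fintype.card (Fin M × ZMod q) = M * q := by simp [ZMod.card]
    constructor
    · have : ∑ i, (max (D i) 0).toNat ≤ ∑ _i : Fin M × ZMod q, B := by
        apply Finset.sum_le_sum
        intro i _
        have := Finset.mem_Icc.mp (hD i)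
        omega
      refine this.trans (le_of_eq ?_)
      rw [Finset.sum_const, Finset.card_univ, hcard, smul_eq_mul]
    · have : ∑ i, (max (-(D i)) 0).toNat ≤ ∑ _i : Fin M × ZMod q, B := by
        apply Finset.sum_le_sum
        intro i _
        have := Finset.mem_Icc.mp (hD i)
        omega
      refine this.trans (le_of_eq ?_)
      rw [Finset.sum_const, Finset.card_univ, hcard, smul_eq_mul]
  rw [hprod, ← Finset.sum_fiberwise_of_maps_to hmaps]
  have hfib : ∀ pn ∈ (Finset.range (M * q * B + 1) ×ˢ Finset.range (M * q * B + 1) : Finset (ℕ × ℕ)),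
      ∑ D ∈ box with pf D = pn, ∏ i, t ^ (D i).natAbs ≤
        a ^ (5 * M + M * q) * ((q : ℝ) / (q : ℝ) ^ c) ^ M := by
    rintro ⟨p, n⟩ -
    have h1 : ∀ D ∈ box.filter (fun D => pf D = (p, n)), ∏ i, t ^ (D i).natAbs = t ^ (p + n) := by
      intro D hD
      rw [Finset.mem_filter] at hD
      have h2 := hD.2
      simp only [pf, Prod.mk.injEq] at h2
      rw [Finset.prod_pow_eq_pow_sum, ← h2.1, ← h2.2, ← Finset.sum_add_distrib]
      congr 1
      apply Finset.sum_congr rfl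
      intro i _
      omega
    rw [Finset.sum_congr rfl h1, Finset.sum_const, nsmul_eq_mul]
    have h3 := card_level c hc H q M p n (box.filter (fun D => pf D = (p, n))) (by
      intro D hD
      rw [Finset.mem_filter] at hD
      have h2 := hD.2
      simp only [pf, Prod.mk.injEq] at h2
      constructor
      · rw [← h2.1]
        push_cast
        apply Finset.sum_congr rfl
        intro i _
        omega
      · rw [← h2.2]
        push_cast
        apply Finset.sum_congr rfl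
        intro i _
        omega)
    rw [← ha] at h3
    calc ((box.filter (fun D => pf D = (p, n))).card : ℝ) * t ^ (p + n)
        ≤ (a ^ (p + n + 5 * M + M * q) * ((q : ℝ) / (q : ℝ) ^ c) ^ M) * t ^ (p + n) :=
          mul_le_mul_of_nonneg_right h3 (by positivity)
      _ = (a * t) ^ (p + n) * (a ^ (5 * M + M * q) * ((q : ℝ) / (q : ℝ) ^ c) ^ M) := by
          rw [mul_pow, pow_add, pow_add, pow_add, pow_add, pow_add]
          ring
      _ = a ^ (5 * M + M * q) * ((q : ℝ) / (q : ℝ) ^ c) ^ M := by rw [hat]; simp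
  refine (Finset.sum_le_sum hfib).trans (le_of_eq ?_)
  rw [Finset.sum_const, Finset.card_product, Finset.card_range, nsmul_eq_mul]
  push_cast
  ring

lemma no_exp_le_poly (C : ℝ) (h : ∀ M : ℕ, (2 : ℝ) ^ M ≤ (M * C + 1) ^ 2) : False := by
  have h1 := tendsto_pow_const_div_const_pow_of_one_lt 2 (one_lt_two (α := ℝ))
  have h2 : Filter.Tendsto (fun M : ℕ => (|C| + 1) ^ 2 * ((M : ℝ) ^ 2 / 2 ^ M)) Filter.atTop
      (nhds ((|C| + 1) ^ 2 * 0)) := h1.const_mul _
  rw [mul_zero] at h2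
  have h3 := (h2.eventually (gt_mem_nhds (zero_lt_one (α := ℝ)))).and (Filter.eventually_ge_atTop 1)
  obtain ⟨M, hM, hM1⟩ := h3.exists
  have hM1' : (1 : ℝ) ≤ M := by exact_mod_cast hM1
  have h4 := h M
  have hp : (0 : ℝ) < 2 ^ M := by positivity
  rw [← mul_div_assoc, div_lt_one hp] at hM
  have h5 : (M * C + 1) ^ 2 ≤ (|C| + 1) ^ 2 * (M : ℝ) ^ 2 := by
    rw [← mul_pow]
    apply sq_le_sq'
    · have := neg_abs_le C
      nlinarith [abs_nonneg C]
    · have := le_abs_self C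
      nlinarith [abs_nonneg C]
  linarith

lemma final (H : ∀ A : Finset ℤ, ((A - A).card : ℝ) ≤
    ((A + A).card : ℝ) ^ (Real.log (1 + Real.sqrt 2) / Real.log 2)) : False := by
  set c := Real.log (1 + Real.sqrt 2) / Real.log 2 with hcdef
  have hc1 : 1 < c := one_lt_c
  have hc0 : 0 ≤ c := by linarith
  set s := Real.sqrt 2 with hs
  have hs2 : s * s = 2 := Real.mul_self_sqrt (by norm_num)
  have hs1 : 1 < s := by
    rw [hs, Real.lt_sqrt (by norm_num)]; norm_num
  have ha : (2 : ℝ) ^ c = 1 + s := two_rpow_c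
  set a : ℝ := 1 + s with hadef
  have ha0 : 0 < a := by positivity
  set t : ℝ := s - 1 with ht
  have ht0 : 0 < t := by linarith
  have hs15 : s < 3 / 2 := by nlinarith
  have ht1 : t < 1 := by linarith
  have hat : a * t = 1 := by rw [hadef, ht]; nlinarith
  -- choice of q
  obtain ⟨q, hq1, hq⟩ : ∃ q : ℕ, 1 ≤ q ∧ 4 * a ^ 5 ≤ (q : ℝ) ^ (c - 1) := by
    have h1 : Filter.Tendsto (fun q : ℕ => (q : ℝ) ^ (c - 1)) Filter.atTop Filter.atTop :=
      (tendsto_rpow_atTop (by linarith)).comp tendsto_natCast_atTop_atTop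
    obtain ⟨q, h2, h3⟩ :=
      ((h1.eventually_ge_atTop (4 * a ^ 5)).and (Filter.eventually_ge_atTop 1)).exists
    exact ⟨q, h3, h2⟩
  have : NeZero q := ⟨by omega⟩
  have hq0 : (0 : ℝ) < q := by exact_mod_cast hq1
  -- choice of B
  let sB : ℕ → ℝ := fun B => ∑ k ∈ Finset.Icc (-(B : ℤ)) (B : ℤ), t ^ k.natAbs
  have hsB : ∀ B, sB B = a - 2 * t ^ (B + 1) / (1 - t) := by
    intro B
    have h1 := sum_Icc_two t B
    have h2 : (1 - t) ≠ 0 := by linarith
    have h3 : a * (1 - t) = 1 + t := by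
      have : a * (1 - t) = a - a * t := by ring
      rw [this, hat, hadef, ht]; ring
    have h4 : sB B = (1 + t - 2 * t ^ (B + 1)) / (1 - t) := by
      rw [eq_div_iff h2, mul_comm]; exact h1
    rw [h4, sub_div, ← h3, mul_div_assoc, div_self h2, mul_one]
  have hlim : Filter.Tendsto (fun B => (sB B / a) ^ q) Filter.atTop (nhds 1) := by
    have h1 : Filter.Tendsto (fun B : ℕ => t ^ (B + 1)) Filter.atTop (nhds 0) :=
      (tendsto_pow_atTop_nhds_zero_of_lt_one ht0.le ht1).comp (Filter.tendsto_add_atTop_nat 1)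
    have h2 : Filter.Tendsto (fun B => (sB B / a) ^ q) Filter.atTop
        (nhds (((a - 2 * 0 / (1 - t)) / a) ^ q)) := by
      simp only [hsB]
      exact ((((h1.const_mul 2).div_const _).const_sub a).div_const a).pow q
    have h3 : ((a - 2 * 0 / (1 - t)) / a) ^ q = 1 := by
      rw [mul_zero, zero_div, sub_zero, div_self ha0.ne', one_pow]
    rw [h3] at h2
    exact h2
  obtain ⟨B, hB⟩ := (hlim.eventually (lt_mem_nhds (show (1 / 2 : ℝ) < 1 by norm_num))).exists
  apply no_exp_le_poly ((q : ℝ) * B)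
  intro M
  have h1 := main_ineq c hc0 H q M B t ht0 (by rw [ha]; exact hat)
  rw [ha] at h1
  have h2 : sB B ^ (M * q) = ((sB B / a) ^ q) ^ M * (a ^ q) ^ M := by
    rw [← mul_pow, ← mul_pow, div_mul_cancel₀ _ ha0.ne', ← pow_mul, mul_comm]
  have h3 : (sB B) ^ (M * q) ≤ ((M * q * B + 1 : ℕ) : ℝ) ^ 2 *
        (a ^ (5 * M + M * q) * ((q : ℝ) / (q : ℝ) ^ c) ^ M) := h1
  rw [h2] at h3
  have h4 : a ^ (5 * M + M * q) = (a ^ 5) ^ M * (a ^ q) ^ M := by
    rw [pow_add, pow_mul, mul_comm M q, pow_mul]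
  rw [h4] at h3
  have haq : 0 < (a ^ q) ^ M := by positivity
  have hqc : (0 : ℝ) < (q : ℝ) ^ c := by positivity
  have hqe : (q : ℝ) / (q : ℝ) ^ c = 1 / (q : ℝ) ^ (c - 1) := by
    rw [Real.rpow_sub hq0, Real.rpow_one]
    field_simp
  rw [hqe] at h3
  have h5 : ((sB B / a) ^ q) ^ M ≤ ((M * q * B + 1 : ℕ) : ℝ) ^ 2 *
        ((a ^ 5) * (1 / (q : ℝ) ^ (c - 1))) ^ M := by
    have : ((sB B / a) ^ q) ^ M * (a ^ q) ^ M ≤ (((M * q * B + 1 : ℕ) : ℝ) ^ 2 *
        ((a ^ 5) * (1 / (q : ℝ) ^ (c - 1))) ^ M) * (a ^ q) ^ M := by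
      refine h3.trans (le_of_eq ?_)
      rw [mul_pow]; ring
    exact le_of_mul_le_mul_right this haq
  have h6 : (a ^ 5) * (1 / (q : ℝ) ^ (c - 1)) ≤ 1 / 4 := by
    have hpos : (0 : ℝ) < (q : ℝ) ^ (c - 1) := by positivity
    rw [mul_one_div, div_le_iff₀ hpos]
    linarith
  have h7 : (1 / 2 : ℝ) ^ M ≤ ((M * q * B + 1 : ℕ) : ℝ) ^ 2 * (1 / 4) ^ M := by
    calc (1 / 2 : ℝ) ^ M ≤ ((sB B / a) ^ q) ^ M := by
          apply pow_le_pow_left₀ (by norm_num) hB.le
      _ ≤ _ := h5
      _ ≤ _ := by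
          apply mul_le_mul_of_nonneg_left _ (by positivity)
          apply pow_le_pow_left₀ (by positivity) h6
  have h8 : (2 : ℝ) ^ M = (1 / 2 : ℝ) ^ M * 4 ^ M := by
    rw [← mul_pow]; norm_num
  have h9 : ((M * q * B + 1 : ℕ) : ℝ) ^ 2 * (1 / 4) ^ M * 4 ^ M
      = ((M * q * B + 1 : ℕ) : ℝ) ^ 2 := by
    rw [mul_assoc, ← mul_pow]; norm_num
  rw [h8]
  calc (1 / 2 : ℝ) ^ M * 4 ^ M ≤ ((M * q * B + 1 : ℕ) : ℝ) ^ 2 * (1 / 4) ^ M * 4 ^ M :=
        mul_le_mul_of_nonneg_right h7 (by positivity)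
    _ = ((M * q * B + 1 : ℕ) : ℝ) ^ 2 := h9
    _ = (M * (q * B) + 1) ^ 2 := by push_cast; ring

end main

lemma ratio_le (A : Finset ℤ) : Real.log (A - A).card / Real.log (A + A).card ≤ 2 := by
  rcases Nat.lt_or_ge (A + A).card 2 with h | h
  · have : (A + A).card = 0 ∨ (A + A).card = 1 := by omega
    rcases this with h | h <;> simp [h]
  · have hA : (A + A).card ≠ 0 := by omega
    have hne : A.Nonempty := by
      rw [Finset.nonempty_iff_ne_empty]
      rintro rfl
      simp at hA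
    have hlog : 0 < Real.log (A + A).card := Real.log_pos (by exact_mod_cast h)
    rw [div_le_iff₀ hlog]
    have h1 : ((A - A).card : ℝ) ≤ ((A + A).card : ℝ) ^ 2 := by
      have h2 : (A - A).card ≤ A.card * A.card := Finset.card_sub_le
      have h3 : A.card ≤ (A + A).card := Finset.card_le_card_add_self
      have h4 : (A - A).card ≤ (A + A).card ^ 2 := by nlinarith
      exact_mod_cast h4
    have h0 : 0 < ((A - A).card : ℝ) := by
      have : 0 < (A - A).card := Finset.card_pos.mpr (hne.sub hne)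
      exact_mod_cast this
    have := Real.log_le_log h0 h1
    rw [Real.log_pow] at this
    exact_mod_cast this

lemma bdd : BddAbove {x : ℝ | ∃ A : Finset ℤ,
    Real.log (A - A).card / Real.log (A + A).card = x} := by
  refine ⟨2, ?_⟩
  rintro x ⟨A, rfl⟩
  exact ratio_le A

lemma of_le (c : ℝ) (h : C3e ≤ c) (hc : 0 < c) (A : Finset ℤ) :
    ((A - A).card : ℝ) ≤ ((A + A).card : ℝ) ^ c := by
  rcases A.eq_empty_or_nonempty with rfl | hne
  · simp [Real.zero_rpow hc.ne']
  have hle : Real.log (A - A).card / Real.log (A + A).card ≤ c :=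
    (le_csSup bdd ⟨A, rfl⟩).trans h
  have hp : 0 < (A + A).card := Finset.card_pos.mpr (hne.add hne)
  have hp' : (0 : ℝ) < (A + A).card := by exact_mod_cast hp
  have hm : (0 : ℝ) < (A - A).card := by
    have : 0 < (A - A).card := Finset.card_pos.mpr (hne.sub hne)
    exact_mod_cast this
  rcases Nat.lt_or_ge (A + A).card 2 with h1 | h1
  · have h2 : (A + A).card = 1 := by omega
    have h3 : A.card ≤ 1 := by
      have : A.card ≤ (A + A).card := Finset.card_le_card_add_self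
      omega
    have h4 : (A - A).card ≤ A.card * A.card := Finset.card_sub_le
    have h5 : (A - A).card ≤ 1 := by nlinarith
    rw [h2]
    simp only [Nat.cast_one, Real.one_rpow]
    exact_mod_cast h5
  · have hlog : 0 < Real.log (A + A).card := Real.log_pos (by exact_mod_cast h1)
    rw [div_le_iff₀ hlog] at hle
    rw [Real.rpow_def_of_pos hp', ← Real.log_le_iff_le_exp hm]
    linarith

/-- log(1+√2)/log 2 < sSup_{A : Finset ℤ} log∣A−A∣/log∣A+A∣ (degenerate A give value 0, harmless since sup ≥ 1 and the set is bounded by 4/3) -/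
theorem result :
    (Real.log (1 + Real.sqrt 2) / Real.log 2) < C3e := by
  by_contra h
  exact final (of_le _ (not_lt.mp h) (by linarith [one_lt_c]))

end Pool.Agent.S10917
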