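import Pool.Statements.S11046
import Pool.Agent.H60.F64

set_option autoImplicit false
open Pool Pool.MP_b9906a_co

namespace Pool.Agent.S11046

open Pool.Agent.H60

/-- The generator of the multiplicative group (the class of `X`). -/
def th : F64 := F64.mk 2 (by norm_num)
/-- Its eighth power. -/
def th8 : F64 := F64.mk 12 (by norm_num)

/-- `f(x) = x^4 + θ x^8 + x^32`. -/
def fF (x : F64) : F64 :=
  let y := (x * x) * (x * x)
  let z := y * y
  y + th * z + (z * z) * (z * z)

/-- `g(x) = x^4 + θ^8 x^8 + x^32`. -/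
def gF (x : F64) : F64 :=
  let y := (x * x) * (x * x)
  let z := y * y
  y + th8 * z + (z * z) * (z * z)

/-- The adjoint `x^2 + θ^8 x^8 + x^16` of `f`. -/
def hF (x : F64) : F64 :=
  let y := x * x
  let z := (y * y) * (y * y)
  z * z + th8 * z + y

/-- Coefficients of `f`. -/
def ca : Fin 6 → F64 := ![0, 0, 1, th, 0, 1]
/-- Coefficients of `g`. -/
def cb : Fin 6 → F64 := ![0, 0, 1, th8, 0, 1]

theorem card64 : Fintype.card F64 = 2 ^ 6 := (Fintype.card_fin 64 : Fintype.card F64 = 64)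

theorem th_pow : th ^ 8 = th8 := by decide +kernel

theorem sum_a (x : F64) : (∑ k : Fin 6, ca k * x ^ (2 ^ (k : ℕ))) = fF x := by
  simp [Fin.sum_univ_succ, ca, fF]
  ring

theorem sum_b (x : F64) : (∑ k : Fin 6, cb k * x ^ (2 ^ (k : ℕ))) = gF x := by
  simp [Fin.sum_univ_succ, cb, gF]
  ring

theorem sum_adj (x : F64) :
    (∑ k : Fin 6, (ca k) ^ (2 ^ (6 - (k : ℕ))) * x ^ (2 ^ (6 - (k : ℕ)))) = hF x := by
  have h := th_pow
  simp [Fin.sum_univ_succ, ca, hF]
  rw [h]
  ring

theorem im1 : ∀ x : F64, x ≠ 0 → ∃ y : F64, y ≠ 0 ∧ fF x / x = gF y / y := by decide +kernel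
theorem im2 : ∀ x : F64, x ≠ 0 → ∃ y : F64, y ≠ 0 ∧ gF x / x = fF y / y := by decide +kernel

theorem nb1 : ∀ l : F64, l ≠ 0 → ∃ x : F64, gF x ≠ fF (l * x) / l := by decide +kernel
theorem nb2 : ∀ l : F64, l ≠ 0 → ∃ x : F64, gF x ≠ hF (l * x) / l := by decide +kernel

/-- `θ^21`, of order three. -/
def om : F64 := F64.mk 59 (by norm_num)
/-- `θ^9`, of order seven. -/
def et : F64 := F64.mk 24 (by norm_num)

theorem om2 : om ^ (2 ^ 2) = om := by decide +kernel
theorem om6 : om ^ (2 ^ 6) = om := by decide +kernel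
theorem et3 : et ^ (2 ^ 3) = et := by decide +kernel
theorem fom : fF (om * 1) ≠ om * fF 1 := by decide +kernel
theorem gom : gF (om * 1) ≠ om * gF 1 := by decide +kernel
theorem fet : fF (et * th) ≠ et * fF th := by decide +kernel
theorem get' : gF (et * th) ≠ et * gF th := by decide +kernel

/-- A scalar outside the prime field which `f` respects at `1`. -/
def mu : F64 := F64.mk 14 (by norm_num)
theorem fmu : fF mu = mu * fF 1 := by decide +kernel
theorem mu0 : mu ≠ 0 := by decide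
theorem mu1 : mu ≠ 1 := by decide
theorem fnc : ∃ x : F64, x ≠ 0 ∧ fF x ≠ fF 1 * x := by decide +kernel

theorem cop6 {i : ℕ} (hi : Nat.Coprime i 6) : i * i % 6 = 1 := by
  have h : ∀ r < 6, Nat.gcd 6 r = 1 → r * r % 6 = 1 := by decide
  have h2 : Nat.gcd 6 (i % 6) = 1 := by
    rw [Nat.gcd_comm, ← Nat.gcd_rec 6 i, Nat.gcd_comm]
    exact hi
  rw [Nat.mul_mod]
  exact h (i % 6) (Nat.mod_lt _ (by norm_num)) h2

theorem frob_fix {z : F64} {i : ℕ} (hi : Nat.Coprime i 6) (hz : z ^ (2 ^ i) = z) :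
    z = 0 ∨ z = 1 := by
  have key : ∀ m : ℕ, z ^ (2 ^ (i * m)) = z := by
    intro m
    induction m with
    | zero => simp
    | succ m ih =>
      rw [Nat.mul_succ, pow_add, pow_mul, ih, hz]
  have h64 : ∀ w : F64, w ^ (2 ^ 6) = w := by
    intro w
    have := FiniteField.pow_card w
    rwa [card64] at this
  have key6 : ∀ m : ℕ, z ^ (2 ^ (6 * m)) = z := by
    intro m
    induction m with
    | zero => simp
    | succ m ih =>
      rw [Nat.mul_succ, pow_add, pow_mul, ih, h64]
  have hmod : i * i % 6 = 1 := cop6 hi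
  have hdiv : i * i = 6 * (i * i / 6) + 1 := by omega
  have h2 : z ^ 2 = z := by
    have h3 := key i
    rw [hdiv, pow_add, pow_mul, key6] at h3
    simpa using h3
  have h4 : z * (z - 1) = 0 := by
    have : z * (z - 1) = z ^ 2 - z := by ring
    rw [this, h2, sub_self]
  rcases mul_eq_zero.mp h4 with h5 | h5
  · left; exact h5
  · right; exact sub_eq_zero.mp h5

theorem no_a (σ : F64 ≃+* F64) (c₁ c₂ c₃ c₄ α : F64) (i : ℕ)
    (hdet : c₁ * c₄ - c₂ * c₃ ≠ 0) (hi : Nat.Coprime i 6)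
    (hr : Set.range (fun x : F64 =>
              (c₁ * σ x + c₂ * σ (fF x), c₃ * σ x + c₄ * σ (fF x))) =
              Set.range (fun y : F64 => (y, α * y ^ (2 ^ i)))) : False := by
  have hmem : ∀ x : F64, c₃ * σ x + c₄ * σ (fF x) =
      α * (c₁ * σ x + c₂ * σ (fF x)) ^ (2 ^ i) := by
    intro x
    have hx : (c₁ * σ x + c₂ * σ (fF x), c₃ * σ x + c₄ * σ (fF x)) ∈
        Set.range (fun y : F64 => (y, α * y ^ (2 ^ i))) := by
      rw [← hr]; exact ⟨x, rfl⟩
    obtain ⟨y, hy⟩ := hx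
    have h1 : y = c₁ * σ x + c₂ * σ (fF x) := congrArg Prod.fst hy
    have h2 : α * y ^ (2 ^ i) = c₃ * σ x + c₄ * σ (fF x) := congrArg Prod.snd hy
    rw [← h2, h1]
  by_cases hα : α = 0
  · -- the graph would be a line over the large field
    have hlin : ∀ x : F64, c₃ * σ x + c₄ * σ (fF x) = 0 := by
      intro x; rw [hmem x, hα, zero_mul]
    obtain ⟨x, hx0, hx⟩ := fnc
    have e1 := hlin 1
    have e2 := hlin x
    rw [map_one, mul_one] at e1
    by_cases hc4 : c₄ = 0
    · apply hdet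
      rw [hc4, zero_mul, add_zero] at e1
      rw [hc4, e1]; ring
    · have e3 : c₄ * (σ (fF x) - σ (fF 1) * σ x) = 0 := by
        linear_combination e2 - σ x * e1
      rcases mul_eq_zero.mp e3 with h | h
      · exact hc4 h
      · apply hx
        have h5 : σ (fF x) = σ (fF 1 * x) := by rw [map_mul]; exact sub_eq_zero.mp h
        exact σ.injective h5
  · set u : F64 := c₁ + c₂ * σ (fF 1) with hu
    have hm1 := hmem 1
    have hm2 := hmem mu
    rw [map_one, mul_one, mul_one, ← hu] at hm1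
    rw [fmu, map_mul] at hm2
    have e1 : c₁ * σ mu + c₂ * (σ mu * σ (fF 1)) = σ mu * u := by rw [hu]; ring
    have e2 : c₃ * σ mu + c₄ * (σ mu * σ (fF 1)) = σ mu * (c₃ + c₄ * σ (fF 1)) := by ring
    rw [e1, e2, hm1, mul_pow] at hm2
    have hu0 : u ≠ 0 := by
      intro h0
      rw [h0, zero_pow (by positivity), mul_zero] at hm1
      apply hdet
      have h1 : c₁ = - (c₂ * σ (fF 1)) := by
        rw [hu] at h0; exact eq_neg_of_add_eq_zero_left h0
      have h3 : c₃ = - (c₄ * σ (fF 1)) := eq_neg_of_add_eq_zero_left hm1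
      rw [h1, h3]; ring
    have hfix : (σ mu) ^ (2 ^ i) = σ mu := by
      have hne : α * u ^ (2 ^ i) ≠ 0 := mul_ne_zero hα (pow_ne_zero _ hu0)
      have : (σ mu) ^ (2 ^ i) * (α * u ^ (2 ^ i)) = σ mu * (α * u ^ (2 ^ i)) := by
        rw [hm2]; ring
      exact mul_right_cancel₀ hne this
    rcases frob_fix hi hfix with h | h
    · exact mu0 (by
        apply σ.injective; rw [h, map_zero])
    · exact mu1 (by
        apply σ.injective; rw [h, map_one])


/-- The negation of the preceding statement: For n>5, if q-polynomials f,g on F_{q^n} with max linearity field F_q have equal images of f(x)/x, then either one ΓL(2,q^n) map sends both graphs to graphs of αx^{q^i}, βx^{q^j} with gcd(i,n)=gcd(j,n)=1 and equal norms, or g(x) equals f(lx)/l or f̂(lx)/l. -/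
theorem result :
    ¬ (∀ (q n : ℕ) (K : Type) [Field K] [Fintype K],
      IsPrimePow q → Fintype.card K = q ^ n → 5 < n →
      ∀ (a b : Fin n → K),
        (∀ t : ℕ, t ∣ n → 1 < t →
          ¬ ∀ μ : K, μ ^ (q ^ t) = μ → ∀ x : K,
            (∑ k : Fin n, a k * (μ * x) ^ (q ^ (k : ℕ))) = μ * ∑ k : Fin n, a k * x ^ (q ^ (k : ℕ))) →
        (∀ t : ℕ, t ∣ n → 1 < t →
          ¬ ∀ μ : K, μ ^ (q ^ t) = μ → ∀ x : K,
            (∑ k : Fin n, b k * (μ * x) ^ (q ^ (k : ℕ))) = μ * ∑ k : Fin n, b k * x ^ (q ^ (k : ℕ))) →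
        {z : K | ∃ x : K, x ≠ 0 ∧ z = (∑ k : Fin n, a k * x ^ (q ^ (k : ℕ))) / x} =
          {z : K | ∃ x : K, x ≠ 0 ∧ z = (∑ k : Fin n, b k * x ^ (q ^ (k : ℕ))) / x} →
        (∃ (σ : K ≃+* K) (c₁ c₂ c₃ c₄ α β : K) (i j : ℕ),
            c₁ * c₄ - c₂ * c₃ ≠ 0 ∧ Nat.Coprime i n ∧ Nat.Coprime j n ∧
            Set.range (fun x : K =>
              (c₁ * σ x + c₂ * σ (∑ k : Fin n, a k * x ^ (q ^ (k : ℕ))),
               c₃ * σ x + c₄ * σ (∑ k : Fin n, a k * x ^ (q ^ (k : ℕ))))) =
              Set.range (fun y : K => (y, α * y ^ (q ^ i))) ∧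
            Set.range (fun x : K =>
              (c₁ * σ x + c₂ * σ (∑ k : Fin n, b k * x ^ (q ^ (k : ℕ))),
               c₃ * σ x + c₄ * σ (∑ k : Fin n, b k * x ^ (q ^ (k : ℕ))))) =
              Set.range (fun y : K => (y, β * y ^ (q ^ j))) ∧
            (∏ k ∈ Finset.range n, α ^ (q ^ k)) = ∏ k ∈ Finset.range n, β ^ (q ^ k)) ∨
        (∃ l : K, l ≠ 0 ∧
            ((∀ x : K, (∑ k : Fin n, b k * x ^ (q ^ (k : ℕ))) =
                (∑ k : Fin n, a k * (l * x) ^ (q ^ (k : ℕ))) / l) ∨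
             (∀ x : K, (∑ k : Fin n, b k * x ^ (q ^ (k : ℕ))) =
                (∑ k : Fin n, (a k) ^ (q ^ (n - (k : ℕ))) * (l * x) ^ (q ^ (n - (k : ℕ)))) / l)))) := by
  intro H
  have hdvd : ∀ t : ℕ, t ∣ 6 → 1 < t → t = 2 ∨ t = 3 ∨ t = 6 := by
    intro t ht h1
    have h6 : t ≤ 6 := Nat.le_of_dvd (by norm_num) ht
    interval_cases t <;> simp_all (config := {decide := true})
  have h := H 2 6 F64 (Nat.prime_two.isPrimePow) card64 (by norm_num) ca cb
    (by
      intro t ht h1 hall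
      rcases hdvd t ht h1 with rfl | rfl | rfl
      · have := hall om om2 1
        rw [sum_a, sum_a] at this
        exact fom this
      · have := hall et et3 th
        rw [sum_a, sum_a] at this
        exact fet this
      · have := hall om om6 1
        rw [sum_a, sum_a] at this
        exact fom this)
    (by
      intro t ht h1 hall
      rcases hdvd t ht h1 with rfl | rfl | rfl
      · have := hall om om2 1
        rw [sum_b, sum_b] at this
        exact gom this
      · have := hall et et3 th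
        rw [sum_b, sum_b] at this
        exact get' this
      · have := hall om om6 1
        rw [sum_b, sum_b] at this
        exact gom this)
    (by
      ext z
      simp only [Set.mem_ofPred_eq, sum_a, sum_b]
      constructor
      · rintro ⟨x, hx, rfl⟩
        exact im1 x hx
      · rintro ⟨x, hx, rfl⟩
        exact im2 x hx)
  rcases h with ⟨σ, c₁, c₂, c₃, c₄, α, β, i, j, hdet, hi, hj, hr, -, -⟩ | ⟨l, hl, h | h⟩
  · simp only [sum_a] at hr
    exact no_a σ c₁ c₂ c₃ c₄ α i hdet hi hr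
  · obtain ⟨x, hx⟩ := nb1 l hl
    apply hx
    have := h x
    rwa [sum_b, sum_a] at this
  · obtain ⟨x, hx⟩ := nb2 l hl
    apply hx
    have := h x
    rwa [sum_b, sum_adj] at this

end Pool.Agent.S11046
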