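import Pool.Statements.S11115
import Pool.Agent.H72.MultipackMain

set_option autoImplicit false
open Pool Pool.MP_bcf3b3_co

namespace Pool.Agent.S11115

open Pool.Agent.H72.MPk in
theorem gm_dist {V : Type} (G : SimpleGraph V) (hG : G.Connected) : GM (fun u v => G.dist u v) where
  self v := SimpleGraph.dist_self
  comm u v := SimpleGraph.dist_comm
  tri u v w := hG.dist_triangle
  geo x y := by
    obtain ⟨p, hp⟩ := hG.exists_walk_length_eq_dist x y
    refine ⟨p.getVert, p.getVert_zero, by rw [← hp]; exact p.getVert_length, ?_⟩
    intro i
    rcases Nat.lt_or_ge i p.length with hi | hi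
    · have := SimpleGraph.dist_eq_one_iff_adj.2 (p.adj_getVert_succ hi)
      omega
    · rw [p.getVert_of_length_le hi, p.getVert_of_length_le (by omega), SimpleGraph.dist_self]
      omega

/-- Every finite connected graph has a dominating broadcast and a multipacking such that the broadcast cost is at most twice the multipacking size, i.e. broadcast domination number ≤ 2 × multipacking number. -/
theorem result :
    ∀ (V : Type) [Fintype V] (G : SimpleGraph V), G.Connected →
      ∃ (f : V → ℕ) (S : Finset V),
        (∀ u : V, ∃ v : V, 0 < f v ∧ G.dist u v ≤ f v) ∧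
        (∀ v : V, ∀ r : ℕ, 1 ≤ r → (S.filter (fun u => G.dist v u ≤ r)).card ≤ r) ∧
        ∑ v, f v ≤ 2 * S.card := by
  intro V _ G hG
  classical
  have : Nonempty V := hG.nonempty
  exact Pool.Agent.H72.MPk.main (gm_dist G hG)

end Pool.Agent.S11115
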