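import Pool.Statements.S11725
import Pool.Agent.H27.Rog.Main
import Pool.Agent.H27.Rog.Events3
import Pool.Agent.H27.Rog.Counting
import Pool.Agent.H27.Rog.Density

set_option autoImplicit false
open MeasureTheory
open Pool Pool.MP_d76e1b_co

namespace Pool.Agent.S11725

/-- For a planar convex disk K and a translate K+v meeting it, with D their union: every packing of translates of D has upper density at most the supremum of the densities of lattice packings of D, i.e. translative density equals lattice density. -/
theorem result :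
    ∀ (K : Set (ℝ × ℝ)) (v : ℝ × ℝ), Convex ℝ K → IsCompact K → (interior K).Nonempty →
      (K ∩ ((fun x => x + v) '' K)).Nonempty →
      ∀ T : Set (ℝ × ℝ),
        (∀ s ∈ T, ∀ t ∈ T, s ≠ t →
          Disjoint (interior ((fun x => x + s) '' (K ∪ ((fun x => x + v) '' K))))
            (interior ((fun x => x + t) '' (K ∪ ((fun x => x + v) '' K))))) →
        Filter.limsup (fun R : ℝ =>
            volume ((⋃ t ∈ T, (fun x => x + t) '' (K ∪ ((fun x => x + v) '' K))) ∩
                (Set.Icc (-R) R ×ˢ Set.Icc (-R) R)) /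
              volume (Set.Icc (-R) R ×ˢ Set.Icc (-R) R)) Filter.atTop ≤
          ⨆ (u : ℝ × ℝ) (w : ℝ × ℝ) (_ : u.1 * w.2 - u.2 * w.1 ≠ 0 ∧
              ∀ a b c d : ℤ, (a, b) ≠ (c, d) →
                Disjoint
                  (interior ((fun x => x + ((a : ℝ) • u + (b : ℝ) • w)) ''
                    (K ∪ ((fun x => x + v) '' K))))
                  (interior ((fun x => x + ((c : ℝ) • u + (d : ℝ) • w)) ''
                    (K ∪ ((fun x => x + v) '' K))))),
            volume (K ∪ ((fun x => x + v) '' K)) / ENNReal.ofReal |u.1 * w.2 - u.2 * w.1| := by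
  intro K v hconv hcomp hint hv T hT
  exact Pool.Agent.H27.Rog.rogerian Pool.Agent.H27.Rog.eventIneq
    (fun S Δ Fm h hF X₀ X₁ Y₀ Y₁ hX hY T hbox hsep =>
      Pool.Agent.H27.Rog.counting S Δ Fm h hF X₀ X₁ Y₀ Y₁ hX hY T hbox hsep)
    (fun D hD T e w hew Δ c hΔ hc hT =>
      Pool.Agent.H27.Rog.density D hD T e w hew Δ c hΔ hc hT)
    K v hconv hcomp hint hv T hT

end Pool.Agent.S11725
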