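import Pool.Statements.S11891
import Pool.Agent.H28.Welsh.Final

set_option autoImplicit false
open Pool Pool.MP_dda740_co

namespace Pool.Agent.S11891

/-- Every finite simple rank-3 matroid embeds injectively into some finite projective plane so that its independent sets are exactly the sets of at most two points and the non-collinear triples. -/
theorem result :
    ∀ (α : Type) (M : Matroid α), M.Finite → M.eRank = 3 →
      (∀ e ∈ M.E, ∀ f ∈ M.E, M.Indep {e, f}) →
      ∃ (P L : Type) (_ : Membership P L) (_ : Finite P) (_ : Finite L)
        (_ : Configuration.ProjectivePlane P L) (φ : α → P),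
        Set.InjOn φ M.E ∧
        ∀ X ⊆ M.E, (M.Indep X ↔
          (X.encard ≤ 2 ∨ (X.encard = 3 ∧ ∀ l : L, ¬ ∀ x ∈ X, φ x ∈ l))) := by
  intro α M hfin hrk hs
  exact Pool.Agent.H28.Welsh.welsh α M hfin hrk hs

end Pool.Agent.S11891
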