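import Pool.Statements.S11987
import Pool.Agent.H43.Niche.Main

set_option autoImplicit false
open Pool Pool.MP_e11724_co

namespace Pool.Agent.S11987

/-- There is a finite graph G such that G plus k isolated vertices is the niche graph of an acyclic digraph for some k, but not for k = 0, 1 or 2; that is, 2 < n(G) < ∞. -/
theorem result :
    ∃ (V : Type) (_ : Fintype V) (G : SimpleGraph V),
      (∃ k : ℕ, ∃ D : Digraph (V ⊕ Fin k),
        (∀ x, ¬ Relation.TransGen D.Adj x x) ∧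
        ∀ x y : V ⊕ Fin k, x ≠ y →
          ((∃ z, (D.Adj x z ∧ D.Adj y z) ∨ (D.Adj z x ∧ D.Adj z y)) ↔
            ∃ a b : V, x = Sum.inl a ∧ y = Sum.inl b ∧ G.Adj a b)) ∧
      ∀ k : ℕ, k ≤ 2 → ¬ ∃ D : Digraph (V ⊕ Fin k),
        (∀ x, ¬ Relation.TransGen D.Adj x x) ∧
        ∀ x y : V ⊕ Fin k, x ≠ y →
          ((∃ z, (D.Adj x z ∧ D.Adj y z) ∨ (D.Adj z x ∧ D.Adj z y)) ↔
            ∃ a b : V, x = Sum.inl a ∧ y = Sum.inl b ∧ G.Adj a b) := by
  refine ⟨Fin 8, inferInstance, Pool.Agent.H43.Niche.G, ?_, ?_⟩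
  · exact ⟨3, Pool.Agent.H43.Niche.D3, Pool.Agent.H43.Niche.D3_acyclic,
      Pool.Agent.H43.Niche.D3_niche⟩
  · exact Pool.Agent.H43.Niche.no_small

end Pool.Agent.S11987
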