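import Pool.Statements.S13092
import Pool.Agent.H38.HTMat
import Pool.Agent.H38.HTNorm

set_option autoImplicit false
open LaurentPolynomial
open scoped Matrix
open Pool Pool.MP_436001_gt

namespace Pool.Agent.S13092

open Pool.Agent.H38.HT

/-- The Hambleton-Teichner form, with `t = T 1` and `s = T (-1)`. -/
noncomputable def HT : Matrix (Fin 4) (Fin 4) (LaurentPolynomial ℤ) :=
  !![(T 1)^2 + T 1 + 3 + T (-1) + (T (-1))^2, (T 1)^2 + T 1 + 2 + T (-1) + (T (-1))^2, T 1 + 1 + T (-1), T 1 + T (-1);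
    (T 1)^2 + T 1 + 2 + T (-1) + (T (-1))^2, (T 1)^2 + T 1 + 3 + T (-1) + (T (-1))^2, T 1 + T (-1), T 1 + 1 + T (-1);
    T 1 + 1 + T (-1), T 1 + T (-1), 2, 0;
    T 1 + T (-1), T 1 + 1 + T (-1), 0, 2]

/-- The inverse of the Hambleton-Teichner form. -/
noncomputable def HTi : Matrix (Fin 4) (Fin 4) (LaurentPolynomial ℤ) :=
  !![2, 0, -(T 1 + 1 + T (-1)), -(T 1 + T (-1));
    0, 2, -(T 1 + T (-1)), -(T 1 + 1 + T (-1));
    -(T 1 + 1 + T (-1)), -(T 1 + T (-1)), (T 1)^2 + T 1 + 3 + T (-1) + (T (-1))^2, (T 1)^2 + T 1 + 2 + T (-1) + (T (-1))^2;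
    -(T 1 + T (-1)), -(T 1 + 1 + T (-1)), (T 1)^2 + T 1 + 2 + T (-1) + (T (-1))^2, (T 1)^2 + T 1 + 3 + T (-1) + (T (-1))^2]

/-- The form of rank two. -/
noncomputable def H2 : Matrix (Fin 2) (Fin 2) (LaurentPolynomial ℤ) :=
  !![0, T 1 - 1; T (-1) - 1, 0]

theorem st : (T (-1) : LaurentPolynomial ℤ) * T 1 = 1 := by
  rw [← T_add]; simp

theorem HT_mul_HTi : HT * HTi = 1 := by
  have h := st
  ext1 i j
  fin_cases i <;> fin_cases j <;>
    simp [HT, HTi, Matrix.mul_apply, Fin.sum_univ_four, -T_pow] <;> grind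

theorem HT_det : HT.det ≠ 0 := by
  intro h
  have := congrArg Matrix.det HT_mul_HTi
  rw [Matrix.det_mul, h, zero_mul, Matrix.det_one] at this
  exact zero_ne_one this

theorem HT_herm : (HT.map inv)ᵀ = HT := by
  ext1 i j
  fin_cases i <;> fin_cases j <;>
    simp [HT, inv_T, -T_pow, map_ofNat] <;> ring

/-- The index bijection. -/
def ef : Fin 4 ⊕ Fin 2 × Fin 2 → Fin 8
  | Sum.inl i => ⟨i.1, by omega⟩
  | Sum.inr (a, k) => ⟨4 + a.1 + 2 * k.1, by omega⟩

/-- The index bijection, as an equivalence. -/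
noncomputable def e : Fin 4 ⊕ Fin 2 × Fin 2 ≃ Fin 8 :=
  Equiv.ofBijective ef (by decide)

theorem e_apply (x : Fin 4 ⊕ Fin 2 × Fin 2) : e x = ef x := rfl

theorem G1_eq : Matrix.fromBlocks HT 0 0 (Matrix.blockDiagonal (fun _ : Fin 2 => H2))
    = (G1 (T 1) (T (-1) : LaurentPolynomial ℤ)).submatrix e e := by
  ext1 i j
  rcases i with i | ⟨a, k⟩ <;> rcases j with j | ⟨b, l⟩
  · fin_cases i <;> fin_cases j <;> simp [e_apply, ef, G1, HT, -T_pow]
  · fin_cases i <;> fin_cases b <;> fin_cases l <;> simp [e_apply, ef, G1]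
  · fin_cases a <;> fin_cases k <;> fin_cases j <;> simp [e_apply, ef, G1]
  · fin_cases a <;> fin_cases k <;> fin_cases b <;> fin_cases l <;>
      simp [e_apply, ef, G1, H2, Matrix.blockDiagonal_apply] <;> ring

theorem G0_eq : Matrix.fromBlocks ((1 : Matrix (Fin 4) (Fin 4) ℤ).map
      (Int.castRingHom (LaurentPolynomial ℤ))) 0 0
      (Matrix.blockDiagonal (fun _ : Fin 2 => H2))
    = (G0 (T 1) (T (-1) : LaurentPolynomial ℤ)).submatrix e e := by
  ext1 i j
  rcases i with i | ⟨a, k⟩ <;> rcases j with j | ⟨b, l⟩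
  · fin_cases i <;> fin_cases j <;> simp [e_apply, ef, G0]
  · fin_cases i <;> fin_cases b <;> fin_cases l <;> simp [e_apply, ef, G0]
  · fin_cases a <;> fin_cases k <;> fin_cases j <;> simp [e_apply, ef, G0]
  · fin_cases a <;> fin_cases k <;> fin_cases b <;> fin_cases l <;>
      simp [e_apply, ef, G0, H2, Matrix.blockDiagonal_apply] <;> ring

theorem PMs_eq : ((PM (T 1) (T (-1) : LaurentPolynomial ℤ)).map inv)ᵀ = PMs (T 1) (T (-1)) := by
  ext1 i j
  fin_cases i <;> fin_cases j <;> simp [PM, PMs, inv_T, -T_pow, map_ofNat] <;> ring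

/-- The integral isometry at `t = 1`. -/
def W : Matrix (Fin 4) (Fin 4) ℤ :=
  !![1, -1, 0, 0; 0, 0, 1, -1; -1, 2, -1, 1; -1, 1, -1, 2]

/-- The inverse of `W`. -/
def W' : Matrix (Fin 4) (Fin 4) ℤ :=
  !![2, 1, 1, 0; 1, 1, 1, 0; 1, 2, 0, 1; 1, 1, 0, 1]

/-- The Gram matrix of the Hambleton-Teichner form at `t = 1`. -/
def HT1 : Matrix (Fin 4) (Fin 4) ℤ := !![7, 6, 3, 2; 6, 7, 2, 3; 3, 2, 2, 0; 2, 3, 0, 2]

theorem HT_aug : HT.map aug = HT1 := by
  ext1 i j
  fin_cases i <;> fin_cases j <;> simp [HT, HT1, aug_T, -T_pow, map_ofNat]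

/-- The trivial index bijection. -/
def e0 : Fin 4 ⊕ Fin 2 × Fin 0 ≃ Fin 4 := Equiv.sumEmpty _ _


/-- The negation of the preceding statement: Suppose a nondegenerate Hermitian Laurent-polynomial form L has boundary linking form isometric to that of H2^g, L at t=1 equals Q plus 2g zeros, and L plus n H2's ≅ Q plus (g+n) H2's. Then L ≅ Q ⊕ H2^g. -/
theorem result :
    ¬ (∀ (σ : LaurentPolynomial ℤ →+* LaurentPolynomial ℤ) (ε : LaurentPolynomial ℤ →+* ℤ),
      σ (T 1) = T (-1) → ε (T 1) = 1 →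
      ∀ (H2 : Matrix (Fin 2) (Fin 2) (LaurentPolynomial ℤ)),
        H2 = !![0, T 1 - 1; T (-1) - 1, 0] →
      ∀ (k : ℕ) (Q : Matrix (Fin k) (Fin k) ℤ), Qᵀ = Q → IsUnit Q.det →
      ∀ (g r : ℕ) (L : Matrix (Fin r) (Fin r) (LaurentPolynomial ℤ)),
        (L.map σ)ᵀ = L → L.det ≠ 0 →
        (∃ (P Q1 : Matrix (Fin 2 × Fin g) (Fin r) (LaurentPolynomial ℤ))
            (P' Q2 : Matrix (Fin r) (Fin 2 × Fin g) (LaurentPolynomial ℤ))
            (S1 M : Matrix (Fin r) (Fin r) (LaurentPolynomial ℤ))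
            (S2 : Matrix (Fin 2 × Fin g) (Fin 2 × Fin g) (LaurentPolynomial ℤ)),
            P * L = Matrix.blockDiagonal (fun _ : Fin g => H2) * Q1 ∧
            P' * Matrix.blockDiagonal (fun _ : Fin g => H2) = L * Q2 ∧
            P' * P = 1 + L * S1 ∧
            P * P' = 1 + Matrix.blockDiagonal (fun _ : Fin g => H2) * S2 ∧
            (L.map (algebraMap (LaurentPolynomial ℤ) (FractionRing (LaurentPolynomial ℤ))))⁻¹
              - ((P.map σ)ᵀ).map (algebraMap (LaurentPolynomial ℤ) (FractionRing (LaurentPolynomial ℤ)))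
                * ((Matrix.blockDiagonal (fun _ : Fin g => H2)).map
                    (algebraMap (LaurentPolynomial ℤ) (FractionRing (LaurentPolynomial ℤ))))⁻¹
                * P.map (algebraMap (LaurentPolynomial ℤ) (FractionRing (LaurentPolynomial ℤ)))
              = M.map (algebraMap (LaurentPolynomial ℤ) (FractionRing (LaurentPolynomial ℤ)))) →
        (∃ (P : Matrix (Fin r) (Fin k ⊕ Fin 2 × Fin g) ℤ)
            (P' : Matrix (Fin k ⊕ Fin 2 × Fin g) (Fin r) ℤ),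
            P * P' = 1 ∧ P' * P = 1 ∧
            Pᵀ * L.map ε * P = Matrix.fromBlocks Q 0 0 0) →
        (∃ (n : ℕ) (P : Matrix (Fin r ⊕ Fin 2 × Fin n) (Fin k ⊕ Fin 2 × Fin (g + n)) (LaurentPolynomial ℤ))
            (P' : Matrix (Fin k ⊕ Fin 2 × Fin (g + n)) (Fin r ⊕ Fin 2 × Fin n) (LaurentPolynomial ℤ)),
            P * P' = 1 ∧ P' * P = 1 ∧
            (P.map σ)ᵀ * Matrix.fromBlocks L 0 0 (Matrix.blockDiagonal (fun _ : Fin n => H2)) * P
              = Matrix.fromBlocks (Q.map (Int.castRingHom (LaurentPolynomial ℤ))) 0 0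
                  (Matrix.blockDiagonal (fun _ : Fin (g + n) => H2))) →
        ∃ (P : Matrix (Fin r) (Fin k ⊕ Fin 2 × Fin g) (LaurentPolynomial ℤ))
          (P' : Matrix (Fin k ⊕ Fin 2 × Fin g) (Fin r) (LaurentPolynomial ℤ)),
          P * P' = 1 ∧ P' * P = 1 ∧
          (P.map σ)ᵀ * L * P
            = Matrix.fromBlocks (Q.map (Int.castRingHom (LaurentPolynomial ℤ))) 0 0
                (Matrix.blockDiagonal (fun _ : Fin g => H2))) := by
  intro h
  have hpres : ∃ (P Q1 : Matrix (Fin 2 × Fin 0) (Fin 4) (LaurentPolynomial ℤ))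
            (P' Q2 : Matrix (Fin 4) (Fin 2 × Fin 0) (LaurentPolynomial ℤ))
            (S1 M : Matrix (Fin 4) (Fin 4) (LaurentPolynomial ℤ))
            (S2 : Matrix (Fin 2 × Fin 0) (Fin 2 × Fin 0) (LaurentPolynomial ℤ)),
            P * HT = Matrix.blockDiagonal (fun _ : Fin 0 => H2) * Q1 ∧
            P' * Matrix.blockDiagonal (fun _ : Fin 0 => H2) = HT * Q2 ∧
            P' * P = 1 + HT * S1 ∧
            P * P' = 1 + Matrix.blockDiagonal (fun _ : Fin 0 => H2) * S2 ∧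
            (HT.map (algebraMap (LaurentPolynomial ℤ) (FractionRing (LaurentPolynomial ℤ))))⁻¹
              - ((P.map inv)ᵀ).map (algebraMap (LaurentPolynomial ℤ) (FractionRing (LaurentPolynomial ℤ)))
                * ((Matrix.blockDiagonal (fun _ : Fin 0 => H2)).map
                    (algebraMap (LaurentPolynomial ℤ) (FractionRing (LaurentPolynomial ℤ))))⁻¹
                * P.map (algebraMap (LaurentPolynomial ℤ) (FractionRing (LaurentPolynomial ℤ)))
              = M.map (algebraMap (LaurentPolynomial ℤ) (FractionRing (LaurentPolynomial ℤ))) := by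
    refine ⟨0, 0, 0, 0, -HTi, HTi, 0, by simp, by simp, ?_, ?_, ?_⟩
    · rw [Matrix.mul_neg, HT_mul_HTi]; simp
    · ext1 i j
      exact i.2.elim0
    · have h1 : (HT.map (algebraMap (LaurentPolynomial ℤ) (FractionRing (LaurentPolynomial ℤ))))⁻¹
          = HTi.map (algebraMap (LaurentPolynomial ℤ) (FractionRing (LaurentPolynomial ℤ))) := by
        apply Matrix.inv_eq_right_inv
        rw [← Matrix.map_mul, HT_mul_HTi]
        simp
      rw [h1]
      simp
  have haug : ∃ (P : Matrix (Fin 4) (Fin 4 ⊕ Fin 2 × Fin 0) ℤ)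
            (P' : Matrix (Fin 4 ⊕ Fin 2 × Fin 0) (Fin 4) ℤ),
            P * P' = 1 ∧ P' * P = 1 ∧
            Pᵀ * HT.map aug * P = Matrix.fromBlocks (1 : Matrix (Fin 4) (Fin 4) ℤ) 0 0 0 := by
    refine ⟨W.submatrix id e0, W'.submatrix e0 id, ?_, ?_, ?_⟩
    · have : W.submatrix id e0 * W'.submatrix e0 id = (W * W').submatrix id id :=
        Matrix.submatrix_mul_equiv W W' id e0 id
      rw [this]
      have h2 : W * W' = 1 := by decide
      rw [h2]; simp
    · have : W'.submatrix e0 id * W.submatrix id e0 = (W' * W).submatrix e0 e0 :=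
        Matrix.submatrix_mul_equiv W' W e0 (Equiv.refl _) e0
      rw [this]
      have h2 : W' * W = 1 := by decide
      rw [h2]; simp
    · rw [HT_aug]
      have h2 : Wᵀ * HT1 * W = 1 := by decide
      have h3 : (W.submatrix id e0)ᵀ * HT1
          * W.submatrix id e0
          = (Wᵀ * HT1 * W).submatrix e0 e0 := rfl
      rw [h3, h2]
      ext1 i j
      rcases i with i | ⟨_, i⟩
      · rcases j with j | ⟨_, j⟩
        · simp [e0, Matrix.one_apply]
        · exact j.elim0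
      · exact i.elim0
  have hstab : ∃ (n : ℕ) (P : Matrix (Fin 4 ⊕ Fin 2 × Fin n) (Fin 4 ⊕ Fin 2 × Fin (0 + n)) (LaurentPolynomial ℤ))
            (P' : Matrix (Fin 4 ⊕ Fin 2 × Fin (0 + n)) (Fin 4 ⊕ Fin 2 × Fin n) (LaurentPolynomial ℤ)),
            P * P' = 1 ∧ P' * P = 1 ∧
            (P.map inv)ᵀ * Matrix.fromBlocks HT 0 0 (Matrix.blockDiagonal (fun _ : Fin n => H2)) * P
              = Matrix.fromBlocks ((1 : Matrix (Fin 4) (Fin 4) ℤ).map (Int.castRingHom (LaurentPolynomial ℤ))) 0 0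
                  (Matrix.blockDiagonal (fun _ : Fin (0 + n) => H2)) := by
    refine ⟨2, ?_⟩
    change ∃ (P : Matrix (Fin 4 ⊕ Fin 2 × Fin 2) (Fin 4 ⊕ Fin 2 × Fin 2) (LaurentPolynomial ℤ))
            (P' : Matrix (Fin 4 ⊕ Fin 2 × Fin 2) (Fin 4 ⊕ Fin 2 × Fin 2) (LaurentPolynomial ℤ)),
            P * P' = 1 ∧ P' * P = 1 ∧
            (P.map inv)ᵀ * Matrix.fromBlocks HT 0 0 (Matrix.blockDiagonal (fun _ : Fin 2 => H2)) * P
              = Matrix.fromBlocks ((1 : Matrix (Fin 4) (Fin 4) ℤ).map (Int.castRingHom (LaurentPolynomial ℤ))) 0 0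
                  (Matrix.blockDiagonal (fun _ : Fin 2 => H2))
    have hPP' := PM_mul_PM' (T 1) (T (-1) : LaurentPolynomial ℤ) st
    have hP'P : PM' (T 1) (T (-1) : LaurentPolynomial ℤ) * PM (T 1) (T (-1)) = 1 :=
      mul_eq_one_comm.mp hPP'
    refine ⟨(PM (T 1) (T (-1))).submatrix e e, (PM' (T 1) (T (-1))).submatrix e e, ?_, ?_, ?_⟩
    · rw [Matrix.submatrix_mul_equiv, hPP', Matrix.submatrix_one_equiv]
    · rw [Matrix.submatrix_mul_equiv, hP'P, Matrix.submatrix_one_equiv]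
    · rw [G1_eq, G0_eq, ← Matrix.submatrix_map, Matrix.transpose_submatrix,
        PMs_eq, Matrix.submatrix_mul_equiv, Matrix.submatrix_mul_equiv,
        PMs_mul_G1 _ _ st, Matrix.mul_assoc, hP'P, Matrix.mul_one]
  obtain ⟨P, P', h1, h2, h3⟩ := h inv aug (inv_T 1) (aug_T 1) H2 rfl 4 1 (by simp) (by simp)
    0 4 HT HT_herm HT_det hpres haug hstab
  have h4 : HT = (P'.map inv)ᵀ * Matrix.fromBlocks
      ((1 : Matrix (Fin 4) (Fin 4) ℤ).map (Int.castRingHom (LaurentPolynomial ℤ))) 0 0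
      (Matrix.blockDiagonal (fun _ : Fin 0 => H2)) * P' := by
    rw [← h3]
    have h5 : (P'.map inv)ᵀ * (P.map inv)ᵀ = 1 := by
      rw [← Matrix.transpose_mul, ← Matrix.map_mul, h1]
      simp
    calc HT = ((P'.map inv)ᵀ * (P.map inv)ᵀ) * HT * (P * P') := by rw [h5, h1]; simp
      _ = _ := by simp only [Matrix.mul_assoc]
  have h6 := congrFun (congrFun h4 0) 0
  rw [Matrix.mul_apply] at h6
  simp only [Fintype.sum_sum_type, Matrix.mul_apply, Fin.sum_univ_four] at h6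
  simp [HT, Matrix.fromBlocks, Matrix.one_apply, -T_pow] at h6
  exact not_sum_of_norms _ _ _ _ h6.symm

end Pool.Agent.S13092
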