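import Pool.Statements.S13249
import Pool.Agent.H81.Flat.Final

set_option autoImplicit false
open Pool Pool.MP_5d54f4_gt

namespace Pool.Agent.S13249

/-- For every smooth map of the plane into the unit 3-sphere of R^4 that is periodic under a lattice and whose differential preserves lengths (an isometric immersion of a flat torus), some two image points are antipodal. -/
theorem result :
    ∀ (u v : EuclideanSpace ℝ (Fin 2))
      (F : EuclideanSpace ℝ (Fin 2) → EuclideanSpace ℝ (Fin 4)),
      LinearIndependent ℝ ![u, v] →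
      (∀ n : ℕ, ContDiff ℝ n F) →
      (∀ x, F (x + u) = F x ∧ F (x + v) = F x) →
      (∀ x, ‖F x‖ = 1) →
      (∀ x w, ‖fderiv ℝ F x w‖ = ‖w‖) →
      ∃ x y : EuclideanSpace ℝ (Fin 2), F y = -F x := by
  intro u v F h1 h2 h3 h4 h5
  exact Pool.Agent.H81.Flat.main u v F h1 h2 h3 h4 h5

end Pool.Agent.S13249
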