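import Pool.Statements.S13329
import Pool.Agent.H62.M4.Final
import Pool.Agent.H62.M4.MinL
import Pool.Agent.H62.M4.Dich
import Pool.Agent.H62.M4.Exit
import Pool.Agent.H62.M4.Facts
import Pool.Agent.H62.M4.Euler
import Pool.Agent.H62.M4.Conn
import Pool.Agent.H62.M4.Links
import Pool.Agent.H62.M4.Angle
import Pool.Agent.H62.M4.P1
import Pool.Agent.H62.M4.Ptan
import Pool.Agent.H62.M4.P2
import Pool.Agent.H62.M4.Reg
import Pool.Agent.H62.M4.Ring
import Pool.Agent.H62.M4.RingA
import Pool.Agent.H62.M4.SingH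
import Pool.Agent.H62.M4.Chord
import Pool.Agent.H62.M4.Count
import Pool.Agent.H62.M4.NA
import Pool.Agent.H62.M4.Sing
import Pool.Agent.H62.M4.Many
import Pool.Agent.H62.M4.Cell
import Pool.Agent.H62.M4.Exist

set_option autoImplicit false
open Pool Pool.MP_6c826d_gt

namespace Pool.Agent.S13329

open Pool.Agent.H62.M4 in
/-- every compact right-angled polytope in hyperbolic 4-space has at least 120 facets -/
theorem lower {n : ℕ} (e : Fin n → (Fin 5 → ℝ)) (h : RA e) : 120 ≤ n := by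
  have hn : 0 < n := n_pos h
  have hdich := dich_strong h
  have hflag := flag h hn
  have F : Facts e := facts_of_RA h hdich hflag (fun σ hσ hc => extend h hflag σ hσ hc)
    (fun i j k l hQ => flip_exists h hflag i j k l hQ)
  have hE : EulerSpec e := euler F
  have hC : ConnSpec e := conn F
  have hC2 : Conn2Spec e := conn2 F
  have hNF : NoFive e := noFive F
  have hNS : NoSq e := noSq F
  have h5 : FiveSpec e := five F
  have hP : Pent e := pent F
  have hH : Hex e := hex F
  have hA : AngleSpec e := angle F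
  have hP2 : P2Spec e := p2 F hE hA (P1M.p1_of_ptan ptan)
  have hR : RegSpec e := reg F hE h5 hP
  have hRing : RingSpec e := ring_exists F hE h5 hP hR
  have hRA : ∀ z c (R : RingD e z c), RingA e z c R := fun z c R => ringA F h5 hP hC2 R
  have hcount : CountSpec e := count F hE h5 hNF hNS hP hRA
    (fun z c R t w w' a1 a2 a3 a4 a5 a6 a7 a8 a9 a10 =>
      no_chord F R (hRA z c R) t w w' a1 a2 a3 a4 a5 a6 a7 a8 a9 a10)
  have hna : NASpec e := na F h5 hNF hNS hP hH hRA
  have hS : SingSpec e := sing F hE h5 hRA (fun z c R => singH1 F R (hRA z c R))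
    (fun z c R hz => singH0 F hE h5 hP hC R (hRA z c R) hz) hcount hna
  have hF18 : F18Spec e := f18 F hE h5 hRing hS
  obtain ⟨M⟩ := model_exists
  have hM : ManySpec e := many_of_model M F hR
  exact lower_bound e F h5 hE hP2 hRing hS hF18 hM

theorem result :
    ∀ B : (Fin 5 → ℝ) → (Fin 5 → ℝ) → ℝ,
      (∀ x y : Fin 5 → ℝ,
        B x y = -(x 0 * y 0) + x 1 * y 1 + x 2 * y 2 + x 3 * y 3 + x 4 * y 4) →
      IsLeast
        {n : ℕ | ∃ e : Fin n → (Fin 5 → ℝ),
          (∀ i, B (e i) (e i) = 1) ∧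
          IsCompact {x : Fin 5 → ℝ | B x x = -1 ∧ 0 < x 0 ∧ ∀ i, B x (e i) ≤ 0} ∧
          (∀ i, ∃ x : Fin 5 → ℝ, B x x = -1 ∧ 0 < x 0 ∧ B x (e i) = 0 ∧
              ∀ j, j ≠ i → B x (e j) < 0) ∧
          (∀ i j, i ≠ j →
              (∃ x : Fin 5 → ℝ, B x x = -1 ∧ 0 < x 0 ∧ (∀ k, B x (e k) ≤ 0) ∧
                  B x (e i) = 0 ∧ B x (e j) = 0) →
              B (e i) (e j) = 0)}
        120 := by
  intro B hB
  have hBB : B = Pool.Agent.H62.M4.B := by
    funext x y
    rw [hB x y]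
    rfl
  subst hBB
  constructor
  · obtain ⟨e, h⟩ := Pool.Agent.H62.M4.exists120
    exact ⟨e, h.norm, h.cpt, h.gen, h.right⟩
  · rintro n ⟨e, h1, h2, h3, h4⟩
    exact lower e ⟨h1, h2, h3, h4⟩

end Pool.Agent.S13329
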