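-- Proof of frozen statement S13493 (Cech-complete scattered Eberlein-Grothendieck spaces are
-- sigma-discrete).
import Pool.Statements.S13493
import Pool.Agent.H27.SigmaDisc
import Pool.Agent.H27.ScatteredCp

set_option autoImplicit false
open Topology
open Pool Pool.MP_874bf8_gt

namespace Pool.Agent.S13493

/-- Every space that embeds in C_p(K) for a compact K, is a G_δ subset of a compact Hausdorff space (Čech-complete), and is scattered, is a countable union of discrete subspaces. -/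
theorem result :
    ∀ (X : Type) [TopologicalSpace X],
      (∃ (K : Type) (_ : TopologicalSpace K), CompactSpace K ∧ T2Space K ∧
        ∃ f : X → (K → ℝ), IsEmbedding f ∧ ∀ x, Continuous (f x)) →
      (∃ (Y : Type) (_ : TopologicalSpace Y), CompactSpace Y ∧ T2Space Y ∧
        ∃ e : X → Y, IsEmbedding e ∧ IsGδ (Set.range e)) →
      (∀ S : Set X, S.Nonempty → ∃ x ∈ S, ∃ U : Set X, IsOpen U ∧ U ∩ S = {x}) →
      ∃ D : ℕ → Set X, (⋃ n, D n) = Set.univ ∧
        ∀ n, ∀ x ∈ D n, ∃ U : Set X, IsOpen U ∧ U ∩ D n = {x} := by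
  intro X _ hK hY hsc
  obtain ⟨K, _, _, _, f, hf, hfc⟩ := hK
  obtain ⟨Y, _, _, _, e, he, hGδ⟩ := hY
  obtain ⟨ε, hε0, hε⟩ := Pool.Agent.H27.ScatteredCp.exists_eps f hf hsc
  obtain ⟨G, hG, hGe⟩ := isGδ_iff_eq_iInter_nat.1 hGδ
  obtain ⟨D, hD1, hD2⟩ := Pool.Agent.H27.SigmaDisc.closed_sigmaDiscrete e he G hG hGe.symm
    (Pool.Agent.H27.ScatteredCp.H f ε)
    (Pool.Agent.H27.ScatteredCp.H_countable f hfc ε hε)
    (Pool.Agent.H27.ScatteredCp.H_closure f hf hfc ε hε0) Set.univ isClosed_univ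
  exact ⟨D, Set.eq_univ_of_univ_subset hD1, hD2⟩

end Pool.Agent.S13493
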