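import Pool.Statements.S13844
-- import your own Pool.Agent.* helpers here
import Pool.Agent.H13.CubeDim.Cube

set_option autoImplicit false
open Pool Pool.MP_be0572_gt

namespace Pool.Agent.S13844

/-- The negation of the preceding statement: If f is continuous from the unit cube into a metric space and every fibre with at least two points lies in a fixed countable union of planes, then the image cannot be covered by arbitrarily fine finite open covers of order at most 3, i.e. it has dimension at least 3. -/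
theorem result :
    ¬ (∀ (Y : Type) [MetricSpace Y] (f : (Fin 3 → ℝ) → Y)
      (P : ℕ → AffineSubspace ℝ (Fin 3 → ℝ)),
      ContinuousOn f {x : Fin 3 → ℝ | ∀ i, 0 ≤ x i ∧ x i ≤ 1} →
      (∀ i, Module.finrank ℝ (P i).direction = 2) →
      (∀ y : Y, (f ⁻¹' {y} ∩ {x : Fin 3 → ℝ | ∀ i, 0 ≤ x i ∧ x i ≤ 1}).Nontrivial →
        f ⁻¹' {y} ∩ {x : Fin 3 → ℝ | ∀ i, 0 ≤ x i ∧ x i ≤ 1} ⊆ ⋃ k, (P k : Set (Fin 3 → ℝ))) →
      ¬ (∀ ε : ℝ, ε > 0 → ∃ (n : ℕ) (U : Fin n → Set Y),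
          (∀ j, IsOpen (U j)) ∧
          (∀ j, ∀ a ∈ U j, ∀ b ∈ U j, dist a b < ε) ∧
          f '' {x : Fin 3 → ℝ | ∀ i, 0 ≤ x i ∧ x i ≤ 1} ⊆ ⋃ j, U j ∧
          ∀ y ∈ f '' {x : Fin 3 → ℝ | ∀ i, 0 ≤ x i ∧ x i ≤ 1},
            {j : Fin n | y ∈ U j}.ncard ≤ 3)) := by
  intro hmain
  obtain ⟨F, hFc, hFi, hFd⟩ := H13.CubeDim.general H13.CubeDim.rich_cube
  obtain ⟨g, hg⟩ := exists_surjective_nat (Fin 3 × ℚ)
  refine hmain (Set.range F) (fun x => ⟨F (H13.CubeDim.toCube x), Set.mem_range_self _⟩)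
    (fun k => H13.CubeDim.plane (g k)) ?_ ?_ ?_ ?_
  · exact ((hFc.comp H13.CubeDim.toCube_cont).subtype_mk _).continuousOn
  · exact fun i => H13.CubeDim.plane_dim _
  · rintro y hy x ⟨hx1, hx2⟩
    obtain ⟨x', ⟨hx1', hx2'⟩, hne⟩ := hy.exists_ne x
    have e1 : F (H13.CubeDim.toCube x) = y.1 := congrArg Subtype.val hx1
    have e2 : F (H13.CubeDim.toCube x') = y.1 := congrArg Subtype.val hx1'
    have h1 : H13.CubeDim.toCube x ≠ H13.CubeDim.toCube x' := by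
      intro h
      apply hne
      rw [← H13.CubeDim.toCube_val hx2, ← H13.CubeDim.toCube_val hx2', h]
    obtain ⟨i, q, hq⟩ := hFi _ _ (e1.trans e2.symm) h1
    rw [H13.CubeDim.toCube_val hx2] at hq
    obtain ⟨k, hk⟩ := hg (i, q)
    refine Set.mem_iUnion.2 ⟨k, ?_⟩
    rw [SetLike.mem_coe, hk, H13.CubeDim.mem_plane]
    exact hq
  · intro ε hε
    obtain ⟨n, U, h1, h2, h3, h4⟩ := hFd ε hε
    exact ⟨n, U, h1, h2, fun y _ => Set.mem_iUnion.2 (h3 y), fun y _ => h4 y⟩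

end Pool.Agent.S13844
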