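import Pool.Statements.S14233
import Pool.Agent.H21.CE.Fin

set_option autoImplicit false
open Pool Pool.MP_f5910f_gt

namespace Pool.Agent.S14233

/-- For every n and all origin-symmetric convex bodies K, T in ℝⁿ, vol(K∩T)·vol(K°∩T) ≤ vol(B∩T)², where K° is the polar of K and B is the Euclidean unit ball. -/
theorem result :
    ∀ (n : ℕ) (K T : Set (EuclideanSpace ℝ (Fin n))),
      Convex ℝ K → IsCompact K → (interior K).Nonempty → (∀ x ∈ K, -x ∈ K) →
      Convex ℝ T → IsCompact T → (interior T).Nonempty → (∀ x ∈ T, -x ∈ T) →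
      MeasureTheory.volume (K ∩ T) *
          MeasureTheory.volume
            ({y : EuclideanSpace ℝ (Fin n) | ∀ x ∈ K, inner ℝ x y ≤ (1 : ℝ)} ∩ T)
        ≤ MeasureTheory.volume
            (Metric.closedBall (0 : EuclideanSpace ℝ (Fin n)) 1 ∩ T) ^ 2 := by
  exact fun n K T => Pool.Agent.H21.CE.main n K T

end Pool.Agent.S14233
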