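import Pool.Statements.S14257
import Pool.Agent.H87.Star
import Pool.Agent.H87.Grp

set_option autoImplicit false
open Pool Pool.MP_f7c3cd_gt

namespace Pool.Agent.S14257

/-- Every proper system of at most continuum many congruences among at most continuum many (nonempty index set) sets has a solution: a partition of the hyperbolic plane where each congruence holds via some hyperbolic isometry. -/
theorem result :
    ∀ (I M : Type) (L R : M → Set I),
      Nonempty I →
      Cardinal.mk I ≤ Cardinal.continuum →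
      Cardinal.mk M ≤ Cardinal.continuum →
      (∀ i, (L i).Nonempty ∧ L i ≠ Set.univ ∧ (R i).Nonempty ∧ R i ≠ Set.univ) →
      ∃ A : I → Set UpperHalfPlane,
        Pairwise (fun j k => Disjoint (A j) (A k)) ∧
        (⋃ j, A j) = Set.univ ∧
        ∀ i, ∃ g : IsometryEquiv UpperHalfPlane UpperHalfPlane,
          g '' (⋃ j ∈ L i, A j) = ⋃ j ∈ R i, A j := by
  classical
  intro I M L R hI _ hM hLR
  obtain ⟨i₀⟩ := hI
  -- the normalised family of sets
  let nrm : Set I → Set I := fun S => if i₀ ∈ S then S else Sᶜ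
  let 𝒞 : Set (Set I) := Set.range (fun m : M ⊕ M => nrm (Sum.elim L R m))
  have hLR' : ∀ m : M ⊕ M, (Sum.elim L R m).Nonempty ∧ Sum.elim L R m ≠ Set.univ := by
    rintro (m | m)
    · exact ⟨(hLR m).1, (hLR m).2.1⟩
    · exact ⟨(hLR m).2.2.1, (hLR m).2.2.2⟩
  have h𝒞 : ∀ C ∈ 𝒞, i₀ ∈ C ∧ C ≠ Set.univ := by
    rintro C ⟨m, rfl⟩
    obtain ⟨h1, h2⟩ := hLR' m
    by_cases h : i₀ ∈ Sum.elim L R m
    · simp only [nrm, h, if_true]
      exact ⟨trivial, h2⟩
    · simp only [nrm, h, if_false]
      refine ⟨h, ?_⟩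
      intro e
      rw [Set.compl_univ_iff] at e
      exact h1.ne_empty e
  -- the group
  have hcard : Cardinal.mk (Option 𝒞) ≤ Cardinal.continuum := by
    rw [Cardinal.mk_option]
    refine Cardinal.add_le_of_le Cardinal.aleph0_le_continuum ?_
      (Cardinal.one_le_aleph0.trans Cardinal.aleph0_le_continuum)
    refine Cardinal.mk_range_le.trans ?_
    rw [Cardinal.mk_sum, Cardinal.lift_id]
    exact Cardinal.add_le_of_le Cardinal.aleph0_le_continuum hM hM
  obtain ⟨ξ, hξ⟩ := H87.Grp.exists_algInd (Option 𝒞) hcard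
  let f : FreeGroup (Option 𝒞) →* Matrix.SpecialLinearGroup (Fin 2) ℝ :=
    FreeGroup.lift fun x => H87.Grp.M (ξ x)
  have hf : Function.Injective f := H87.Grp.lift_M_injective hξ
  let _ : MulAction (FreeGroup (Option 𝒞)) UpperHalfPlane := MulAction.compHom UpperHalfPlane f
  have hsmul : ∀ (w : FreeGroup (Option 𝒞)) (z : UpperHalfPlane), w • z = f w • z := fun _ _ => rfl
  obtain ⟨c, hc1, hc2⟩ := H87.Star.star_colouring (Ω := UpperHalfPlane) h𝒞 (by
      intro z g h hg hh
      rw [hsmul] at hg hh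
      apply hf
      rw [map_mul, map_mul]
      exact H87.Grp.fix_comm _ _ z hg hh) (by
      intro n z hn e
      rw [hsmul, map_pow] at e
      have e' : f (FreeGroup.of none) = H87.Grp.M (ξ none) := FreeGroup.lift_apply_of
      rw [e'] at e
      exact H87.Grp.M_pow_no_fix _ n hn z e)
  let P : Set UpperHalfPlane := {z | (c z).1 = true}
  let AS : Set I → Set UpperHalfPlane := fun S => {z | (c z).2 ∈ S}
  have hAS : ∀ S : Set I, (⋃ j ∈ S, {z | (c z).2 = j}) = AS S := by
    intro S
    ext z
    simp [AS]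
  let iso : FreeGroup (Option 𝒞) → IsometryEquiv UpperHalfPlane UpperHalfPlane :=
    fun w => IsometryEquiv.constSMul (f w)
  have hiso : ∀ w z, iso w z = w • z := fun _ _ => rfl
  have himg : ∀ (w : FreeGroup (Option 𝒞)) (S : Set UpperHalfPlane) (z : UpperHalfPlane),
      z ∈ iso w '' S ↔ w⁻¹ • z ∈ S := by
    intro w S z
    constructor
    · rintro ⟨y, hy, rfl⟩
      rw [hiso, inv_smul_smul]; exact hy
    · intro h
      exact ⟨_, h, by rw [hiso, smul_inv_smul]⟩
  have htrans : ∀ (a b : IsometryEquiv UpperHalfPlane UpperHalfPlane) (S : Set UpperHalfPlane),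
      (a.trans b) '' S = b '' (a '' S) := by
    intro a b S
    rw [← Set.image_comp]
    rfl
  have hsymm : ∀ (a : IsometryEquiv UpperHalfPlane UpperHalfPlane) (S : Set UpperHalfPlane),
      a.symm '' (a '' S) = S := by
    intro a S
    rw [← Set.image_comp]
    simp
  have htP : iso (FreeGroup.of none) '' P = Pᶜ := by
    ext z
    rw [himg]
    have := hc1 ((FreeGroup.of (none : Option 𝒞))⁻¹ • z)
    rw [smul_inv_smul] at this
    simp only [P, Set.mem_ofPred_eq, Set.mem_compl_iff]
    rw [this]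
    simp
  have hgC : ∀ C : 𝒞, iso (FreeGroup.of (some C)) '' P = AS C := by
    intro C
    ext z
    rw [himg]
    have := hc2 ((FreeGroup.of (some C))⁻¹ • z) C
    rw [smul_inv_smul] at this
    exact this
  have key : ∀ m : M ⊕ M, ∃ h : IsometryEquiv UpperHalfPlane UpperHalfPlane,
      h '' P = AS (Sum.elim L R m) := by
    intro m
    let C : 𝒞 := ⟨nrm (Sum.elim L R m), m, rfl⟩
    by_cases h : i₀ ∈ Sum.elim L R m
    · refine ⟨iso (FreeGroup.of (some C)), ?_⟩
      rw [hgC]
      simp only [C, nrm, h, if_true]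
    · refine ⟨(iso (FreeGroup.of none)).trans (iso (FreeGroup.of (some C))), ?_⟩
      rw [htrans, htP, Set.image_compl_eq
        (iso (FreeGroup.of (some C))).bijective, hgC]
      simp only [C, nrm, h, if_false, AS]
      ext z
      simp
  refine ⟨fun j => {z | (c z).2 = j}, ?_, ?_, ?_⟩
  · intro j k hjk
    rw [Set.disjoint_left]
    intro z hz hz'
    exact hjk (hz.symm.trans hz')
  · ext z
    simp
  · intro i
    obtain ⟨h1, hh1⟩ := key (Sum.inl i)
    obtain ⟨h2, hh2⟩ := key (Sum.inr i)
    simp only [Sum.elim_inl] at hh1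
    simp only [Sum.elim_inr] at hh2
    refine ⟨h1.symm.trans h2, ?_⟩
    rw [hAS, hAS, ← hh1, ← hh2, htrans, hsymm]

end Pool.Agent.S14257
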