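import Pool.Statements.S14529
import Pool.Agent.H49.Tsp.Final

set_option autoImplicit false
open Pool Pool.MP_2b2c79_lc

namespace Pool.Agent.S14529

/-- Some c<2 and polylog space bound admit, for every Δ, a randomized one-pass streaming automaton with at most 2^polylog(Δ) states that, on any stream of distinct points of [Δ]², outputs E with OPT≤E≤c·OPT w.p. at least 2/3. -/
theorem result :
    ∃ c : ℝ, c < 2 ∧ ∃ C k : ℕ, ∀ Δ : ℕ, 1 ≤ Δ →
      ∃ (N : ℕ) (μ0 : PMF (Fin N)) (δ : Fin N → ℕ × ℕ → PMF (Fin N)) (out : Fin N → ℝ),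
        N ≤ 2 ^ (C * (Nat.log 2 Δ + 1) ^ k) ∧
        ∀ l : List (ℕ × ℕ), l.Nodup →
          (∀ p ∈ l, 1 ≤ p.1 ∧ p.1 ≤ Δ ∧ 1 ≤ p.2 ∧ p.2 ≤ Δ) →
          ∀ T : ℝ,
            T = sInf {x : ℝ | ∃ l' : List (ℕ × ℕ), l'.Perm l ∧
                  x = ∑ i : Fin l'.length,
                    Real.sqrt ((((l'.get i).1 : ℝ) - ((l'.getD ((i.val + 1) % l'.length) (0, 0)).1 : ℝ)) ^ 2
                      + (((l'.get i).2 : ℝ) - ((l'.getD ((i.val + 1) % l'.length) (0, 0)).2 : ℝ)) ^ 2)} →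
            (2 / 3 : ENNReal) ≤
              (l.foldl (fun μ p => μ.bind (fun q => δ q p)) μ0).toOuterMeasure
                {q | T ≤ out q ∧ out q ≤ c * T} := by
  obtain ⟨c, hc, h⟩ := Pool.Agent.H49.Tsp.seedStr_tsp
  exact Pool.Agent.H29.Stream.frozen_of_seedStr c hc h

end Pool.Agent.S14529
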