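import Pool.Statements.S14886
import Pool.Agent.H36.MinNum.Main

set_option autoImplicit false
open Pool Pool.MP_711492_lc

namespace Pool.Agent.S14886

/-- The negation of the preceding statement: For n≥1 and Σ⁰ₙ or n-c.e. sets: if a family has two 0'-equivalent but not computably equivalent minimal computable numberings, it has arbitrarily many pairwise computably inequivalent minimal computable numberings. -/
theorem result :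
    ¬ (∀ (n : ℕ), 1 ≤ n →
  ∀ (C : Set (Set ℕ)),
    (C = Nat.rec (motive := fun _ => Set (Set ℕ))
          {A : Set ℕ | ComputablePred (fun x => x ∈ A)}
          (fun _ S => {A : Set ℕ | ∃ B ∈ S, ∀ x, x ∈ A ↔ ∃ y, Nat.pair x y ∉ B}) n
     ∨ C = {A : Set ℕ | ∃ g : ℕ → ℕ → Bool, Computable₂ g ∧ (∀ x, g x 0 = false) ∧
            (∀ x, ∃ s₀, ∀ s, s₀ ≤ s → (g x s = true ↔ x ∈ A)) ∧
            ∀ (x : ℕ) (t : Fin (n + 1) → ℕ), StrictMono t → ∃ j, g x (t j + 1) = g x (t j)}) →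
  ∀ (Red Red0 : (ℕ → Set ℕ) → (ℕ → Set ℕ) → Prop),
    (∀ a b, Red a b ↔ ∃ f : ℕ → ℕ, Computable f ∧ a = b ∘ f) →
    (∀ a b, Red0 a b ↔ ∃ f : ℕ → ℕ,
        (∃ g : ℕ → ℕ → ℕ, Computable₂ g ∧ ∀ x, ∃ s₀, ∀ s, s₀ ≤ s → g x s = f x) ∧ a = b ∘ f) →
  ∀ (𝒜 : Set (Set ℕ)), 𝒜 ⊆ C →
  ∀ (Good : (ℕ → Set ℕ) → Prop),
    (∀ a, Good a ↔ (Set.range a = 𝒜 ∧
        {k : ℕ | (Nat.unpair k).2 ∈ a (Nat.unpair k).1} ∈ C ∧
        ∀ b : ℕ → Set ℕ, Set.range b = 𝒜 → Red b a → Red a b)) →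
    (∃ α β : ℕ → Set ℕ, Good α ∧ Good β ∧ Red0 α β ∧ Red0 β α ∧ ¬ (Red α β ∧ Red β α)) →
    ∀ k : ℕ, ∃ γ : Fin k → ℕ → Set ℕ, (∀ j, Good (γ j)) ∧
      ∀ j j', j ≠ j' → ¬ (Red (γ j) (γ j') ∧ Red (γ j') (γ j))) := by
  intro H
  obtain ⟨μ, hrange, hsub, hC2, hmin, hlim, hnr, hopp⟩ := Pool.Agent.H36.MinNum.main
  obtain ⟨γ, hγ, hne⟩ := H 2 (by norm_num) Pool.Agent.H36.MinNum.C2 (Or.inr rfl)
    Pool.Agent.H36.MinNum.Rd
    (fun a b => ∃ f : ℕ → ℕ,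
      (∃ g : ℕ → ℕ → ℕ, Computable₂ g ∧ ∀ x, ∃ s₀, ∀ s, s₀ ≤ s → g x s = f x) ∧ a = b ∘ f)
    (fun _ _ => Iff.rfl) (fun _ _ => Iff.rfl) (Set.range (μ false)) hsub
    (fun a => Set.range a = Set.range (μ false) ∧
      {k : ℕ | (Nat.unpair k).2 ∈ a (Nat.unpair k).1} ∈ Pool.Agent.H36.MinNum.C2 ∧
        ∀ b : ℕ → Set ℕ, Set.range b = Set.range (μ false) →
          Pool.Agent.H36.MinNum.Rd b a → Pool.Agent.H36.MinNum.Rd a b)
    (fun _ => Iff.rfl)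
    ⟨μ true, μ false,
      ⟨hrange true, hC2 true, fun b hb => hmin true b (by rw [hrange true]; exact hb)⟩,
      ⟨rfl, hC2 false, fun b hb => hmin false b hb⟩,
      hlim false, hlim true, fun h => hnr h.1⟩ 3
  have key : ∀ j, ∃ d, Pool.Agent.H36.MinNum.Rd (γ j) (μ d) ∧
      Pool.Agent.H36.MinNum.Rd (μ d) (γ j) := by
    intro j
    obtain ⟨h1, h2, h3⟩ := hγ j
    obtain ⟨d, hd⟩ := hopp (γ j) h1 h2
    exact ⟨d, h3 (μ d) (hrange d) hd, hd⟩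
  choose d hd using key
  obtain ⟨j, j', hjj, he⟩ := Fintype.exists_ne_map_eq_of_card_lt d (by simp)
  refine hne j j' hjj ⟨?_, ?_⟩
  · exact (hd j).1.trans (he ▸ (hd j').2)
  · exact (hd j').1.trans (he ▸ (hd j).2)

end Pool.Agent.S14886
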