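import Pool.Statements.S19231
import Pool.Agent.H80.T3.Fin

set_option autoImplicit false
open MeasureTheory ProbabilityTheory
open Pool Pool.MP_2b43a6_pr

namespace Pool.Agent.S19231

/-- In the frog model on the rooted ternary tree (one frog per vertex, root frog awake, simple random walks, woken on first visit), almost surely the root is visited infinitely often by woken frogs. -/
theorem result :
    ∀ (Ω : Type) [MeasurableSpace Ω] (P : Measure Ω) [IsProbabilityMeasure P]
      (ξ : List (Fin 3) → ℕ → Ω → Fin 3 × Fin 4),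
      (∀ v k, Measurable (ξ v k)) →
      iIndepFun (fun p : List (Fin 3) × ℕ => ξ p.1 p.2) P →
      (∀ v k (c : Fin 3 × Fin 4), P (ξ v k ⁻¹' {c}) = 1 / 12) →
      ∀ (S : List (Fin 3) → ℕ → Ω → List (Fin 3)),
      (∀ v ω, S v 0 ω = v) →
      (∀ v k ω, S v (k + 1) ω =
        if S v k ω = [] then [(ξ v k ω).1]
        else if (ξ v k ω).2 = 0 then (S v k ω).tail
        else (ξ v k ω).1 :: S v k ω) →
      ∀ᵐ ω ∂P, Set.Infinite
        {p : List (Fin 3) × ℕ |
          (∀ A : Set (List (Fin 3)), [] ∈ A →
              (∀ v ∈ A, ∀ k, S v k ω ∈ A) → p.1 ∈ A) ∧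
          S p.1 p.2 ω = []} := by
  exact Pool.Agent.H80.T3.frozen

end Pool.Agent.S19231
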