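import Pool.Statements.S19243
import Pool.Agent.H89.Per.Close

set_option autoImplicit false
open Classical
open Pool Pool.MP_2e6055_pr

namespace Pool.Agent.S19243

/-- There are ε>0 and C such that for every n, some adaptive site-querying rule always decides the left-right open crossing of the n×n triangular-lattice rhombus at p=1/2, with average number of queries at most C·n^(7/4−ε). -/
theorem result :
    ∃ ε : ℝ, 0 < ε ∧ ∃ C : ℝ, ∀ n : ℕ, 1 ≤ n →
      ∀ f : (Fin n × Fin n → Bool) → Prop,
        (∀ ω : Fin n × Fin n → Bool, f ω ↔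
          (∃ u v : Fin n × Fin n, u.1.val = 0 ∧ v.1.val = n - 1 ∧ ω u = true ∧
            (SimpleGraph.fromRel (fun x y : Fin n × Fin n =>
              ω x = true ∧ ω y = true ∧
              ((x.1.val = y.1.val ∧ (x.2.val + 1 = y.2.val ∨ y.2.val + 1 = x.2.val)) ∨
               (x.2.val = y.2.val ∧ (x.1.val + 1 = y.1.val ∨ y.1.val + 1 = x.1.val)) ∨
               (x.1.val + 1 = y.1.val ∧ y.2.val + 1 = x.2.val) ∨
               (y.1.val + 1 = x.1.val ∧ x.2.val + 1 = y.2.val)))).Reachable u v)) →
        ∃ next : (Fin n × Fin n → Option Bool) → Fin n × Fin n,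
          (∀ ω : Fin n × Fin n → Bool, ∀ ω' : Fin n × Fin n → Bool,
            (∀ s : Fin n × Fin n, ∀ b : Bool,
              ((fun ρ : Fin n × Fin n → Option Bool =>
                  Function.update ρ (next ρ) (some (ω (next ρ))))^[n * n]
                  (fun _ => none)) s = some b → ω' s = b) →
            (f ω' ↔ f ω)) ∧
          (∑ ω : Fin n × Fin n → Bool,
              (((Finset.range (n * n)).filter (fun k =>
                ¬ ∀ ω' : Fin n × Fin n → Bool,
                  (∀ s : Fin n × Fin n, ∀ b : Bool,
                    ((fun ρ : Fin n × Fin n → Option Bool =>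
                        Function.update ρ (next ρ) (some (ω (next ρ))))^[k]
                        (fun _ => none)) s = some b → ω' s = b) →
                  (f ω' ↔ f ω))).card : ℝ)) / (2 : ℝ) ^ (n * n)
            ≤ C * (n : ℝ) ^ ((7 : ℝ) / 4 - ε) :=
  Pool.Agent.H89.Per.frozen_of_JB Pool.Agent.H89.Per.jb_final

end Pool.Agent.S19243
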