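import Pool.Statements.S19263
import Pool.Agent.H88.PM.Final

set_option autoImplicit false
open Classical
open Pool Pool.MP_36796c_pr

namespace Pool.Agent.S19263

/-- For α in (0,1/2) there is C>0 solving the stated root equation such that, for large even n, every n-vertex graph of min degree ≥ αn plus G(n,(1+ε)C/n) has a perfect matching whp, while some such graph plus G(n,(1−ε)C/n) whp has none. -/
theorem result :
    ∀ α : ℝ, 0 < α → α < 1 / 2 →
    ∃ C : ℝ, 0 < C ∧ ∃ γ : ℝ,
      γ = (1 - α) * C * Real.exp (-((1 - α) * C * Real.exp (-γ))) ∧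
      (∀ x : ℝ, x = (1 - α) * C * Real.exp (-((1 - α) * C * Real.exp (-x))) → γ ≤ x) ∧
      1 - (γ + (1 - α) * C * Real.exp (-γ) + γ * ((1 - α) * C * Real.exp (-γ)))
          / ((2 - 2 * α) * C) = (1 - 2 * α) / (2 - 2 * α) ∧
      ∀ ε : ℝ, 0 < ε → ε < 1 → ∀ δ : ℝ, 0 < δ →
        ∃ N : ℕ, ∀ n : ℕ, N ≤ n → Even n →
          (∀ H : SimpleGraph (Fin n), α * (n : ℝ) ≤ (H.minDegree : ℝ) →
            1 - δ ≤ ∑ G : SimpleGraph (Fin n),
              (if (∃ M : (H ⊔ G).Subgraph, M.IsPerfectMatching) then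
                ((1 + ε) * C / n) ^ G.edgeSet.ncard *
                  (1 - (1 + ε) * C / n) ^ (n.choose 2 - G.edgeSet.ncard)
              else 0)) ∧
          (∃ H : SimpleGraph (Fin n), α * (n : ℝ) ≤ (H.minDegree : ℝ) ∧
            ∑ G : SimpleGraph (Fin n),
              (if (∃ M : (H ⊔ G).Subgraph, M.IsPerfectMatching) then
                ((1 - ε) * C / n) ^ G.edgeSet.ncard *
                  (1 - (1 - ε) * C / n) ^ (n.choose 2 - G.edgeSet.ncard)
              else 0) ≤ δ) := by
  intro α hα hα1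
  have hα2 : 0 < 1 - α := by linarith
  have hy0 : 0 < α / (1 - α) := by positivity
  have hy1 : α / (1 - α) < 1 := by rw [div_lt_one hα2]; linarith
  obtain ⟨c, hc, hFF⟩ := Pool.Agent.H88.PM.FF_surj hy0 hy1
  have hCc : (1 - α) * (c / (1 - α)) = c := by field_simp
  refine ⟨c / (1 - α), by positivity, c * Pool.Agent.H88.PM.ql c, ?_, ?_, ?_, ?_⟩
  · rw [hCc, ← Pool.Agent.H88.PM.Pl_eq hc.le, ← Pool.Agent.H88.PM.ql_eq hc.le]
  · intro x hx
    rw [hCc] at hx
    have hx0 : 0 ≤ x := by rw [hx]; positivity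
    have h1 : Pool.Agent.H88.PM.gg c (x / c) ≤ x / c := by
      unfold Pool.Agent.H88.PM.gg
      have h2 : c * (x / c) = x := by field_simp
      rw [h2, le_div_iff₀ hc]
      have h3 : Real.exp (-(c * Real.exp (-x))) * c = x := by
        rw [mul_comm]
        exact hx.symm
      exact h3.le
    have h2 := Pool.Agent.H88.PM.ql_le_of_gg hc.le (by positivity : 0 ≤ x / c) h1
    rw [le_div_iff₀ hc] at h2
    linarith
  · rw [hCc, ← Pool.Agent.H88.PM.Pl_eq hc.le]
    have h1 : (2 - 2 * α) * (c / (1 - α)) = 2 * c := by field_simp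
    rw [h1]
    have h2 : c * Pool.Agent.H88.PM.ql c + c * Pool.Agent.H88.PM.Pl c +
        c * Pool.Agent.H88.PM.ql c * (c * Pool.Agent.H88.PM.Pl c) =
        c * (Pool.Agent.H88.PM.FF c + 1) := by
      unfold Pool.Agent.H88.PM.FF
      ring
    rw [h2, hFF]
    have h3 : (2 - 2 * α) ≠ 0 := by
      intro h
      linarith
    have h4 : (1 - α) ≠ 0 := hα2.ne'
    field_simp
    ring
  · intro ε hε hε1 δ hδ
    obtain ⟨N1, hN1⟩ := Pool.Agent.H88.PM.part1 hα hα1 hc hFF hε hδ
    obtain ⟨N0, hN0⟩ := Pool.Agent.H88.PM.part0 hα hα1 hc hFF hε hε1 hδ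
    refine ⟨max (max N0 N1) 1, ?_⟩
    intro n hn heven
    have hn0 : N0 ≤ n := (le_max_left _ _).trans ((le_max_left _ _).trans hn)
    have hn1 : N1 ≤ n := (le_max_right _ _).trans ((le_max_left _ _).trans hn)
    have hnpos : 0 < n := lt_of_lt_of_le one_pos ((le_max_right _ _).trans hn)
    constructor
    · intro H hH
      rw [Pool.Agent.H88.PM.sum_eq_cP]
      apply hN1 n hn1 heven H
      intro v
      refine ⟨H.neighborFinset v, ?_, ?_⟩
      · intro y hy
        rwa [SimpleGraph.mem_neighborFinset] at hy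
      · refine hH.trans ?_
        rw [SimpleGraph.card_neighborFinset_eq_degree]
        exact_mod_cast H.minDegree_le_degree v
    · obtain ⟨H, hH1, hH2⟩ := hN0 n hn0
      refine ⟨H, ?_, ?_⟩
      · haveI : Nonempty (Fin n) := ⟨⟨0, hnpos⟩⟩
        have h1 : ⌈α * n⌉₊ ≤ H.minDegree := by
          apply SimpleGraph.le_minDegree_of_forall_le_degree
          intro v
          obtain ⟨T, hT1, hT2⟩ := hH1 v
          refine hT2.trans ?_
          rw [← SimpleGraph.card_neighborFinset_eq_degree]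
          apply Finset.card_le_card
          intro y hy
          rw [SimpleGraph.mem_neighborFinset]
          exact hT1 y hy
        exact (Nat.le_ceil _).trans (by exact_mod_cast h1)
      · rw [Pool.Agent.H88.PM.sum_eq_cP]
        exact hH2

end Pool.Agent.S19263
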