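import Pool.Statements.S19386

set_option autoImplicit false
open Pool Pool.MP_68c8f2_pr

namespace Pool.Agent.S19386

open MeasureTheory ProbabilityTheory

/-- The law of one coin: `true` with probability `1/100`. -/
noncomputable def coin : Measure Bool :=
  ENNReal.ofReal (1/100) • Measure.dirac true + ENNReal.ofReal (99/100) • Measure.dirac false

instance : IsProbabilityMeasure coin := by
  constructor
  simp only [coin, Measure.coe_add, Measure.coe_smul, Pi.add_apply, Pi.smul_apply,
    measure_univ, smul_eq_mul, mul_one]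
  rw [← ENNReal.ofReal_add (by norm_num) (by norm_num)]
  norm_num

/-- The sample space: one coin for each index. -/
abbrev Om : Type := ℕ ⊕ ℕ → Bool

/-- The i.i.d. coin measure. -/
noncomputable def P : Measure Om := Measure.infinitePi (fun _ => coin)

instance : IsProbabilityMeasure P := by unfold P; infer_instance

lemma indep : iIndepFun (fun (i : ℕ ⊕ ℕ) (ω : Om) => ω i) P :=
  iIndepFun_infinitePi (X := fun _ x => x) (fun _ => measurable_id)

/-- Interarrival times: constantly `2`. -/
def T (_ : ℕ) (_ : Om) : ℝ := 2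

/-- Service times: `5` with probability `1/100` and `3` otherwise. -/
def S (n : ℕ) (ω : Om) : ℝ := if ω (Sum.inr n) then 5 else 3

/-- Twice the workload of the fast single server. -/
def N : ℕ → Om → ℕ
  | 0, _ => 0
  | n+1, ω => if ω (Sum.inr n) then N n ω + 1 else N n ω - 1

/-- The workload vector of the two-server queue. -/
noncomputable def V : ℕ → Om → Fin 2 → ℝ
  | 0, _, _ => 0
  | n+1, ω, j => max 0 (V n ω j +
      (if j = (if V n ω 0 ≤ V n ω 1 then (0 : Fin 2) else 1) then S n ω else 0) - T n ω)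

/-- The workload of the fast single server. -/
noncomputable def U (n : ℕ) (ω : Om) : ℝ := (N n ω : ℝ) / 2

lemma U_succ (n : ℕ) (ω : Om) : U (n+1) ω = max 0 (U n ω + S n ω / ((2 : ℕ) : ℝ) - T n ω) := by
  unfold U S T
  by_cases h : ω (Sum.inr n) = true
  · simp only [N, h, if_true]
    push_cast
    have h0 : (0:ℝ) ≤ (N n ω : ℝ) := Nat.cast_nonneg _
    rw [max_eq_right (by linarith)]
    ring
  · simp only [N, h]
    rcases Nat.eq_zero_or_pos (N n ω) with h0 | h0
    · rw [h0]; norm_num
    · have h1 : (1:ℝ) ≤ (N n ω : ℝ) := by exact_mod_cast h0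
      simp only [Bool.false_eq_true, if_false]
      rw [Nat.cast_sub h0]
      push_cast
      rw [max_eq_right (by linarith)]
      ring

lemma V_succ (n : ℕ) (ω : Om) : ∃ i : Fin 2, (∀ j, V n ω i ≤ V n ω j) ∧
    ∀ j, V (n + 1) ω j = max 0 (V n ω j + (if j = i then S n ω else 0) - T n ω) := by
  by_cases h : V n ω 0 ≤ V n ω 1
  · refine ⟨0, ?_, ?_⟩
    · intro j
      fin_cases j
      · exact le_rfl
      · exact h
    · intro j
      simp only [V, h, if_true]
  · refine ⟨1, ?_, ?_⟩
    · intro j
      fin_cases j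
      · exact (not_le.mp h).le
      · exact le_rfl
    · intro j
      simp only [V, h, if_false]

lemma measurable_coord (i : ℕ ⊕ ℕ) : Measurable (fun ω : Om => ω i) := measurable_pi_apply i

lemma measurable_S (n : ℕ) : Measurable (S n) := by
  have : Measurable (fun b : Bool => if b then (5:ℝ) else 3) := measurable_from_top
  exact this.comp (measurable_coord (Sum.inr n))

lemma measurable_N (n : ℕ) : Measurable (N n) := by
  induction n with
  | zero => exact measurable_const
  | succ n ih =>
    have h1 : Measurable (fun ω : Om => (ω (Sum.inr n), N n ω)) :=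
      (measurable_coord _).prodMk ih
    have h2 : Measurable (fun q : Bool × ℕ => if q.1 then q.2 + 1 else q.2 - 1) :=
      measurable_of_countable _
    exact h2.comp h1

lemma N_congr (n : ℕ) (ω ω' : Om) (h : ∀ i < n, ω (Sum.inr i) = ω' (Sum.inr i)) :
    N n ω = N n ω' := by
  induction n with
  | zero => rfl
  | succ n ih =>
    simp only [N]
    rw [h n (Nat.lt_succ_self n), ih (fun i hi => h i (Nat.lt_succ_of_lt hi))]

lemma indep_N (n : ℕ) : IndepFun (fun ω : Om => ω (Sum.inr n)) (N n) P := by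
  classical
  set A : Finset (ℕ ⊕ ℕ) := (Finset.range n).map ⟨Sum.inr, Sum.inr_injective⟩ with hA
  set B : Finset (ℕ ⊕ ℕ) := {Sum.inr n} with hB
  have hdisj : Disjoint B A := by
    rw [Finset.disjoint_left]
    intro x hx hx'
    simp only [hB, Finset.mem_singleton] at hx
    subst hx
    simp [hA] at hx'
  have key := indep.indepFun_finset B A hdisj (fun i => measurable_coord i)
  let ext : ((i : A) → Bool) → Om := fun f i => if h : i ∈ A then f ⟨i, h⟩ else false
  have hext : Measurable ext := by
    rw [measurable_pi_iff]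
    intro i
    by_cases h : i ∈ A
    · simp only [ext, h, dif_pos]
      exact measurable_pi_apply _
    · simp only [ext, h]
      exact measurable_const
  have h1 : Measurable (fun f : ((i : B) → Bool) => f ⟨Sum.inr n, by simp [hB]⟩) :=
    measurable_pi_apply _
  have h2 : Measurable (fun f : ((i : A) → Bool) => N n (ext f)) :=
    (measurable_N n).comp hext
  have := key.comp h1 h2
  refine this.congr ?_ ?_
  · exact Filter.EventuallyEq.rfl
  · refine Filter.Eventually.of_forall (fun ω => ?_)
    simp only [Function.comp]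
    apply N_congr
    intro i hi
    have hmem : (Sum.inr i : ℕ ⊕ ℕ) ∈ A := by simp [hA, hi]
    simp [ext, hmem]

lemma map_coord (i : ℕ ⊕ ℕ) : P.map (fun ω => ω i) = coin :=
  Measure.infinitePi_map_eval (fun _ => coin) i

/-- The indicator of the coin of customer `n`. -/
def X (n : ℕ) (ω : Om) : ℝ := if ω (Sum.inr n) then 1 else 0

/-- The exponential functional. -/
def Y (n : ℕ) (ω : Om) : ℝ := 3 ^ (N n ω)

lemma N_le (n : ℕ) (ω : Om) : N n ω ≤ n := by
  induction n with
  | zero => simp [N]
  | succ n ih =>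
    simp only [N]
    split_ifs <;> omega

lemma measurable_X (n : ℕ) : Measurable (X n) := by
  have : Measurable (fun b : Bool => if b then (1:ℝ) else 0) := measurable_from_top
  exact this.comp (measurable_coord (Sum.inr n))

lemma measurable_Y (n : ℕ) : Measurable (Y n) := by
  have : Measurable (fun m : ℕ => (3:ℝ) ^ m) := measurable_from_top
  exact this.comp (measurable_N n)

lemma Y_le (n : ℕ) (ω : Om) : Y n ω ≤ 3 ^ n :=
  pow_le_pow_right₀ (by norm_num) (N_le n ω)

lemma one_le_Y (n : ℕ) (ω : Om) : 1 ≤ Y n ω := one_le_pow₀ (by norm_num)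

lemma integrable_Y (n : ℕ) : Integrable (Y n) P := by
  refine Integrable.of_bound (C := 3 ^ n) (measurable_Y n).aestronglyMeasurable ?_
  refine Filter.Eventually.of_forall (fun ω => ?_)
  rw [Real.norm_eq_abs, abs_of_nonneg (le_trans zero_le_one (one_le_Y n ω))]
  exact Y_le n ω

lemma X_nonneg (n : ℕ) (ω : Om) : 0 ≤ X n ω := by unfold X; split_ifs <;> norm_num
lemma X_le (n : ℕ) (ω : Om) : X n ω ≤ 1 := by unfold X; split_ifs <;> norm_num

lemma integrable_X (n : ℕ) : Integrable (X n) P := by
  refine Integrable.of_bound (C := 1) (measurable_X n).aestronglyMeasurable ?_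
  refine Filter.Eventually.of_forall (fun ω => ?_)
  rw [Real.norm_eq_abs, abs_of_nonneg (X_nonneg n ω)]
  exact X_le n ω

lemma integrable_XY (n : ℕ) : Integrable (X n * Y n) P := by
  refine Integrable.of_bound (C := 3 ^ n)
    ((measurable_X n).mul (measurable_Y n)).aestronglyMeasurable ?_
  refine Filter.Eventually.of_forall (fun ω => ?_)
  have h0 : 0 ≤ Y n ω := le_trans zero_le_one (one_le_Y n ω)
  rw [Real.norm_eq_abs, Pi.mul_apply, abs_of_nonneg (mul_nonneg (X_nonneg n ω) h0)]
  calc X n ω * Y n ω ≤ 1 * Y n ω := mul_le_mul_of_nonneg_right (X_le n ω) h0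
    _ ≤ 3 ^ n := by rw [one_mul]; exact Y_le n ω

lemma coin_integral (f : Bool → ℝ) : ∫ b, f b ∂coin = (1/100) * f true + (99/100) * f false := by
  unfold coin
  rw [integral_add_measure, integral_smul_measure, integral_smul_measure, integral_dirac,
    integral_dirac]
  · simp only [smul_eq_mul]
    rw [ENNReal.toReal_ofReal (by norm_num), ENNReal.toReal_ofReal (by norm_num)]
  · exact (integrable_dirac (by simp)).smul_measure (by simp)
  · exact (integrable_dirac (by simp)).smul_measure (by simp)

lemma integral_X (n : ℕ) : ∫ ω, X n ω ∂P = 1/100 := by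
  have h : ∫ ω, X n ω ∂P = ∫ b, (if b then (1:ℝ) else 0) ∂(P.map (fun ω => ω (Sum.inr n))) := by
    rw [integral_map (measurable_coord _).aemeasurable]
    · rfl
    · exact (measurable_from_top : Measurable (fun b : Bool => if b then (1:ℝ) else 0)).aestronglyMeasurable
  rw [h, map_coord, coin_integral]
  norm_num

lemma integral_XY (n : ℕ) : ∫ ω, (X n * Y n) ω ∂P = (1/100) * ∫ ω, Y n ω ∂P := by
  have hind : IndepFun (X n) (Y n) P := by
    have h1 : Measurable (fun b : Bool => if b then (1:ℝ) else 0) := measurable_from_top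
    have h2 : Measurable (fun m : ℕ => (3:ℝ) ^ m) := measurable_from_top
    exact (indep_N n).comp h1 h2
  rw [hind.integral_mul_eq_mul_integral (measurable_X n).aestronglyMeasurable
    (measurable_Y n).aestronglyMeasurable, integral_X]

lemma Y_succ_le (n : ℕ) (ω : Om) :
    Y (n+1) ω ≤ (8/3) * (X n * Y n) ω - (2/3) * X n ω + (1/3) * Y n ω + 2/3 := by
  simp only [Pi.mul_apply]
  unfold Y X
  by_cases h : ω (Sum.inr n) = true
  · simp only [N, h, if_true]
    rw [pow_succ]
    linarith
  · simp only [N, h]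
    rcases Nat.eq_zero_or_pos (N n ω) with h0 | h0
    · rw [h0]; norm_num
    · obtain ⟨m, hm⟩ : ∃ m, N n ω = m + 1 := ⟨N n ω - 1, by omega⟩
      rw [hm]
      simp only [Bool.false_eq_true, if_false, Nat.add_sub_cancel]
      rw [pow_succ]
      have : (1:ℝ) ≤ 3 ^ m := one_le_pow₀ (by norm_num)
      linarith

lemma integral_Y_le (n : ℕ) : ∫ ω, Y n ω ∂P ≤ 33/32 := by
  induction n with
  | zero =>
    have : ∀ ω, Y 0 ω = 1 := fun ω => by simp [Y, N]
    simp only [this, integral_const, smul_eq_mul, mul_one]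
    simp
    norm_num
  | succ n ih =>
    have h1 : ∫ ω, Y (n+1) ω ∂P ≤
        ∫ ω, ((8/3) * (X n * Y n) ω - (2/3) * X n ω + (1/3) * Y n ω + 2/3) ∂P := by
      refine integral_mono (integrable_Y (n+1)) ?_ (Y_succ_le n)
      exact ((((integrable_XY n).const_mul _).sub ((integrable_X n).const_mul _)).add
        ((integrable_Y n).const_mul _)).add (integrable_const _)
    have h2 : ∫ ω, ((8/3) * (X n * Y n) ω - (2/3) * X n ω + (1/3) * Y n ω + 2/3) ∂P
        = (8/3) * ((1/100) * ∫ ω, Y n ω ∂P) - (2/3) * (1/100) + (1/3) * ∫ ω, Y n ω ∂P + 2/3 := by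
      have i1 : Integrable (fun ω => (8/3) * (X n * Y n) ω) P := (integrable_XY n).const_mul _
      have i2 : Integrable (fun ω => (2/3) * X n ω) P := (integrable_X n).const_mul _
      have i3 : Integrable (fun ω => (1/3) * Y n ω) P := (integrable_Y n).const_mul _
      have i4 : Integrable (fun ω => (8/3) * (X n * Y n) ω - (2/3) * X n ω) P := i1.sub i2
      have i5 : Integrable (fun ω => (8/3) * (X n * Y n) ω - (2/3) * X n ω + (1/3) * Y n ω) P :=
        i4.add i3
      rw [integral_add i5 (integrable_const _), integral_add i4 i3, integral_sub i1 i2,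
        integral_const_mul, integral_const_mul, integral_const_mul, integral_XY, integral_X]
      simp
    rw [h2] at h1
    linarith

lemma U_le_Y (n : ℕ) (ω : Om) : U n ω ≤ (Y n ω - 1) / 4 := by
  unfold U Y
  have h : ∀ m : ℕ, (m : ℝ) ≤ (3 ^ m - 1) / 2 := by
    intro m
    induction m with
    | zero => norm_num
    | succ m ih =>
      have : (1:ℝ) ≤ 3 ^ m := one_le_pow₀ (by norm_num)
      rw [pow_succ]
      push_cast
      linarith
  have := h (N n ω)
  linarith

lemma lintegral_U_le (n : ℕ) : ∫⁻ ω, ENNReal.ofReal (U n ω) ∂P ≤ ENNReal.ofReal (1/128) := by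
  calc ∫⁻ ω, ENNReal.ofReal (U n ω) ∂P ≤ ∫⁻ ω, ENNReal.ofReal ((Y n ω - 1) / 4) ∂P :=
        lintegral_mono (fun ω => ENNReal.ofReal_le_ofReal (U_le_Y n ω))
    _ = ENNReal.ofReal (∫ ω, (Y n ω - 1) / 4 ∂P) := by
        rw [ofReal_integral_eq_lintegral_ofReal]
        · exact ((integrable_Y n).sub (integrable_const 1)).div_const 4
        · refine Filter.Eventually.of_forall (fun ω => ?_)
          have := one_le_Y n ω
          simp only [Pi.zero_apply]
          linarith
    _ ≤ ENNReal.ofReal (1/128) := by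
        apply ENNReal.ofReal_le_ofReal
        rw [integral_div, integral_sub (integrable_Y n) (integrable_const 1)]
        have := integral_Y_le n
        simp
        linarith

lemma V_two_ge (ω : Om) (h : ω (Sum.inr 0) = true) : 1 ≤ ⨅ j, V 2 ω j := by
  have h0 : ∀ j, V 0 ω j = 0 := fun j => rfl
  have hS0 : S 0 ω = 5 := by simp [S, h]
  have hS1 : 3 ≤ S 1 ω := by unfold S; split_ifs <;> norm_num
  have h10 : V 1 ω 0 = 3 := by
    simp only [V, hS0, T]
    norm_num
  have h11 : V 1 ω 1 = 0 := by
    simp only [V, hS0, T]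
    norm_num
  have h20 : V 2 ω 0 = 1 := by
    rw [show V 2 ω 0 = max 0 (V 1 ω 0 + (if (0 : Fin 2) =
      (if V 1 ω 0 ≤ V 1 ω 1 then (0 : Fin 2) else 1) then S 1 ω else 0) - T 1 ω) from rfl,
      h10, h11]
    simp only [T]
    norm_num
  have h21 : 1 ≤ V 2 ω 1 := by
    rw [show V 2 ω 1 = max 0 (V 1 ω 1 + (if (1 : Fin 2) =
      (if V 1 ω 0 ≤ V 1 ω 1 then (0 : Fin 2) else 1) then S 1 ω else 0) - T 1 ω) from rfl,
      h10, h11]
    simp only [T]
    norm_num
    linarith
  apply le_ciInf
  intro j
  fin_cases j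
  · exact h20.ge
  · exact h21

lemma P_true : P {ω | ω (Sum.inr 0) = true} = ENNReal.ofReal (1/100) := by
  have h : P {ω | ω (Sum.inr 0) = true} = P.map (fun ω => ω (Sum.inr 0)) {true} := by
    rw [Measure.map_apply (measurable_coord _) (measurableSet_singleton _)]
    rfl
  rw [h, map_coord]
  simp [coin]

lemma lintegral_V_ge : ENNReal.ofReal (1/100) ≤ ∫⁻ ω, ENNReal.ofReal (⨅ j, V 2 ω j) ∂P := by
  have hm : MeasurableSet {ω : Om | ω (Sum.inr 0) = true} :=
    measurable_coord (Sum.inr 0) (measurableSet_singleton true)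
  calc ENNReal.ofReal (1/100) = P {ω | ω (Sum.inr 0) = true} := P_true.symm
    _ = ∫⁻ ω, Set.indicator {ω | ω (Sum.inr 0) = true} 1 ω ∂P := by
        rw [lintegral_indicator_one hm]
    _ ≤ ∫⁻ ω, ENNReal.ofReal (⨅ j, V 2 ω j) ∂P := by
        refine lintegral_mono (fun ω => ?_)
        by_cases h : ω (Sum.inr 0) = true
        · have h1 := V_two_ge ω h
          have h2 : ω ∈ {ω : Om | ω (Sum.inr 0) = true} := h
          rw [Set.indicator_of_mem h2, Pi.one_apply]
          calc (1 : ENNReal) = ENNReal.ofReal 1 := by simp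
            _ ≤ _ := ENNReal.ofReal_le_ofReal h1
        · have h2 : ω ∉ {ω : Om | ω (Sum.inr 0) = true} := h
          rw [Set.indicator_of_notMem h2]
          exact bot_le

lemma indep_TS : iIndepFun (fun i : ℕ ⊕ ℕ => Sum.elim T S i) P := by
  have h := indep.comp (fun i b => Sum.elim (fun _ => (2:ℝ)) (fun _ => if b then 5 else 3) i)
    (fun i => measurable_from_top)
  have h2 : (fun i : ℕ ⊕ ℕ => Sum.elim T S i) =
    (fun i => (fun b => Sum.elim (fun _ => (2:ℝ)) (fun _ => if b then 5 else 3) i) ∘
      (fun ω : Om => ω i)) := by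
    funext i ω
    rcases i with i | i <;> simp [T, S]
  rw [h2]
  exact h

lemma S_ident (n : ℕ) : IdentDistrib (S n) (S 0) P P := by
  refine ⟨(measurable_S n).aemeasurable, (measurable_S 0).aemeasurable, ?_⟩
  have hf : Measurable (fun b : Bool => if b then (5:ℝ) else 3) := measurable_from_top
  have h : ∀ n, P.map (S n) = coin.map (fun b : Bool => if b then (5:ℝ) else 3) := by
    intro n
    rw [← map_coord (Sum.inr n), Measure.map_map hf (measurable_coord _)]
    rfl
  rw [h n, h 0]

lemma integral_S : ∫ ω, S 0 ω ∂P = 302/100 := by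
  have hf : Measurable (fun b : Bool => if b then (5:ℝ) else 3) := measurable_from_top
  have h : ∫ ω, S 0 ω ∂P = ∫ b, (if b then (5:ℝ) else 3) ∂(P.map (fun ω => ω (Sum.inr 0))) := by
    rw [integral_map (measurable_coord _).aemeasurable]
    · rfl
    · exact hf.aestronglyMeasurable
  rw [h, map_coord, coin_integral]
  norm_num

lemma integrable_S : Integrable (S 0) P := by
  refine Integrable.of_bound (C := 5) (measurable_S 0).aestronglyMeasurable ?_
  refine Filter.Eventually.of_forall (fun ω => ?_)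
  unfold S
  split_ifs <;> norm_num

/-- The negation of the preceding statement: For a stable FCFS k-server queue with i.i.d. interarrivals T and services S, the stationary mean wait, as the limit from an empty start, is at most that of the one-server queue with interarrivals T and services S/k. -/
theorem result :
    ¬ (∀ (k : ℕ), 1 ≤ k →
  ∀ (Ω : Type) [MeasurableSpace Ω] (μ : MeasureTheory.Measure Ω)
    [MeasureTheory.IsProbabilityMeasure μ]
    (T S : ℕ → Ω → ℝ),
    (∀ n, Measurable (T n)) → (∀ n, Measurable (S n)) →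
    ProbabilityTheory.iIndepFun (fun i : ℕ ⊕ ℕ => Sum.elim T S i) μ →
    (∀ n, ProbabilityTheory.IdentDistrib (T n) (T 0) μ μ) →
    (∀ n, ProbabilityTheory.IdentDistrib (S n) (S 0) μ μ) →
    (∀ n ω, 0 ≤ T n ω) → (∀ n ω, 0 ≤ S n ω) →
    MeasureTheory.Integrable (T 0) μ → MeasureTheory.Integrable (S 0) μ →
    (∫ ω, S 0 ω ∂μ) < (k : ℝ) * ∫ ω, T 0 ω ∂μ →
    ∀ (V : ℕ → Ω → Fin k → ℝ) (U : ℕ → Ω → ℝ),
    (∀ ω j, V 0 ω j = 0) →
    (∀ n ω, ∃ i : Fin k, (∀ j, V n ω i ≤ V n ω j) ∧
      ∀ j, V (n + 1) ω j = max 0 (V n ω j + (if j = i then S n ω else 0) - T n ω)) →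
    (∀ ω, U 0 ω = 0) →
    (∀ n ω, U (n + 1) ω = max 0 (U n ω + S n ω / (k : ℝ) - T n ω)) →
    (⨆ n, ∫⁻ ω, ENNReal.ofReal (⨅ j, V n ω j) ∂μ) ≤
      ⨆ n, ∫⁻ ω, ENNReal.ofReal (U n ω) ∂μ) := by
  intro hall
  have h := hall 2 (by norm_num) Om P T S (fun _ => measurable_const) measurable_S indep_TS
    (fun n => IdentDistrib.refl measurable_const.aemeasurable) S_ident
    (fun _ _ => by unfold T; norm_num)
    (fun n ω => by unfold S; split_ifs <;> norm_num)
    (integrable_const (2:ℝ)) integrable_S
    (by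
      rw [integral_S]
      have : ∫ ω, T 0 ω ∂P = 2 := by simp [T]
      rw [this]
      norm_num)
    V U (fun _ _ => rfl) V_succ (fun ω => by simp [U, N]) U_succ
  have h1 : ENNReal.ofReal (1/100) ≤ ENNReal.ofReal (1/128) :=
    calc ENNReal.ofReal (1/100) ≤ ∫⁻ ω, ENNReal.ofReal (⨅ j, V 2 ω j) ∂P := lintegral_V_ge
      _ ≤ ⨆ n, ∫⁻ ω, ENNReal.ofReal (⨅ j, V n ω j) ∂P :=
          le_iSup (fun n => ∫⁻ ω, ENNReal.ofReal (⨅ j, V n ω j) ∂P) 2
      _ ≤ ⨆ n, ∫⁻ ω, ENNReal.ofReal (U n ω) ∂P := h
      _ ≤ ENNReal.ofReal (1/128) := iSup_le lintegral_U_le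
  rw [ENNReal.ofReal_le_ofReal_iff (by norm_num)] at h1
  norm_num at h1

end Pool.Agent.S19386
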