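import Pool.Statements.S19444

set_option autoImplicit false
open Filter Topology
open Pool Pool.MP_85987b_pr

namespace Pool.Agent.S19444

/-- The sum over functions `Fin 2 → Fin (k + 2)` as a convolution. -/
lemma sum_fin_two (f : ℕ → ℝ) (k : ℕ) :
    (∑ x : Fin 2 → Fin (k + 2), if (∑ i, (x i : ℕ)) = k + 1 then ∏ i, f (x i) else 0)
      = ∑ i ∈ Finset.range (k + 2), f i * f (k + 1 - i) := by
  rw [← (finTwoArrowEquiv (Fin (k + 2))).symm.sum_comp, Fintype.sum_prod_type]
  rw [Finset.sum_range]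
  apply Finset.sum_congr rfl
  intro i _
  have hi : (i : ℕ) < k + 2 := i.2
  rw [Finset.sum_eq_single (⟨k + 1 - i, by omega⟩ : Fin (k + 2))]
  · simp only [finTwoArrowEquiv_symm_apply, Fin.sum_univ_two, Fin.prod_univ_two,
      Matrix.cons_val_zero, Matrix.cons_val_one]
    rw [if_pos (by omega)]
  · intro j _ hj
    simp only [finTwoArrowEquiv_symm_apply, Fin.sum_univ_two, Fin.prod_univ_two,
      Matrix.cons_val_zero, Matrix.cons_val_one]
    rw [if_neg]
    intro h
    apply hj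
    ext
    simp only
    omega
  · intro h; exact absurd (Finset.mem_univ _) h

lemma hs_congr {f g : ℕ → ℝ} {a : ℝ} (h : ∀ k, f k = g k) (hg : HasSum g a) : HasSum f a := by
  rw [funext h]; exact hg

section rec

variable {p : ℕ → ℕ → ℝ}

/-- convolution of the weights -/
noncomputable def conv (p : ℕ → ℕ → ℝ) (s : ℝ) (n l : ℕ) : ℝ :=
  ∑ i ∈ Finset.range (l + 1), (p n i * s ^ i) * (p n (l - i) * s ^ (l - i))

lemma conv_eq (s : ℝ) (n l : ℕ) :
    conv p s n l = s ^ l * ∑ i ∈ Finset.range (l + 1), p n i * p n (l - i) := by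
  unfold conv
  rw [Finset.mul_sum]
  apply Finset.sum_congr rfl
  intro i hi
  have hi' : i ≤ l := Nat.lt_succ_iff.1 (Finset.mem_range.1 hi)
  have : s ^ l = s ^ i * s ^ (l - i) := by rw [← pow_add]; congr 1; omega
  rw [this]; ring

lemma conv_zero (s : ℝ) (n : ℕ) : conv p s n 0 = p n 0 ^ 2 := by
  unfold conv; simp [sq]

variable (hrec : ∀ n k, p (n + 1) k = (∑ i ∈ Finset.range (k + 2), p n i * p n (k + 1 - i)) +
    (if k = 0 then p n 0 ^ 2 else 0))
  (hnn : ∀ n k, 0 ≤ p n k)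

include hrec in
lemma next_eq {s : ℝ} (hs : 0 < s) (n k : ℕ) :
    p (n + 1) k * s ^ k = conv p s n (k + 1) / s + (if k = 0 then p n 0 ^ 2 else 0) := by
  rw [hrec, conv_eq, pow_succ]
  by_cases hk : k = 0
  · subst hk
    simp
    field_simp
  · simp only [hk, if_false, add_zero]
    field_simp
    ring

include hnn in
lemma hasSum_conv {s : ℝ} (hs : 0 < s) {n : ℕ} {g : ℝ}
    (hg : HasSum (fun k => p n k * s ^ k) g) :
    HasSum (conv p s n) (g ^ 2) := by
  have hn : Summable fun k => ‖p n k * s ^ k‖ := by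
    refine hg.summable.congr (fun k => ?_)
    rw [Real.norm_of_nonneg (mul_nonneg (hnn n k) (pow_nonneg hs.le k))]
  have h := hasSum_sum_range_mul_of_summable_norm hn hn
  rw [hg.tsum_eq] at h
  rw [sq]
  exact h

include hrec hnn in
lemma step {s : ℝ} (hs : 0 < s) {n : ℕ} {g : ℝ}
    (hg : HasSum (fun k => p n k * s ^ k) g) :
    HasSum (fun k => p (n + 1) k * s ^ k) ((g ^ 2 - p n 0 ^ 2) / s + p n 0 ^ 2) := by
  have h1 := hasSum_conv hnn hs hg
  have h2 : HasSum (fun k => conv p s n (k + 1)) (g ^ 2 - p n 0 ^ 2) := by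
    have := (hasSum_nat_add_iff' 1).2 h1
    simpa [conv_zero] using this
  have h3 : HasSum (fun k : ℕ => if k = 0 then p n 0 ^ 2 else 0) (p n 0 ^ 2) :=
    hasSum_ite_eq 0 (p n 0 ^ 2)
  have h4 := (h2.div_const s).add h3
  exact hs_congr (fun k => next_eq hrec hs n k) h4

include hrec hnn in
/-- First moments. -/
lemma stepB {n : ℕ} {A B : ℝ}
    (hA : HasSum (fun k => p n k * (2 : ℝ) ^ k) A)
    (hB : HasSum (fun k : ℕ => (k : ℝ) * (p n k * (2 : ℝ) ^ k)) B) :
    HasSum (fun k : ℕ => (k : ℝ) * (p (n + 1) k * (2 : ℝ) ^ k))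
      ((2 * A * B - A ^ 2 + p n 0 ^ 2) / 2) := by
  have hs : (0 : ℝ) < 2 := by norm_num
  have hn : Summable fun k => ‖p n k * (2 : ℝ) ^ k‖ := by
    refine hA.summable.congr (fun k => ?_)
    rw [Real.norm_of_nonneg (mul_nonneg (hnn n k) (pow_nonneg hs.le k))]
  have hn' : Summable fun k : ℕ => ‖(k : ℝ) * (p n k * (2 : ℝ) ^ k)‖ := by
    refine hB.summable.congr (fun k => ?_)
    rw [Real.norm_of_nonneg (mul_nonneg (Nat.cast_nonneg k)
      (mul_nonneg (hnn n k) (pow_nonneg hs.le k)))]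
  have h1 := hasSum_conv hnn hs hA
  have h2 := hasSum_sum_range_mul_of_summable_norm hn' hn
  have h3 := hasSum_sum_range_mul_of_summable_norm hn hn'
  rw [hA.tsum_eq, hB.tsum_eq] at h2 h3
  have h4 : HasSum (fun l : ℕ => ((l : ℝ) - 1) * conv p 2 n l) (2 * A * B - A ^ 2) := by
    have h5 := (h2.add h3).sub h1
    have h6 : (B * A + A * B - A ^ 2) = 2 * A * B - A ^ 2 := by ring
    rw [h6] at h5
    refine hs_congr (fun l => ?_) h5
    rw [← Finset.sum_add_distrib]
    unfold conv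
    rw [sub_mul, one_mul, Finset.mul_sum]
    congr 1
    apply Finset.sum_congr rfl
    intro i hi
    have hi' : i ≤ l := Nat.lt_succ_iff.1 (Finset.mem_range.1 hi)
    rw [Nat.cast_sub hi']
    ring
  have h6 : HasSum (fun k : ℕ => (k : ℝ) * conv p 2 n (k + 1))
      (2 * A * B - A ^ 2 + p n 0 ^ 2) := by
    have := (hasSum_nat_add_iff' 1).2 h4
    simpa [conv_zero] using this
  have h7 := h6.div_const 2
  refine hs_congr (fun k => ?_) h7
  rw [next_eq hrec hs n k]
  by_cases hk : k = 0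
  · subst hk; simp
  · simp only [hk, if_false, add_zero]; ring

/-- partial sums of the weights -/
noncomputable def S (p : ℕ → ℕ → ℝ) (n K : ℕ) : ℝ := ∑ k ∈ Finset.range K, p n k * (2 : ℝ) ^ k

include hnn in
lemma S_nonneg (n K : ℕ) : 0 ≤ S p n K :=
  Finset.sum_nonneg (fun k _ => mul_nonneg (hnn n k) (by positivity))

include hrec hnn in
lemma S_succ (n K : ℕ) (hK : 1 ≤ K) :
    S p (n + 1) K ≤ (S p n (K + 1) ^ 2 + p n 0 ^ 2) / 2 := by
  have hs : (0 : ℝ) < 2 := by norm_num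
  unfold S
  have h1 : ∑ k ∈ Finset.range K, p (n + 1) k * (2 : ℝ) ^ k =
      (∑ k ∈ Finset.range K, conv p 2 n (k + 1)) / 2 + p n 0 ^ 2 := by
    rw [Finset.sum_congr rfl (fun k _ => next_eq hrec hs n k), Finset.sum_add_distrib,
      Finset.sum_div]
    congr 1
    rw [Finset.sum_ite_eq' (Finset.range K) 0 (fun _ => p n 0 ^ 2)]
    simp [Nat.pos_iff_ne_zero.1 hK]
  have h2 : ∑ k ∈ Finset.range (K + 1), conv p 2 n k =
      (∑ k ∈ Finset.range K, conv p 2 n (k + 1)) + p n 0 ^ 2 := by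
    rw [Finset.sum_range_succ', conv_zero]
  have h3 : ∑ k ∈ Finset.range (K + 1), conv p 2 n k ≤
      (∑ k ∈ Finset.range (K + 1), p n k * (2 : ℝ) ^ k) ^ 2 := by
    unfold conv
    rw [Finset.sum_range_diag_flip (K + 1)
      (fun i j => (p n i * (2 : ℝ) ^ i) * (p n j * (2 : ℝ) ^ j)), sq, Finset.sum_mul]
    apply Finset.sum_le_sum
    intro i _
    rw [← Finset.mul_sum]
    apply mul_le_mul_of_nonneg_left _ (mul_nonneg (hnn n i) (by positivity))
    apply Finset.sum_le_sum_of_subset_of_nonneg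
    · intro j hj
      rw [Finset.mem_range] at hj ⊢
      omega
    · intro j _ _
      exact mul_nonneg (hnn n j) (by positivity)
  rw [h1]
  linarith

include hnn in
lemma tail_bound {n : ℕ} {A B : ℝ}
    (hA : HasSum (fun k => p n k * (2 : ℝ) ^ k) A)
    (hB : HasSum (fun k : ℕ => (k : ℝ) * (p n k * (2 : ℝ) ^ k)) B) (K : ℕ) :
    (K : ℝ) * (A - S p n K) ≤ B := by
  have h1 := (hasSum_nat_add_iff' K).2 hA
  have h2 := (hasSum_nat_add_iff' K).2 hB
  have h3 := h1.mul_left (K : ℝ)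
  have h4 : (K : ℝ) * (A - ∑ i ∈ Finset.range K, p n i * (2 : ℝ) ^ i) ≤
      B - ∑ i ∈ Finset.range K, (i : ℝ) * (p n i * (2 : ℝ) ^ i) := by
    refine hasSum_le (fun k => ?_) h3 h2
    apply mul_le_mul_of_nonneg_right _ (mul_nonneg (hnn n _) (by positivity))
    push_cast
    have : (0 : ℝ) ≤ k := Nat.cast_nonneg k
    linarith
  have h5 : 0 ≤ ∑ i ∈ Finset.range K, (i : ℝ) * (p n i * (2 : ℝ) ^ i) :=
    Finset.sum_nonneg (fun k _ => mul_nonneg (Nat.cast_nonneg k)
      (mul_nonneg (hnn n k) (by positivity)))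
  unfold S
  linarith

include hnn in
lemma A_le_two {n : ℕ} {A : ℝ}
    (hA : HasSum (fun k => p n k * (2 : ℝ) ^ k) A)
    (hB : HasSum (fun k : ℕ => (k : ℝ) * (p n k * (2 : ℝ) ^ k)) A)
    (h1 : HasSum (fun k => p n k * (1 : ℝ) ^ k) 1) : A ≤ 2 := by
  have h2 : HasSum (fun k : ℕ => (2 - (k : ℝ)) * (p n k * (2 : ℝ) ^ k)) (2 * A - A) := by
    refine hs_congr (fun k => ?_) ((hA.mul_left 2).sub hB)
    ring
  have h3 : HasSum (fun k : ℕ => 2 * (p n k * (1 : ℝ) ^ k)) (2 * 1) := h1.mul_left 2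
  have h4 : 2 * A - A ≤ 2 * 1 := by
    refine hasSum_le (fun k => ?_) h2 h3
    rcases k with _ | _ | k
    · simp
    · simp; linarith [hnn n 1]
    · push_cast
      have h5 : (2 - ((k : ℝ) + 1 + 1)) * (p n (k + 1 + 1) * (2 : ℝ) ^ (k + 1 + 1)) ≤ 0 := by
        apply mul_nonpos_of_nonpos_of_nonneg
        · have : (0 : ℝ) ≤ k := Nat.cast_nonneg k
          linarith
        · exact mul_nonneg (hnn n _) (by positivity)
      have h6 : 0 ≤ 2 * (p n (k + 1 + 1) * (1 : ℝ) ^ (k + 1 + 1)) := by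
        have := hnn n (k + 1 + 1)
        positivity
      linarith
  linarith

include hnn in
lemma one_le_A {n : ℕ} {A : ℝ}
    (hA : HasSum (fun k => p n k * (2 : ℝ) ^ k) A)
    (h1 : HasSum (fun k => p n k * (1 : ℝ) ^ k) 1) : 1 ≤ A := by
  refine hasSum_le (fun k => ?_) h1 hA
  apply mul_le_mul_of_nonneg_left _ (hnn n k)
  rw [one_pow]
  exact one_le_pow₀ (by norm_num)

end rec

/-- The main contradiction, in terms of sequences. -/
lemma main_contra {p : ℕ → ℕ → ℝ}
    (hrec : ∀ n k, p (n + 1) k = (∑ i ∈ Finset.range (k + 2), p n i * p n (k + 1 - i)) +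
      (if k = 0 then p n 0 ^ 2 else 0))
    (h0 : ∀ k, 0 ≤ p 0 k)
    (hone : HasSum (fun k => p 0 k * (1 : ℝ) ^ k) 1)
    {A₀ : ℝ} (hA0 : HasSum (fun k => p 0 k * (2 : ℝ) ^ k) A₀)
    (hB0 : HasSum (fun k : ℕ => (k : ℝ) * (p 0 k * (2 : ℝ) ^ k)) A₀)
    {c₀ : ℝ} (hc₀ : 0 < c₀) (htail : ∀ K : ℕ, 1 ≤ K → c₀ / (K : ℝ) ^ 2 ≤ A₀ - S p 0 K)
    {G₀ : ℝ} (hG0 : HasSum (fun k => p 0 k * (1 / 2 : ℝ) ^ k) G₀)
    (hlim : Tendsto (fun n : ℕ => (n : ℝ) ^ 2 * (1 - ∑' k : ℕ, p n k * (1 / 2 : ℝ) ^ k))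
      atTop (𝓝 (8 / 3))) : False := by
  have hnn : ∀ n k, 0 ≤ p n k := by
    intro n
    induction n with
    | zero => exact h0
    | succ n ih =>
      intro k
      rw [hrec]
      apply add_nonneg
      · exact Finset.sum_nonneg (fun i _ => mul_nonneg (ih _) (ih _))
      · split_ifs
        · positivity
        · exact le_rfl
  -- total mass
  have hmass : ∀ n, HasSum (fun k => p n k * (1 : ℝ) ^ k) 1 := by
    intro n
    induction n with
    | zero => exact hone
    | succ n ih =>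
      have := step hrec hnn one_pos ih
      convert this using 1
      ring
  -- generating function at `2`
  have hA : ∀ n, ∃ A : ℝ, HasSum (fun k => p n k * (2 : ℝ) ^ k) A ∧
      HasSum (fun k : ℕ => (k : ℝ) * (p n k * (2 : ℝ) ^ k)) A := by
    intro n
    induction n with
    | zero => exact ⟨A₀, hA0, hB0⟩
    | succ n ih =>
      obtain ⟨A, h1, h2⟩ := ih
      refine ⟨(A ^ 2 - p n 0 ^ 2) / 2 + p n 0 ^ 2, step hrec hnn (by norm_num) h1, ?_⟩
      have := stepB hrec hnn h1 h2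
      convert this using 1
      ring
  choose A hA1 hA2 using hA
  have hA00 : A 0 = A₀ := (hA1 0).unique hA0
  have hArec : ∀ n, A (n + 1) = (A n ^ 2 + p n 0 ^ 2) / 2 := by
    intro n
    have := (hA1 (n + 1)).unique (step hrec hnn (by norm_num) (hA1 n))
    rw [this]; ring
  -- generating function at `1/2`
  have hG : ∀ n, ∃ G : ℝ, HasSum (fun k => p n k * (1 / 2 : ℝ) ^ k) G := by
    intro n
    induction n with
    | zero => exact ⟨G₀, hG0⟩
    | succ n ih =>
      obtain ⟨G, h1⟩ := ih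
      exact ⟨_, step hrec hnn (by norm_num) h1⟩
  choose G hG1 using hG
  have hGrec : ∀ n, p n 0 ^ 2 = 2 * G n ^ 2 - G (n + 1) := by
    intro n
    have := (hG1 (n + 1)).unique (step hrec hnn (by norm_num) (hG1 n))
    rw [this]; ring
  have hlimH : Tendsto (fun n : ℕ => (n : ℝ) ^ 2 * (1 - G n)) atTop (𝓝 (8 / 3)) := by
    refine hlim.congr (fun n => ?_)
    rw [(hG1 n).tsum_eq]
  have hinv : Tendsto (fun n : ℕ => 1 / (n : ℝ)) atTop (𝓝 0) := tendsto_one_div_atTop_nhds_zero_nat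
  have hlimH0 : Tendsto (fun n : ℕ => 1 - G n) atTop (𝓝 0) := by
    have h1 := (hlimH.mul (hinv.mul hinv))
    rw [mul_zero, mul_zero] at h1
    refine h1.congr' ?_
    filter_upwards [eventually_ge_atTop 1] with n hn
    have : (n : ℝ) ≠ 0 := by positivity
    field_simp
  have hlimH1 : Tendsto (fun n : ℕ => (n : ℝ) ^ 2 * (1 - G (n + 1))) atTop (𝓝 (8 / 3)) := by
    have h1 := hlimH.comp (tendsto_add_atTop_nat 1)
    have h2 : Tendsto (fun n : ℕ => ((n : ℝ) / ((n : ℝ) + 1)) ^ 2) atTop (𝓝 (1 ^ 2)) :=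
      (tendsto_natCast_div_add_atTop (1 : ℝ)).pow 2
    have h3 := h2.mul h1
    rw [one_pow, one_mul] at h3
    refine h3.congr (fun n => ?_)
    simp only [Function.comp]
    push_cast
    have : (n : ℝ) + 1 ≠ 0 := by positivity
    field_simp
  have hlime : Tendsto (fun n : ℕ => (n : ℝ) ^ 2 * (1 - p n 0 ^ 2)) atTop (𝓝 8) := by
    have h1 := ((hlimH.const_mul 4).sub ((hlimH.mul hlimH0).const_mul 2)).sub hlimH1
    have h2 : (4 * (8 / 3) - 2 * (8 / 3 * 0) - 8 / 3 : ℝ) = 8 := by norm_num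
    rw [h2] at h1
    refine h1.congr (fun n => ?_)
    rw [hGrec]
    ring
  have hev : ∀ᶠ n : ℕ in atTop, (15 / 2 : ℝ) < (n : ℝ) ^ 2 * (1 - p n 0 ^ 2) :=
    hlime.eventually (lt_mem_nhds (by norm_num))
  obtain ⟨n₀, hn₀⟩ := eventually_atTop.1 hev
  -- lower bound for `A`
  have hA1le : ∀ n, 1 ≤ A n := fun n => one_le_A hnn (hA1 n) (hmass n)
  have hA2le : ∀ n, A n ≤ 2 := fun n => A_le_two hnn (hA1 n) (hA2 n) (hmass n)
  have hharm : Tendsto (fun n : ℕ => ∑ i ∈ Finset.range n, 1 / ((i : ℝ) + 1)) atTop atTop :=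
    Real.tendsto_sum_range_one_div_nat_succ_atTop
  have hlow : ∀ n, max n₀ 9 ≤ n → 3 / 2 ≤ (n : ℝ) * (A n - 1) := by
    intro n₁ hn₁
    by_contra hcon
    push Not at hcon
    have hind : ∀ n, n₁ ≤ n → (n : ℝ) * (A n - 1) ≤ 3 / 2 -
        ((∑ i ∈ Finset.range n, 1 / ((i : ℝ) + 1)) - ∑ i ∈ Finset.range n₁, 1 / ((i : ℝ) + 1)) := by
      intro n hn
      induction n, hn using Nat.le_induction with
      | base => rw [sub_self, sub_zero]; exact hcon.le
      | succ n hn ih =>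
        rw [Finset.sum_range_succ]
        have hmono : ∑ i ∈ Finset.range n₁, 1 / ((i : ℝ) + 1) ≤
            ∑ i ∈ Finset.range n, 1 / ((i : ℝ) + 1) := by
          apply Finset.sum_le_sum_of_subset_of_nonneg
          · exact Finset.range_subset_range.2 hn
          · intro i _ _; positivity
        have hn9 : (9 : ℝ) ≤ n := by
          have : 9 ≤ n := le_trans (le_trans (le_max_right _ _) hn₁) hn
          exact_mod_cast this
        have hnpos : (0 : ℝ) < n := by linarith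
        have he := hn₀ n (le_trans (le_trans (le_max_left _ _) hn₁) hn)
        set D : ℝ := (n : ℝ) * (A n - 1) with hD
        have hD0 : 0 ≤ D := mul_nonneg hnpos.le (by linarith [hA1le n])
        have hD1 : D ≤ 3 / 2 := by linarith
        have hAn : A n = 1 + D / n := by rw [hD]; field_simp; ring
        set e : ℝ := (n : ℝ) ^ 2 * (1 - p n 0 ^ 2) with he'
        have hpe : p n 0 ^ 2 = 1 - e / (n : ℝ) ^ 2 := by rw [he']; field_simp; ring
        have hnext : ((n + 1 : ℕ) : ℝ) * (A (n + 1) - 1) =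
            ((n : ℝ) + 1) * (D / n + (D / n) ^ 2 / 2 - e / (n : ℝ) ^ 2 / 2) := by
          rw [hArec, hpe, hAn]; push_cast; ring
        have hkey : ((n : ℝ) + 1) * (D / n + (D / n) ^ 2 / 2 - e / (n : ℝ) ^ 2 / 2) ≤
            D - 1 / ((n : ℝ) + 1) := by
          have hx : 1 / ((n : ℝ) + 1) ≤ 1 / n := by
            apply one_div_le_one_div_of_le hnpos; linarith
          have h1 : ((n : ℝ) + 1) * (D / n + (D / n) ^ 2 / 2 - e / (n : ℝ) ^ 2 / 2) =
              D + (D * n + (n + 1) * D ^ 2 / 2 - (n + 1) * e / 2) / (n : ℝ) ^ 2 := by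
            field_simp
            ring
          have h2 : (D * n + (n + 1) * D ^ 2 / 2 - (n + 1) * e / 2) / (n : ℝ) ^ 2 ≤ - (1 / n) := by
            rw [div_le_iff₀ (by positivity)]
            have h3 : -(1 / (n : ℝ)) * (n : ℝ) ^ 2 = -n := by field_simp
            rw [h3]
            have h4 : D ^ 2 ≤ 9 / 4 := by nlinarith
            nlinarith
          linarith
        rw [hnext]
        linarith
    obtain ⟨n, hn1, hn2⟩ := ((hharm.eventually_gt_atTop
      (3 / 2 + ∑ i ∈ Finset.range n₁, 1 / ((i : ℝ) + 1))).and (eventually_ge_atTop n₁)).exists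
    have h1 := hind n hn2
    have h2 : 0 ≤ (n : ℝ) * (A n - 1) := mul_nonneg (Nat.cast_nonneg n) (by linarith [hA1le n])
    linarith
  -- the product of the `A i`
  set L : ℕ → ℝ := fun N => ∏ i ∈ Finset.range N, A i with hL
  have hLpos : ∀ N, 0 < L N := fun N => Finset.prod_pos (fun i _ => by linarith [hA1le i])
  have hL1 : ∀ N, 1 ≤ L N := by
    intro N
    induction N with
    | zero => simp [hL]
    | succ N ih =>
      have : L (N + 1) = L N * A N := Finset.prod_range_succ _ _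
      rw [this]
      nlinarith [hA1le N]
  -- chain of tail inequalities
  have hchain : ∀ N : ℕ, 1 ≤ N → ∀ j, j ≤ N →
      (A₀ - S p 0 (2 * N)) * (1 - 1 / (2 * (N : ℝ))) ^ j * L j ≤ A j - S p j (2 * N - j) := by
    intro N hN j hj
    have hNpos : (0 : ℝ) < N := by exact_mod_cast hN
    have hN1 : (1 : ℝ) ≤ N := by exact_mod_cast hN
    have hfac : 0 ≤ 1 - 1 / (2 * (N : ℝ)) := by
      rw [sub_nonneg, div_le_one (by positivity)]; linarith
    induction j with
    | zero => simp [hL, hA00]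
    | succ j ih =>
      have ih' := ih (by omega)
      have hK : 2 * N - j = (2 * N - (j + 1)) + 1 := by omega
      have hS := S_succ hrec hnn j (2 * N - (j + 1)) (by omega)
      rw [← hK] at hS
      have htb := tail_bound hnn (hA1 j) (hA2 j) (2 * N - j)
      have hKN : (N : ℝ) ≤ ((2 * N - j : ℕ) : ℝ) := by exact_mod_cast (by omega : N ≤ 2 * N - j)
      set T : ℝ := A j - S p j (2 * N - j) with hT
      have hT0 : 0 ≤ T := by
        rw [hT, sub_nonneg]
        exact sum_le_hasSum _ (fun k _ => mul_nonneg (hnn j k) (by positivity)) (hA1 j)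
      have hTN : (N : ℝ) * T ≤ A j := le_trans (mul_le_mul_of_nonneg_right hKN hT0) htb
      have hTN' : T ≤ A j / N := by rw [le_div_iff₀ hNpos]; linarith
      have hSj : S p j (2 * N - j) = A j - T := by rw [hT]; ring
      have h1 : T * (A j * (1 - 1 / (2 * (N : ℝ)))) ≤ A (j + 1) - S p (j + 1) (2 * N - (j + 1)) := by
        have h2 : T * (A j - T / 2) ≤ A (j + 1) - S p (j + 1) (2 * N - (j + 1)) := by
          rw [hArec]
          rw [hSj] at hS
          nlinarith
        refine le_trans (mul_le_mul_of_nonneg_left ?_ hT0) h2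
        have h3 : A j * (1 - 1 / (2 * (N : ℝ))) = A j - (A j / N) / 2 := by
          field_simp
        rw [h3]
        linarith
      refine le_trans ?_ h1
      have hLs : L (j + 1) = L j * A j := Finset.prod_range_succ _ _
      rw [hLs, pow_succ]
      have h4 : 0 ≤ A j * (1 - 1 / (2 * (N : ℝ))) :=
        mul_nonneg (by linarith [hA1le j]) hfac
      calc (A₀ - S p 0 (2 * N)) * ((1 - 1 / (2 * (N : ℝ))) ^ j * (1 - 1 / (2 * (N : ℝ)))) *
            (L j * A j) = ((A₀ - S p 0 (2 * N)) * (1 - 1 / (2 * (N : ℝ))) ^ j * L j) *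
            (A j * (1 - 1 / (2 * (N : ℝ)))) := by ring
        _ ≤ T * (A j * (1 - 1 / (2 * (N : ℝ)))) := mul_le_mul_of_nonneg_right ih' h4
  have hLbound : ∀ N : ℕ, 1 ≤ N → L N ≤ 16 / c₀ * N := by
    intro N hN
    have hNpos : (0 : ℝ) < N := by exact_mod_cast hN
    have hN1 : (1 : ℝ) ≤ N := by exact_mod_cast hN
    have h1 := hchain N hN N le_rfl
    have h2 := tail_bound hnn (hA1 N) (hA2 N) (2 * N - N)
    have h3 : ((2 * N - N : ℕ) : ℝ) = N := by
      rw [show 2 * N - N = N by omega]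
    rw [h3] at h2
    have h4 : (1 / 2 : ℝ) ≤ (1 - 1 / (2 * (N : ℝ))) ^ N := by
      have h5 := one_add_mul_le_pow (a := -(1 / (2 * (N : ℝ)))) (by
        have : 1 / (2 * (N : ℝ)) ≤ 1 := by rw [div_le_one (by positivity)]; linarith
        linarith) N
      have h6 : 1 + (N : ℝ) * -(1 / (2 * (N : ℝ))) = 1 / 2 := by field_simp; ring
      rw [h6] at h5
      rw [sub_eq_add_neg]
      exact h5
    have h5 := htail (2 * N) (by omega)
    have h6 : c₀ / ((2 * N : ℕ) : ℝ) ^ 2 * (1 / 2) * L N ≤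
        (A₀ - S p 0 (2 * N)) * (1 - 1 / (2 * (N : ℝ))) ^ N * L N := by
      apply mul_le_mul_of_nonneg_right _ (hLpos N).le
      apply mul_le_mul h5 h4 (by norm_num)
      exact le_trans (by positivity) h5
    have h7 : (N : ℝ) * (c₀ / ((2 * N : ℕ) : ℝ) ^ 2 * (1 / 2) * L N) ≤ 2 := by
      calc (N : ℝ) * (c₀ / ((2 * N : ℕ) : ℝ) ^ 2 * (1 / 2) * L N)
          ≤ (N : ℝ) * (A N - S p N (2 * N - N)) :=
            mul_le_mul_of_nonneg_left (le_trans h6 h1) hNpos.le
        _ ≤ A N := h2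
        _ ≤ 2 := hA2le N
    push_cast at h7
    have h8 : (N : ℝ) * (c₀ / (2 * (N : ℝ)) ^ 2 * (1 / 2) * L N) = c₀ * L N / (8 * N) := by
      field_simp
      ring
    rw [h8, div_le_iff₀ (by positivity)] at h7
    rw [div_mul_eq_mul_div, le_div_iff₀ hc₀]
    linarith
  -- growth of the product
  set j₀ : ℕ := max n₀ 9 with hj₀
  have hj₀pos : (0 : ℝ) < j₀ := by
    have : 9 ≤ j₀ := le_max_right _ _
    exact_mod_cast (by omega : 0 < j₀)
  have hgrow : ∀ N, j₀ ≤ N → (N : ℝ) / j₀ * (1 + ((∑ i ∈ Finset.range N, 1 / ((i : ℝ) + 1)) -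
      ∑ i ∈ Finset.range j₀, 1 / ((i : ℝ) + 1)) / 2) ≤ L N := by
    intro N hN
    induction N, hN using Nat.le_induction with
    | base =>
      rw [sub_self, zero_div, add_zero, mul_one, div_self hj₀pos.ne']
      exact hL1 _
    | succ N hN ih =>
      have hNpos : (0 : ℝ) < N := lt_of_lt_of_le hj₀pos (by exact_mod_cast hN)
      have hmono : ∑ i ∈ Finset.range j₀, 1 / ((i : ℝ) + 1) ≤
          ∑ i ∈ Finset.range N, 1 / ((i : ℝ) + 1) := by
        apply Finset.sum_le_sum_of_subset_of_nonneg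
        · exact Finset.range_subset_range.2 hN
        · intro i _ _; positivity
      rw [Finset.sum_range_succ]
      set x : ℝ := (∑ i ∈ Finset.range N, 1 / ((i : ℝ) + 1)) -
        ∑ i ∈ Finset.range j₀, 1 / ((i : ℝ) + 1) with hx
      have hx0 : 0 ≤ x := by linarith
      have hLs : L (N + 1) = L N * A N := Finset.prod_range_succ _ _
      have hAN : 1 + (3 / 2) / N ≤ A N := by
        have h1 := hlow N hN
        have h2 : (3 / 2) / (N : ℝ) ≤ A N - 1 := by
          rw [div_le_iff₀ hNpos]; linarith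
        linarith
      rw [hLs]
      have h3 : (N : ℝ) / j₀ * (1 + x / 2) * (1 + (3 / 2) / N) ≤ L N * A N :=
        mul_le_mul ih hAN (by positivity) (hLpos N).le
      refine le_trans ?_ h3
      have h4 : (∑ i ∈ Finset.range N, 1 / ((i : ℝ) + 1)) + 1 / ((N : ℝ) + 1) -
        ∑ i ∈ Finset.range j₀, 1 / ((i : ℝ) + 1) = x + 1 / ((N : ℝ) + 1) := by rw [hx]; ring
      rw [h4]
      push_cast
      have h5 : ((N : ℝ) + 1) / j₀ * (1 + (x + 1 / ((N : ℝ) + 1)) / 2) =
          (((N : ℝ) + 1) * (1 + x / 2) + 1 / 2) / j₀ := by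
        field_simp
        ring
      have h6 : (N : ℝ) / j₀ * (1 + x / 2) * (1 + (3 / 2) / N) =
          (((N : ℝ) + 3 / 2) * (1 + x / 2)) / j₀ := by
        field_simp
      rw [h5, h6]
      apply div_le_div_of_nonneg_right _ hj₀pos.le
      nlinarith
  -- final contradiction
  obtain ⟨N, hN1, hN2⟩ := ((hharm.eventually_gt_atTop
    (2 * (16 / c₀ * j₀) + ∑ i ∈ Finset.range j₀, 1 / ((i : ℝ) + 1))).and
      (eventually_ge_atTop j₀)).exists
  have hN : 1 ≤ N := by
    have : 9 ≤ j₀ := le_max_right _ _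
    omega
  have hNpos : (0 : ℝ) < N := by exact_mod_cast hN
  have h1 := hgrow N hN2
  have h2 := hLbound N hN
  have h3 : (N : ℝ) / j₀ * (1 + ((∑ i ∈ Finset.range N, 1 / ((i : ℝ) + 1)) -
      ∑ i ∈ Finset.range j₀, 1 / ((i : ℝ) + 1)) / 2) ≤ 16 / c₀ * N := le_trans h1 h2
  have h4 : 1 + ((∑ i ∈ Finset.range N, 1 / ((i : ℝ) + 1)) -
      ∑ i ∈ Finset.range j₀, 1 / ((i : ℝ) + 1)) / 2 ≤ 16 / c₀ * j₀ := by
    have h5 : 0 < (N : ℝ) / j₀ := by positivity
    rw [← mul_le_mul_iff_right₀ h5]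
    refine le_trans h3 (le_of_eq ?_)
    field_simp
  linarith

/-! ### The initial law -/

/-- The weights `2 ^ k * P(X₀ = k)`, up to a constant. -/
noncomputable def b (k : ℕ) : ℝ :=
  if k = 0 then 1 / 4 else 1 / ((k : ℝ) * (k + 1) * (k + 2))

lemma b_pos (k : ℕ) : 0 < b k := by
  unfold b
  split_ifs with h
  · norm_num
  · have : (0 : ℝ) < k := by exact_mod_cast Nat.pos_of_ne_zero h
    positivity

lemma b_zero : b 0 = 1 / 4 := by simp [b]

lemma b_succ (k : ℕ) : b (k + 1) = 1 / (((k : ℝ) + 1) * (k + 2) * (k + 3)) := by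
  unfold b
  rw [if_neg (Nat.succ_ne_zero k)]
  push_cast
  ring_nf

lemma sum_b (K : ℕ) : ∑ k ∈ Finset.range (K + 1), b k =
    1 / 2 - 1 / (2 * ((K : ℝ) + 1) * (K + 2)) := by
  induction K with
  | zero => simp [b_zero]; norm_num
  | succ K ih =>
    rw [Finset.sum_range_succ, ih, b_succ]
    push_cast
    field_simp
    ring

lemma sum_kb (K : ℕ) : ∑ k ∈ Finset.range (K + 1), (k : ℝ) * b k =
    1 / 2 - 1 / ((K : ℝ) + 2) := by
  induction K with
  | zero => simp
  | succ K ih =>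
    rw [Finset.sum_range_succ, ih, b_succ]
    push_cast
    field_simp
    ring

lemma tendsto_inv_add (r : ℝ) : Tendsto (fun K : ℕ => 1 / ((K : ℝ) + r)) atTop (𝓝 0) := by
  have h : Tendsto (fun K : ℕ => (K : ℝ) + r) atTop atTop :=
    tendsto_atTop_add_const_right _ _ tendsto_natCast_atTop_atTop
  refine h.inv_tendsto_atTop.congr (fun K => ?_)
  simp

lemma hasSum_b : HasSum b (1 / 2) := by
  rw [hasSum_iff_tendsto_nat_of_nonneg (fun k => (b_pos k).le)]
  rw [← tendsto_add_atTop_iff_nat 1]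
  simp_rw [sum_b]
  have h1 := ((tendsto_inv_add 1).mul (tendsto_inv_add 2)).const_mul (1 / 2 : ℝ)
  have h2 := h1.const_sub (1 / 2 : ℝ)
  rw [mul_zero, mul_zero, sub_zero] at h2
  refine h2.congr (fun K => ?_)
  have : (0 : ℝ) ≤ K := Nat.cast_nonneg K
  field_simp

lemma hasSum_kb : HasSum (fun k : ℕ => (k : ℝ) * b k) (1 / 2) := by
  rw [hasSum_iff_tendsto_nat_of_nonneg (fun k => mul_nonneg (Nat.cast_nonneg k) (b_pos k).le)]
  rw [← tendsto_add_atTop_iff_nat 1]
  simp_rw [sum_kb]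
  have h2 := (tendsto_inv_add 2).const_sub (1 / 2 : ℝ)
  rwa [sub_zero] at h2

lemma summable_bs {r : ℝ} (h0 : 0 ≤ r) (h1 : r ≤ 1) : Summable (fun k : ℕ => b k * r ^ k) := by
  refine Summable.of_nonneg_of_le (fun k => mul_nonneg (b_pos k).le (pow_nonneg h0 k))
    (fun k => ?_) hasSum_b.summable
  exact mul_le_of_le_one_right (b_pos k).le (pow_le_one₀ h0 h1)

/-- normalising constant -/
noncomputable def Z : ℝ := ∑' k : ℕ, b k * (1 / 2 : ℝ) ^ k

lemma Z_pos : 0 < Z :=
  (summable_bs (by norm_num) (by norm_num)).tsum_pos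
    (fun k => mul_nonneg (b_pos k).le (by positivity)) 0 (mul_pos (b_pos 0) (by positivity))

/-- The initial law. -/
noncomputable def p0 (k : ℕ) : ℝ := b k * (1 / 2 : ℝ) ^ k / Z

/-- The laws of the model. -/
noncomputable def P : ℕ → ℕ → ℝ
  | 0 => p0
  | (n + 1) => fun k => (∑ x : Fin 2 → Fin (k + 2),
      if (∑ i, (x i : ℕ)) = k + 1 then ∏ i, P n (x i) else 0) + (if k = 0 then P n 0 ^ 2 else 0)

lemma p0_nonneg (k : ℕ) : 0 ≤ p0 k :=
  div_nonneg (mul_nonneg (b_pos k).le (by positivity)) Z_pos.le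

lemma p0_mul (k : ℕ) (s : ℝ) : p0 k * s ^ k = (b k * (s / 2) ^ k) / Z := by
  unfold p0
  rw [div_mul_eq_mul_div, mul_assoc, ← mul_pow]
  ring_nf

lemma p0_mul_two (k : ℕ) : p0 k * 2 ^ k = b k / Z := by
  rw [p0_mul]; norm_num

/-- The negation of the preceding statement: For integer m≥2 and any law of X_0 on ℕ with P(X_0=0)>0 and (m−1)E(X_0 m^X_0)=E(m^X_0)<∞, where X_{n+1} is (sum of m iid copies of X_n minus 1)^+: for all s in (0,m), s≠1, (E s^X_n − 1) divided by 4m/(m−1)²·(s−1)/(m−s)/n² tends to 1. -/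
theorem result :
    ¬ (∀ (m : ℕ), 2 ≤ m → ∀ p : ℕ → ℕ → ℝ,
      (∀ k, 0 ≤ p 0 k) → HasSum (p 0) 1 →
      (∀ n k, p (n + 1) k =
          (∑ x : Fin m → Fin (k + 2),
              if (∑ i, (x i : ℕ)) = k + 1 then ∏ i, p n (x i) else 0)
          + (if k = 0 then p n 0 ^ m else 0)) →
      Summable (fun k : ℕ => p 0 k * (m : ℝ) ^ k) →
      Summable (fun k : ℕ => (k : ℝ) * p 0 k * (m : ℝ) ^ k) →
      ((m : ℝ) - 1) * (∑' k : ℕ, (k : ℝ) * p 0 k * (m : ℝ) ^ k)
          = ∑' k : ℕ, p 0 k * (m : ℝ) ^ k →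
      0 < p 0 0 →
      ∀ s : ℝ, 0 < s → s < (m : ℝ) → s ≠ 1 →
        Tendsto
          (fun n : ℕ =>
            ((∑' k : ℕ, p n k * s ^ k) - 1) /
              (4 * (m : ℝ) / (((m : ℝ) - 1) ^ 2) * ((s - 1) / ((m : ℝ) - s)) / ((n : ℝ) ^ 2)))
          atTop (𝓝 1)) := by
  intro H
  have hA0 : HasSum (fun k => P 0 k * (2 : ℝ) ^ k) (1 / 2 / Z) :=
    hs_congr (fun k => p0_mul_two k) (hasSum_b.div_const Z)
  have hB0 : HasSum (fun k : ℕ => (k : ℝ) * (P 0 k * (2 : ℝ) ^ k)) (1 / 2 / Z) := by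
    refine hs_congr (fun k => ?_) (hasSum_kb.div_const Z)
    rw [show P 0 k * (2 : ℝ) ^ k = b k / Z from p0_mul_two k]
    ring
  have hone : HasSum (fun k => P 0 k * (1 : ℝ) ^ k) 1 := by
    have h1 := ((summable_bs (r := 1 / 2) (by norm_num) (by norm_num)).hasSum).div_const Z
    have h2 : (∑' k : ℕ, b k * (1 / 2 : ℝ) ^ k) / Z = 1 := div_self Z_pos.ne'
    rw [h2] at h1
    refine hs_congr (fun k => ?_) h1
    exact p0_mul k 1
  have hhalf : HasSum (fun k => P 0 k * (1 / 2 : ℝ) ^ k) ((∑' k : ℕ, b k * (1 / 4 : ℝ) ^ k) / Z) := by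
    have h1 := ((summable_bs (r := 1 / 4) (by norm_num) (by norm_num)).hasSum).div_const Z
    refine hs_congr (fun k => ?_) h1
    rw [show P 0 k * (1 / 2 : ℝ) ^ k = _ from p0_mul k (1 / 2)]
    norm_num
  have hlim := H 2 le_rfl P p0_nonneg (by simpa using hone)
    (fun n k => rfl) (by simpa using hA0.summable) ?_ ?_ ?_ (1 / 2) (by norm_num) (by norm_num)
    (by norm_num)
  · refine main_contra (p := P) (fun n k => ?_) p0_nonneg hone hA0 hB0
      (c₀ := 1 / (4 * Z)) (by have := Z_pos; positivity) (fun K hK => ?_) hhalf ?_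
    · change (∑ x : Fin 2 → Fin (k + 2),
        if (∑ i, (x i : ℕ)) = k + 1 then ∏ i, P n (x i) else 0) +
          (if k = 0 then P n 0 ^ 2 else 0) = _
      rw [sum_fin_two]
    · have hZ := Z_pos
      obtain ⟨K, rfl⟩ : ∃ K', K = K' + 1 := ⟨K - 1, by omega⟩
      have h1 : S P 0 (K + 1) = (1 / 2 - 1 / (2 * ((K : ℝ) + 1) * (K + 2))) / Z := by
        unfold S
        rw [Finset.sum_congr rfl (fun k _ => (show P 0 k * (2 : ℝ) ^ k = b k / Z from p0_mul_two k)),
          ← Finset.sum_div, sum_b]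
      rw [h1]
      push_cast
      rw [← sub_div, div_le_div_iff₀ (by positivity) hZ]
      have hK0 : (0 : ℝ) ≤ K := Nat.cast_nonneg K
      have h2 : 1 / (4 * Z) * Z = 1 / 4 := by field_simp
      rw [h2]
      have h3 : (1 / 2 - (1 / 2 - 1 / (2 * ((K : ℝ) + 1) * (K + 2)))) * ((K : ℝ) + 1) ^ 2 =
          ((K : ℝ) + 1) / (2 * (K + 2)) := by
        field_simp
        ring
      rw [h3, le_div_iff₀ (by positivity)]
      linarith
    · have h1 := hlim.const_mul (8 / 3 : ℝ)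
      rw [mul_one] at h1
      refine h1.congr' ?_
      filter_upwards [eventually_ge_atTop 1] with n hn
      have : (n : ℝ) ≠ 0 := by positivity
      push_cast
      field_simp
      ring
  · have := hB0.summable
    refine this.congr (fun k => ?_)
    push_cast
    ring
  · have h1 : ∑' k : ℕ, (k : ℝ) * P 0 k * ((2 : ℕ) : ℝ) ^ k = 1 / 2 / Z := by
      refine (hs_congr (fun k => ?_) hB0).tsum_eq
      push_cast
      ring
    have h2 : ∑' k : ℕ, P 0 k * ((2 : ℕ) : ℝ) ^ k = 1 / 2 / Z := by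
      refine (hs_congr (fun k => ?_) hA0).tsum_eq
      push_cast
      ring
    rw [h1, h2]
    push_cast
    ring
  · change 0 < p0 0
    unfold p0
    exact div_pos (mul_pos (b_pos 0) (by positivity)) Z_pos

end Pool.Agent.S19444
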